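import Pool.Agent.helper55.EV.Main

set_option autoImplicit false

/-!
# LRA-CPR: free products
-/

namespace Pool.Agent.helper55.LR

open Pool.Agent.helper55.EV
open Pool.Agent.helper34.FJ2 Pool.Agent.helper34.FJ3

section CPR

variable (G H : Type) [Group G] [Group H]

/-- the three subgroups of the free product -/
def CPR_A : Fin 3 → Subgroup (Monoid.Coprod G H) :=
  ![(Monoid.Coprod.inl : G →* Monoid.Coprod G H).range,
    (Monoid.Coprod.inr : H →* Monoid.Coprod G H).range, ⊥]

theorem CPR_sc : SimplyConnected (tog (CPR_A G H)) := by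
  apply tog_sc
  · rw [eq_top_iff, ← Monoid.Coprod.range_inl_sup_range_inr]
    apply sup_le
    · intro x hx
      exact Subgroup.subset_closure ⟨0, hx⟩
    · intro x hx
      exact Subgroup.subset_closure ⟨1, hx⟩
  · intro K _ f hf
    let f0 : (Monoid.Coprod.inl : G →* Monoid.Coprod G H).range →* K := f 0
    let f1 : (Monoid.Coprod.inr : H →* Monoid.Coprod G H).range →* K := f 1
    refine ⟨Monoid.Coprod.lift (f0.comp (Monoid.Coprod.inl : G →* Monoid.Coprod G H).rangeRestrict)
      (f1.comp (Monoid.Coprod.inr : H →* Monoid.Coprod G H).rangeRestrict), ?_⟩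
    intro t
    fin_cases t
    · rintro ⟨x, hx⟩
      obtain ⟨y, rfl⟩ := hx
      exact Monoid.Coprod.lift_apply_inl _ _ y
    · rintro ⟨x, hx⟩
      obtain ⟨y, rfl⟩ := hx
      exact Monoid.Coprod.lift_apply_inr _ _ y
    · rintro ⟨x, hx⟩
      have hx1 : x = 1 := hx
      subst hx1
      exact (map_one _).trans (map_one (f 2)).symm

theorem CPR_inf {x : Monoid.Coprod G H} {t t' : Fin 3} (ht : t ≠ t') (h : x ∈ CPR_A G H t)
    (h' : x ∈ CPR_A G H t') : x = 1 := by
  have key : x ∈ CPR_A G H 0 → x ∈ CPR_A G H 1 → x = 1 := by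
    rintro ⟨y, rfl⟩ ⟨z, hz⟩
    have h1 : Monoid.Coprod.fst ((Monoid.Coprod.inr : H →* Monoid.Coprod G H) z) =
        Monoid.Coprod.fst ((Monoid.Coprod.inl : G →* Monoid.Coprod G H) y) := congrArg _ hz
    rw [Monoid.Coprod.fst_apply_inr, Monoid.Coprod.fst_apply_inl] at h1
    rw [← h1, map_one]
  have k2 : x ∈ CPR_A G H 2 → x = 1 := fun h => h
  fin_cases t <;> fin_cases t'
  · exact absurd rfl ht
  · exact key h h'
  · exact k2 h'
  · exact key h' h
  · exact absurd rfl ht
  · exact k2 h'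
  · exact k2 h
  · exact k2 h
  · exact absurd rfl ht

theorem CPR_G8 (A B : Subgroup (Monoid.Coprod G H)) (hA : ∀ x ∈ A, x = 1) : G8 A B := by
  constructor
  · intro a₁ h1 b₁ _ a₂ _ b₂ _ _
    left
    rw [hA a₁ h1]
    exact B.one_mem
  · intro a₁ h1 b₁ _ a₂ _ b₂ _ a₃ _ b₃ _ _
    left
    rw [hA a₁ h1]
    exact B.one_mem

theorem CPR_npc : NPC (tog (CPR_A G H)) (tlen (CPR_A G H)) :=
  tog_npc _ (CPR_G8 G H _ _ fun _ hx => CPR_inf G H (by decide) hx.1 hx.2)
    (CPR_G8 G H _ _ fun _ hx => CPR_inf G H (by decide) hx.1 hx.2)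

end CPR

/-- Free products are in the class. Let `K = G * H`, `A 0 = range inl`, `A 1 = range inr`, `A 2 = ⊥`
(`![…]`). The complex `tog A` is simply connected by `tog_sc` (the closure contains both ranges; a
family of compatible homomorphisms on the `A t` defines a homomorphism on the free product,
`Monoid.Coprod.lift`), and non-positively curved by `tog_npc`: the groups `A 0 ⊓ A 1`, … are trivial
(an element of `range inl ⊓ range inr` is killed by `Monoid.Coprod.fst` and it is determined by it),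
so both `G8` hypotheses hold, as all elements are `1`. Apply `P2s` as in `even_fin` (`EV/Main.lean`):
for a simplex `s` with a vertex `tv A t g` (`simp_ty`) the homomorphism `Monoid.Coprod.fst` (`t = 0`),
`snd` (`t = 1`), or any (`t = 2`) is injective on the conjugate of `A t`. -/
theorem coprod_P {P : ∀ (G : Type) [Group G], Prop} (hP : Closed P) (G H : Type) [Group G]
    [Group H] (h1 : P G) (h2 : P H) : P (Monoid.Coprod G H) := by
  classical
  refine P2s hP (tog (CPR_A G H)) (tlen (CPR_A G H)) (CPR_sc G H) (CPR_npc G H) (tog_acts _) ?_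
  intro s hs
  obtain ⟨v, hv⟩ := hs.nonempty
  obtain ⟨t, x⟩ := v
  obtain ⟨g, rfl⟩ := QuotientGroup.mk_surjective x
  have main : ∀ h : Monoid.Coprod G H, (h • ·) '' s = s → g⁻¹ * (h * g) ∈ CPR_A G H t := by
    intro h hhs
    have h4 : h • tv (CPR_A G H) t g ∈ s := by
      rw [← hhs]
      exact ⟨_, hv, rfl⟩
    have h5 : tv (CPR_A G H) t (h * g) = tv (CPR_A G H) t g := simp_ty _ hs h4 hv rfl
    have h6 : ((h * g : Monoid.Coprod G H) : Monoid.Coprod G H ⧸ CPR_A G H t) =
        (g : Monoid.Coprod G H ⧸ CPR_A G H t) :=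
      eq_of_heq (Sigma.mk.inj_iff.1 h5).2
    exact QuotientGroup.eq.1 h6.symm
  have fin : ∀ h : Monoid.Coprod G H, g⁻¹ * (h * g) = 1 → h = 1 := by
    intro h hh
    have h10 : h = g * (g⁻¹ * (h * g)) * g⁻¹ := by group
    rw [h10, hh]
    group
  have conj : ∀ {Q : Type} [Group Q] (π : Monoid.Coprod G H →* Q) (h : Monoid.Coprod G H),
      π h = 1 → π (g⁻¹ * (h * g)) = 1 := by
    intro Q _ π h hh
    rw [map_mul, map_mul, hh, one_mul, ← map_mul, inv_mul_cancel, map_one]
  fin_cases t
  · refine ⟨G, inferInstance, Monoid.Coprod.fst, h1, ?_⟩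
    intro h hhs hh
    obtain ⟨y, hy⟩ := main h hhs
    have h7 := conj Monoid.Coprod.fst h hh
    rw [← hy, Monoid.Coprod.fst_apply_inl] at h7
    refine fin h ?_
    rw [← hy, h7, map_one]
  · refine ⟨H, inferInstance, Monoid.Coprod.snd, h2, ?_⟩
    intro h hhs hh
    obtain ⟨y, hy⟩ := main h hhs
    have h7 := conj Monoid.Coprod.snd h hh
    rw [← hy, Monoid.Coprod.snd_apply_inr] at h7
    refine fin h ?_
    rw [← hy, h7, map_one]
  · refine ⟨G, inferInstance, Monoid.Coprod.fst, h1, ?_⟩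
    intro h hhs _
    exact fin h (main h hhs)

end Pool.Agent.helper55.LR
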