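import Pool.Agent.helper55.EV.Alg2
import Pool.Agent.helper50.LT.GLdir
import Pool.Agent.helper52.Cox.Root

set_option autoImplicit false

/-!
# LRA-CXG: Coxeter groups are linear over number fields
-/

namespace Pool.Agent.helper55.LR

open Pool.Agent.helper34.FJ3

theorem CXG_kc_integral (m : ℕ) : IsIntegral ℚ (CxA.kc m) := by
  have h := Real.isIntegral_two_mul_cos_rat_mul_pi (1 / (m : ℚ))
  have e : (2 * Real.cos (((1 / (m : ℚ) : ℚ) : ℝ) * Real.pi)) = CxA.kc m := by
    unfold CxA.kc
    congr 2
    push_cast
    ring
  rw [e] at h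
  exact h.tower_top

section

variable {S : Type} [Fintype S] [DecidableEq S] (M : CoxeterMatrix S)

/-- the field generated by the numbers `2 cos (π / m_st)` -/
noncomputable def CXG_K : IntermediateField ℚ ℝ :=
  IntermediateField.adjoin ℚ (Set.range fun p : S × S => CxA.Kre M p.1 p.2)

theorem CXG_mem (s t : S) : CxA.Kre M s t ∈ CXG_K M :=
  IntermediateField.subset_adjoin ℚ _ ⟨(s, t), rfl⟩

theorem CXG_finite : FiniteDimensional ℚ (CXG_K M) := by
  have : Finite (Set.range fun p : S × S => CxA.Kre M p.1 p.2) := Set.finite_range _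
  apply IntermediateField.finiteDimensional_adjoin
  rintro x ⟨p, rfl⟩
  exact CXG_kc_integral _

theorem CXG_numberField : NumberField (CXG_K M) where
  to_charZero := inferInstance
  to_finiteDimensional := by
    have h := CXG_finite M
    convert h

/-- the matrix of a simple reflection -/
noncomputable def CXG_A (p : S) : Matrix S S (CXG_K M) :=
  Matrix.of fun i t => (if i = t then 1 else 0) + (if i = p then ⟨CxA.Kre M p t, CXG_mem M p t⟩ else 0)

/-- extension of scalars -/
noncomputable def CXG_phi : Matrix S S (CXG_K M) →+* Matrix S S ℝ :=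
  (algebraMap (CXG_K M) ℝ).mapMatrix

theorem CXG_phi_inj : Function.Injective (CXG_phi M) := by
  intro A B h
  ext i j
  have h1 := congrFun (congrFun h i) j
  exact h1

theorem CXG_phi_A (p : S) : CXG_phi M (CXG_A M p) = LinearMap.toMatrixAlgEquiv' (CxA.sig M p) := by
  ext i t
  have h := congrFun (CxA.sig_al (M := M) p t) i
  rw [LinearMap.toMatrixAlgEquiv'_apply]
  show ((algebraMap (CXG_K M) ℝ) (CXG_A M p i t)) = _
  have e : (Pi.single t 1 : S → ℝ) = CxA.al ℝ t := rfl
  have e2 : (fun j' => if j' = t then (1 : ℝ) else 0) = CxA.al ℝ t := by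
    ext j
    simp [CxA.al, Pi.single_apply]
  first
    | rw [e2, h]
    | rw [e, h]
  simp only [CXG_A, Matrix.of_apply, map_add, Pi.add_apply, Pi.smul_apply, CxA.al, Pi.single_apply,
    smul_eq_mul]
  congr 1
  · split_ifs <;> simp
  · split_ifs
    · simp
    · simp

theorem CXG_lift : M.IsLiftable (CXG_A M) := by
  intro i j
  apply CXG_phi_inj M
  rw [map_pow, map_mul, CXG_phi_A, CXG_phi_A, ← map_mul, ← map_pow, CxA.sig_liftable i j, map_one,
    map_one]

/-- the representation over the number field -/
noncomputable def CXG_r : M.Group →* Matrix S S (CXG_K M) :=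
  M.toCoxeterSystem.lift ⟨CXG_A M, CXG_lift M⟩

theorem CXG_phi_r (g : M.Group) :
    CXG_phi M (CXG_r M g) = LinearMap.toMatrixAlgEquiv' (CxA.rho M.toCoxeterSystem g) := by
  have h : (CXG_phi M : Matrix S S (CXG_K M) →* Matrix S S ℝ).comp (CXG_r M) =
      ((LinearMap.toMatrixAlgEquiv' : _ ≃ₐ[ℝ] Matrix S S ℝ) : _ →* Matrix S S ℝ).comp
        (CxA.rho M.toCoxeterSystem) := by
    apply M.toCoxeterSystem.ext_simple
    intro s
    show CXG_phi M (CXG_r M (M.toCoxeterSystem.simple s)) =
      LinearMap.toMatrixAlgEquiv' (CxA.rho M.toCoxeterSystem (M.toCoxeterSystem.simple s))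
    rw [CxA.rho_simple, ← CXG_phi_A]
    congr 1
    exact M.toCoxeterSystem.lift_apply_simple (CXG_lift M) s
  exact DFunLike.congr_fun h g

theorem CXG_r_inj : Function.Injective (CXG_r M) := by
  intro g h e
  have h1 := CXG_phi_r M g
  rw [e, CXG_phi_r] at h1
  exact (CxA.rho_faithful M.toCoxeterSystem (LinearMap.toMatrixAlgEquiv'.injective h1)).symm

end

/-- Coxeter groups of finite rank are in the class. The geometric representation `rho` of helper52
(`Pool.Agent.helper52.Cox.Geom`, for `M.toCoxeterSystem`) is faithful: if `rho w = 1` and `w ≠ 1` then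
`w` has a right descent `s` and `rho w α_s = α_s` would be `≤ 0` (`rho_nonpos`, `al_ne_zero`). The
matrices of the simple reflections have entries in the number field `K = ℚ(2 cos (π / m_st))` (a
subfield of `ℝ` generated by finitely many algebraic numbers; `IntermediateField.adjoin`,
`IntermediateField.finiteDimensional_adjoin`, `NumberField`). So the simple reflections lift to
`GL_S(K)`, the relations hold there since `GL_S(K) → GL_S(ℝ)` (or the ring of matrices) is injective,
and `M.toCoxeterSystem.lift` gives an injective homomorphism `M.Group →* GL_S(K)`. Transport by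
closure under subgroups (`hP.inj` for injective homomorphisms). -/
theorem cox_P {P : ∀ (G : Type) [Group G], Prop} (hP : Closed P)
    (hK : ∀ (n K : Type) [Fintype n] [DecidableEq n] [Field K] [NumberField K],
      P (Matrix.GeneralLinearGroup n K)) (S : Type) [Finite S] (M : CoxeterMatrix S) :
    P M.Group := by
  classical
  have : Fintype S := Fintype.ofFinite S
  have := CXG_numberField M
  refine hP.inj (CXG_r M).toHomUnits ?_ (hK S (CXG_K M))
  intro g h e
  have h2 := congrArg Units.val e
  rw [MonoidHom.coe_toHomUnits, MonoidHom.coe_toHomUnits] at h2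
  exact CXG_r_inj M h2

end Pool.Agent.helper55.LR
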