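import Pool.Agent.helper55.LR.BDefs
import Pool.Agent.helper55.EV.Block2

set_option autoImplicit false

/-!
# LRA-BBS: alternating relations, commuting generators
-/

namespace Pool.Agent.helper55.LR

open Pool.Agent.helper55.EV
open Pool.Agent.helper34.FJ2 Pool.Agent.helper34.FJ3
open Pool.Agent.helper36.LT (Artin gen alt artinRels)
open Pool.Agent.helper46.FJ3 (restr mp mp_gen inc inc_gen inc_mp)

theorem BBS_comm {S : Type} (M : CoxeterMatrix S) (T : Set S)
    (h : ∀ s ∈ T, ∀ t, t ∉ T → M.M s t = 2) :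
    ∀ x ∈ sg M T, ∀ y ∈ sg M Tᶜ, x * y = y * x := by
  have h1 : ∀ s ∈ T, ∀ y ∈ sg M Tᶜ, gen M s * y = y * gen M s := by
    intro s hs y hy
    unfold sg at hy
    induction hy using Subgroup.closure_induction with
    | mem y hy =>
      obtain ⟨t, ht, rfl⟩ := hy
      have h5 := Pool.Agent.helper50.LT.gen_rel M s t
      rw [h s hs t ht] at h5
      simpa [alt] using h5
    | one => rw [mul_one, one_mul]
    | mul y z _ _ ihy ihz => rw [← mul_assoc, ihy, mul_assoc, ihz, mul_assoc]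
    | inv y _ ih =>
      have h4 : Commute (gen M s) y := ih
      exact h4.inv_right
  intro x hx y hy
  unfold sg at hx
  induction hx using Subgroup.closure_induction with
  | mem x hx =>
    obtain ⟨s, hs, rfl⟩ := hx
    exact h1 s hs y hy
  | one => rw [mul_one, one_mul]
  | mul x z _ _ ihx ihz => rw [mul_assoc, ihz, ← mul_assoc, ihx, mul_assoc]
  | inv x _ ih =>
    have h4 : Commute x y := ih
    exact h4.inv_left

theorem BBS_dec {S : Type} (M : CoxeterMatrix S) (T : Set S)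
    (h : ∀ s ∈ T, ∀ t, t ∉ T → M.M s t = 2) (hsat : Sat M T) (g : Artin M) :
    ∃ t ∈ sg M Tᶜ, g = retS M T hsat g * t := by
  have hg : g ∈ sg M Set.univ := by
    rw [sg_univ]
    exact Subgroup.mem_top _
  unfold sg at hg
  induction hg using Subgroup.closure_induction with
  | mem x hx =>
    obtain ⟨s, _, rfl⟩ := hx
    by_cases hs : s ∈ T
    · rw [retS_gen M hsat hs]
      exact ⟨1, one_mem _, (mul_one _).symm⟩
    · rw [retS_gen' M hsat hs]
      exact ⟨gen M s, gen_mem M hs, (one_mul _).symm⟩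
  | one =>
    rw [map_one]
    exact ⟨1, one_mem _, (one_mul _).symm⟩
  | mul x y _ _ ihx ihy =>
    obtain ⟨t, ht, h4⟩ := ihx
    obtain ⟨t', ht', h6⟩ := ihy
    rw [map_mul]
    refine ⟨t * t', mul_mem ht ht', ?_⟩
    have hcom := BBS_comm M T h _ (retS_mem' M hsat y) _ ht
    calc x * y = (retS M T hsat x * t) * (retS M T hsat y * t') := by rw [← h4, ← h6]
      _ = retS M T hsat x * (t * retS M T hsat y) * t' := by group
      _ = retS M T hsat x * (retS M T hsat y * t) * t' := by rw [hcom]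
      _ = _ := by group
  | inv x _ ih =>
    obtain ⟨t, ht, h4⟩ := ih
    rw [map_inv]
    refine ⟨t⁻¹, inv_mem ht, ?_⟩
    have hcom := BBS_comm M T h _ (inv_mem (retS_mem' M hsat x)) _ (inv_mem ht)
    calc x⁻¹ = (retS M T hsat x * t)⁻¹ := by rw [← h4]
      _ = t⁻¹ * (retS M T hsat x)⁻¹ := by group
      _ = _ := hcom.symm

/-- The generators outside `X ∪ Y` commute with `X` and `Y`. Compare the second half of the proof of
`base_G8` in `EV/Block2.lean`: the retraction `ρ = retS M (X ∪ Y)` kills the other generators (their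
labels are two, `Sat M (X ∪ Y)`); `a_i ∈ sg M Xᶜ` is `ρ a_i · t_i` with `ρ a_i ∈ sg M Y`,
`t_i ∈ sg M (X ∪ Y)ᶜ`; `a_i ∉ sg M Yᶜ` gives `ρ a_i ≠ 1`, so `ρ a_i ∉ sg M X` as
`sg M Y ⊓ sg M X = ⊥` (`sg_inf'`). The same for `b_i`. -/
theorem base_red {S : Type} [Finite S] (M : CoxeterMatrix S) (X Y : Set S) (hXY : Disjoint X Y)
    (h : ∀ s ∈ X ∪ Y, ∀ t, t ∉ X ∪ Y → M.M s t = 2) {k : ℕ}
    (ha : Alt (sg M Xᶜ) (sg M Yᶜ) k) : Alt (sg M Y) (sg M X) k := by
  obtain ⟨a, b, hab, hp⟩ := ha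
  have hsat : Sat M (X ∪ Y) := by
    intro s hs t ht
    rw [h s hs t ht]
    exact even_two
  have hbot : ∀ g, g ∈ sg M Y → g ∈ sg M X → g = 1 := by
    intro g h1 h2
    have h3 : g ∈ sg M Y ⊓ sg M X := ⟨h1, h2⟩
    rw [sg_inf'] at h3
    have h4 : (Y ∩ X : Set S) = ∅ := by
      rw [Set.inter_comm]
      exact Set.disjoint_iff_inter_eq_empty.mp hXY
    rw [h4, sg_empty] at h3
    exact Subgroup.mem_bot.1 h3
  have hY : ∀ g, g ∈ sg M Xᶜ → retS M (X ∪ Y) hsat g ∈ sg M Y := by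
    intro g hg
    refine sg_mono M ?_ (retS_mem M hsat hg)
    rintro s ⟨h1 | h1, h2⟩
    · exact absurd h1 h2
    · exact h1
  have hX : ∀ g, g ∈ sg M Yᶜ → retS M (X ∪ Y) hsat g ∈ sg M X := by
    intro g hg
    refine sg_mono M ?_ (retS_mem M hsat hg)
    rintro s ⟨h1 | h1, h2⟩
    · exact h1
    · exact absurd h1 h2
  have hker : ∀ g, retS M (X ∪ Y) hsat g = 1 → g ∈ sg M Xᶜ ∧ g ∈ sg M Yᶜ := by
    intro g hg
    obtain ⟨t, ht, he⟩ := BBS_dec M (X ∪ Y) h hsat g
    rw [hg, one_mul] at he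
    rw [he]
    exact ⟨sg_mono M (Set.compl_subset_compl.mpr Set.subset_union_left) ht,
      sg_mono M (Set.compl_subset_compl.mpr Set.subset_union_right) ht⟩
  refine ⟨fun i => retS M (X ∪ Y) hsat (a i), fun i => retS M (X ∪ Y) hsat (b i), ?_, ?_⟩
  · intro i hi
    obtain ⟨h1, h2, h3, h4⟩ := hab i hi
    refine ⟨hY _ h1, ?_, hX _ h3, ?_⟩
    · intro h5
      exact h2 (hker _ (hbot _ (hY _ h1) h5)).2
    · intro h5
      exact h4 (hker _ (hbot _ h5 (hX _ h3))).1
  · have h1 := congrArg (retS M (X ∪ Y) hsat) hp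
    rw [map_one, map_list_prod, List.map_map] at h1
    rw [← h1]
    congr 1
    apply List.map_congr_left
    intro i _
    exact (map_mul _ _ _).symm

end Pool.Agent.helper55.LR
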