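import Pool.Agent.helper55.LR.TDefs
import Pool.Agent.helper55.EV.Defs4
import Pool.Agent.helper55.EV.HDefs

set_option autoImplicit false

/-!
# LRB: definitions for Artin groups with blocks of generators
-/

namespace Pool.Agent.helper55.LR

open Pool.Agent.helper55.EV
open Pool.Agent.helper34.FJ2 Pool.Agent.helper34.FJ3
open Pool.Agent.helper36.LT (Artin gen alt artinRels)
open Pool.Agent.helper46.FJ3 (restr mp mp_gen inc inc_gen inc_mp)

/-- the labels between `X` and its complement are `∞` or at least four -/
def Cross4 {S : Type} (M : CoxeterMatrix S) (X : Set S) : Prop :=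
  ∀ s ∈ X, ∀ t, t ∉ X → M.M s t = 0 ∨ 4 ≤ M.M s t

/-- the lengths of the edges of the subdivided development `tog4`: right triangles with the right
angle at the type `3`, the angle `α` at the types `0` and `2`, the angle `π / 2 - α` at the type `1`,
and a hypotenuse of length `1` -/
noncomputable def alen4 {G : Type} [Group G] (H : Fin 4 → Subgroup G) (α : ℝ) (u v : TV4 H) : ℝ :=
  if u.1 = 3 ∨ v.1 = 3 then (if u.1 = 1 ∨ v.1 = 1 then Real.sin α else Real.cos α) else 1

/-- A locally reducible block structure: the blocks are the fibres of `b`.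
* `comm`: if one of the labels between two blocks is two then all of them are two;
* `big`: if one of the blocks has two elements then the other labels are at least four (so labels
  three are possible only between blocks with one element);
* `red`: three generators in different blocks are locally reducible. -/
structure BlkL {S ι : Type} (M : CoxeterMatrix S) (b : S → ι) : Prop where
  comm : ∀ s s' t : S, b s = b s' → b s ≠ b t → M.M s t = 2 → M.M s' t = 2
  big : ∀ s s' t : S, s ≠ s' → b s = b s' → b s ≠ b t → M.M s t = 2 ∨ 4 ≤ M.M s t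
  red : ∀ r s t : S, b r ≠ b s → b s ≠ b t → b r ≠ b t →
    (M.M r s = 2 ∧ M.M s t = 2) ∨ (M.M r s = 2 ∧ M.M r t = 2) ∨ (M.M s t = 2 ∧ M.M r t = 2) ∨
    (1 : ℚ) / (M.M r s : ℚ) + 1 / (M.M s t : ℚ) + 1 / (M.M r t : ℚ) ≤ 1

/-- the girth statement for blocks -/
def GrthB {S ι : Type} (M : CoxeterMatrix S) (b : S → ι) : Prop :=
  ∀ β γ : ι, β ≠ γ → (∃ s, b s = β) → (∃ t, b t = γ) →
    ∀ m : ℕ, (∀ s t, b s = β → b t = γ → m ≤ M.M s t) →
    ∀ k, 0 < k → Alt (sg M {s | b s ≠ β}) (sg M {s | b s ≠ γ}) k → m ≤ k

end Pool.Agent.helper55.LR
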