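import Pool.Agent.helper55.LR.Tw
import Pool.Agent.helper34.FJ3.SdAsm

set_option autoImplicit false

/-!
# LRA-TRW: Artin groups which act on a 2-complex with parabolic stabilisers
-/

namespace Pool.Agent.helper55.LR

open Pool.Agent.helper55.EV
open Pool.Agent.helper34.FJ2 Pool.Agent.helper34.FJ3
open Pool.Agent.helper36.LT (Artin gen alt artinRels)
open Pool.Agent.helper46.FJ3 (restr mp mp_gen inc inc_gen inc_mp)

theorem TRW_relIndex_zpowers {G : Type} [Group G] (x : G) {k : ℕ} (hk : 0 < k) :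
    (Subgroup.zpowers (x ^ k)).relIndex (Subgroup.zpowers x) ≠ 0 := by
  have hfin : Finite (Subgroup.zpowers x ⧸ (Subgroup.zpowers (x ^ k)).subgroupOf
      (Subgroup.zpowers x)) := by
    refine Finite.of_surjective (fun r : Fin k => QuotientGroup.mk
      (⟨x ^ (r : ℕ), Subgroup.npow_mem_zpowers x r⟩ : Subgroup.zpowers x)) ?_
    intro q
    obtain ⟨⟨y, hy⟩, rfl⟩ := QuotientGroup.mk_surjective q
    obtain ⟨n, rfl⟩ := Subgroup.mem_zpowers_iff.1 hy
    have hk' : (0 : ℤ) < k := by exact_mod_cast hk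
    have h1 := Int.emod_nonneg n hk'.ne'
    have h2 := Int.emod_lt_of_pos n hk'
    refine ⟨⟨(n % k).toNat, by omega⟩, ?_⟩
    rw [QuotientGroup.eq, Subgroup.mem_subgroupOf]
    refine Subgroup.mem_zpowers_iff.2 ⟨n / k, ?_⟩
    change (x ^ k) ^ (n / k) = (x ^ (n % k).toNat)⁻¹ * x ^ n
    have h3 : x ^ (n % k).toNat = x ^ (n % k) := by
      rw [← zpow_natCast, Int.toNat_of_nonneg h1]
    rw [h3, ← zpow_neg, ← zpow_add, ← zpow_natCast, ← zpow_mul]
    congr 1
    have := Int.emod_add_mul_ediv n k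
    linarith
  exact Subgroup.index_ne_zero_of_finite

theorem TRW_mem_sg {S : Type} (M : CoxeterMatrix S) [DecidableEq S] (T : Finset S) {g : Artin M}
    (hg : g ∈ sg M (T : Set S)) : ∃ a : Artin (restr M T), inc M T a = g := by
  have h : sg M (T : Set S) ≤ (inc M T).range := by
    refine (Subgroup.closure_le _).2 ?_
    rintro _ ⟨s, hs, rfl⟩
    exact ⟨gen (restr M T) ⟨s, hs⟩, inc_gen M T s hs⟩
  exact h hg

theorem TRW_conj {S : Type} [Fintype S] [DecidableEq S] (M : CoxeterMatrix S) (T : Finset S)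
    (h g : Artin M) (hg : h⁻¹ * g * h ∈ sg M (T : Set S)) (h1 : cx M g = 1)
    (h2 : co M T (rp M T (cx M h)⁻¹) g = 1) : g = 1 := by
  obtain ⟨a, ha⟩ := TRW_mem_sg M T hg
  have h3 : st M T (e1 M T) h⁻¹ = rp M T (cx M h)⁻¹ := by
    rw [st_eq, map_inv]
    congr 1
    exact one_mul _
  have h4 : a = 1 := by
    rw [← co_inc M T a, ha, mul_assoc, co_mul, h3, co_mul, st_ker M T _ h1, h2, one_mul, ← h3,
      ← co_mul, inv_mul_cancel, co_one]
  rw [h4, map_one] at ha
  have h5 : g = h * (h⁻¹ * g * h) * h⁻¹ := by group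
  rw [h5, ← ha, mul_one, mul_inv_cancel]

/-- Suppose that the Artin group acts by isometries on a simply connected non-positively curved
2-complex in such a way that every simplex has a vertex `v` such that the stabiliser of the
simplex fixes `v` and is contained in `h A_T h⁻¹`, where `A_T` is in the class. Then the Artin group
is in the class.

Proof. Apply the extension property `hP.cl.ext` to `cx M : Artin M → M.Group`, `M.Group` is in the
class by `hP.cox`. Let `V` be a virtually cyclic subgroup of `M.Group`, `w ∈ V` with `⟨w⟩` of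
finite index in `V`, and `k` as in `tw` for `w`. Then `⟨w ^ k⟩` has finite index in `V`, so the
preimage `G` of `⟨w ^ k⟩` has finite index in the preimage of `V`, and by `hP.cl.finIndex` it is
enough that `G` is in the class (a relative index argument; transport along
`Subgroup.subgroupOf` with `hP.cl.inj`-type lemmas, or `Closed.sub`). Use theorem `P2s` (SdAsm) for
the action of `G`. Let `s` be a simplex, `T`, `h` as in `hst`. Let `Q`, `φ` be as in `tw` for
`X = T`, `u = (cx M h)⁻¹`. If `g ∈ G` stabilises `s` and `φ g = 1` then `cx M g = 1` and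
`co M T (rp M T u) g = 1`, and `h⁻¹ g h = inc M T a` for some `a ∈ A_T`. By `co_inc`,
`a = co M T (e1 M T) (h⁻¹ g h)`. Compute this with `co_mul`: the state `e1` followed by `h⁻¹` is
`rp M T u` (`st_eq`), `g` does not change it (`st_ker`), and `co M T (e1 M T) h⁻¹ *
co M T (rp M T u) h = co M T (e1 M T) 1 = 1`; so `a` is conjugate to `co M T (rp M T u) g = 1` and
`g = 1`. -/
theorem transW {P : ∀ (G : Type) [Group G], Prop} (hP : Cls P) {S : Type} [Fintype S]
    [DecidableEq S] (M : CoxeterMatrix S) {V : Type} [MulAction (Artin M) V] (Y : Complex2 V)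
    (len : V → V → ℝ) (hs : SimplyConnected Y) (hn : NPC Y len) (ha : ActsIso (Artin M) Y len)
    (hst : ∀ s : Set V, IsSimp Y s → ∃ (T : Finset S) (h : Artin M), P (Artin (restr M T)) ∧
      ∀ g : Artin M, (g • ·) '' s = s → h⁻¹ * g * h ∈ sg M (T : Set S)) : P (Artin M) := by
  refine hP.cl.ext (Artin M) M.Group (cx M) ?_ (hP.cox S M)
  rintro C ⟨w, hw, hwC⟩
  obtain ⟨k, hk, htw⟩ := tw hP M w
  have hle : Subgroup.zpowers (w ^ k) ≤ C := by
    rw [Subgroup.zpowers_le]
    exact pow_mem hw k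
  have hidx : ((Subgroup.zpowers (w ^ k)).comap (cx M)).relIndex (C.comap (cx M)) ≠ 0 := by
    have h1 : (Subgroup.zpowers (w ^ k)).relIndex C ≠ 0 :=
      Subgroup.relIndex_ne_zero_trans (TRW_relIndex_zpowers w hk) hwC
    rw [Subgroup.relIndex_comap]
    intro h2
    exact h1 (Subgroup.relIndex_eq_zero_of_le_right (Subgroup.map_comap_le _ _) h2)
  have hG : P ((Subgroup.zpowers (w ^ k)).comap (cx M)) := by
    refine P2s hP.cl (G := (Subgroup.zpowers (w ^ k)).comap (cx M)) Y len hs hn
      ⟨fun g => ha.edge g.1, fun g => ha.tri g.1, fun g => ha.len g.1⟩ ?_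
    intro s hsimp
    obtain ⟨T, h, hPT, hT⟩ := hst s hsimp
    obtain ⟨Q, _, φ, hQ, hφ⟩ := htw T (cx M h)⁻¹ hPT
    refine ⟨Q, inferInstance, φ, hQ, ?_⟩
    intro g hg hg1
    obtain ⟨h1, h2⟩ := hφ g hg1
    exact Subtype.ext (TRW_conj M T h g.1 (hT g.1 hg) h1 h2)
  refine hP.cl.finIndex _ (((Subgroup.zpowers (w ^ k)).comap (cx M)).subgroupOf (C.comap (cx M)))
    hidx ?_
  have hle' : (Subgroup.zpowers (w ^ k)).comap (cx M) ≤ C.comap (cx M) := Subgroup.comap_mono hle
  exact hP.inh.of_mulEquiv (Subgroup.subgroupOfEquivOfLe hle').symm hG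

end Pool.Agent.helper55.LR
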