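import Pool.Agent.helper55.LR.HNpc4
import Pool.Agent.helper55.LR.TransW
import Pool.Agent.helper55.EV.PairP
import Pool.Agent.helper55.EV.Main

set_option autoImplicit false

/-!
# LRA-BPP: the Artin group of the union of two sets of generators
-/

namespace Pool.Agent.helper55.LR

open Pool.Agent.helper55.EV
open Pool.Agent.helper34.FJ2 Pool.Agent.helper34.FJ3
open Pool.Agent.helper36.LT (Artin gen alt artinRels)
open Pool.Agent.helper46.FJ3 (restr mp mp_gen inc inc_gen inc_mp)

variable {P : ∀ (G : Type) [Group G], Prop}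

/-- Artin groups of at most two generators are in the class -/
theorem BPP_two (hP : Cls P) {S : Type} [DecidableEq S] (M : CoxeterMatrix S) (T : Finset S)
    (hT : T.card ≤ 2) : P (Artin (restr M T)) := by
  refine two_gen hP.cl hP.gl _ ?_
  intro r s t h1 h2 h3
  have h4 : ({r, s, t} : Finset T).card = 3 := Finset.card_eq_three.2 ⟨r, s, t, h1, h3, h2, rfl⟩
  have h5 := Finset.card_le_univ ({r, s, t} : Finset T)
  rw [Fintype.card_coe] at h5
  omega

/-- As `pair_P` in `EV/PairP.lean`, with `transW` instead of `P2s` and the retractions: `transW` for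
`Y = hyb M X`, `hyb_sc`, `hyb_npc4`, `hyb_acts`. A simplex `s` has a vertex `g ⟨T⟩` (`hv M X T g`), and
by `hyb_ty` an element `h` with `h s = s` fixes it, so `g⁻¹ h g ∈ sg M T.supp`; `T.supp` is `∅`, `{a}`,
`{x, y}`, `X` or `Y`, and the Artin groups of the first three are in the class by `two_gen`
(`EV/Main.lean`, with `hP.cl` and `hP.gl`). -/
theorem pair_P4 (hP : Cls P) {S : Type} [Finite S] (M : CoxeterMatrix S) (X Y : Finset S)
    (hY : (Y : Set S) = (X : Set S)ᶜ) (hX : Cross4 M (X : Set S)) (h1 : P (Artin (restr M X)))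
    (h2 : P (Artin (restr M Y))) : P (Artin M) := by
  classical
  have : Fintype S := Fintype.ofFinite S
  have det : ∀ T : HT M (X : Set S), ∃ T' : Finset S, P (Artin (restr M T')) ∧
      T.supp = (T' : Set S) := by
    intro T
    cases T with
    | e => exact ⟨∅, BPP_two hP M _ (by simp), by simp [HT.supp]⟩
    | s a => exact ⟨{a}, BPP_two hP M _ (by simp), by simp [HT.supp]⟩
    | p x y hx hy hm => exact ⟨{x, y}, BPP_two hP M _ Finset.card_le_two, by simp [HT.supp]⟩
    | b c =>
      cases c with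
      | true => exact ⟨X, h1, rfl⟩
      | false => exact ⟨Y, h2, hY.symm⟩
  refine transW hP M (hyb M (X : Set S)) (hlen M (X : Set S)) (hyb_sc M _) (hyb_npc4 M _ hX)
    (hyb_acts M _) ?_
  intro s hs
  obtain ⟨v, hv⟩ := hs.nonempty
  obtain ⟨t, x⟩ := v
  obtain ⟨g, rfl⟩ := QuotientGroup.mk_surjective x
  obtain ⟨T', hT', hsupp⟩ := det t
  refine ⟨T', g, hT', ?_⟩
  intro h hhs
  have h4 : h • Pool.Agent.helper55.EV.hv M (X : Set S) t g ∈ s := by
    rw [← hhs]
    exact ⟨_, hv, rfl⟩
  have h5 : Pool.Agent.helper55.EV.hv M (X : Set S) t (h * g) =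
      Pool.Agent.helper55.EV.hv M (X : Set S) t g := hyb_ty _ _ hs h4 hv rfl
  have h6 : ((h * g : Artin M) : Artin M ⧸ sg M t.supp) = (g : Artin M ⧸ sg M t.supp) :=
    eq_of_heq (Sigma.mk.inj_iff.1 h5).2
  have h7 : g⁻¹ * (h * g) ∈ sg M t.supp := QuotientGroup.eq.1 h6.symm
  rw [← hsupp, mul_assoc]
  exact h7

end Pool.Agent.helper55.LR
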