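import Pool.Agent.helper55.LR.BDefs
import Pool.Agent.helper55.EV.Block2

set_option autoImplicit false

/-!
# LRA-PRD: products
-/

namespace Pool.Agent.helper55.LR

open Pool.Agent.helper55.EV
open Pool.Agent.helper34.FJ2 Pool.Agent.helper34.FJ3
open Pool.Agent.helper36.LT (Artin gen alt artinRels)
open Pool.Agent.helper46.FJ3 (restr mp mp_gen inc inc_gen inc_mp)
open Pool.Agent.helper50.LT (gen_rel artin_hom_ext)

/-- If `F` commutes with its complement `F'` then the Artin group embeds in the product of the Artin
groups of `F` and `F'`. See the end of the proof of `blkE_fin` in `EV/Block2.lean` (the retractions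
`rtS`; `Sat` holds as `2` is even), `hP.inj`, `hP.prod`. -/
theorem prod_dec {P : ∀ (G : Type) [Group G], Prop} (hP : Closed P) {S : Type} [Finite S]
    (M : CoxeterMatrix S) (F F' : Finset S) (hF : ∀ s, s ∈ F' ↔ s ∉ F)
    (h : ∀ s ∈ F, ∀ t, t ∉ F → M.M s t = 2) (h1 : P (Artin (restr M F)))
    (h2 : P (Artin (restr M F'))) : P (Artin M) := by
  classical
  have hsat : Sat M (F : Set S) := by
    intro x hx y hy
    rw [h x (Finset.mem_coe.1 hx) y (fun e => hy (Finset.mem_coe.2 e))]
    exact even_two
  have hsat' : Sat M (F' : Set S) := by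
    intro x hx y hy
    have hx' : x ∉ F := (hF x).1 (Finset.mem_coe.1 hx)
    have hy' : y ∈ F := by
      by_contra e
      exact hy (Finset.mem_coe.2 ((hF y).2 e))
    have h3 : M.M x y = M.M y x := msymm M x y
    rw [h3, h y hy' x hx']
    exact even_two
  have hcom : ∀ x ∈ sg M (F : Set S), ∀ y ∈ sg M (F' : Set S), x * y = y * x := by
    intro x hx y hy
    have h3 : ∀ a ∈ F, ∀ d, d ∉ F → gen M a * gen M d = gen M d * gen M a := by
      intro a ha d hd
      have h4 := gen_rel M a d
      rw [h a ha d hd] at h4
      simpa [alt] using h4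
    have h4 : ∀ a ∈ F, gen M a * y = y * gen M a := by
      intro a ha
      unfold sg at hy
      induction hy using Subgroup.closure_induction with
      | mem y hy =>
        obtain ⟨d, hd, rfl⟩ := hy
        exact h3 a ha d ((hF d).1 (Finset.mem_coe.1 hd))
      | one => rw [mul_one, one_mul]
      | mul y z _ _ ihy ihz => rw [← mul_assoc, ihy, mul_assoc, ihz, mul_assoc]
      | inv y _ ih =>
        have h5 : Commute (gen M a) y := ih
        exact h5.inv_right
    unfold sg at hx
    induction hx using Subgroup.closure_induction with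
    | mem x hx =>
      obtain ⟨a, ha, rfl⟩ := hx
      exact h4 a (Finset.mem_coe.1 ha)
    | one => rw [mul_one, one_mul]
    | mul x z _ _ ihx ihz => rw [mul_assoc, ihz, ← mul_assoc, ihx, mul_assoc]
    | inv x _ ih =>
      have h5 : Commute x y := ih
      exact h5.inv_left
  have hdec : ∀ g : Artin M, retS M (F : Set S) hsat g * retS M (F' : Set S) hsat' g = g := by
    let f : Artin M →* Artin M :=
      { toFun := fun g => retS M (F : Set S) hsat g * retS M (F' : Set S) hsat' g
        map_one' := by simp
        map_mul' := by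
          intro x y
          have h3 := hcom _ (retS_mem' M hsat y) _ (retS_mem' M hsat' x)
          simp only [map_mul]
          calc _ = retS M (F : Set S) hsat x * (retS M (F : Set S) hsat y *
                retS M (F' : Set S) hsat' x) * retS M (F' : Set S) hsat' y := by group
            _ = _ := by rw [h3]; group }
    have hf : f = MonoidHom.id _ := by
      apply artin_hom_ext
      intro r
      show retS M (F : Set S) hsat (gen M r) * retS M (F' : Set S) hsat' (gen M r) = gen M r
      by_cases hr : r ∈ F
      · have hr' : r ∉ (F' : Set S) := fun e => (hF r).1 (Finset.mem_coe.1 e) hr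
        rw [retS_gen M hsat (Finset.mem_coe.2 hr), retS_gen' M hsat' hr', mul_one]
      · have hr' : r ∈ (F' : Set S) := Finset.mem_coe.2 ((hF r).2 hr)
        have hr'' : r ∉ (F : Set S) := fun e => hr (Finset.mem_coe.1 e)
        rw [retS_gen' M hsat hr'', retS_gen M hsat' hr', one_mul]
    intro g
    exact DFunLike.congr_fun hf g
  refine hP.inj ((rtS M F hsat).prod (rtS M F' hsat')) ?_ (hP.prod _ _ h1 h2)
  rw [injective_iff_map_eq_one]
  intro g hg
  have h3 : rtS M F hsat g = 1 := congrArg Prod.fst hg
  have h4 : rtS M F' hsat' g = 1 := congrArg Prod.snd hg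
  rw [← hdec g, ← incS_rt_ret M F hsat, ← incS_rt_ret M F' hsat', h3, h4, map_one, map_one,
    one_mul]

end Pool.Agent.helper55.LR
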