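import Pool.Agent.helper55.LR.BGrth
import Pool.Agent.helper55.LR.BPairP
import Pool.Agent.helper55.LR.Prd

set_option autoImplicit false

/-!
# Artin groups with a locally reducible block structure and without the label `∞`
-/

namespace Pool.Agent.helper55.LR

open Pool.Agent.helper55.EV
open Pool.Agent.helper34.FJ2 Pool.Agent.helper34.FJ3
open Pool.Agent.helper36.LT (Artin gen alt artinRels)
open Pool.Agent.helper46.FJ3 (restr mp mp_gen inc inc_gen inc_mp)

variable {P : ∀ (G : Type) [Group G], Prop}

/-- the action on the development of a triangle of groups -/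
theorem tri_P (hP : Cls P) {S ι : Type} [Finite S] (M : CoxeterMatrix S) (b : S → ι)
    (c : Fin 3 → ι) (hc : Function.Injective c) (hne : ∀ t, ∃ s, b s = c t) (α : Fin 3 → ℝ)
    (hn : NPC (tog (HB M b c)) (alen (HB M b c) α))
    (h : ∀ F : Finset S, (∃ s, s ∉ F) → P (Artin (restr M F))) : P (Artin M) := by
  classical
  have : Fintype S := Fintype.ofFinite S
  refine transW hP M (tog (HB M b c)) (alen (HB M b c) α) (HB_sc M b c hc) hn
    (alen_acts _ α) ?_
  intro s hs
  obtain ⟨v, hv⟩ := hs.nonempty
  obtain ⟨t, x⟩ := v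
  obtain ⟨g, rfl⟩ := QuotientGroup.mk_surjective x
  obtain ⟨s0, hs0⟩ := hne t
  let F : Finset S := Finset.univ.filter fun s => b s ≠ c t
  have hF : ∀ s, s ∈ F ↔ b s ≠ c t := fun s => by simp [F]
  refine ⟨F, g, h F ⟨s0, fun e => (hF s0).1 e hs0⟩, ?_⟩
  intro k hk
  have h4 : k • tv (HB M b c) t g ∈ s := by
    rw [← hk]
    exact ⟨_, hv, rfl⟩
  have h5 : tv (HB M b c) t (k * g) = tv (HB M b c) t g := simp_ty _ hs h4 hv rfl
  have h6 : ((k * g : Artin M) : Artin M ⧸ HB M b c t) = (g : Artin M ⧸ HB M b c t) :=
    eq_of_heq (Sigma.mk.inj_iff.1 h5).2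
  have h7 : g⁻¹ * (k * g) ∈ HB M b c t := QuotientGroup.eq.1 h6.symm
  rw [← mul_assoc] at h7
  refine sg_mono M ?_ h7
  intro r hr
  exact Finset.mem_coe.2 ((hF r).2 hr)

/-- three generators in different blocks whose labels are not two twice give an action on the
development of a triangle of groups -/
theorem tri_case (hP : Cls P) {S ι : Type} [Finite S] (M : CoxeterMatrix S) (b : S → ι)
    (hb : BlkL M b) (hN : NoInf M) {r s t : S} (hrs : b r ≠ b s) (hst : b s ≠ b t)
    (hrt : b r ≠ b t) (h1 : M.M r s ≠ 2) (h2 : M.M s t ≠ 2)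
    (h : ∀ F : Finset S, (∃ s, s ∉ F) → P (Artin (restr M F))) : P (Artin M) := by
  classical
  have : Fintype S := Fintype.ofFinite S
  obtain ⟨r1, s1, er1, es1, m1⟩ := exists_min M b (b r) (b s) ⟨r, rfl⟩ ⟨s, rfl⟩
  obtain ⟨s2, t2, es2, et2, m2⟩ := exists_min M b (b s) (b t) ⟨s, rfl⟩ ⟨t, rfl⟩
  obtain ⟨r3, t3, er3, et3, m3⟩ := exists_min M b (b r) (b t) ⟨r, rfl⟩ ⟨t, rfl⟩
  have n1 : M.M r1 s1 ≠ 2 := fun e => h1 (hb.comm2 er1 es1 (by rw [er1, es1]; exact hrs) e)
  have n2 : M.M s2 t2 ≠ 2 := fun e => h2 (hb.comm2 es2 et2 (by rw [es2, et2]; exact hst) e)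
  have hmin := blk_min3 hb hN (r := r1) (r' := r3) (s := s1) (s' := s2) (t := t2) (t' := t3)
    (er1.trans er3.symm) (es1.trans es2.symm) (et2.trans et3.symm)
    (by rw [er1, es1]; exact hrs) (by rw [es1, et2]; exact hst) (by rw [er1, et2]; exact hrt)
    (fun x y hx hy => m1 x y (hx.trans er1) (hy.trans es1))
    (fun x y hx hy => m2 x y (hx.trans es1) (hy.trans et2))
    (fun x y hx hy => m3 x y (hx.trans er1) (hy.trans et2))
  have hle : (1 : ℚ) / (M.M r1 s1 : ℚ) + 1 / (M.M s2 t2 : ℚ) + 1 / (M.M r3 t3 : ℚ) ≤ 1 := by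
    rcases hmin with e | e | e | e
    · exact absurd e.1 n1
    · exact absurd e.1 n1
    · exact absurd e.1 n2
    · exact e
  have two : ∀ x y : S, b x ≠ b y → 2 ≤ M.M x y := by
    intro x y hxy
    have k1 := hN x y
    have k2 := M.off_diagonal x y (fun e => hxy (congrArg b e))
    have k3 : M.M x y ≠ 1 := k2
    omega
  obtain ⟨α, hα, e2, e0, e1⟩ := exists_angles
    (two r1 s1 (by rw [er1, es1]; exact hrs)) (two s2 t2 (by rw [es2, et2]; exact hst))
    (two r3 t3 (by rw [er3, et3]; exact hrt)) hle
  let c : Fin 3 → ι := ![b r, b s, b t]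
  have hc : Function.Injective c := by
    intro a a' haa
    fin_cases a <;> fin_cases a' <;> simp_all [c]
  have hne : ∀ i, ∃ s, b s = c i := by
    intro i
    fin_cases i
    · exact ⟨r, rfl⟩
    · exact ⟨s, rfl⟩
    · exact ⟨t, rfl⟩
  let m : Fin 3 → ℕ := ![M.M s2 t2, M.M r3 t3, M.M r1 s1]
  have hpos : ∀ x y : S, (0 : ℝ) < (M.M x y : ℕ) := fun x y => by
    exact_mod_cast Nat.pos_of_ne_zero (hN x y)
  refine tri_P hP M b c hc hne α (HB_npc M b c hc hne ?_ m ?_ α hα ?_) h
  · intro F _
    exact blk_grth _ F ι le_rfl (restr M F) _ (hb.restr F) (hN.restr F)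
  · have key : ∀ x y : S, M.M x y = M.M y x := fun x y => M.symmetric _ _
    intro i j k hij hik hjk x y hx hy
    fin_cases i <;> fin_cases j <;> fin_cases k <;>
      first
        | exact absurd rfl hij
        | exact absurd rfl hik
        | exact absurd rfl hjk
        | exact m2 x y hx hy
        | (rw [key x y]; exact m2 y x hy hx)
        | exact m3 x y hx hy
        | (rw [key x y]; exact m3 y x hy hx)
        | exact m1 x y hx hy
        | (rw [key x y]; exact m1 y x hy hx)
  · intro i
    fin_cases i
    · show Real.pi ≤ (M.M s2 t2 : ℕ) * α 0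
      have := (div_le_iff₀ (hpos s2 t2)).1 e0
      linarith
    · show Real.pi ≤ (M.M r3 t3 : ℕ) * α 1
      have := (div_le_iff₀ (hpos r3 t3)).1 e1
      linarith
    · show Real.pi ≤ (M.M r1 s1 : ℕ) * α 2
      rw [e2, mul_div_cancel₀ _ (hpos r1 s1).ne']

/-- the theorem for finitely many generators and no label `∞` -/
theorem lrb_fin (hP : Cls P) (n : ℕ) : ∀ (S ι : Type) [Finite S], Nat.card S ≤ n →
    ∀ (M : CoxeterMatrix S) (b : S → ι), BlkL M b → NoInf M →
    (∀ F : Finset S, (∀ s ∈ F, ∀ t ∈ F, b s = b t) → P (Artin (restr M F))) →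
    P (Artin M) := by
  classical
  induction n with
  | zero =>
    intro S ι _ hS M b _ _ _
    have h : Nat.card S = 0 := Nat.le_zero.1 hS
    rw [Finite.card_eq_zero_iff] at h
    exact two_gen hP.cl hP.gl M fun r => (h.false r).elim
  | succ n ih =>
    intro S ι _ hS M b hb hN hX
    have : Fintype S := Fintype.ofFinite S
    have hcard : ∀ F : Finset S, (∃ s, s ∉ F) → Nat.card F ≤ n := by
      rintro F ⟨s, hs⟩
      have h1 : Nat.card F = F.card := by simp
      have h2 : F.card < Fintype.card S := Finset.card_lt_univ_of_notMem hs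
      rw [Nat.card_eq_fintype_card] at hS
      omega
    have hX' : ∀ F0 : Finset S, ∀ F : Finset F0, (∀ s ∈ F, ∀ t ∈ F, b s.1 = b t.1) →
        P (Artin (restr (restr M F0) F)) := by
      intro F0 F hF
      refine restr_restr_P hP.cl M F0 F (F.image Subtype.val)
        (fun s hs => Finset.mem_image.2 ⟨s, hs, rfl⟩) (hX _ ?_)
      intro s hs t ht
      obtain ⟨s', hs', rfl⟩ := Finset.mem_image.1 hs
      obtain ⟨t', ht', rfl⟩ := Finset.mem_image.1 ht
      exact hF s' hs' t' ht'
    have hsub : ∀ F : Finset S, (∃ s, s ∉ F) → P (Artin (restr M F)) := fun F hF =>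
      ih F ι (hcard F hF) _ _ (hb.restr F) (hN.restr F) (hX' F)
    by_cases hD : ∃ r s t : S, b r ≠ b s ∧ b s ≠ b t ∧ b r ≠ b t ∧ M.M r s ≠ 2 ∧ M.M s t ≠ 2
    · obtain ⟨r, s, t, hrs, hst, hrt, h1, h2⟩ := hD
      exact tri_case hP M b hb hN hrs hst hrt h1 h2 hsub
    · push Not at hD
      by_cases hS0 : Nonempty S
      · obtain ⟨s⟩ := hS0
        let T : Finset S := Finset.univ.filter fun t => b t = b s ∨ M.M s t ≠ 2
        have hT : ∀ t, t ∈ T ↔ (b t = b s ∨ M.M s t ≠ 2) := fun t => by simp [T]
        have key : ∀ x y : S, M.M x y = M.M y x := fun x y => M.symmetric _ _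
        have hcomm : ∀ a ∈ T, ∀ d, d ∉ T → M.M a d = 2 := by
          intro a ha d hd
          rw [hT] at ha hd
          push Not at hd
          obtain ⟨hd1, hd2⟩ := hd
          rcases ha with ha | ha
          · exact hb.comm s a d ha.symm hd1.symm hd2
          · by_cases hab : b a = b s
            · exact hb.comm s a d hab.symm hd1.symm hd2
            · by_cases had : b a = b d
              · exfalso
                apply ha
                rw [key]
                refine hb.comm d a s had.symm hd1 ?_
                rw [key]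
                exact hd2
              · exact hD s a d (fun e => hab e.symm) had hd1.symm ha
        have hPc : P (Artin (restr M Tᶜ)) := hsub _ ⟨s, by
          rw [Finset.mem_compl, not_not, hT]
          exact Or.inl rfl⟩
        refine prod_dec hP.cl M T Tᶜ (fun x => Finset.mem_compl) hcomm ?_ hPc
        by_cases hmono : ∃ t0 ∈ T, b t0 ≠ b s
        · obtain ⟨t0, ht0, hbt0⟩ := hmono
          have hMt0 : M.M s t0 ≠ 2 := ((hT t0).1 ht0).resolve_left hbt0
          have hbl : ∀ y ∈ T, b y ≠ b s → b y = b t0 := by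
            intro y hy hys
            by_contra h3
            exact hMt0 (hD y s t0 hys (fun e => hbt0 e.symm) h3
              (by rw [key]; exact ((hT y).1 hy).resolve_left hys))
          have hne2 : ∀ x y, b x = b s → b y = b t0 → M.M x y ≠ 2 := by
            intro x y hx hy h3
            exact hMt0 (hb.comm2 hx hy (by rw [hx, hy]; exact fun e => hbt0 e.symm) h3)
          by_cases hsm : (∀ x ∈ T, b x = b s → x = s) ∧ (∀ y ∈ T, b y ≠ b s → y = t0)
          · refine two_gen hP.cl hP.gl _ ?_
            have hall : ∀ x : T, x.1 = s ∨ x.1 = t0 := by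
              intro x
              by_cases hx : b x.1 = b s
              · exact Or.inl (hsm.1 _ x.2 hx)
              · exact Or.inr (hsm.2 _ x.2 hx)
            intro x y z hxy hyz hxz
            have hxy' : x.1 ≠ y.1 := fun e => hxy (Subtype.ext e)
            have hyz' : y.1 ≠ z.1 := fun e => hyz (Subtype.ext e)
            have hxz' : x.1 ≠ z.1 := fun e => hxz (Subtype.ext e)
            rcases hall x with h1 | h1 <;> rcases hall y with h2 | h2 <;>
              rcases hall z with h3 | h3
            · exact hxy' (h1.trans h2.symm)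
            · exact hxy' (h1.trans h2.symm)
            · exact hxz' (h1.trans h3.symm)
            · exact hyz' (h2.trans h3.symm)
            · exact hyz' (h2.trans h3.symm)
            · exact hxz' (h1.trans h3.symm)
            · exact hxy' (h1.trans h2.symm)
            · exact hxy' (h1.trans h2.symm)
          · have hfour : ∀ x ∈ T, ∀ y ∈ T, b x = b s → b y ≠ b s → 4 ≤ M.M x y := by
              intro x hx y hy hxs hys
              have hyt := hbl y hy hys
              have hne := hne2 x y hxs hyt
              rw [not_and_or] at hsm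
              rcases hsm with h1 | h1
              · push Not at h1
                obtain ⟨x1, hx1, hx1s, hx1n⟩ := h1
                obtain ⟨x', hx', hxx'⟩ : ∃ x', b x' = b s ∧ x ≠ x' := by
                  by_cases h5 : x = s
                  · exact ⟨x1, hx1s, fun e => hx1n (e.symm.trans h5)⟩
                  · exact ⟨s, rfl, h5⟩
                exact (hb.big x x' y hxx' (hxs.trans hx'.symm)
                  (fun e => hys (e.symm.trans hxs))).resolve_left hne
              · push Not at h1
                obtain ⟨y1, hy1, hy1s, hy1n⟩ := h1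
                obtain ⟨y', hy', hyy'⟩ : ∃ y', b y' = b t0 ∧ y ≠ y' := by
                  by_cases h5 : y = t0
                  · exact ⟨y1, hbl y1 hy1 hy1s, fun e => hy1n (e.symm.trans h5)⟩
                  · exact ⟨t0, rfl, h5⟩
                have h6 := hb.big y y' x hyy' (hyt.trans hy'.symm)
                  (fun e => hys (e.trans hxs))
                rw [key y x] at h6
                exact h6.resolve_left hne
            let X : Finset T := Finset.univ.filter fun x => b x.1 = b s
            let Y : Finset T := Finset.univ.filter fun x => b x.1 ≠ b s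
            have hXm : ∀ x, x ∈ X ↔ b x.1 = b s := fun x => by simp [X]
            have hYm : ∀ x, x ∈ Y ↔ b x.1 ≠ b s := fun x => by simp [Y]
            refine pair_P4 hP (restr M T) X Y ?_ ?_ ?_ ?_
            · ext x
              rw [Finset.mem_coe, hYm, Set.mem_compl_iff, Finset.mem_coe, hXm]
            · intro x hx y hy
              rw [Finset.mem_coe, hXm] at hx hy
              exact Or.inr (hfour x.1 x.2 y.1 y.2 hx hy)
            · refine hX' T X ?_
              intro x hx y hy
              exact ((hXm x).1 hx).trans ((hXm y).1 hy).symm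
            · refine hX' T Y ?_
              intro x hx y hy
              exact (hbl _ x.2 ((hYm x).1 hx)).trans (hbl _ y.2 ((hYm y).1 hy)).symm
        · push Not at hmono
          exact hX T fun x hx y hy => (hmono x hx).trans (hmono y hy).symm
      · exact two_gen hP.cl hP.gl M fun r => (hS0 ⟨r⟩).elim

end Pool.Agent.helper55.LR
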