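import Pool.Agent.helper55.LR.BDefs

set_option autoImplicit false

/-!
# LRA-BMN: minimal labels between blocks
-/

namespace Pool.Agent.helper55.LR

/-- the minimum of the labels between two blocks is attained -/
theorem exists_min {S ι : Type} [Finite S] (M : CoxeterMatrix S) (b : S → ι) (β γ : ι)
    (hβ : ∃ s, b s = β) (hγ : ∃ t, b t = γ) :
    ∃ s t, b s = β ∧ b t = γ ∧ ∀ s' t', b s' = β → b t' = γ → M.M s t ≤ M.M s' t' := by
  obtain ⟨s0, hs0⟩ := hβ
  obtain ⟨t0, ht0⟩ := hγ
  have hne : Set.Nonempty {p : S × S | b p.1 = β ∧ b p.2 = γ} := ⟨(s0, t0), hs0, ht0⟩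
  have hfin : Set.Finite {p : S × S | b p.1 = β ∧ b p.2 = γ} := Set.toFinite _
  obtain ⟨p, hp, hmin⟩ := Set.exists_min_image _ (fun p : S × S => M.M p.1 p.2) hfin hne
  exact ⟨p.1, p.2, hp.1, hp.2, fun s' t' h1 h2 => hmin (s', t') ⟨h1, h2⟩⟩

/-- the block structure restricted to a finite subset -/
theorem BlkL.restr {S ι : Type} {M : CoxeterMatrix S} {b : S → ι} (h : BlkL M b) (F : Finset S) :
    BlkL (Pool.Agent.helper46.FJ3.restr M F) (fun s => b s.1) :=
  { comm := fun s s' t h1 h2 h3 => h.comm s.1 s'.1 t.1 h1 h2 h3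
    big := fun s s' t h0 h1 h2 => h.big s.1 s'.1 t.1 (fun e => h0 (Subtype.ext e)) h1 h2
    red := fun r s t h1 h2 h3 => h.red r.1 s.1 t.1 h1 h2 h3 }

theorem BlkL.comm2 {S ι : Type} {M : CoxeterMatrix S} {b : S → ι} (h : BlkL M b)
    {s s' t t' : S} (h1 : b s = b s') (h2 : b t = b t') (h3 : b s ≠ b t) (h4 : M.M s t = 2) :
    M.M s' t' = 2 := by
  have e1 : M.M s' t = 2 := h.comm s s' t h1 h3 h4
  have e2 : M.M t s' = 2 := by rw [M.symmetric t s']; exact e1
  have h3' : b t ≠ b s' := by rw [← h1]; exact fun e => h3 e.symm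
  have e3 : M.M t' s' = 2 := h.comm t t' s' h2 h3' e2
  rw [M.symmetric s' t']; exact e3

theorem BMN_third {n : ℕ} (h : 3 ≤ n) : (1 : ℚ) / (n : ℚ) ≤ 1 / 3 :=
  one_div_le_one_div_of_le (by norm_num) (by exact_mod_cast h)

theorem BMN_quarter {n : ℕ} (h : 4 ≤ n) : (1 : ℚ) / (n : ℚ) ≤ 1 / 4 :=
  one_div_le_one_div_of_le (by norm_num) (by exact_mod_cast h)

theorem BMN_single {S ι : Type} {M : CoxeterMatrix S} {b : S → ι} (hb : BlkL M b)
    {x x' y : S} (h1 : b x = b x') (h2 : b x ≠ b y) (h3 : M.M x y = 3) : x = x' := by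
  by_contra hne
  rcases hb.big x x' y hne h1 h2 with h | h <;> omega

/-- the case of one label two -/
theorem BMN_one {S ι : Type} {M : CoxeterMatrix S} {b : S → ι} (hb : BlkL M b)
    {r s t t' : S} (ht : b t = b t') (hrs : b r ≠ b s) (hst : b s ≠ b t) (hrt : b r ≠ b t)
    (h2 : M.M r s = 2) (h3 : 3 ≤ M.M s t) (h3' : 3 ≤ M.M r t') :
    (1 : ℚ) / 2 + 1 / (M.M s t : ℚ) + 1 / (M.M r t' : ℚ) ≤ 1 := by
  by_cases hc : M.M s t = 3 ∨ M.M r t' = 3
  · have htt : t = t' := by
      rcases hc with hc | hc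
      · exact BMN_single hb (y := s) ht hst.symm (by rw [M.symmetric t s]; exact hc)
      · exact (BMN_single hb (y := r) ht.symm (by rw [← ht]; exact hrt.symm)
          (by rw [M.symmetric t' r]; exact hc)).symm
    subst htt
    rcases hb.red r s t hrs hst hrt with h | h | h | h
    · omega
    · omega
    · omega
    · rw [h2] at h
      exact_mod_cast h
  · push Not at hc
    have e1 := BMN_quarter (n := M.M s t) (by omega)
    have e2 := BMN_quarter (n := M.M r t') (by omega)
    linarith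

theorem BMN_two_le {S : Type} {M : CoxeterMatrix S} (hN : NoInf M) {s t : S} (h : s ≠ t) :
    2 ≤ M.M s t := by
  have h1 := M.off_diagonal s t h
  have h2 := hN s t
  omega

/-- Three different blocks `β, γ, δ` whose minimal labels are attained at `(r, s)`, `(s', t)`,
`(r', t')`. If `s ≠ s'`, or `r ≠ r'`, or `t ≠ t'`, then the block which contains both has two
elements, and the two labels with this block are `2` or at least `4` (`big`); all labels between
different blocks are at least `2`. If no two of the three labels are `2`: the cases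
`(≥ 4, ≥ 4, ≥ 2)` satisfy the inequality. In the other cases use `red` for a suitable triple: if a
label is `2` then all labels between the two blocks are `2` (`comm2`), so the elements of these
blocks can be replaced. (If all of `r = r'`, `s = s'`, `t = t'`, it is `red r s t`. If `r ≠ r'` the
labels `M r s` and `M r' t'` are `2` or at least `4`; if both are at least `4` we are done. If
`M r s = 2` and not `M r' t' = 2`, then `M r' t' ≥ 4` and, as `M s' t ≠ 2`, `3 ≤ M s' t`; if
`M s' t ≥ 4` we are done; if `M s' t = 3` then by `big` the blocks of `s'` and `t` have one element, so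
`s = s'`, `t = t'`, and `red r' s t` gives the claim, as `M r' s = 2`. And so on.) -/
theorem blk_min3 {S ι : Type} {M : CoxeterMatrix S} {b : S → ι} (hb : BlkL M b) (hN : NoInf M)
    {r r' s s' t t' : S} (hr : b r = b r') (hs : b s = b s') (ht : b t = b t')
    (hrs : b r ≠ b s) (hst : b s ≠ b t) (hrt : b r ≠ b t)
    (m1 : ∀ x y, b x = b r → b y = b s → M.M r s ≤ M.M x y)
    (m2 : ∀ x y, b x = b s → b y = b t → M.M s' t ≤ M.M x y)
    (m3 : ∀ x y, b x = b r → b y = b t → M.M r' t' ≤ M.M x y) :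
    (M.M r s = 2 ∧ M.M s' t = 2) ∨ (M.M r s = 2 ∧ M.M r' t' = 2) ∨
    (M.M s' t = 2 ∧ M.M r' t' = 2) ∨
    (1 : ℚ) / (M.M r s : ℚ) + 1 / (M.M s' t : ℚ) + 1 / (M.M r' t' : ℚ) ≤ 1 := by
  have a1 : 2 ≤ M.M r s := BMN_two_le hN (fun e => hrs (by rw [e]))
  have a2 : 2 ≤ M.M s' t := BMN_two_le hN (fun e => hst (by rw [hs, e]))
  have a3 : 2 ≤ M.M r' t' := BMN_two_le hN (fun e => hrt (by rw [hr, ht, e]))
  by_cases c1 : M.M r s = 2
  · by_cases c2 : M.M s' t = 2
    · exact Or.inl ⟨c1, c2⟩
    by_cases c3 : M.M r' t' = 2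
    · exact Or.inr (Or.inl ⟨c1, c3⟩)
    refine Or.inr (Or.inr (Or.inr ?_))
    have e := BMN_one hb (r := r') (s := s') (t := t) (t' := t') ht
      (by rw [← hr, ← hs]; exact hrs) (by rw [← hs]; exact hst) (by rw [← hr]; exact hrt)
      (hb.comm2 hr hs hrs c1) (by omega) (by omega)
    rw [c1]
    exact_mod_cast e
  by_cases c2 : M.M s' t = 2
  · by_cases c3 : M.M r' t' = 2
    · exact Or.inr (Or.inr (Or.inl ⟨c2, c3⟩))
    refine Or.inr (Or.inr (Or.inr ?_))
    have h2 : M.M s t' = 2 := hb.comm2 hs.symm ht (by rw [← hs]; exact hst) c2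
    have e := BMN_one hb (r := t') (s := s) (t := r) (t' := r') hr
      (by rw [← ht]; exact hst.symm) hrs.symm (by rw [← ht]; exact hrt.symm)
      (by rw [M.symmetric t' s]; exact h2)
      (by rw [M.symmetric s r]; omega) (by rw [M.symmetric t' r']; omega)
    rw [M.symmetric s r, M.symmetric t' r'] at e
    rw [c2]
    push_cast
    linarith
  by_cases c3 : M.M r' t' = 2
  · refine Or.inr (Or.inr (Or.inr ?_))
    have h2 : M.M r t = 2 := hb.comm2 hr.symm ht.symm (by rw [← hr, ← ht]; exact hrt) c3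
    have e := BMN_one hb (r := t) (s := r) (t := s) (t' := s') hs
      hrt.symm hrs hst.symm
      (by rw [M.symmetric t r]; exact h2) (by omega) (by rw [M.symmetric t s']; omega)
    rw [M.symmetric t s'] at e
    rw [c3]
    push_cast
    linarith
  refine Or.inr (Or.inr (Or.inr ?_))
  have e1 := BMN_third (n := M.M r s) (by omega)
  have e2 := BMN_third (n := M.M s' t) (by omega)
  have e3 := BMN_third (n := M.M r' t') (by omega)
  linarith

end Pool.Agent.helper55.LR
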