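import Pool.Agent.helper55.LR.TDefs

set_option autoImplicit false

/-!
# LRA-BAS: alternating relations between standard subgroups, the basic cases
-/

namespace Pool.Agent.helper55.LR

open Pool.Agent.helper55.EV
open Pool.Agent.helper34.FJ2 Pool.Agent.helper34.FJ3
open Pool.Agent.helper36.LT (Artin gen alt artinRels)
open Pool.Agent.helper46.FJ3 (restr mp mp_gen inc inc_gen inc_mp)
open scoped BigOperators

theorem BAS_rev {G : Type} [Group G] (f : ℕ → G) (n : ℕ) :
    (((List.range n).map f).prod)⁻¹ = ((List.range n).map fun i => (f (n - 1 - i))⁻¹).prod := by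
  induction n with
  | zero => simp
  | succ n ih =>
    rw [List.prod_range_succ, mul_inv_rev, ih, List.prod_range_succ']
    congr 2
    apply List.map_congr_left
    intro i _
    have h : n + 1 - 1 - (i + 1) = n - 1 - i := by omega
    rw [h]

/-- the relation read from another starting point (with inverses if one likes): conjugate with
`b_(n-1)`; `b_(n-1) a_0 b_0 ⋯ a_(n-1) = 1` -/
theorem Alt.symm {G : Type} [Group G] {A B : Subgroup G} {n : ℕ} (h : Alt A B n) : Alt B A n := by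
  obtain ⟨a, b, h1, h2⟩ := h
  refine ⟨fun i => (b (n - 1 - i))⁻¹, fun i => (a (n - 1 - i))⁻¹, ?_, ?_⟩
  · intro i hi
    obtain ⟨h3, h4, h5, h6⟩ := h1 (n - 1 - i) (by omega)
    exact ⟨B.inv_mem h5, fun h => h6 ((A.inv_mem_iff).1 h), A.inv_mem h3,
      fun h => h4 ((B.inv_mem_iff).1 h)⟩
  · have h3 := BAS_rev (fun i => a i * b i) n
    rw [h2, inv_one] at h3
    rw [h3]
    congr 1
    apply List.map_congr_left
    intro i _
    exact (mul_inv_rev _ _).symm

/-- injective homomorphisms -/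
theorem Alt.of_map {G K : Type} [Group G] [Group K] (r : K →* G) (hr : Function.Injective r)
    {A B : Subgroup K} {n : ℕ} (h : Alt (A.map r) (B.map r) n) : Alt A B n := by
  obtain ⟨a, b, h1, h2⟩ := h
  have h3 : ∀ i, ∃ x y : K, i < n → (x ∈ A ∧ x ∉ B ∧ y ∈ B ∧ y ∉ A) ∧ r x = a i ∧ r y = b i := by
    intro i
    by_cases hi : i < n
    · obtain ⟨⟨x, hx, hx'⟩, h4, ⟨y, hy, hy'⟩, h5⟩ := h1 i hi
      refine ⟨x, y, fun _ => ⟨⟨hx, fun h => h4 ⟨x, h, hx'⟩, hy, fun h => h5 ⟨y, h, hy'⟩⟩, hx', hy'⟩⟩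
    · exact ⟨1, 1, fun h => absurd h hi⟩
  choose a' b' h4 using h3
  refine ⟨a', b', fun i hi => (h4 i hi).1, ?_⟩
  apply hr
  rw [map_one, map_list_prod, List.map_map, ← h2]
  congr 1
  apply List.map_congr_left
  intro i hi
  obtain ⟨-, h5, h6⟩ := h4 i (List.mem_range.1 hi)
  simp only [Function.comp_apply, map_mul, h5, h6]

/-- relations between standard subgroups for subsets of `F` are relations in the Artin group of `F`
(compare `G8_sub`) -/
theorem alt_sub {S : Type} [Finite S] (M : CoxeterMatrix S) (F : Finset S) {U U' : Set S}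
    (hU : U ⊆ F) (hU' : U' ⊆ F) {n : ℕ} (h : Alt (sg M U) (sg M U') n) :
    Alt (sg (restr M F) (Subtype.val ⁻¹' U)) (sg (restr M F) (Subtype.val ⁻¹' U')) n := by
  have key : ∀ {U : Set S}, U ⊆ F → (sg M U) = (sg (restr M F) (Subtype.val ⁻¹' U)).map (inc M F) := by
    intro U hU
    rw [← sg_map]
    congr 1
    ext s
    constructor
    · intro hs
      exact ⟨⟨s, hU hs⟩, hs, rfl⟩
    · rintro ⟨⟨s, hs⟩, hs', rfl⟩
      exact hs'
  rw [key hU, key hU'] at h
  exact Alt.of_map _ (inc_inj M F) h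

/-- a relation with two syllables is impossible: `a_0 b_0 = 1` -/
theorem alt_ne_one {G : Type} [Group G] {A B : Subgroup G} (h : Alt A B 1) : False := by
  obtain ⟨a, b, h1, h2⟩ := h
  obtain ⟨-, h4, h5, -⟩ := h1 0 Nat.zero_lt_one
  have h6 : a 0 * b 0 = 1 := by simpa using h2
  apply h4
  rw [eq_inv_of_mul_eq_one_left h6]
  exact B.inv_mem h5

/-- Suppose that all other generators commute with `x` and `y`. Then `a_i = y ^ (k_i) c_i` with
`c_i ∈ sg M {x, y}ᶜ`, `k_i ≠ 0` (as `a_i ∉ sg M {y}ᶜ`), `b_i = x ^ (l_i) d_i` with `l_i ≠ 0`. Kill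
the other generators (their labels with `x` and `y` are `2`, even; compare `EV/Base.lean`):
`∏ y ^ (k_i) x ^ (l_i) = 1`, so `M x y ≤ n` by `artin_girth` (FJ3/PartC.lean) and the symmetry of
`M`. -/
theorem alt_base {S : Type} [Finite S] (M : CoxeterMatrix S) (x y : S) (hxy : x ≠ y)
    (hM : M.M x y ≠ 0) (h : ∀ z, z ≠ x → z ≠ y → M.M x z = 2 ∧ M.M y z = 2) (n : ℕ) (h0 : 0 < n)
    (ha : Alt (sg M {x}ᶜ) (sg M {y}ᶜ) n) : M.M x y ≤ n := by
  have hx : ∀ k, k ≠ x → k ≠ y → M.M x k = 2 := fun k h1 h2 => (h k h1 h2).1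
  have hy : ∀ k, k ≠ x → k ≠ y → M.M y k = 2 := fun k h1 h2 => (h k h1 h2).2
  obtain ⟨ρ, hρx, hρy, hρ⟩ := BASE_retr M x y hx hy
  obtain ⟨a, b, h1, h2⟩ := ha
  have hsym : M.M y x = M.M x y := M.symmetric y x
  have h3 : ∀ i, ∃ p q : ℤ, i < n → (p ≠ 0 ∧ q ≠ 0) ∧ ρ (a i) = gen M y ^ p ∧
      ρ (b i) = gen M x ^ q := by
    intro i
    by_cases hi : i < n
    · obtain ⟨h4, h5, h6, h7⟩ := h1 i hi
      obtain ⟨p, t, ht, hp⟩ := BASE_decomp M x y hy (a i) h4
      obtain ⟨q, u, hu, hq⟩ := BASE_decomp M y x (fun k h1 h2 => hx k h2 h1) (b i) h6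
      have hu' : u ∈ sg M {x, y}ᶜ := by rwa [Set.pair_comm]
      refine ⟨p, q, fun _ => ⟨⟨?_, ?_⟩, ?_, ?_⟩⟩
      · rintro rfl
        apply h5
        rw [hp, zpow_zero, one_mul]
        exact BASE_le_right M x y ht
      · rintro rfl
        apply h7
        rw [hq, zpow_zero, one_mul]
        exact BASE_le_left M x y hu'
      · rw [hp, map_mul, map_zpow, hρy, hρ t ht, mul_one]
      · rw [hq, map_mul, map_zpow, hρx, hρ u hu', mul_one]
    · exact ⟨0, 0, fun h => absurd h hi⟩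
  choose p q h4 using h3
  by_contra hn
  refine artin_girth M y x hxy.symm (by rw [hsym]; exact hM) n p q h0 (by omega)
    (fun i hi => (h4 i hi).1) ?_
  have h5 := congrArg ρ h2
  rw [map_one, map_list_prod, List.map_map] at h5
  rw [← h5]
  congr 1
  apply List.map_congr_left
  intro i hi
  obtain ⟨-, h6, h7⟩ := h4 i (List.mem_range.1 hi)
  simp only [Function.comp_apply, map_mul, h6, h7]

/-- angles: if `1/a + 1/b + 1/c ≤ 1` for natural numbers `a, b, c ≥ 2` then there are angles `α_0`,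
`α_1` with `π/b ≤ α_0 ≤ π/2`, `π/c ≤ α_1 ≤ π/2` and `α_0 + α_1 + π/a = π`:
`α_0 = max (π/b) (π/2 - π/a)`. -/
theorem exists_angles {a b c : ℕ} (ha : 2 ≤ a) (hb : 2 ≤ b) (hc : 2 ≤ c)
    (h : (1 : ℚ) / (a : ℚ) + 1 / (b : ℚ) + 1 / (c : ℚ) ≤ 1) :
    ∃ α : Fin 3 → ℝ, Ang α ∧ α 2 = Real.pi / a ∧ Real.pi / b ≤ α 0 ∧ Real.pi / c ≤ α 1 := by
  have hpi := Real.pi_pos
  have key : ∀ n : ℕ, 2 ≤ n → 0 < Real.pi / n ∧ Real.pi / n ≤ Real.pi / 2 := by
    intro n hn
    have h1 : (2 : ℝ) ≤ n := by exact_mod_cast hn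
    refine ⟨div_pos hpi (by linarith), ?_⟩
    exact div_le_div_of_nonneg_left hpi.le (by norm_num) h1
  obtain ⟨a1, a2⟩ := key a ha
  obtain ⟨b1, b2⟩ := key b hb
  obtain ⟨c1, c2⟩ := key c hc
  have h3 : Real.pi / a + Real.pi / b + Real.pi / c ≤ Real.pi := by
    have h4 : (1 : ℝ) / (a : ℝ) + 1 / (b : ℝ) + 1 / (c : ℝ) ≤ 1 := by
      have h7 := (Rat.cast_le (K := ℝ)).2 h
      push_cast at h7
      exact h7
    have h5 := mul_le_mul_of_nonneg_left h4 hpi.le
    have h6 : Real.pi * ((1 : ℝ) / (a : ℝ) + 1 / (b : ℝ) + 1 / (c : ℝ)) =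
        Real.pi / a + Real.pi / b + Real.pi / c := by ring
    rw [h6, mul_one] at h5
    exact h5
  have m1 : Real.pi / b ≤ max (Real.pi / b) (Real.pi / 2 - Real.pi / a) := le_max_left _ _
  have m2 : Real.pi / 2 - Real.pi / a ≤ max (Real.pi / b) (Real.pi / 2 - Real.pi / a) :=
    le_max_right _ _
  have m3 : max (Real.pi / b) (Real.pi / 2 - Real.pi / a) ≤ Real.pi / 2 :=
    max_le b2 (by linarith)
  have m4 : max (Real.pi / b) (Real.pi / 2 - Real.pi / a) ≤ Real.pi - Real.pi / a - Real.pi / c :=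
    max_le (by linarith) (by linarith)
  refine ⟨![max (Real.pi / b) (Real.pi / 2 - Real.pi / a),
    Real.pi - Real.pi / a - max (Real.pi / b) (Real.pi / 2 - Real.pi / a), Real.pi / a],
    ⟨?_, ?_, ?_⟩, rfl, m1, ?_⟩
  · intro t
    fin_cases t
    · exact lt_of_lt_of_le b1 m1
    · show 0 < Real.pi - Real.pi / a - max (Real.pi / b) (Real.pi / 2 - Real.pi / a)
      linarith
    · exact a1
  · intro t
    fin_cases t
    · exact m3
    · show Real.pi - Real.pi / a - max (Real.pi / b) (Real.pi / 2 - Real.pi / a) ≤ Real.pi / 2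
      linarith
    · exact a2
  · show max (Real.pi / b) (Real.pi / 2 - Real.pi / a) +
      (Real.pi - Real.pi / a - max (Real.pi / b) (Real.pi / 2 - Real.pi / a)) + Real.pi / a =
      Real.pi
    ring
  · show Real.pi / c ≤ Real.pi - Real.pi / a - max (Real.pi / b) (Real.pi / 2 - Real.pi / a)
    linarith

end Pool.Agent.helper55.LR
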