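import Mathlib

set_option autoImplicit false

/-!
# LRA-EUC: the sum of the angles of a Euclidean triangle
-/

namespace Pool.Agent.helper55.LR

/-- Let `x, y, z > 0` satisfy the three laws of cosines as inequalities with angles
`α, β, γ ∈ [0, π]` which are at most the angles of the Euclidean triangle with sides `x, y, z`. Then
`α + β + γ ≤ π`. (Let `α'`, `β'`, `γ'` be the arccosines of
`(x² + z² - y²) / (2 x z)` etc.; the triangle inequalities `|x - z| ≤ y ≤ x + z` etc. follow from the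
hypotheses since `cos ≤ 1`: `(x - z)² ≤ y²`, `(x - y)² ≤ z²`, `(y - z)² ≤ x²`; so the quotients lie in
`[-1, 1]` and `α' + β' + γ' = π`: e.g. from `EuclideanGeometry.angle_add_angle_add_angle_eq_pi` for a
triangle in the plane with these sides, or directly: `cos (α' + β') = - cos γ'` and
`0 ≤ α' + β' ≤ π`. And `α ≤ α'` since `cos α ≥ cos α'`.) -/
theorem angle_sum_le {x y z α β γ : ℝ} (hx : 0 < x) (hy : 0 < y) (hz : 0 < z)
    (hα0 : 0 ≤ α) (hα1 : α ≤ Real.pi) (hβ0 : 0 ≤ β) (hβ1 : β ≤ Real.pi) (hγ0 : 0 ≤ γ)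
    (hγ1 : γ ≤ Real.pi)
    (h1 : x ^ 2 + z ^ 2 - 2 * x * z * Real.cos α ≤ y ^ 2)
    (h2 : y ^ 2 + z ^ 2 - 2 * y * z * Real.cos β ≤ x ^ 2)
    (h3 : x ^ 2 + y ^ 2 - 2 * x * y * Real.cos γ ≤ z ^ 2) : α + β + γ ≤ Real.pi := by
  by_contra hcon
  push Not at hcon
  have hz3 : (x - y) ^ 2 ≤ z ^ 2 := by
    have hc := Real.cos_le_one γ
    have hxy : 0 < x * y := mul_pos hx hy
    nlinarith [mul_le_mul_of_nonneg_left hc hxy.le]
  have hxyz : |x - y| ≤ z := abs_le_of_sq_le_sq hz3 hz.le
  rcases le_or_gt (α + β) Real.pi with hab | hab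
  · have hcos : Real.cos γ < Real.cos (Real.pi - (α + β)) :=
      Real.cos_lt_cos_of_nonneg_of_le_pi (by linarith) hγ1 (by linarith)
    rw [Real.cos_pi_sub, Real.cos_add] at hcos
    have hxy : 0 < x * y := mul_pos hx hy
    have h4 := mul_lt_mul_of_pos_left hcos hxy
    nlinarith [sq_nonneg (z - x * Real.cos α - y * Real.cos β),
      sq_nonneg (x * Real.sin α - y * Real.sin β), Real.sin_sq_add_cos_sq α,
      Real.sin_sq_add_cos_sq β, mul_pos hx hx, mul_pos hy hy]
  · have hcos : Real.cos α < Real.cos (Real.pi - β) :=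
      Real.cos_lt_cos_of_nonneg_of_le_pi (by linarith) hα1 (by linarith)
    rw [Real.cos_pi_sub] at hcos
    have h5 : z * z ≤ z * (x * Real.cos α + y * Real.cos β) := by nlinarith
    have h6 : z ≤ x * Real.cos α + y * Real.cos β := le_of_mul_le_mul_left h5 hz
    have h7 : y * Real.cos β < y * (-Real.cos α) :=
      mul_lt_mul_of_pos_left (by linarith) hy
    have h8 : (x - y) * Real.cos α ≤ |x - y| := by
      calc (x - y) * Real.cos α ≤ |(x - y) * Real.cos α| := le_abs_self _
        _ = |x - y| * |Real.cos α| := abs_mul _ _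
        _ ≤ |x - y| * 1 := mul_le_mul_of_nonneg_left (Real.abs_cos_le_one α) (abs_nonneg _)
        _ = |x - y| := mul_one _
    linarith

/-- the law of cosines for the triangle with angles `α, β, γ` and sides `sin α`, `sin β`, `sin γ` -/
theorem sin_law {α β γ : ℝ} (h : α + β + γ = Real.pi) :
    Real.sin α ^ 2 + Real.sin β ^ 2 - Real.sin γ ^ 2 =
      2 * Real.sin α * Real.sin β * Real.cos γ := by
  have hg : γ = Real.pi - (α + β) := by linarith
  rw [hg, Real.sin_pi_sub, Real.cos_pi_sub, Real.sin_add, Real.cos_add]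
  have ha := Real.sin_sq_add_cos_sq α
  have hb := Real.sin_sq_add_cos_sq β
  have ha' : Real.cos α ^ 2 = 1 - Real.sin α ^ 2 := by linarith
  have hb' : Real.cos β ^ 2 = 1 - Real.sin β ^ 2 := by linarith
  have : (Real.sin α * Real.cos β + Real.cos α * Real.sin β) ^ 2 =
      Real.sin α ^ 2 * Real.cos β ^ 2 + Real.cos α ^ 2 * Real.sin β ^ 2 +
        2 * Real.sin α * Real.sin β * Real.cos α * Real.cos β := by ring
  rw [this, ha', hb']
  ring

end Pool.Agent.helper55.LR
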