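import Pool.Agent.helper55.EV.Poly

set_option autoImplicit false

/-!
# LRA-HO: the law of cosines at the base point
-/

namespace Pool.Agent.helper55.LR

open Pool.Agent.helper34.FJ2 Pool.Agent.helper34.FJ3
open scoped BigOperators

/-- the first steps of two neighbouring discrete geodesics -/
theorem HO_near {V : Type} {Y : Complex2 V} {len : V → V → ℝ} {Γ : V → MGraph V}
    (R : Realization Y len Γ) (O p x : V)
    (hpx : Y.edge p x) (k : ℕ) (hk : 0 < k) (s : ℝ → ℕ → R.M) (ℓ : ℝ → ℝ)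
    (hs : IsSection k (R.vert O) (R.r0 / 16) R.lip (Set.Icc (0 : ℝ) 1) (R.ep p x) s ℓ)
    (c c' : ℝ) (hc : c ∈ Set.Icc (0 : ℝ) 1) (hc' : c' ∈ Set.Icc (0 : ℝ) 1)
    (h1 : R.lip * |c - c'| ≤ R.r0 / 16) (h2 : |c - c'| * len p x < R.r0) :
    dist (s c 1) (s c' 1) ≤ |c - c'| * len p x / k := by
  have hr0 : 0 < R.r0 := R.cn.1
  have h3 := Pool.Agent.helper37.FJ3.kgeo_conv R.cn hk (hs.geo c hc) (hs.geo c' hc')
    (hs.len c hc) (hs.len c' hc') (by rw [hs.start c hc, hs.start c' hc'])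
    (fun i hi => (hs.near c hc c' hc' (by rw [Real.norm_eq_abs]; exact h1) i hi).trans
      (by linarith)) 1 hk
  rw [hs.fin c hc, hs.fin c' hc', R.ep_dist p x c c' hpx hc.1 hc.2 hc'.1 hc'.2 h2] at h3
  refine h3.trans (le_of_eq ?_)
  push_cast
  ring

/-- the first steps of the two extreme discrete geodesics -/
theorem HO_far {V : Type} {Y : Complex2 V} {len : V → V → ℝ} {Γ : V → MGraph V}
    (R : Realization Y len Γ) (hlen : ∀ a b, Y.edge a b → 0 < len a b) (O p x : V)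
    (hpx : Y.edge p x) (k : ℕ) (hk : 0 < k) (s : ℝ → ℕ → R.M) (ℓ : ℝ → ℝ)
    (hs : IsSection k (R.vert O) (R.r0 / 16) R.lip (Set.Icc (0 : ℝ) 1) (R.ep p x) s ℓ) :
    dist (s 0 1) (s 1 1) ≤ len p x / k := by
  have hr0 : 0 < R.r0 := R.cn.1
  have hlip := R.lip_pos
  have hl : 0 < len p x := hlen _ _ hpx
  obtain ⟨N, hN⟩ : ∃ N : ℕ, max 1 (max (R.lip / (R.r0 / 16)) (len p x / R.r0)) < N :=
    exists_nat_gt _
  have hN1 : (1 : ℝ) < N := (le_max_left _ _).trans_lt hN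
  have hN2 : R.lip / (R.r0 / 16) < N :=
    ((le_max_left _ _).trans (le_max_right _ _)).trans_lt hN
  have hN3 : len p x / R.r0 < N :=
    ((le_max_right _ _).trans (le_max_right _ _)).trans_lt hN
  have hN0 : (0 : ℝ) < N := by linarith
  have hNn : 0 < N := by exact_mod_cast hN0
  rw [div_lt_iff₀ (by positivity)] at hN2 hN3
  have hmem : ∀ j : ℕ, j ≤ N → (j : ℝ) / N ∈ Set.Icc (0 : ℝ) 1 := by
    intro j hj
    have hj' : (j : ℝ) ≤ N := Nat.cast_le.mpr hj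
    exact ⟨div_nonneg (Nat.cast_nonneg j) hN0.le, (div_le_one hN0).mpr hj'⟩
  have key : ∀ j : ℕ, j ≤ N → dist (s 0 1) (s ((j : ℝ) / N) 1) ≤ j * (1 / N * len p x / k) := by
    intro j
    induction j with
    | zero =>
      intro _
      simp
    | succ j ih =>
      intro hj
      have h1 := ih (by omega)
      have hd : |(j : ℝ) / N - ((j + 1 : ℕ) : ℝ) / N| = 1 / N := by
        have e : (j : ℝ) / N - ((j + 1 : ℕ) : ℝ) / N = -(1 / N) := by
          push_cast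
          ring
        rw [e, abs_neg, abs_of_pos (by positivity)]
      have h2 := HO_near R O p x hpx k hk s ℓ hs ((j : ℝ) / N) (((j + 1 : ℕ) : ℝ) / N)
        (hmem j (by omega)) (hmem (j + 1) hj)
        (by
          rw [hd, mul_one_div, div_le_iff₀ hN0]
          linarith)
        (by
          rw [hd, one_div, inv_mul_eq_div, div_lt_iff₀ hN0]
          linarith)
      rw [hd] at h2
      refine (dist_triangle _ _ _).trans ((add_le_add h1 h2).trans (le_of_eq ?_))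
      push_cast
      ring
  have h := key N le_rfl
  rw [div_self hN0.ne'] at h
  refine h.trans (le_of_eq ?_)
  field_simp

/-- Subdivide `[0, 1]` into `N` equal parts, `N` large. By `kgeo_conv` (helper37),
`d (s c 1, s c' 1) ≤ (1/k) d (s c k, s c' k) = (1/k) |c - c'| len p x` for `|c - c'| ≤ 1/N`
(`IsSection.near` gives the closeness which `kgeo_conv` needs, `ep_dist` the distance of the end
points). By the triangle inequality `d (s 0 1, s 1 1) ≤ (1/k) len p x`. As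
`d (vert O, s c 1) = ℓ c / k ≤ r0 / 16`, the cone formula at `O` gives
`(ℓ 0 / k)² + (ℓ 1 / k)² - 2 (ℓ 0 / k) (ℓ 1 / k) cos a ≤ (len p x / k)²`. -/
theorem hinge_O {V : Type} {Y : Complex2 V} {len : V → V → ℝ} {Γ : V → MGraph V}
    (R : Realization Y len Γ) (hlen : ∀ a b, Y.edge a b → 0 < len a b) (O p x : V)
    (hpx : Y.edge p x) (k : ℕ) (hk : 0 < k) (s : ℝ → ℕ → R.M) (ℓ : ℝ → ℝ)
    (hs : IsSection k (R.vert O) (R.r0 / 16) R.lip (Set.Icc (0 : ℝ) 1) (R.ep p x) s ℓ) :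
    ℓ 0 ^ 2 + ℓ 1 ^ 2 - 2 * ℓ 0 * ℓ 1 *
      Real.cos (R.a O (R.dir O (s 0 1)) (R.dir O (s 1 1))) ≤ len p x ^ 2 := by
  have hr0 : 0 < R.r0 := R.cn.1
  have hl : 0 < len p x := hlen _ _ hpx
  have hkR : (0 : ℝ) < k := by exact_mod_cast hk
  have h01 : (0 : ℝ) ∈ Set.Icc (0 : ℝ) 1 := ⟨le_rfl, zero_le_one⟩
  have h11 : (1 : ℝ) ∈ Set.Icc (0 : ℝ) 1 := ⟨zero_le_one, le_rfl⟩
  have hd : ∀ c ∈ Set.Icc (0 : ℝ) 1, dist (R.vert O) (s c 1) = ℓ c / k := by
    intro c hc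
    have h := (hs.geo c hc).step 0 hk
    rw [hs.start c hc] at h
    exact h
  have hlt : ∀ c ∈ Set.Icc (0 : ℝ) 1, dist (R.vert O) (s c 1) < R.r0 := by
    intro c hc
    have h := hs.len c hc
    rw [hd c hc, div_lt_iff₀ hkR]
    nlinarith
  have h1 := HO_far R hlen O p x hpx k hk s ℓ hs
  rw [R.cone O (s 0 1) (s 1 1) (hlt 0 h01) (hlt 1 h11), hd 0 h01, hd 1 h11] at h1
  unfold cdist at h1
  have h2 := (Real.sqrt_le_left (div_nonneg hl.le hkR.le)).mp h1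
  have h3 := mul_le_mul_of_nonneg_left h2 (sq_nonneg (k : ℝ))
  have e1 : (k : ℝ) ^ 2 * (len p x / k) ^ 2 = len p x ^ 2 := by
    field_simp
  have e2 : (k : ℝ) ^ 2 * ((ℓ 0 / k) ^ 2 + (ℓ 1 / k) ^ 2 - 2 * (ℓ 0 / k) * (ℓ 1 / k) *
      Real.cos (R.a O (R.dir O (s 0 1)) (R.dir O (s 1 1)))) = ℓ 0 ^ 2 + ℓ 1 ^ 2 -
      2 * ℓ 0 * ℓ 1 * Real.cos (R.a O (R.dir O (s 0 1)) (R.dir O (s 1 1))) := by
    field_simp
  rw [e1] at h3
  rw [← e2]
  exact h3

end Pool.Agent.helper55.LR
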