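import Pool.Agent.helper60.FJ3.Real

set_option autoImplicit false

/-!
# LRA-RINJ: the realisation, with injectivity on vertices
-/

namespace Pool.Agent.helper55.LR

open Pool.Agent.helper34.FJ2 Pool.Agent.helper34.FJ3
open Pool.Agent.helper60.FJ3
open scoped BigOperators

/-- different vertices are different points -/
theorem RINJ_vrt {V : Type} {Y : Complex2 V} {a b : V} (h : vrt Y a = vrt Y b) : a = b := by
  classical
  have h1 : (vrt Y a).x = (vrt Y b).x := by rw [h]
  have h2 : Finsupp.single a (1 : ℝ) = Finsupp.single b (1 : ℝ) := h1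
  rcases (Finsupp.single_eq_single_iff a b (1 : ℝ) 1).1 h2 with h3 | h3
  · exact h3.1
  · exact absurd h3.1 one_ne_zero

/-- `exists_realization` of helper60 with the additional information that different vertices are
different points (in the construction the points are the `YPt Y`, a vertex is a unit vector). Copy
the proof and add this. -/
theorem exists_realization_inj {V : Type} (Y : Complex2 V) (len : V → V → ℝ)
    (hs : SimplyConnected Y) (hn : NPC Y len)
    (hf : {r : ℝ | ∃ a b, Y.edge a b ∧ len a b = r}.Finite) :
    ∃ R : Realization Y len (linkG Y len hn hf), ∀ a b, R.vert a = R.vert b → a = b := by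
  classical
  obtain ⟨c, C0, hc, hcC⟩ := Pool.Agent.helper68.FJ3.eD_bounds Y len hn hf
  obtain ⟨C, hC, hgb⟩ := Pool.Agent.helper68.FJ3.gD_bounds Y len hn hf
  have hl1 := Pool.Agent.helper68.FJ3.l1_metric Y
  obtain ⟨d, hd, hlow, hup, hch⟩ := Pool.Agent.helper68.FJ3.chain_metric (YPt.l1 (Y := Y)) hl1 YPt.Comm
    (YPt.eD len) (fun x => ⟨_, x.simp, subset_rfl, subset_rfl⟩)
    (fun x y ⟨σ, h1, h2, h3⟩ => ⟨σ, h1, h3, h2⟩) (fun x y => Real.sqrt_nonneg _)
    (fun x y => by
      unfold YPt.eD
      congr 1
      have h1 : x.x - y.x = -(y.x - x.x) := by abel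
      rw [h1, sqd_neg])
    c C0 hc (fun x y h => (hcC x y h).1) (fun x y h => (hcC x y h).2) (Pool.Agent.helper68.FJ3.comm_near Y)
    (Pool.Agent.helper68.FJ3.comm_conn Y hs)
  choose a ha using fun v => Pool.Agent.helper26.FJ3.exists_linkMetric (linkG Y len hn hf v)
  choose pol h1 h2 h3 h4 h5 h6 h7 using fun v =>
    Pool.Agent.helper84.FJ3.exists_polar Y len hn hf v (a v) (ha v)
  let D : Dat Y len (linkG Y len hn hf) :=
    { d := d
      d_nonneg := hd.nonneg
      d_self := hd.self
      d_eq := hd.eq
      d_symm := hd.symm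
      d_tri := hd.tri
      c := c
      hc := hc
      low := hlow
      up := hup
      ch := hch
      C := C
      hC := hC
      gb := hgb
      hadj := fun v b c h => h
      a := a
      ha := ha
      pol := pol
      pnn := h1
      pz := h2
      pc := h3
      pv := h4
      pe := h5
      pr := h6
      ps := h7 }
  let _ : MetricSpace (YPt Y) := D.ms
  have hcomplete : CompleteSpace (YPt Y) := by
    apply Metric.complete_of_cauchySeq_tendsto
    intro u hu
    rw [Metric.cauchySeq_iff] at hu
    obtain ⟨x, hx⟩ := hd.complete u (by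
      intro ε hε
      obtain ⟨N, hN⟩ := hu ε hε
      exact ⟨N, fun m n hm hn => hN m hm n hn⟩)
    exact ⟨x, Metric.tendsto_atTop.2 hx⟩
  have hη := D.η_pos
  refine ⟨
    { M := YPt Y
      ms := D.ms
      cs := hcomplete
      r0 := D.η / 3
      cn := ⟨by linarith, fun x y h t ht ht' => D.lcn x y h t ht ht'⟩
      vert := vrt Y
      ep := ep Y
      ep_zero := fun a b h => ep_zero h
      ep_symm := fun a b t h => ep_symm h t
      ep_dist := fun a b t t' h ht ht1 ht' ht1' hlt =>
        D.ep_dist hn a b t t' h ht ht1 ht' ht1' hlt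
      tp := tp Y
      tp_ab := fun a b c t h => tp_ab h t
      tp_ac := fun a b c t h => tp_ac h t
      tp_bc := fun a b c t h => tp_bc h t
      lip := 4 * |C0| + 1
      lip_pos := by positivity
      ep_lip := by
        intro a b t t' h ht ht1 ht' ht1'
        have e1 := D.up _ _ (ep_comm h t t')
        have e2 := (hcC _ _ (ep_comm h t t')).2
        have e3 := l1_ep h ht ht1 ht' ht1'
        have e4 : C0 * YPt.l1 (ep Y a b t) (ep Y a b t') ≤
            |C0| * (2 * |t - t'|) :=
          mul_le_mul (le_abs_self _) e3 (hl1.nonneg _ _) (abs_nonneg _)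
        have e5 : 0 ≤ |C0| * |t - t'| := by positivity
        have e6 := abs_nonneg (t - t')
        change D.d (ep Y a b t) (ep Y a b t') ≤ _
        nlinarith
      tp_lip := by
        intro a b c h u hu w hw
        have e1 := D.up _ _ (tp_comm h hu hw)
        have e2 := (hcC _ _ (tp_comm h hu hw)).2
        have e3 := l1_tp h hu hw
        have e4 : C0 * YPt.l1 (tp Y a b c u) (tp Y a b c w) ≤
            |C0| * (4 * ‖u - w‖) :=
          mul_le_mul (le_abs_self _) e3 (hl1.nonneg _ _) (abs_nonneg _)
        have e6 := norm_nonneg (u - w)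
        change D.d (tp Y a b c u) (tp Y a b c w) ≤ _
        nlinarith
      a := a
      ha := ha
      dir := D.dir
      cone := fun p q q' h h' => D.cone_eq p q q' h h'
      dir_ep := fun p x t h ht ht1 hlt => D.dir_ep hn p x t h ht ht1 hlt }, ?_⟩
  intro a b hab
  exact RINJ_vrt hab

end Pool.Agent.helper55.LR
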