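import Pool.Agent.helper55.LR.HingeP
import Pool.Agent.helper55.LR.HingeO
import Pool.Agent.helper55.LR.RInj

set_option autoImplicit false

/-!
# LRA-SET: comparison of the triangles with vertex at the base point
-/

namespace Pool.Agent.helper55.LR

open Pool.Agent.helper34.FJ2 Pool.Agent.helper34.FJ3
open scoped BigOperators

/-- a discrete geodesic has nonnegative length -/
theorem SET_nonneg {M : Type} [MetricSpace M] {k : ℕ} (hk : 0 < k) {L : ℝ} {q : ℕ → M}
    (h : KGeo k L q) : 0 ≤ L := by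
  have hk0 : (0 : ℝ) < k := Nat.cast_pos.mpr hk
  have h1 := h.step 0 hk
  have h2 : 0 ≤ L / k := by
    rw [← h1]
    exact dist_nonneg
  by_contra hneg
  push Not at hneg
  have := div_neg_of_neg_of_pos hneg hk0
  linarith

/-- a discrete geodesic of length `0` is constant -/
theorem SET_const {M : Type} [MetricSpace M] {k : ℕ} {q : ℕ → M} (h : KGeo k 0 q) :
    ∀ i, i ≤ k → q i = q 0 := by
  intro i
  induction i with
  | zero => exact fun _ => rfl
  | succ i ih =>
    intro hi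
    have h1 := h.step i (by omega)
    rw [zero_div, dist_eq_zero] at h1
    rw [← h1]
    exact ih (by omega)

/-- The directions `ξ p` at `p` and `η p` at `O` of the discrete geodesics from the base point `O` to
the vertices `p` of a finite set, and their lengths `L p`. As `POL_setup` in `EV/Poly.lean`
(`exists_transport_base`, `straight1`), with `hinge_p` and `hinge_O` instead of the first
variation. `ξ p = R.dir p (q p (k - 1))`, `η p = R.dir O (q p 1)`; for a neighbour `m` of `O` the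
geodesic is the edge: `q m i = R.ep O m (i / k)`, so `η m` is the direction of `m` (`dir_ep`) and
`L m = len O m` (from `KGeo.step` and `ep_dist`). If `p ≠ O` then `0 < L p`: otherwise `q p` would
be constant and `vert p = vert O`. -/
theorem setup2 {V : Type} {Y : Complex2 V} {len : V → V → ℝ} {Γ : V → MGraph V}
    (R : Realization Y len Γ) (hinj : ∀ a b, R.vert a = R.vert b → a = b)
    (hs : SimplyConnected Y) (hn : NPC Y len) (O : V) (F : Set V) (hF : F.Finite) (hO : O ∈ F) :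
    ∃ (ξ : ∀ p, (Γ p).Pt) (η : V → (Γ O).Pt) (L : V → ℝ),
      (∀ p ∈ F, p ≠ O → 0 < L p) ∧
      (∀ p ∈ F, ∀ x ∈ F, Y.edge p x → p ≠ O →
        L p ^ 2 + len p x ^ 2 - 2 * L p * len p x * Real.cos (R.a p (ξ p) ((Γ p).vtx x)) ≤
          L x ^ 2) ∧
      (∀ m ∈ F, Y.edge O m → R.a m (ξ m) ((Γ m).vtx O) = 0 ∧ L m = len O m ∧
        R.a O (η m) ((Γ O).vtx m) = 0) ∧
      (∀ p ∈ F, ∀ x ∈ F, Y.edge p x →
        L p ^ 2 + L x ^ 2 - 2 * L p * L x * Real.cos (R.a O (η p) (η x)) ≤ len p x ^ 2) := by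
  classical
  have hr0 : 0 < R.r0 := R.cn.1
  have hlip := R.lip_pos
  have hr16 : 0 < R.r0 / 16 := by positivity
  obtain ⟨K0, hK0⟩ := exists_nat_gt (R.lip / (R.r0 / 16))
  obtain ⟨k, q, L, hk, hkK, hq, hsec, hqO⟩ :=
    Pool.Agent.helper55.EV.exists_transport_base R hs O F hF hO K0
  have hk0 : (0 : ℝ) < k := Nat.cast_pos.mpr hk
  have hkK' : (K0 : ℝ) ≤ k := by exact_mod_cast hkK
  have hk1 : R.lip ≤ k * (R.r0 / 16) := by
    have h1 : R.lip / (R.r0 / 16) < k := hK0.trans_le hkK'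
    rw [div_lt_iff₀ hr16] at h1
    exact h1.le
  -- positive lengths
  have hpos : ∀ p ∈ F, p ≠ O → 0 < L p := by
    intro p hp hpO
    obtain ⟨h1, -, h3, h4⟩ := hq p hp
    rcases (SET_nonneg hk h1).eq_or_lt with h5 | h5
    · exfalso
      rw [← h5] at h1
      have h6 := SET_const h1 k le_rfl
      rw [h3, h4] at h6
      exact hpO (hinj _ _ h6)
    · exact h5
  -- the geodesics to the neighbours of the base point
  have key1 : ∀ m ∈ F, Y.edge O m → (∀ i, i ≤ k → q m i = R.ep O m (i / k)) ∧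
      R.a m (R.dir m (q m (k - 1))) ((Γ m).vtx O) = 0 := by
    intro m hm hOm
    obtain ⟨s, ℓ, h1, h2, h3, h4⟩ := Pool.Agent.helper55.EV.straight1 R hn O m hOm k hk hk1
    obtain ⟨s', ℓ', h1', h2', h3', -, -⟩ := hsec O hO m hm hOm
    have h5 : s 1 = s' 1 := Pool.Agent.helper34.FJ3.secUniq R.M R.r0 k R.cn hk ℝ
      (Set.Icc (0 : ℝ) 1) (convex_Icc 0 1) 0
      Pool.Agent.helper40.FJ3.zero_mem_I _ _ R.lip_pos _ _ _ _ _ h1 h1'
      (by rw [h2, h2', hqO]) 1 Pool.Agent.helper40.FJ3.one_mem_I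
    rw [h3'] at h5
    rw [h5] at h3 h4
    exact ⟨h3, h4⟩
  refine ⟨fun p => R.dir p (q p (k - 1)), fun p => R.dir O (q p 1), L, hpos, ?_, ?_, ?_⟩
  · intro p hp x hx hpx hpO
    obtain ⟨s, ℓ, hsl, hs0, hs1, hl0, hl1⟩ := hsec p hp x hx hpx
    have h3 := hinge_p R hn.pos O p x hpx k hk s ℓ hsl (by rw [hl0]; exact hpos p hp hpO)
    rwa [hl0, hl1, hs0] at h3
  · intro m hm hOm
    obtain ⟨h1, h2⟩ := key1 m hm hOm
    have hL : 0 < len O m := hn.pos _ _ hOm
    have hLl := Pool.Agent.helper55.EV.SEC1_len_le_lip R hn O m hOm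
    have hLk : 1 / (k : ℝ) * len O m < R.r0 := by
      rw [one_div_mul_eq_div, div_lt_iff₀ hk0]
      have : (k : ℝ) * (R.r0 / 16) < R.r0 * k := by nlinarith
      linarith
    have hk11 : 1 / (k : ℝ) ≤ 1 := by
      rw [div_le_one hk0]
      exact_mod_cast hk
    refine ⟨h2, ?_, ?_⟩
    · have h3 := (hq m hm).1.step 0 hk
      rw [h1 0 (Nat.zero_le _), zero_add, h1 1 hk, Nat.cast_zero, zero_div, Nat.cast_one,
        R.ep_dist O m 0 (1 / k) hOm le_rfl zero_le_one (by positivity) hk11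
          (by rw [zero_sub, abs_neg, abs_of_pos (by positivity)]; exact hLk),
        zero_sub, abs_neg, abs_of_pos (by positivity), one_div_mul_eq_div] at h3
      have h4 := (div_left_inj' hk0.ne').1 h3
      exact h4.symm
    · have h3 := h1 1 hk
      rw [Nat.cast_one] at h3
      beta_reduce
      rw [h3]
      exact R.dir_ep O m (1 / k) hOm (by positivity) hk11 hLk
  · intro p hp x hx hpx
    obtain ⟨s, ℓ, hsl, hs0, hs1, hl0, hl1⟩ := hsec p hp x hx hpx
    have h3 := hinge_O R hn.pos O p x hpx k hk s ℓ hsl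
    rwa [hl0, hl1, hs0, hs1] at h3

end Pool.Agent.helper55.LR
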