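import Pool.Agent.helper55.EV.Link
import Pool.Agent.helper55.LR.Setup2
import Pool.Agent.helper55.LR.Euc

set_option autoImplicit false

/-!
# LRA-POLY: the sum of the angles of a closed edge path
-/

namespace Pool.Agent.helper55.LR

open Pool.Agent.helper55.EV
open Pool.Agent.helper34.FJ2 Pool.Agent.helper34.FJ3
open scoped BigOperators

/-- the trivial certificate -/
theorem POLY_far_zero {V : Type} (Y : Complex2 V) (len : V → V → ℝ) (p b c : V) :
    Far Y len p b c 0 := by
  refine ⟨fun _ => 0, fun x y _ => ?_, ?_⟩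
  · rw [sub_self, abs_zero]
    exact Real.arccos_nonneg _
  · exact abs_nonneg _

/-- the triangle inequality along a sequence of points -/
theorem POLY_chain {Θ : Type} (a : Θ → Θ → ℝ) (hr : ∀ x, a x x = 0)
    (ht : ∀ x y z, a x z ≤ a x y + a y z) (η : ℕ → Θ) (n : ℕ) :
    a (η 0) (η n) ≤ ∑ i ∈ Finset.range n, a (η i) (η (i + 1)) := by
  induction n with
  | zero => simp [hr]
  | succ n ih =>
    rw [Finset.sum_range_succ]
    exact (ht _ (η n) _).trans (by linarith)

/-- the case where the base point is not passed again -/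
theorem POLY_core {V : Type} (Y : Complex2 V) (len : V → V → ℝ) (hs : SimplyConnected Y)
    (hn : NPC Y len) (hf : {r : ℝ | ∃ a b, Y.edge a b ∧ len a b = r}.Finite) (n : ℕ)
    (p : ℕ → V) (hp : p (n + 3) = p 0) (he : ∀ i, i < n + 3 → Y.edge (p i) (p (i + 1)))
    (θ : ℕ → ℝ)
    (hpi : ∀ i, i < n + 3 → θ i ≤ Real.pi)
    (hfar : ∀ i, i + 1 < n + 3 → Far Y len (p (i + 1)) (p i) (p (i + 2)) (θ (i + 1)))
    (hfar0 : Far Y len (p 0) (p (n + 2)) (p 1) (θ 0))
    (hne : ∀ i, i < n + 2 → p (i + 1) ≠ p 0) :
    ∑ i ∈ Finset.range (n + 3), θ i ≤ ((n : ℝ) + 1) * Real.pi := by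
  classical
  obtain ⟨R, hinj⟩ := exists_realization_inj Y len hs hn hf
  have hFF : (Set.range fun i : Fin (n + 4) => p i).Finite := Set.finite_range _
  have hmem : ∀ i, i < n + 4 → p i ∈ (Set.range fun i : Fin (n + 4) => p i) :=
    fun i hi => ⟨⟨i, hi⟩, rfl⟩
  obtain ⟨ξ, η, L, g1, g2, g3, g4⟩ := setup2 R hinj hs hn (p 0) _ hFF (hmem 0 (by omega))
  set β : ℕ → ℝ := fun i => R.a (p (i + 1)) (ξ (p (i + 1)))
    ((linkG Y len hn hf (p (i + 1))).vtx (p (i + 2))) with hβ
  set β' : ℕ → ℝ := fun i => R.a (p (i + 1)) (ξ (p (i + 1)))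
    ((linkG Y len hn hf (p (i + 1))).vtx (p i)) with hβ'
  set γ : ℕ → ℝ := fun i => R.a (p 0) (η (p (i + 1))) (η (p (i + 2))) with hγ
  have hL : ∀ i, i < n + 2 → 0 < L (p (i + 1)) := fun i hi =>
    g1 _ (hmem _ (by omega)) (hne i hi)
  -- the triangles
  have htri : ∀ i, i < n + 1 → β i + β' (i + 1) + γ i ≤ Real.pi := by
    intro i hi
    have he1 := he (i + 1) (by omega)
    have hm1 := hmem (i + 1) (by omega)
    have hm2 := hmem (i + 2) (by omega)
    have k1 := g2 _ hm1 _ hm2 he1 (hne i (by omega))
    have k2 := g2 _ hm2 _ hm1 (Y.edge_symm _ _ he1) (hne (i + 1) (by omega))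
    have k3 := g4 _ hm1 _ hm2 he1
    rw [hn.symm (p (i + 2)) (p (i + 1))] at k2
    exact angle_sum_le (hL i (by omega)) (hL (i + 1) (by omega)) (hn.pos _ _ he1)
      ((R.ha _).nonneg _ _) ((R.ha _).le_pi _ _) ((R.ha _).nonneg _ _) ((R.ha _).le_pi _ _)
      ((R.ha _).nonneg _ _) ((R.ha _).le_pi _ _) k1 k2 k3
  -- the angles
  have hang : ∀ i, i < n + 2 → θ (i + 1) ≤ β' i + β i := by
    intro i hi
    have e1 := link_far hn hf (p (i + 1)) (R.a _) (R.ha _) (p i) (p (i + 2)) (θ (i + 1))
      (hpi _ (by omega)) (hfar i (by omega))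
    have e2 := (R.ha (p (i + 1))).tri ((linkG Y len hn hf (p (i + 1))).vtx (p i))
      (ξ (p (i + 1))) ((linkG Y len hn hf (p (i + 1))).vtx (p (i + 2)))
    rw [(R.ha (p (i + 1))).symm _ (ξ (p (i + 1)))] at e2
    exact e1.trans e2
  have hb0 : β' 0 = 0 := (g3 _ (hmem 1 (by omega)) (he 0 (by omega))).1
  have hlast : Y.edge (p 0) (p (n + 2)) := by
    have := Y.edge_symm _ _ (he (n + 2) (by omega))
    rwa [hp] at this
  have hb1 : β (n + 1) = 0 := by
    have := (g3 _ (hmem (n + 2) (by omega)) hlast).1
    rw [← hp] at this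
    exact this
  have hθ0 : θ 0 ≤ ∑ i ∈ Finset.range (n + 1), γ i := by
    have e1 := link_far hn hf (p 0) (R.a _) (R.ha _) (p (n + 2)) (p 1) (θ 0)
      (hpi _ (by omega)) hfar0
    have e2 := (g3 _ (hmem 1 (by omega)) (he 0 (by omega))).2.2
    have e3 := (g3 _ (hmem (n + 2) (by omega)) hlast).2.2
    have e4 := (R.ha (p 0)).tri ((linkG Y len hn hf (p 0)).vtx (p (n + 2))) (η (p 1))
      ((linkG Y len hn hf (p 0)).vtx (p 1))
    have e5 := (R.ha (p 0)).tri ((linkG Y len hn hf (p 0)).vtx (p (n + 2))) (η (p (n + 2)))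
      (η (p 1))
    have s1 := (R.ha (p 0)).symm ((linkG Y len hn hf (p 0)).vtx (p (n + 2))) (η (p (n + 2)))
    have s2 := (R.ha (p 0)).symm (η (p (n + 2))) (η (p 1))
    have e6 := POLY_chain (R.a (p 0)) (R.ha (p 0)).refl (R.ha (p 0)).tri
      (fun i => η (p (i + 1))) (n + 1)
    have e7 : R.a (p 0) (η (p 1)) (η (p (n + 2))) ≤ ∑ i ∈ Finset.range (n + 1), γ i := e6
    linarith
  have hsum : ∑ i ∈ Finset.range (n + 1), (β i + β' (i + 1) + γ i) ≤ ((n : ℝ) + 1) * Real.pi := by
    have h1 := Finset.sum_le_sum fun i hi => htri i (Finset.mem_range.mp hi)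
    rw [Finset.sum_const, Finset.card_range, nsmul_eq_mul] at h1
    push_cast at h1
    exact h1
  rw [Finset.sum_add_distrib, Finset.sum_add_distrib] at hsum
  have hsum2 : ∑ i ∈ Finset.range (n + 2), θ (i + 1) ≤
      ∑ i ∈ Finset.range (n + 2), β' i + ∑ i ∈ Finset.range (n + 2), β i := by
    rw [← Finset.sum_add_distrib]
    exact Finset.sum_le_sum fun i hi => hang i (Finset.mem_range.mp hi)
  rw [Finset.sum_range_succ' β', Finset.sum_range_succ β, hb0, hb1] at hsum2
  rw [Finset.sum_range_succ']
  linarith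

/-- The sum of the angles of a closed edge path with `N` vertices is at most `(N - 2) π`.

Proof. Strong induction on `N`. If the path passes the base point again at the time `i`, use the
theorem for the two closed paths `p 0, …, p i` and `p i, …, p N` with the angle `0` at the base point;
otherwise `POLY_core`. -/
theorem poly {V : Type} (Y : Complex2 V) (len : V → V → ℝ) (hs : SimplyConnected Y)
    (hn : NPC Y len) (hf : {r : ℝ | ∃ a b, Y.edge a b ∧ len a b = r}.Finite) (N : ℕ) (hN : 2 ≤ N)
    (p : ℕ → V) (hp : p N = p 0) (he : ∀ i, i < N → Y.edge (p i) (p (i + 1))) (θ : ℕ → ℝ)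
    (h0 : ∀ i, i < N → 0 ≤ θ i) (hpi : ∀ i, i < N → θ i ≤ Real.pi)
    (hfar : ∀ i, i + 1 < N → Far Y len (p (i + 1)) (p i) (p (i + 2)) (θ (i + 1)))
    (hfar0 : Far Y len (p 0) (p (N - 1)) (p 1) (θ 0)) :
    ∑ i ∈ Finset.range N, θ i ≤ ((N : ℝ) - 2) * Real.pi := by
  induction N using Nat.strong_induction_on generalizing p θ with
  | _ N ih =>
    rcases Nat.lt_or_ge N 3 with h3 | h3
    · obtain rfl : N = 2 := by omega
      obtain ⟨F, -, h1⟩ := hfar 0 (by omega)
      obtain ⟨F', -, h2⟩ := hfar0
      rw [show p (0 + 2) = p 0 from hp, sub_self, abs_zero] at h1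
      rw [show p (2 - 1) = p 1 from rfl, sub_self, abs_zero] at h2
      rw [Finset.sum_range_succ, Finset.sum_range_succ, Finset.sum_range_zero]
      norm_num
      simp only [zero_add] at h1
      linarith
    · by_cases hb : ∃ i, 0 < i ∧ i < N ∧ p i = p 0
      · obtain ⟨i, hi0, hiN, hpi0⟩ := hb
        have hi1 : i ≠ 1 := by
          rintro rfl
          have := he 0 (by omega)
          rw [zero_add, hpi0] at this
          exact Y.edge_irrefl _ this
        have hi2 : i + 1 ≠ N := by
          intro h
          have := he i hiN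
          rw [h, hpi0, hp] at this
          exact Y.edge_irrefl _ this
        have k1 := ih i hiN (by omega) p hpi0 (fun j hj => he j (by omega))
          (fun j => if j = 0 then 0 else θ j)
          (fun j hj => by
            split_ifs
            · exact le_rfl
            · exact h0 j (by omega))
          (fun j hj => by
            split_ifs
            · exact Real.pi_pos.le
            · exact hpi j (by omega))
          (fun j hj => by
            rw [if_neg (by omega)]
            exact hfar j (by omega))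
          (by
            rw [if_pos rfl]
            exact POLY_far_zero _ _ _ _ _)
        have k2 := ih (N - i) (by omega) (by omega) (fun j => p (i + j))
          (by
            rw [Nat.add_sub_cancel' hiN.le, hp, Nat.add_zero, hpi0])
          (fun j hj => he (i + j) (by omega))
          (fun j => if j = 0 then 0 else θ (i + j))
          (fun j hj => by
            split_ifs
            · exact le_rfl
            · exact h0 _ (by omega))
          (fun j hj => by
            split_ifs
            · exact Real.pi_pos.le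
            · exact hpi _ (by omega))
          (fun j hj => by
            rw [if_neg (by omega)]
            exact hfar (i + j) (by omega))
          (by
            rw [if_pos rfl]
            exact POLY_far_zero _ _ _ _ _)
        have e1 : ∀ m : ℕ, ∀ f : ℕ → ℝ, 0 < m →
            ∑ j ∈ Finset.range m, f j =
              ∑ j ∈ Finset.range m, (if j = 0 then 0 else f j) + f 0 := by
          intro m f hm
          obtain ⟨m, rfl⟩ : ∃ k, m = k + 1 := ⟨m - 1, by omega⟩
          rw [Finset.sum_range_succ', Finset.sum_range_succ']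
          simp
        have e2 : ∑ j ∈ Finset.range N, θ j =
            ∑ j ∈ Finset.range i, θ j + ∑ j ∈ Finset.range (N - i), θ (i + j) := by
          rw [← Finset.sum_range_add]
          congr 2
          omega
        have e3 := e1 i θ hi0
        have e4 := e1 (N - i) (fun j => θ (i + j)) (by omega)
        have e5 : ((N - i : ℕ) : ℝ) = (N : ℝ) - i := Nat.cast_sub hiN.le
        rw [e5] at k2
        rw [Nat.add_zero] at e4
        have e6 := hpi 0 (by omega)
        have e7 := hpi i hiN
        rw [e2, e3, e4]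
        linarith
      · push Not at hb
        obtain ⟨n, rfl⟩ : ∃ n, N = n + 3 := ⟨N - 3, by omega⟩
        have := POLY_core Y len hs hn hf n p hp he θ hpi hfar hfar0
          (fun i hi => hb (i + 1) (by omega) (by omega))
        push_cast
        linarith

end Pool.Agent.helper55.LR
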