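import Pool.Agent.helper55.LR.TogA
import Pool.Agent.helper55.LR.PolyG

set_option autoImplicit false

/-!
# LRA-GIR: alternating relations from the geometry of the development
-/

namespace Pool.Agent.helper55.LR

open Pool.Agent.helper55.EV
open Pool.Agent.helper34.FJ2 Pool.Agent.helper34.FJ3
open scoped BigOperators

theorem GIR_tv_eq {G : Type} [Group G] (H : Fin 3 → Subgroup G) (t : Fin 3) {g g' : G}
    (h : g⁻¹ * g' ∈ H t) : tv H t g = tv H t g' :=
  congrArg (Sigma.mk t) (QuotientGroup.eq.2 h)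

theorem GIR_tv_ne {G : Type} [Group G] (H : Fin 3 → Subgroup G) (t : Fin 3) {g g' : G}
    (h : g⁻¹ * g' ∉ H t) : tv H t g ≠ tv H t g' := by
  intro h1
  apply h
  have h2 : (g : G ⧸ H t) = (g' : G ⧸ H t) := eq_of_heq (Sigma.mk.inj h1).2
  exact QuotientGroup.eq.1 h2

theorem GIR_edge {G : Type} [Group G] (H : Fin 3 → Subgroup G) {t t' : Fin 3} (ht : t ≠ t')
    {g₁ g₂ : G} (g : G) (h1 : g₁⁻¹ * g ∈ H t) (h2 : g₂⁻¹ * g ∈ H t') :
    (tog H).edge (tv H t g₁) (tv H t' g₂) :=
  ⟨g, t, t', ht, GIR_tv_eq H t h1, GIR_tv_eq H t' h2⟩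

theorem GIR_types (t t' t'' : Fin 3) (h1 : t ≠ t') (h2 : t' ≠ t'') (h3 : t ≠ t'') :
    (t = 1 → (t' = 0 ∧ t'' = 2) ∨ (t' = 2 ∧ t'' = 0)) ∧
    (t = 0 → (t' = 1 ∧ t'' = 2) ∨ (t' = 2 ∧ t'' = 1)) := by
  revert t t' t''
  decide

/-- the certificate: `0` at `b`, `r` at the other vertices of type `t`, `r / 2` elsewhere -/
theorem GIR_far {G : Type} [Group G] (H : Fin 3 → Subgroup G) (len : TV H → TV H → ℝ)
    (p b c : TV H) (t : Fin 3)
    (r : ℝ) (hr : 0 < r) (hb : b.1 = t) (hc : c.1 = t) (hbc : b ≠ c)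
    (hcor : ∀ x y, (tog H).tri p x y → corner len p x y = r / 2 ∧
      ((x.1 = t ∧ y.1 ≠ t) ∨ (x.1 ≠ t ∧ y.1 = t))) : Far (tog H) len p b c r := by
  classical
  have key : ∀ u v : TV H, u.1 = t → v.1 ≠ t →
      |(if u = b then (0 : ℝ) else if u.1 = t then r else r / 2) -
        (if v = b then (0 : ℝ) else if v.1 = t then r else r / 2)| ≤ r / 2 := by
    intro u v hu hv
    have hvb : v ≠ b := by
      rintro rfl
      exact hv hb
    rw [if_neg hvb, if_neg hv, if_pos hu]
    split_ifs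
    · rw [zero_sub, abs_neg, abs_of_pos (by positivity)]
    · rw [show r - r / 2 = r / 2 by ring, abs_of_pos (by positivity)]
  refine ⟨fun v => if v = b then 0 else if v.1 = t then r else r / 2, ?_, ?_⟩
  · intro x y h
    obtain ⟨h1, h2⟩ := hcor x y h
    rw [h1]
    rcases h2 with ⟨h3, h4⟩ | ⟨h3, h4⟩
    · exact key x y h3 h4
    · rw [abs_sub_comm]
      exact key y x h4 h3
  · have h1 : (if b = b then (0 : ℝ) else if b.1 = t then r else r / 2) = 0 := if_pos rfl
    have h2 : (if c = b then (0 : ℝ) else if c.1 = t then r else r / 2) = r := by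
      rw [if_neg (Ne.symm hbc), if_pos hc]
    show r ≤ |(if b = b then (0 : ℝ) else if b.1 = t then r else r / 2) -
      (if c = b then (0 : ℝ) else if c.1 = t then r else r / 2)|
    rw [h1, h2, zero_sub, abs_neg, abs_of_pos hr]

/-- certificate in the link of a vertex of type `1` -/
theorem GIR_far1 {G : Type} [Group G] (H : Fin 3 → Subgroup G) {α : Fin 3 → ℝ} (hα : Ang α)
    (g b c : G) (hbc : b⁻¹ * c ∉ H 0) :
    Far (tog H) (alen H α) (tv H 1 g) (tv H 0 b) (tv H 0 c) (2 * α 1) := by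
  have hpos := hα.pos 1
  refine GIR_far H _ _ _ _ 0 (2 * α 1) (by linarith) rfl rfl (GIR_tv_ne H 0 hbc) ?_
  intro x y h
  refine ⟨?_, ?_⟩
  · have h1 : corner (alen H α) (tv H 1 g) x y = α 1 := alen_corner H hα _ x y h
    rw [h1]
    ring
  · obtain ⟨k, t, t', t'', h1, h2, h3, e1, e2, e3⟩ := h
    have ht : t = 1 := (congrArg Sigma.fst e1).symm
    have hx : x.1 = t' := by rw [e2]; rfl
    have hy : y.1 = t'' := by rw [e3]; rfl
    rcases (GIR_types t t' t'' h1 h2 h3).1 ht with ⟨h4, h5⟩ | ⟨h4, h5⟩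
    · left
      rw [hx, hy, h4, h5]
      exact ⟨rfl, by decide⟩
    · right
      rw [hx, hy, h4, h5]
      exact ⟨by decide, rfl⟩

/-- certificate in the link of a vertex of type `0` -/
theorem GIR_far0 {G : Type} [Group G] (H : Fin 3 → Subgroup G) {α : Fin 3 → ℝ} (hα : Ang α)
    (g b c : G) (hbc : b⁻¹ * c ∉ H 1) :
    Far (tog H) (alen H α) (tv H 0 g) (tv H 1 b) (tv H 1 c) (2 * α 0) := by
  have hpos := hα.pos 0
  refine GIR_far H _ _ _ _ 1 (2 * α 0) (by linarith) rfl rfl (GIR_tv_ne H 1 hbc) ?_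
  intro x y h
  refine ⟨?_, ?_⟩
  · have h1 : corner (alen H α) (tv H 0 g) x y = α 0 := alen_corner H hα _ x y h
    rw [h1]
    ring
  · obtain ⟨k, t, t', t'', h1, h2, h3, e1, e2, e3⟩ := h
    have ht : t = 0 := (congrArg Sigma.fst e1).symm
    have hx : x.1 = t' := by rw [e2]; rfl
    have hy : y.1 = t'' := by rw [e3]; rfl
    rcases (GIR_types t t' t'' h1 h2 h3).2 ht with ⟨h4, h5⟩ | ⟨h4, h5⟩
    · left
      rw [hx, hy, h4, h5]
      exact ⟨rfl, by decide⟩
    · right
      rw [hx, hy, h4, h5]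
      exact ⟨by decide, rfl⟩

/-- the partial products `a_0 b_0 ⋯ a_(i-1) b_(i-1)` -/
def GIR_g {G : Type} [Group G] (a b : ℕ → G) (i : ℕ) : G :=
  ((List.range i).map fun i => a i * b i).prod

theorem GIR_g_zero {G : Type} [Group G] (a b : ℕ → G) : GIR_g a b 0 = 1 := rfl

theorem GIR_g_succ {G : Type} [Group G] (a b : ℕ → G) (i : ℕ) :
    GIR_g a b (i + 1) = GIR_g a b i * (a i * b i) := by
  unfold GIR_g
  rw [List.range_succ, List.map_append, List.prod_append, List.map_singleton, List.prod_singleton]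

/-- the vertices of the path -/
def GIR_p {G : Type} [Group G] (H : Fin 3 → Subgroup G) (a b : ℕ → G) (j : ℕ) : TV H :=
  if j % 2 = 0 then tv H 0 (GIR_g a b (j / 2)) else tv H 1 (GIR_g a b (j / 2) * a (j / 2))

theorem GIR_p_even {G : Type} [Group G] (H : Fin 3 → Subgroup G) (a b : ℕ → G) (k : ℕ) :
    GIR_p H a b (2 * k) = tv H 0 (GIR_g a b k) := by
  unfold GIR_p
  rw [if_pos (by omega), Nat.mul_div_cancel_left k (by norm_num)]

theorem GIR_p_odd {G : Type} [Group G] (H : Fin 3 → Subgroup G) (a b : ℕ → G) (k : ℕ) :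
    GIR_p H a b (2 * k + 1) = tv H 1 (GIR_g a b k * a k) := by
  unfold GIR_p
  have h1 : (2 * k + 1) / 2 = k := by omega
  rw [if_neg (by omega), h1]

/-- the angles -/
noncomputable def GIR_t (α : Fin 3 → ℝ) (j : ℕ) : ℝ := if j % 2 = 0 then 2 * α 0 else 2 * α 1

theorem GIR_t_even (α : Fin 3 → ℝ) (k : ℕ) : GIR_t α (2 * k) = 2 * α 0 := by
  unfold GIR_t
  rw [if_pos (by omega)]

theorem GIR_t_odd (α : Fin 3 → ℝ) (k : ℕ) : GIR_t α (2 * k + 1) = 2 * α 1 := by
  unfold GIR_t
  rw [if_neg (by omega)]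

theorem GIR_sum (α : Fin 3 → ℝ) (n : ℕ) :
    ∑ i ∈ Finset.range (2 * n), GIR_t α i = n * (2 * α 0 + 2 * α 1) := by
  induction n with
  | zero => simp
  | succ n ih =>
    have h1 : 2 * (n + 1) = 2 * n + 1 + 1 := by ring
    rw [h1, Finset.sum_range_succ, Finset.sum_range_succ, ih, GIR_t_even, GIR_t_odd]
    push_cast
    ring

/-- Let `a_0 b_0 ⋯ a_(n-1) b_(n-1) = 1` be an alternating relation between `H 0` and `H 1`. Put
`g_i = a_0 b_0 ⋯ a_(i-1) b_(i-1)` and consider the closed edge path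
`p_(2i) = g_i H_0`, `p_(2i+1) = g_i a_i H_1` (`= g_(i+1) H_1`) with `N = 2 n` vertices. At
`p_(2i) = g_i H_0` the neighbours are `g_i H_1` and `g_i a_i H_1` with `a_i ∈ H_0`, `a_i ∉ H_1`: they are
different neighbours of type `1`, so their distance in the link is at least `2 α_0`. Certificate
(`Far`): `F x = 0` if `x` is the first neighbour, `F x = 2 α_0` if `x` is another vertex of type `1`,
and `F x = α_0` if `x` is a vertex of type `2`; `F` of adjacent link vertices differs by at most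
`α_0`, the corner (`alen_corner`). Similarly `2 α_1` at `p_(2i+1)`. (Compare `EV/TG8.lean`.) By
`poly`, `n (2 α_0 + 2 α_1) ≤ (2 n - 2) π`, and `α_0 + α_1 = π - α_2`, so `π ≤ n α_2`. -/
theorem alt_angle {G : Type} [Group G] (H : Fin 3 → Subgroup G) {α : Fin 3 → ℝ} (hα : Ang α)
    (hs : SimplyConnected (tog H)) (hn : NPC (tog H) (alen H α)) (n : ℕ) (h0 : 0 < n)
    (h : Alt (H 0) (H 1) n) : Real.pi ≤ n * α 2 := by
  obtain ⟨a, b, hab, hrel⟩ := h
  have hgn : GIR_g a b n = 1 := hrel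
  have h01 : (0 : Fin 3) ≠ 1 := by decide
  have h10 : (1 : Fin 3) ≠ 0 := by decide
  have hpos0 := hα.pos 0
  have hpos1 := hα.pos 1
  have hle0 := hα.le 0
  have hle1 := hα.le 1
  have ht : ∀ i, 0 ≤ GIR_t α i ∧ GIR_t α i ≤ Real.pi := by
    intro i
    unfold GIR_t
    split_ifs <;> constructor <;> linarith
  have hmain := poly (tog H) (alen H α) hs hn (alen_fin H α) (2 * n) (by omega) (GIR_p H a b)
    (by
      have e1 := GIR_p_even H a b n
      have e2 := GIR_p_even H a b 0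
      rw [hgn] at e1
      rw [Nat.mul_zero, GIR_g_zero] at e2
      rw [e1, e2])
    (by
      intro i hi
      obtain ⟨k, hk | hk⟩ := Nat.even_or_odd' i
      · have hkn : k < n := by omega
        obtain ⟨ha, ha', hb, hb'⟩ := hab k hkn
        rw [hk, GIR_p_even, GIR_p_odd]
        exact GIR_edge H h01 (GIR_g a b k * a k) (by rwa [inv_mul_cancel_left])
          (by rw [inv_mul_cancel]; exact one_mem _)
      · have hkn : k < n := by omega
        obtain ⟨ha, ha', hb, hb'⟩ := hab k hkn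
        have e1 : 2 * k + 1 + 1 = 2 * (k + 1) := by ring
        rw [hk, GIR_p_odd, e1, GIR_p_even]
        refine GIR_edge H h10 (GIR_g a b (k + 1)) ?_ (by rw [inv_mul_cancel]; exact one_mem _)
        have e2 : (GIR_g a b k * a k)⁻¹ * GIR_g a b (k + 1) = b k := by
          rw [GIR_g_succ]
          group
        rw [e2]
        exact hb)
    (GIR_t α) (fun i _ => (ht i).1) (fun i _ => (ht i).2)
    (by
      intro i hi
      obtain ⟨k, hk | hk⟩ := Nat.even_or_odd' i
      · have hkn : k < n := by omega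
        obtain ⟨ha, ha', hb, hb'⟩ := hab k hkn
        have e1 : 2 * k + 2 = 2 * (k + 1) := by ring
        rw [hk, GIR_p_odd, GIR_p_even, e1, GIR_p_even, GIR_t_odd]
        apply GIR_far1 H hα
        have e2 : (GIR_g a b k)⁻¹ * GIR_g a b (k + 1) = a k * b k := by
          rw [GIR_g_succ]
          group
        rw [e2]
        intro h
        exact hb' ((Subgroup.mul_mem_cancel_left _ ha).1 h)
      · have hkn : k + 1 < n := by omega
        obtain ⟨ha, ha', hb, hb'⟩ := hab k (by omega)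
        obtain ⟨ha2, ha2', hb2, hb2'⟩ := hab (k + 1) hkn
        have e1 : 2 * k + 1 + 1 = 2 * (k + 1) := by ring
        have e3 : 2 * k + 1 + 2 = 2 * (k + 1) + 1 := by ring
        rw [hk, GIR_p_odd, e1, GIR_p_even, e3, GIR_p_odd, GIR_t_even]
        apply GIR_far0 H hα
        have e2 : (GIR_g a b k * a k)⁻¹ * (GIR_g a b (k + 1) * a (k + 1)) = b k * a (k + 1) := by
          rw [GIR_g_succ]
          group
        rw [e2]
        intro h
        exact ha2' ((Subgroup.mul_mem_cancel_left _ hb).1 h))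
    (by
      obtain ⟨k, rfl⟩ : ∃ k, n = k + 1 := ⟨n - 1, by omega⟩
      obtain ⟨ha, ha', hb, hb'⟩ := hab k (by omega)
      obtain ⟨ha2, ha2', hb2, hb2'⟩ := hab 0 (by omega)
      have e1 : 2 * (k + 1) - 1 = 2 * k + 1 := by omega
      have e2 := GIR_p_even H a b 0
      have e3 := GIR_p_odd H a b 0
      have e4 := GIR_t_even α 0
      rw [Nat.mul_zero] at e2 e3 e4
      rw [Nat.zero_add] at e3
      rw [e1, GIR_p_odd, e2, e3, e4]
      apply GIR_far0 H hα
      have e5 : (GIR_g a b k * a k)⁻¹ = b k := by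
        have h1 : GIR_g a b k * a k * b k = 1 := by
          rw [← hgn, GIR_g_succ]
          group
        exact inv_eq_of_mul_eq_one_right h1
      rw [e5, GIR_g_zero, one_mul]
      intro h
      exact ha2' ((Subgroup.mul_mem_cancel_left _ hb).1 h))
  rw [GIR_sum] at hmain
  have hsum := hα.sum
  have e1 : α 2 = Real.pi - (α 0 + α 1) := by linarith
  rw [e1]
  push_cast at hmain
  linarith

end Pool.Agent.helper55.LR
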