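import Pool.Agent.helper55.LR.TransW
import Pool.Agent.helper55.LR.Gir
import Pool.Agent.helper55.LR.Bas

set_option autoImplicit false

/-!
# Locally reducible Artin groups
-/

namespace Pool.Agent.helper55.LR

open Pool.Agent.helper55.EV
open Pool.Agent.helper34.FJ2 Pool.Agent.helper34.FJ3
open Pool.Agent.helper36.LT (Artin gen alt artinRels)
open Pool.Agent.helper50.LT (alt_map gen_rel lift lift_gen artin_hom_ext)
open Pool.Agent.helper46.FJ3 (restr mp mp_gen inc inc_gen inc_mp)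

section basic

variable {S : Type} {M : CoxeterMatrix S}

theorem NoInf.restr (h : NoInf M) (F : Finset S) : NoInf (restr M F) := fun s t => h s.1 t.1

theorem LocRed.restr (h : LocRed M) (F : Finset S) : LocRed (restr M F) :=
  fun r s t h1 h2 h3 => h r.1 s.1 t.1 (fun e => h1 (Subtype.ext e)) (fun e => h2 (Subtype.ext e))
    (fun e => h3 (Subtype.ext e))

theorem msy (M : CoxeterMatrix S) (s t : S) : M.M s t = M.M t s := M.symmetric _ _

end basic

/-- the girth statement -/
def Grth {S : Type} (M : CoxeterMatrix S) : Prop :=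
  ∀ x y : S, x ≠ y → ∀ k, 0 < k → Alt (sg M {x}ᶜ) (sg M {y}ᶜ) k → M.M x y ≤ k

section tri

variable {S : Type} [Finite S] (M : CoxeterMatrix S) (c : Fin 3 → S) (hc : Function.Injective c)

theorem HH_inf (t s : Fin 3) : HH M c t ⊓ HH M c s = sg M {c t, c s}ᶜ := by
  unfold HH
  rw [sg_inf']
  congr 1
  ext r
  simp

include hc in
theorem HH_alt (hE : ∀ F : Finset S, (∃ s, s ∉ F) → Grth (restr M F)) (t s r : Fin 3)
    (hts : t ≠ s) (htr : t ≠ r) (hsr : s ≠ r) (k : ℕ) (hk : 0 < k)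
    (h : Alt (HH M c t ⊓ HH M c s) (HH M c t ⊓ HH M c r) k) : M.M (c s) (c r) ≤ k := by
  classical
  have : Fintype S := Fintype.ofFinite S
  let F : Finset S := Finset.univ.erase (c t)
  have hF : ∀ s, s ∈ F ↔ s ≠ c t := fun s => by simp [F]
  have hsF : c s ∈ F := (hF _).2 (fun e => hts (hc e.symm))
  have hrF : c r ∈ F := (hF _).2 (fun e => htr (hc e.symm))
  rw [HH_inf, HH_inf] at h
  have h1 := alt_sub M F (U := {c t, c s}ᶜ) (U' := {c t, c r}ᶜ) (by
    intro s' hs'
    have h2 : s' ∉ ({c t, c s} : Set S) := hs'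
    refine Finset.mem_coe.2 ((hF _).2 fun e => h2 ?_)
    simp [e]) (by
    intro s' hs'
    have h2 : s' ∉ ({c t, c r} : Set S) := hs'
    refine Finset.mem_coe.2 ((hF _).2 fun e => h2 ?_)
    simp [e]) h
  have key : ∀ (q : Fin 3) (hq : c q ∈ F), (Subtype.val ⁻¹' ({c t, c q}ᶜ : Set S) : Set F)
      = {⟨c q, hq⟩}ᶜ := by
    intro q hq
    ext ⟨s', hs'⟩
    have h3 := (hF _).1 hs'
    simp [h3]
  rw [key s hsF, key r hrF] at h1
  exact hE F ⟨c t, fun e => (hF _).1 e rfl⟩ ⟨c s, hsF⟩ ⟨c r, hrF⟩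
    (fun e => hsr (hc (congrArg Subtype.val e))) k hk h1

/-- three generators with angles -/
theorem exists_ang (h01 : c 0 ≠ c 1) (h02 : c 0 ≠ c 2) (h12 : c 1 ≠ c 2)
    (h : (1 : ℚ) / (M.M (c 0) (c 1) : ℚ) + 1 / (M.M (c 1) (c 2) : ℚ) +
      1 / (M.M (c 0) (c 2) : ℚ) ≤ 1) (hN : NoInf M) :
    ∃ α : Fin 3 → ℝ, Ang α ∧ α 2 = Real.pi / (M.M (c 0) (c 1) : ℕ) ∧
      ∀ t s r : Fin 3, t ≠ s → t ≠ r → s ≠ r → Real.pi / (M.M (c s) (c r) : ℕ) ≤ α t := by
  have key : ∀ s t : S, s ≠ t → 2 ≤ M.M s t := by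
    intro s t hst
    have h1 := hN s t
    have h2 := M.off_diagonal s t hst
    have h3 : M.M s t ≠ 1 := h2
    omega
  obtain ⟨α, h1, h2, h3, h4⟩ := exists_angles (key _ _ h01) (key _ _ h12) (key _ _ h02) h
  refine ⟨α, h1, h2, ?_⟩
  intro t s r hts htr hsr
  have e1 := msy M (c 2) (c 1)
  have e2 := msy M (c 2) (c 0)
  have e3 := msy M (c 1) (c 0)
  fin_cases t <;> fin_cases s <;> fin_cases r <;> simp_all

include hc in
theorem tri_npc (hE : ∀ F : Finset S, (∃ s, s ∉ F) → Grth (restr M F)) (hN : NoInf M)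
    (α : Fin 3 → ℝ) (hα : Ang α)
    (h : ∀ t s r : Fin 3, t ≠ s → t ≠ r → s ≠ r → Real.pi / (M.M (c s) (c r) : ℕ) ≤ α t) :
    NPC (tog (HH M c)) (alen (HH M c) α) := by
  apply alen_npc _ hα
  intro t s r hts htr hsr n hn hal
  have h1 := HH_alt M c hc hE t s r hts htr hsr n hn hal
  have h2 := h t s r hts htr hsr
  have h3 : (0 : ℝ) < (M.M (c s) (c r) : ℕ) := by
    exact_mod_cast Nat.pos_of_ne_zero (hN _ _)
  rw [div_le_iff₀ h3] at h2
  have h4 : ((M.M (c s) (c r) : ℕ) : ℝ) ≤ n := by exact_mod_cast h1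
  have h5 := hα.pos t
  nlinarith

end tri

/-- **The girth lemma** for locally reducible Artin groups without the label `∞` -/
theorem girth_lr (n : ℕ) : ∀ (S : Type) [Finite S], Nat.card S ≤ n → ∀ (M : CoxeterMatrix S),
    LocRed M → NoInf M → Grth M := by
  classical
  induction n with
  | zero =>
    intro S _ hS M _ _ x
    have h : Nat.card S = 0 := Nat.le_zero.1 hS
    rw [Finite.card_eq_zero_iff] at h
    exact (h.false x).elim
  | succ n ih =>
    intro S _ hS M hL hN x y hxy k hk hal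
    have : Fintype S := Fintype.ofFinite S
    have hcard : ∀ F : Finset S, (∃ s, s ∉ F) → Nat.card F ≤ n := by
      rintro F ⟨s, hs⟩
      have h1 : Nat.card F = F.card := by simp
      have h2 : F.card < Fintype.card S := Finset.card_lt_univ_of_notMem hs
      rw [Nat.card_eq_fintype_card] at hS
      omega
    have hE : ∀ F : Finset S, (∃ s, s ∉ F) → Grth (restr M F) := fun F hF =>
      ih F (hcard F hF) _ (hL.restr F) (hN.restr F)
    by_cases h2 : M.M x y = 2
    · rw [h2]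
      by_contra hcon
      have hk1 : k = 1 := by omega
      subst hk1
      exact alt_ne_one hal
    · by_cases hz : ∃ z, z ≠ x ∧ z ≠ y ∧ ¬ (M.M x z = 2 ∧ M.M y z = 2)
      · obtain ⟨z, hzx, hzy, hz⟩ := hz
        let c : Fin 3 → S := ![x, y, z]
        have hc : Function.Injective c := by
          intro a b hab
          fin_cases a <;> fin_cases b <;> simp_all [c]
        have h3 : (1 : ℚ) / (M.M x y : ℚ) + 1 / (M.M y z : ℚ) + 1 / (M.M x z : ℚ) ≤ 1 := by
          rcases hL x y z hxy hzy.symm hzx.symm (hN _ _) (hN _ _) (hN _ _) with h | h | h | h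
          · exact absurd h.1 h2
          · exact absurd h.1 h2
          · exact absurd ⟨h.2, h.1⟩ hz
          · exact h
        obtain ⟨α, hα, e2, hα'⟩ := exists_ang M c hxy hzx.symm hzy.symm h3 hN
        have hnpc := tri_npc M c hc hE hN α hα hα'
        have h4 := alt_angle (HH M c) hα (HH_sc M c hc) hnpc k hk hal
        rw [e2] at h4
        have h5 : (0 : ℝ) < (M.M x y : ℕ) := by exact_mod_cast Nat.pos_of_ne_zero (hN _ _)
        have h6 : Real.pi ≤ k * (Real.pi / (M.M x y : ℕ)) := h4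
        rw [mul_div_assoc', le_div_iff₀ h5, mul_comm (k : ℝ)] at h6
        have h7 := le_of_mul_le_mul_left h6 Real.pi_pos
        exact_mod_cast h7
      · push Not at hz
        exact alt_base M x y hxy (hN _ _) (fun z h3 h4 => hz z h3 h4) k hk hal

end Pool.Agent.helper55.LR
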