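import Pool.Agent.helper55.LR.BPair
import Pool.Agent.helper55.LR.BBase
import Pool.Agent.helper55.LR.BMin
import Pool.Agent.helper55.LR.MainLR

set_option autoImplicit false

/-!
# LRA-BGL: the girth lemma for blocks
-/

namespace Pool.Agent.helper55.LR

open Pool.Agent.helper55.EV
open Pool.Agent.helper34.FJ2 Pool.Agent.helper34.FJ3
open Pool.Agent.helper36.LT (Artin gen alt artinRels)
open Pool.Agent.helper46.FJ3 (restr mp mp_gen inc inc_gen inc_mp)

section tri

variable {S ι : Type} [Finite S] (M : CoxeterMatrix S) (b : S → ι) (c : Fin 3 → ι)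

theorem BGL_alt (hc : Function.Injective c) (hne : ∀ t, ∃ s, b s = c t)
    (hE : ∀ F : Finset S, (∃ s, s ∉ F) → GrthB (restr M F) (fun s => b s.1))
    (t s r : Fin 3) (hts : t ≠ s) (htr : t ≠ r) (hsr : s ≠ r) (m : ℕ)
    (hm : ∀ x y, b x = c s → b y = c r → m ≤ M.M x y) (k : ℕ) (hk : 0 < k)
    (h : Alt (HB M b c t ⊓ HB M b c s) (HB M b c t ⊓ HB M b c r) k) : m ≤ k := by
  classical
  have : Fintype S := Fintype.ofFinite S
  let F : Finset S := Finset.univ.filter fun s => b s ≠ c t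
  have hF : ∀ s, s ∈ F ↔ b s ≠ c t := fun s => by simp [F]
  have h2 : ∀ r, HB M b c t ⊓ HB M b c r = sg M {s | b s ≠ c t ∧ b s ≠ c r} := by
    intro r
    unfold HB
    rw [sg_inf']
    rfl
  rw [h2, h2] at h
  have h1 := alt_sub M F (fun s hs => Finset.mem_coe.2 ((hF s).2 hs.1))
    (fun s hs => Finset.mem_coe.2 ((hF s).2 hs.1)) h
  have h4 : ∀ r, (Subtype.val ⁻¹' {s | b s ≠ c t ∧ b s ≠ c r} : Set F) =
      {s : F | b s.1 ≠ c r} := by
    intro r
    ext ⟨s, hs⟩
    exact ⟨fun h => h.2, fun h => ⟨(hF s).1 hs, h⟩⟩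
  rw [h4, h4] at h1
  obtain ⟨s0, hs0⟩ := hne t
  obtain ⟨s1, hs1⟩ := hne s
  obtain ⟨s2, hs2⟩ := hne r
  have hF1 : s1 ∈ F := (hF s1).2 fun e => hts (hc (e.symm.trans hs1))
  have hF2 : s2 ∈ F := (hF s2).2 fun e => htr (hc (e.symm.trans hs2))
  exact hE F ⟨s0, fun h => (hF s0).1 h hs0⟩ (c s) (c r) (fun e => hsr (hc e))
    ⟨⟨s1, hF1⟩, hs1⟩ ⟨⟨s2, hF2⟩, hs2⟩ m (fun x y h h' => hm x.1 y.1 h h') k hk h1

/-- The development of the triangle of the groups `HB M b c t` (the generators outside the block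
`c t`) is non-positively curved. Compare `HH_alt` and `tri_npc` in `LR/MainLR.lean` and `HB_G8` in
`EV/Block2.lean`. -/
theorem HB_npc (hc : Function.Injective c) (hne : ∀ t, ∃ s, b s = c t)
    (hE : ∀ F : Finset S, (∃ s, s ∉ F) → GrthB (restr M F) (fun s => b s.1))
    (m : Fin 3 → ℕ) (hm : ∀ t s r : Fin 3, t ≠ s → t ≠ r → s ≠ r → ∀ x y, b x = c s → b y = c r →
      m t ≤ M.M x y)
    (α : Fin 3 → ℝ) (hα : Ang α) (h : ∀ t, Real.pi ≤ m t * α t) :
    NPC (tog (HB M b c)) (alen (HB M b c) α) := by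
  apply alen_npc _ hα
  intro t s r hts htr hsr n hn hal
  have h1 := BGL_alt M b c hc hne hE t s r hts htr hsr (m t) (hm t s r hts htr hsr) n hn hal
  have h2 := h t
  have h3 : (m t : ℝ) ≤ n := by exact_mod_cast h1
  have h4 := hα.pos t
  nlinarith

end tri

theorem BGL_two {S : Type} (M : CoxeterMatrix S) (hN : NoInf M) {s t : S} (h : s ≠ t) :
    2 ≤ M.M s t := by
  have h1 := hN s t
  have h2 : M.M s t ≠ 1 := M.off_diagonal s t h
  omega

/-- the case of two blocks which commute with all other generators -/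
theorem BGL_base {S ι : Type} [Finite S] (M : CoxeterMatrix S) (b : S → ι) (hb : BlkL M b)
    (hN : NoInf M) (β γ : ι) (hne : β ≠ γ) (x y : S) (hx : b x = β) (hy : b y = γ)
    (h2 : M.M x y ≠ 2) (hmin : ∀ s t, b s = β → b t = γ → M.M x y ≤ M.M s t)
    (hcom : ∀ z, b z ≠ β → b z ≠ γ → (∀ s, b s = β → M.M s z = 2) ∧ (∀ s, b s = γ → M.M s z = 2))
    (k : ℕ) (hk : 0 < k) (hal : Alt (sg M {s | b s ≠ β}) (sg M {s | b s ≠ γ}) k) :
    M.M x y ≤ k := by
  classical
  have : Fintype S := Fintype.ofFinite S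
  have hxy : x ≠ y := by
    rintro rfl
    exact hne (hx.symm.trans hy)
  have h2' := BGL_two M hN hxy
  by_cases h4 : 4 ≤ M.M x y
  · have hdis : Disjoint {s : S | b s = β} {s : S | b s = γ} := by
      rw [Set.disjoint_left]
      intro s h5 h6
      have h5' : b s = β := h5
      have h6' : b s = γ := h6
      exact hne (h5'.symm.trans h6')
    have e1 : {s : S | b s ≠ β} = {s : S | b s = β}ᶜ := rfl
    have e2 : {s : S | b s ≠ γ} = {s : S | b s = γ}ᶜ := rfl
    rw [e1, e2] at hal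
    have h5 := base_red M {s | b s = β} {s | b s = γ} hdis (by
      intro s hs t ht
      have ht1 : b t ≠ β := fun e => ht (Or.inl e)
      have ht2 : b t ≠ γ := fun e => ht (Or.inr e)
      rcases hs with hs | hs
      · exact (hcom t ht1 ht2).1 s hs
      · exact (hcom t ht1 ht2).2 s hs) hal
    let F : Finset S := Finset.univ.filter fun s => b s = β ∨ b s = γ
    have hF : ∀ s, s ∈ F ↔ b s = β ∨ b s = γ := fun s => by simp [F]
    have h6 := alt_sub M F (U := {s | b s = γ}) (U' := {s | b s = β})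
      (fun s hs => Finset.mem_coe.2 ((hF s).2 (Or.inr hs)))
      (fun s hs => Finset.mem_coe.2 ((hF s).2 (Or.inl hs))) h5
    have h7 : (Subtype.val ⁻¹' {s | b s = β} : Set F) =
        (Subtype.val ⁻¹' {s | b s = γ} : Set F)ᶜ := by
      ext ⟨s, hs⟩
      have hs' := (hF s).1 hs
      constructor
      · intro h3 h4
        have h5 : b s = β := h3
        have h6 : b s = γ := h4
        exact hne (h5.symm.trans h6)
      · intro h3
        rcases hs' with h4 | h4
        · exact h4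
        · exact absurd h4 h3
    rw [h7] at h6
    refine pair_alt _ F le_rfl (restr M F) _ (M.M x y) h4 ?_ k hk h6
    rintro ⟨s, hs⟩ hs1 ⟨t, ht⟩ ht1
    have h8 : b s = γ := hs1
    have h9 : b t = β := by
      rcases (hF t).1 ht with h | h
      · exact h
      · exact absurd h ht1
    have h10 : M.M s t = M.M t s := msy M s t
    show M.M x y ≤ M.M s t
    rw [h10]
    exact hmin t s h9 h8
  · have hβ : ∀ s, b s = β → s = x := by
      intro s hs
      by_contra hsx
      have h5 := hb.big x s y (Ne.symm hsx) (hx.trans hs.symm) (by rw [hx, hy]; exact hne)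
      rcases h5 with h5 | h5
      · exact h2 h5
      · exact h4 h5
    have hγ : ∀ s, b s = γ → s = y := by
      intro s hs
      by_contra hsy
      have h5 := hb.big y s x (Ne.symm hsy) (hy.trans hs.symm) (by rw [hx, hy]; exact hne.symm)
      rw [msy M y x] at h5
      rcases h5 with h5 | h5
      · exact h2 h5
      · exact h4 h5
    have e1 : {s : S | b s ≠ β} = {x}ᶜ := by
      ext s
      constructor
      · intro h5 h6
        have h6' : s = x := h6
        exact h5 (by rw [h6', hx])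
      · intro h5 h6
        exact h5 (hβ s h6)
    have e2 : {s : S | b s ≠ γ} = {y}ᶜ := by
      ext s
      constructor
      · intro h5 h6
        have h6' : s = y := h6
        exact h5 (by rw [h6', hy])
      · intro h5 h6
        exact h5 (hγ s h6)
    rw [e1, e2] at hal
    refine alt_base M x y hxy (hN _ _) ?_ k hk hal
    intro z hzx hzy
    obtain ⟨h5, h6⟩ := hcom z (fun e => hzx (hβ z e)) (fun e => hzy (hγ z e))
    exact ⟨h5 x hx, h6 y hy⟩

/-- the case of a third block -/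
theorem BGL_third {S ι : Type} [Finite S] (M : CoxeterMatrix S) (b : S → ι) (hb : BlkL M b)
    (hN : NoInf M)
    (hE : ∀ F : Finset S, (∃ s, s ∉ F) → GrthB (restr M F) (fun s => b s.1))
    (x y z : S) (hxy : b x ≠ b y) (hxz : b x ≠ b z) (hyz : b y ≠ b z)
    (h2 : M.M x y ≠ 2) (hmin : ∀ s t, b s = b x → b t = b y → M.M x y ≤ M.M s t)
    (hz : ¬ ((∀ s, b s = b x → M.M s z = 2) ∧ (∀ s, b s = b y → M.M s z = 2)))
    (k : ℕ) (hk : 0 < k) (hal : Alt (sg M {s | b s ≠ b x}) (sg M {s | b s ≠ b y}) k) :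
    M.M x y ≤ k := by
  classical
  obtain ⟨s', t, hs', ht, m2⟩ := exists_min M b (b y) (b z) ⟨y, rfl⟩ ⟨z, rfl⟩
  obtain ⟨r', t', hr', ht', m3⟩ := exists_min M b (b x) (b z) ⟨x, rfl⟩ ⟨z, rfl⟩
  have h3 := blk_min3 hb hN (r := x) (r' := r') (s := y) (s' := s') (t := t) (t' := t')
    hr'.symm hs'.symm (ht.trans ht'.symm) hxy (by rw [ht]; exact hyz) (by rw [ht]; exact hxz)
    hmin (by rw [ht]; exact m2) (by rw [ht]; exact m3)
  have h4 : (1 : ℚ) / (M.M x y : ℚ) + 1 / (M.M s' t : ℚ) + 1 / (M.M r' t' : ℚ) ≤ 1 := by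
    rcases h3 with h | h | h | h
    · exact absurd h.1 h2
    · exact absurd h.1 h2
    · exfalso
      apply hz
      refine ⟨fun s hs => ?_, fun s hs => ?_⟩
      · exact hb.comm2 (hr'.trans hs.symm) ht' (by rw [hr', ht']; exact hxz) h.2
      · exact hb.comm2 (hs'.trans hs.symm) ht (by rw [hs', ht]; exact hyz) h.1
    · exact h
  have n1 : x ≠ y := fun e => hxy (congrArg b e)
  have n2 : s' ≠ t := by
    rintro rfl
    exact hyz (hs'.symm.trans ht)
  have n3 : r' ≠ t' := by
    rintro rfl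
    exact hxz (hr'.symm.trans ht')
  obtain ⟨α, hα, e2, a0, a1⟩ :=
    exists_angles (BGL_two M hN n1) (BGL_two M hN n2) (BGL_two M hN n3) h4
  let c : Fin 3 → ι := ![b x, b y, b z]
  have hc : Function.Injective c := by
    intro p q hpq
    fin_cases p <;> fin_cases q <;> simp_all [c]
  have hne : ∀ t, ∃ s, b s = c t := by
    intro t
    fin_cases t
    · exact ⟨x, rfl⟩
    · exact ⟨y, rfl⟩
    · exact ⟨z, rfl⟩
  have pos : ∀ {s t : S}, 2 ≤ M.M s t → (0 : ℝ) < (M.M s t : ℕ) := by
    intro s t h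
    have : 0 < M.M s t := by omega
    exact_mod_cast this
  have hm : ∀ t₁ s₁ r₁ : Fin 3, t₁ ≠ s₁ → t₁ ≠ r₁ → s₁ ≠ r₁ → ∀ x₁ y₁, b x₁ = c s₁ → b y₁ = c r₁ →
      (![M.M s' t, M.M r' t', M.M x y] : Fin 3 → ℕ) t₁ ≤ M.M x₁ y₁ := by
    intro t₁ s₁ r₁ h5 h6 h7 x₁ y₁ h8 h9
    have q1 : ∀ x₁ y₁, b x₁ = b z → b y₁ = b y → M.M s' t ≤ M.M x₁ y₁ := fun x₁ y₁ h h' => by
      rw [msy M x₁ y₁]
      exact m2 y₁ x₁ h' h
    have q2 : ∀ x₁ y₁, b x₁ = b z → b y₁ = b x → M.M r' t' ≤ M.M x₁ y₁ := fun x₁ y₁ h h' => by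
      rw [msy M x₁ y₁]
      exact m3 y₁ x₁ h' h
    have q3 : ∀ x₁ y₁, b x₁ = b y → b y₁ = b x → M.M x y ≤ M.M x₁ y₁ := fun x₁ y₁ h h' => by
      rw [msy M x₁ y₁]
      exact hmin y₁ x₁ h' h
    fin_cases t₁ <;> fin_cases s₁ <;> fin_cases r₁
    all_goals first
      | exact absurd rfl h5
      | exact absurd rfl h6
      | exact absurd rfl h7
      | exact m2 x₁ y₁ h8 h9
      | exact m3 x₁ y₁ h8 h9
      | exact hmin x₁ y₁ h8 h9
      | exact q1 x₁ y₁ h8 h9
      | exact q2 x₁ y₁ h8 h9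
      | exact q3 x₁ y₁ h8 h9
  have hpi : ∀ t₁, Real.pi ≤ (![M.M s' t, M.M r' t', M.M x y] : Fin 3 → ℕ) t₁ * α t₁ := by
    intro t₁
    have w : ∀ {s t : S} {a : ℝ}, 2 ≤ M.M s t → Real.pi / (M.M s t : ℕ) ≤ a →
        Real.pi ≤ (M.M s t : ℕ) * a := by
      intro s t a h h'
      rw [div_le_iff₀ (pos h)] at h'
      rw [mul_comm]
      exact h'
    fin_cases t₁
    · exact w (BGL_two M hN n2) a0
    · exact w (BGL_two M hN n3) a1
    · exact w (BGL_two M hN n1) e2.ge
  have hnpc := HB_npc M b c hc hne hE _ hm α hα hpi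
  have h5 := alt_angle (HB M b c) hα (HB_sc M b c hc) hnpc k hk hal
  rw [e2] at h5
  have h6 := pos (BGL_two M hN n1)
  have h7 : Real.pi ≤ k * (Real.pi / (M.M x y : ℕ)) := h5
  rw [mul_div_assoc', le_div_iff₀ h6, mul_comm (k : ℝ)] at h7
  have h8 := le_of_mul_le_mul_left h7 Real.pi_pos
  exact_mod_cast h8

/-- **The girth lemma for blocks.** Induction as in `girth_lr` (`LR/MainLR.lean`). Let `β ≠ γ`. If the
minimal label between them is `2` then `k = 1` is impossible (`alt_ne_one`), so `m ≤ 2 ≤ k`.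
Otherwise, if there is a third block `δ` (not empty) which does not commute with both of them, use
the triangle of the blocks `β, γ, δ`: the minimal labels (`exists_min`, `blk_min3`) satisfy
`1/m_βγ + 1/m_γδ + 1/m_βδ ≤ 1` (no two of them are `2`), `exists_angles` gives the angles, with
`α 2 = π / m_βγ`, `HB_npc`, `HB_sc` (`EV/Block2.lean`) and `alt_angle` give `π ≤ k α 2`. Otherwise all
other generators commute with `β` and `γ`: `base_red` for the two blocks gives an alternating
relation between the groups of the blocks, `alt_sub` transfers it to the Artin group of `β ∪ γ`, and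
`pair_alt` applies if the minimal label is at least four; if it is three then the blocks have one
element (`big`), and `alt_base` applies. -/
theorem blk_grth (n : ℕ) : ∀ (S ι : Type) [Finite S], Nat.card S ≤ n → ∀ (M : CoxeterMatrix S)
    (b : S → ι), BlkL M b → NoInf M → GrthB M b := by
  classical
  induction n with
  | zero =>
    rintro S ι _ hS M b _ _ β γ _ ⟨s, _⟩
    have h : Nat.card S = 0 := Nat.le_zero.1 hS
    rw [Finite.card_eq_zero_iff] at h
    exact (h.false s).elim
  | succ n ih =>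
    intro S ι _ hS M b hb hN β γ hne hβ hγ m hm k hk hal
    have : Fintype S := Fintype.ofFinite S
    have hE : ∀ F : Finset S, (∃ s, s ∉ F) → GrthB (restr M F) (fun s : F => b s.1) := by
      rintro F ⟨s, hs⟩
      refine ih F ι ?_ _ _ (hb.restr F) (hN.restr F)
      have h1 : Nat.card F = F.card := by simp
      have h2 : F.card < Fintype.card S := Finset.card_lt_univ_of_notMem hs
      rw [Nat.card_eq_fintype_card] at hS
      omega
    obtain ⟨x, y, hx, hy, hmin⟩ := exists_min M b β γ hβ hγ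
    refine (hm x y hx hy).trans ?_
    by_cases h2 : M.M x y = 2
    · rw [h2]
      by_contra hcon
      have hk1 : k = 1 := by omega
      subst hk1
      exact alt_ne_one hal
    · by_cases hz : ∀ z, b z ≠ β → b z ≠ γ →
          (∀ s, b s = β → M.M s z = 2) ∧ (∀ s, b s = γ → M.M s z = 2)
      · exact BGL_base M b hb hN β γ hne x y hx hy h2 hmin hz k hk hal
      · push Not at hz
        obtain ⟨z, hzβ, hzγ, hz⟩ := hz
        subst hx
        subst hy
        refine BGL_third M b hb hN hE x y z hne hzβ.symm hzγ.symm h2 hmin ?_ k hk hal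
        rintro ⟨h3, h4⟩
        obtain ⟨s, hs, h5⟩ := hz h3
        exact h5 (h4 s hs)

end Pool.Agent.helper55.LR
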