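import Pool.Agent.helper55.LR.T4G
import Pool.Agent.helper55.LR.Bas
import Pool.Agent.helper55.EV.Pair

set_option autoImplicit false

/-!
# LRA-BPR: alternating relations for two sets of generators
-/

namespace Pool.Agent.helper55.LR

open Pool.Agent.helper55.EV
open Pool.Agent.helper34.FJ2 Pool.Agent.helper34.FJ3
open Pool.Agent.helper36.LT (Artin gen alt artinRels)
open Pool.Agent.helper46.FJ3 (restr mp mp_gen inc inc_gen inc_mp)

theorem BPR_bot {G : Type} [Group G] {B : Subgroup G} {k : ℕ} (h : Alt ⊥ B k) (hk : 0 < k) :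
    False := by
  obtain ⟨a, b, h1, -⟩ := h
  obtain ⟨h2, h3, -, -⟩ := h1 0 hk
  apply h3
  rw [Subgroup.mem_bot.1 h2]
  exact B.one_mem

/-- Adapt `pair_G8` (`EV/Pair.lean`) with `α = π / m ≤ π / 4`, `alt_sub` instead of `G8_sub`, and
`npc4`, `alt_angle4` instead of `tog4_G8`. The base case `X = {x}`, `Xᶜ = {y}` is `alt_base` (there
are no other generators). If `X` or its complement is empty there is no alternating relation
(`sg M ∅ = ⊥`). In the main case (`x ≠ x'` in `X`, `Y = Xᶜ` not empty), the subgroups are
`H 0 = ⟨X - x, Y⟩`, `H 1 = ⟨X⟩`, `H 2 = ⟨x, Y⟩`, `H 3 = ⟨Y⟩`, and `H 0 ⊓ H 1 = ⟨X - x⟩`,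
`H 2 ⊓ H 1 = ⟨x⟩`; the hypotheses of `npc4` follow from the induction hypothesis and
`π = m (π / m) ≤ n (π / m)`. The case `X = {x}` and `Y` with at least two elements is the same with
`X` and `Y` exchanged (`Alt.symm`). -/
theorem pair_alt (n : ℕ) : ∀ (S : Type) [Finite S], Nat.card S ≤ n → ∀ (M : CoxeterMatrix S)
    (X : Set S) (m : ℕ), 4 ≤ m → (∀ s ∈ X, ∀ t, t ∉ X → m ≤ M.M s t) → ∀ k, 0 < k →
    Alt (sg M X) (sg M Xᶜ) k → m ≤ k := by
  classical
  induction n with
  | zero =>
    intro S _ hS M X m _ _ k hk h
    have h1 : Nat.card S = 0 := Nat.le_zero.1 hS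
    rw [Finite.card_eq_zero_iff] at h1
    have hX : X = ∅ := by
      ext s
      exact (h1.false s).elim
    rw [hX, sg_empty] at h
    exact (BPR_bot h hk).elim
  | succ n ih =>
    intro S _ hS M X m hm hX k hk hA
    have : Fintype S := Fintype.ofFinite S
    have hcard : ∀ F : Finset S, (∃ s, s ∉ F) → Nat.card F ≤ n := by
      rintro F ⟨s, hs⟩
      have h1 : Nat.card F = F.card := by simp
      have h2 : F.card < Fintype.card S := Finset.card_lt_univ_of_notMem hs
      rw [Nat.card_eq_fintype_card] at hS
      omega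
    -- subsets
    have sub : ∀ (X Y U : Set S), (∀ s ∈ X, ∀ t, t ∉ X → m ≤ M.M s t) → Y = Xᶜ → U ⊆ X →
        (∃ s, s ∉ U ∪ Y) → ∀ k, 0 < k → Alt (sg M U) (sg M Y) k → m ≤ k := by
      intro X Y U hX hY hU hs k hk hA
      let F : Finset S := Finset.univ.filter (· ∈ U ∪ Y)
      have hF : ∀ s, s ∈ F ↔ s ∈ U ∪ Y := fun s => by simp [F]
      have hA' := alt_sub M F (fun s hs => Finset.mem_coe.2 ((hF s).2 (Or.inl hs)))
        (fun s hs => Finset.mem_coe.2 ((hF s).2 (Or.inr hs))) hA
      have h1 : (Subtype.val ⁻¹' Y : Set F) = (Subtype.val ⁻¹' U : Set F)ᶜ := by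
        ext ⟨s, hs⟩
        have hs' := (hF s).1 hs
        constructor
        · intro h2 h3
          have h4 : s ∈ Y := h2
          rw [hY] at h4
          exact h4 (hU h3)
        · intro h2
          rcases hs' with h3 | h3
          · exact absurd h3 h2
          · exact h3
      rw [h1] at hA'
      obtain ⟨s, hs⟩ := hs
      refine ih F (hcard F ⟨s, fun h => hs ((hF s).1 h)⟩) (restr M F) _ m hm ?_ k hk hA'
      rintro ⟨s, hs1⟩ hsU ⟨t, ht1⟩ htU
      refine hX s (hU hsU) t ?_
      intro htX
      have h5 := (hF t).1 ht1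
      rcases h5 with h5 | h5
      · exact htU h5
      · rw [hY] at h5
        exact h5 htX
    have hm0 : (0 : ℝ) < m := by
      have : 0 < m := by omega
      exact_mod_cast this
    have hm4 : (4 : ℝ) ≤ m := by exact_mod_cast hm
    have hpi := Real.pi_pos
    have a0 : 0 < Real.pi / m := div_pos hpi hm0
    have a4 : Real.pi / m ≤ Real.pi / 4 := div_le_div_of_nonneg_left hpi.le (by norm_num) hm4
    have up : ∀ k : ℕ, m ≤ k → Real.pi ≤ k * (Real.pi / m) := by
      intro k hk
      have h1 : (m : ℝ) ≤ k := by exact_mod_cast hk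
      calc Real.pi = m * (Real.pi / m) := by field_simp
        _ ≤ k * (Real.pi / m) := mul_le_mul_of_nonneg_right h1 a0.le
    have down : ∀ k : ℕ, Real.pi ≤ k * (Real.pi / m) → m ≤ k := by
      intro k hk
      by_contra h1
      have h2 : (k : ℝ) < m := by exact_mod_cast not_le.1 h1
      have h3 : (k : ℝ) * (Real.pi / m) < m * (Real.pi / m) := mul_lt_mul_of_pos_right h2 a0
      have h4 : (m : ℝ) * (Real.pi / m) = Real.pi := by field_simp
      linarith
    -- the main case
    have main : ∀ (X Y : Set S), (∀ s ∈ X, ∀ t, t ∉ X → m ≤ M.M s t) → Y = Xᶜ →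
        (∃ x ∈ X, ∃ x' ∈ X, x ≠ x') →
        (∃ y, y ∈ Y) → ∀ k, 0 < k → Alt (sg M X) (sg M Y) k → m ≤ k := by
      rintro X Y hX hY ⟨x, hx, x', hx', hne⟩ ⟨y, hy⟩ k hk hA
      let T : Fin 4 → Set S := ![(X \ {x}) ∪ Y, X, {x} ∪ Y, Y]
      have hYX : ∀ s, s ∈ Y ↔ s ∉ X := fun s => by rw [hY]; rfl
      have hT : ∀ s s' : S, ∃ t, s ∈ T t ∧ s' ∈ T t := by
        intro s s'
        by_cases h1 : s ∈ X <;> by_cases h2 : s' ∈ X
        · exact ⟨1, h1, h2⟩
        · by_cases h3 : s = x
          · exact ⟨2, Or.inl h3, Or.inr ((hYX _).2 h2)⟩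
          · exact ⟨0, Or.inl ⟨h1, h3⟩, Or.inr ((hYX _).2 h2)⟩
        · by_cases h3 : s' = x
          · exact ⟨2, Or.inr ((hYX _).2 h1), Or.inl h3⟩
          · exact ⟨0, Or.inr ((hYX _).2 h1), Or.inl ⟨h2, h3⟩⟩
        · exact ⟨2, Or.inr ((hYX _).2 h1), Or.inr ((hYX _).2 h2)⟩
      obtain ⟨hgen, hUP⟩ := artin_UP M T hT
      have e3 : sg M (T 3) = sg M (T 0) ⊓ sg M (T 2) := by
        rw [sg_inf']
        congr 1
        ext s
        constructor
        · intro h
          exact ⟨Or.inr h, Or.inr h⟩
        · rintro ⟨h1, h2⟩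
          rcases h2 with h2 | h2
          · rcases h1 with h1 | h1
            · exact absurd h2 h1.2
            · exact h1
          · exact h2
      have e1 : sg M (T 0) ⊓ sg M (T 1) = sg M (X \ {x}) := by
        rw [sg_inf']
        congr 1
        ext s
        constructor
        · rintro ⟨h1 | h1, h2⟩
          · exact h1
          · exact absurd h2 ((hYX s).1 h1)
        · intro h
          exact ⟨Or.inl h, h.1⟩
      have e2 : sg M (T 2) ⊓ sg M (T 1) = sg M {x} := by
        rw [sg_inf']
        congr 1
        ext s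
        constructor
        · rintro ⟨h1 | h1, h2⟩
          · exact h1
          · exact absurd h2 ((hYX s).1 h1)
        · intro h
          have h' : s = x := h
          exact ⟨Or.inl h, by rw [h']; exact hx⟩
      have g1 : ∀ k, 0 < k → Alt (sg M (X \ {x})) (sg M Y) k → m ≤ k := by
        refine sub X Y (X \ {x}) hX hY Set.sdiff_subset ⟨x, ?_⟩
        rintro (h | h)
        · exact h.2 rfl
        · exact (hYX x).1 h hx
      have g2 : ∀ k, 0 < k → Alt (sg M {x}) (sg M Y) k → m ≤ k := by
        refine sub X Y {x} hX hY (by simpa using hx) ⟨x', ?_⟩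
        rintro (h | h)
        · exact hne h.symm
        · exact (hYX x').1 h hx'
      have hn : NPC (tog4 (fun t => sg M (T t))) (alen4 (fun t => sg M (T t)) (Real.pi / m)) := by
        refine npc4 (fun t => sg M (T t)) e3 a0 a4 ?_ ?_
        · intro k hk h
          have h1 : Alt (sg M (T 0) ⊓ sg M (T 1)) (sg M (T 3)) k := h
          rw [e1] at h1
          exact up k (g1 k hk h1)
        · intro k hk h
          have h1 : Alt (sg M (T 2) ⊓ sg M (T 1)) (sg M (T 3)) k := h
          rw [e2] at h1
          exact up k (g2 k hk h1)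
      have h := alt_angle4 (fun t => sg M (T t)) a0 a4 (tog4_sc _ e3 hgen hUP) hn k hk hA
      exact down k h
    have hX' : ∀ s ∈ Xᶜ, ∀ t, t ∉ Xᶜ → m ≤ M.M s t := by
      intro s hs t ht
      have ht' : t ∈ X := by simpa using ht
      have h1 := hX t ht' s hs
      have h2 : M.M s t = M.M t s := M.symmetric _ _
      rw [h2]
      exact h1
    by_cases h1 : ∃ x ∈ X, ∃ x' ∈ X, x ≠ x'
    · by_cases h2 : ∃ y, y ∈ Xᶜ
      · exact main X Xᶜ hX rfl h1 h2 k hk hA
      · have h3 : Xᶜ = ∅ := by
          ext s
          exact ⟨fun h => (h2 ⟨s, h⟩).elim, fun h => h.elim⟩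
        rw [h3, sg_empty] at hA
        exact (BPR_bot hA.symm hk).elim
    · by_cases h2 : ∃ x, x ∈ X
      · obtain ⟨x, hx⟩ := h2
        by_cases h3 : ∃ y ∈ Xᶜ, ∃ y' ∈ Xᶜ, y ≠ y'
        · exact main Xᶜ X hX' (compl_compl X).symm h3 ⟨x, hx⟩ k hk hA.symm
        · by_cases h4 : ∃ y, y ∈ Xᶜ
          · obtain ⟨y, hy⟩ := h4
            have hXx : X = {x} := by
              ext s
              constructor
              · intro hs
                by_contra h5
                exact h1 ⟨s, hs, x, hx, h5⟩
              · intro hs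
                have h5 : s = x := hs
                rw [h5]
                exact hx
            have hXy : Xᶜ = {y} := by
              ext s
              constructor
              · intro hs
                by_contra h5
                exact h3 ⟨s, hs, y, hy, h5⟩
              · intro hs
                have h5 : s = y := hs
                rw [h5]
                exact hy
            have hall : ∀ s, s = x ∨ s = y := by
              intro s
              by_cases hs : s ∈ X
              · rw [hXx] at hs
                exact Or.inl hs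
              · have hs' : s ∈ Xᶜ := hs
                rw [hXy] at hs'
                exact Or.inr hs'
            have hxy : x ≠ y := by
              rintro rfl
              exact hy hx
            have h5 : m ≤ M.M x y := hX x hx y hy
            have h7 : X = ({y} : Set S)ᶜ := by rw [← hXy, compl_compl]
            have h8 : Xᶜ = ({x} : Set S)ᶜ := by rw [← hXx]
            have h9 := hA.symm
            rw [h8] at h9
            rw [h7] at h9
            refine h5.trans (alt_base M x y hxy (by omega) ?_ k hk h9)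
            intro z hz1 hz2
            rcases hall z with h | h
            · exact absurd h hz1
            · exact absurd h hz2
          · have h3 : Xᶜ = ∅ := by
              ext s
              exact ⟨fun h => (h4 ⟨s, h⟩).elim, fun h => h.elim⟩
            rw [h3, sg_empty] at hA
            exact (BPR_bot hA.symm hk).elim
      · have h3 : X = ∅ := by
          ext s
          exact ⟨fun h => (h2 ⟨s, h⟩).elim, fun h => h.elim⟩
        rw [h3, sg_empty] at hA
        exact (BPR_bot hA hk).elim

end Pool.Agent.helper55.LR
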