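import Pool.Agent.helper55.EV.Alg2
import Pool.Agent.helper7.Wr.Main

set_option autoImplicit false

/-!
# LRA: the class of groups
-/

namespace Pool.Agent.helper55.LR

open Pool.Agent.helper34.FJ3

/-- the closure properties of the class of Farrell-Jones groups which are used in the project -/
structure Cls (P : ∀ (G : Type) [Group G], Prop) : Prop where
  cl : Closed P
  inh : Pool.Agent.helper16.FJ.Inherit P
  /-- the extension property in the form of helper7 -/
  ext : ∀ (G Q : Type) [Group G] [Group Q] (f : G →* Q), P Q →
    (∀ C : Subgroup Q, (∃ Z : Subgroup C, Z.FiniteIndex ∧ IsCyclic Z) → P (C.comap f)) → P G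
  /-- Coxeter groups -/
  cox : ∀ (S : Type) [Finite S] (M : CoxeterMatrix S), P M.Group
  gl : ∀ n : ℕ, P (Matrix.GeneralLinearGroup (Fin n) ℚ)

end Pool.Agent.helper55.LR
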