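import Pool.Agent.helper55.LR.Cls

set_option autoImplicit false

/-!
# LRA-GERM: families of homomorphisms with finite support
-/

namespace Pool.Agent.helper55.LR

open Pool.Agent.helper7.Wr

section aux

variable {G H I B Q₀ : Type} [Group G] [Group H] [MulAction H I] [Group B] [Group Q₀]

theorem GERM_one {r : G →* H} {c : G → I → B}
    (hc : ∀ g g' i, c (g * g') i = c g i * c g' ((r g)⁻¹ • i)) (i : I) : c 1 i = 1 := by
  have h := hc 1 1 i
  rw [map_one, inv_one, one_smul, mul_one] at h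
  exact (left_eq_mul.1 h)

theorem GERM_inv {r : G →* H} {c : G → I → B}
    (hc : ∀ g g' i, c (g * g') i = c g i * c g' ((r g)⁻¹ • i)) (g : G) (i : I) :
    c g⁻¹ i = (c g (r g • i))⁻¹ := by
  have h := hc g⁻¹ g i
  rw [inv_mul_cancel, GERM_one hc, map_inv, inv_inv] at h
  exact eq_inv_of_mul_eq_one_left h.symm

/-- the group `E` -/
def GERM_E (r : G →* H) (c : G → I → B)
    (hc : ∀ g g' i, c (g * g') i = c g i * c g' ((r g)⁻¹ • i)) (q : G →* Q₀) :
    Subgroup (Q₀ × PWr B I H) where
  carrier := {t | ∃ g, t.1 = q g ∧ t.2.right = r g ∧ {i | t.2.left i ≠ c g i}.Finite}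
  one_mem' := by
    refine ⟨1, by simp, by simp, ?_⟩
    have h : {i | (1 : Q₀ × PWr B I H).2.left i ≠ c 1 i} = ∅ := by
      ext i
      simp [GERM_one hc]
    rw [h]
    exact Set.finite_empty
  mul_mem' := by
    rintro t t' ⟨g, h1, h2, h3⟩ ⟨g', h1', h2', h3'⟩
    refine ⟨g * g', ?_, ?_, ?_⟩
    · rw [Prod.fst_mul, h1, h1', map_mul]
    · rw [Prod.snd_mul, PWr.mul_right, h2, h2', map_mul]
    · have hinj : Function.Injective (fun i : I => (r g)⁻¹ • i) := MulAction.injective _
      refine (h3.union (h3'.preimage (hinj.injOn (s := _)))).subset ?_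
      intro i hi
      by_contra hcon
      rw [Set.mem_union, not_or] at hcon
      obtain ⟨ha, hb⟩ := hcon
      have ha' : t.2.left i = c g i := not_not.1 ha
      have hb' : t'.2.left ((r g)⁻¹ • i) = c g' ((r g)⁻¹ • i) := not_not.1 hb
      apply hi
      rw [Prod.snd_mul, PWr.mul_left, h2, ha', hb', hc]
  inv_mem' := by
    rintro t ⟨g, h1, h2, h3⟩
    refine ⟨g⁻¹, ?_, ?_, ?_⟩
    · rw [Prod.fst_inv, h1, map_inv]
    · rw [Prod.snd_inv, PWr.inv_right, h2, map_inv]
    · have hinj : Function.Injective (fun i : I => (r g) • i) := MulAction.injective _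
      refine (h3.preimage (hinj.injOn (s := _))).subset ?_
      intro i hi
      by_contra hcon
      have hb' : t.2.left ((r g) • i) = c g ((r g) • i) := not_not.1 hcon
      apply hi
      rw [Prod.snd_inv, PWr.inv_left, h2, hb', GERM_inv hc]

variable (r : G →* H) (c : G → I → B)
  (hc : ∀ g g' i, c (g * g') i = c g i * c g' ((r g)⁻¹ • i)) (q : G →* Q₀)

/-- the action of `E` through `H` -/
def GERM_r : GERM_E r c hc q →* H :=
  PWr.rightHom.comp ((MonoidHom.snd Q₀ (PWr B I H)).comp (GERM_E r c hc q).subtype)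

theorem GERM_r_apply (e : GERM_E r c hc q) : GERM_r r c hc q e = e.1.2.right := rfl

/-- the action of `E` on `I` -/
@[reducible] def GERM_act : MulAction (GERM_E r c hc q) I := MulAction.compHom I (GERM_r r c hc q)

/-- the elements supported at `i` -/
def GERM_A (i : I) : Subgroup (GERM_E r c hc q) where
  carrier := {e | e.1.1 = 1 ∧ e.1.2.right = 1 ∧ ∀ j, j ≠ i → e.1.2.left j = 1}
  one_mem' := ⟨rfl, rfl, fun _ _ => rfl⟩
  mul_mem' := by
    rintro a b ⟨a1, a2, a3⟩ ⟨b1, b2, b3⟩
    refine ⟨?_, ?_, ?_⟩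
    · rw [Subgroup.coe_mul, Prod.fst_mul, a1, b1, mul_one]
    · rw [Subgroup.coe_mul, Prod.snd_mul, PWr.mul_right, a2, b2, mul_one]
    · intro j hj
      rw [Subgroup.coe_mul, Prod.snd_mul, PWr.mul_left, a2, inv_one, one_smul, a3 j hj, b3 j hj,
        mul_one]
  inv_mem' := by
    rintro a ⟨a1, a2, a3⟩
    refine ⟨?_, ?_, ?_⟩
    · rw [Subgroup.coe_inv, Prod.fst_inv, a1, inv_one]
    · rw [Subgroup.coe_inv, Prod.snd_inv, PWr.inv_right, a2, inv_one]
    · intro j hj
      rw [Subgroup.coe_inv, Prod.snd_inv, PWr.inv_left, a2, one_smul, a3 j hj, inv_one]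

/-- the elements which are trivial at `i` -/
def GERM_Z (i : I) : Subgroup (GERM_E r c hc q) where
  carrier := {e | e.1.1 = 1 ∧ e.1.2.right = 1 ∧ e.1.2.left i = 1}
  one_mem' := ⟨rfl, rfl, rfl⟩
  mul_mem' := by
    rintro a b ⟨a1, a2, a3⟩ ⟨b1, b2, b3⟩
    refine ⟨?_, ?_, ?_⟩
    · rw [Subgroup.coe_mul, Prod.fst_mul, a1, b1, mul_one]
    · rw [Subgroup.coe_mul, Prod.snd_mul, PWr.mul_right, a2, b2, mul_one]
    · rw [Subgroup.coe_mul, Prod.snd_mul, PWr.mul_left, a2, inv_one, one_smul, a3, b3, mul_one]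
  inv_mem' := by
    rintro a ⟨a1, a2, a3⟩
    refine ⟨?_, ?_, ?_⟩
    · rw [Subgroup.coe_inv, Prod.fst_inv, a1, inv_one]
    · rw [Subgroup.coe_inv, Prod.snd_inv, PWr.inv_right, a2, inv_one]
    · rw [Subgroup.coe_inv, Prod.snd_inv, PWr.inv_left, a2, one_smul, a3, inv_one]

theorem GERM_ext {e e' : GERM_E r c hc q} (h1 : e.1.1 = e'.1.1) (h2 : e.1.2.right = e'.1.2.right)
    (h3 : ∀ j, e.1.2.left j = e'.1.2.left j) : e = e' :=
  Subtype.ext (Prod.ext h1 (PWr.ext (funext h3) h2))

theorem GERM_span (s : Finset I) : ∀ (e : GERM_E r c hc q), e.1.1 = 1 → e.1.2.right = 1 →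
    (∀ j, j ∉ s → e.1.2.left j = 1) → ∀ K : Subgroup (GERM_E r c hc q),
    (∀ j ∈ s, GERM_A r c hc q j ≤ K) → e ∈ K := by
  classical
  induction s using Finset.induction_on with
  | empty =>
    intro e h1 h2 h3 K _
    have he : e = 1 := GERM_ext r c hc q h1 h2 (fun j => h3 j (by simp))
    rw [he]
    exact one_mem _
  | insert a s ha ih =>
    intro e h1 h2 h3 K hK
    let e1 : GERM_E r c hc q := ⟨(1, ⟨Pi.mulSingle a (e.1.2.left a), 1⟩), ⟨1, by simp, by simp, by
      refine (Set.finite_singleton a).subset ?_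
      intro i hi
      by_contra hia
      apply hi
      show (Pi.mulSingle a (e.1.2.left a) : I → B) i = c 1 i
      rw [Pi.mulSingle_eq_of_ne hia, GERM_one hc]⟩⟩
    have he1 : e1 ∈ K := by
      apply hK a (Finset.mem_insert_self a s)
      refine ⟨rfl, rfl, fun j hj => ?_⟩
      exact Pi.mulSingle_eq_of_ne hj _
    have he2 : e1⁻¹ * e ∈ K := by
      apply ih
      · rw [Subgroup.coe_mul, Subgroup.coe_inv, Prod.fst_mul, Prod.fst_inv, h1]
        show (1 : Q₀)⁻¹ * 1 = 1
        rw [inv_one, mul_one]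
      · rw [Subgroup.coe_mul, Subgroup.coe_inv, Prod.snd_mul, Prod.snd_inv, PWr.mul_right, h2,
          PWr.inv_right]
        show (1 : H)⁻¹ * 1 = 1
        rw [inv_one, mul_one]
      · intro j hj
        rw [Subgroup.coe_mul, Subgroup.coe_inv, Prod.snd_mul, Prod.snd_inv, PWr.mul_left,
          PWr.inv_left, PWr.inv_right]
        have e2 : e1.1.2.right = 1 := rfl
        rw [e2, inv_one, inv_one, one_smul]
        by_cases hja : j = a
        · rw [hja]
          have e3 : e1.1.2.left a = e.1.2.left a :=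
            Pi.mulSingle_eq_same (M := fun _ : I => B) a (e.1.2.left a)
          rw [e3, inv_mul_cancel]
        · have e3 : e1.1.2.left j = 1 := Pi.mulSingle_eq_of_ne hja _
          rw [e3, inv_one, one_mul]
          apply h3
          rw [Finset.mem_insert, not_or]
          exact ⟨hja, hj⟩
      · exact fun j hj => hK j (Finset.mem_insert_of_mem hj)
    have h4 := mul_mem he1 he2
    rwa [mul_inv_cancel_left] at h4

theorem GERM_fin (hfin : ∀ g, q g = 1 → r g = 1 → {i | c g i ≠ 1}.Finite)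
    (e : GERM_E r c hc q) (h1 : e.1.1 = 1) (h2 : e.1.2.right = 1) :
    {i | e.1.2.left i ≠ 1}.Finite := by
  obtain ⟨g, g1, g2, g3⟩ := e.2
  have h3 := hfin g (g1.symm.trans h1) (g2.symm.trans h2)
  refine (g3.union h3).subset ?_
  intro i hi
  by_contra hcon
  rw [Set.mem_union, not_or] at hcon
  obtain ⟨ha, hb⟩ := hcon
  exact hi ((not_not.1 ha : e.1.2.left i = c g i).trans (not_not.1 hb))

theorem GERM_span' (hfin : ∀ g, q g = 1 → r g = 1 → {i | c g i ≠ 1}.Finite)
    (e : GERM_E r c hc q) (h1 : e.1.1 = 1) (h2 : e.1.2.right = 1)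
    (K : Subgroup (GERM_E r c hc q))
    (hK : ∀ j, e.1.2.left j ≠ 1 → GERM_A r c hc q j ≤ K) : e ∈ K := by
  have hf := GERM_fin r c hc q hfin e h1 h2
  refine GERM_span r c hc q hf.toFinset e h1 h2 ?_ K ?_
  · intro j hj
    rw [Set.Finite.mem_toFinset] at hj
    exact not_not.1 hj
  · intro j hj
    rw [Set.Finite.mem_toFinset] at hj
    exact hK j hj

theorem GERM_permuted : letI := GERM_act r c hc q; Permuted (GERM_A r c hc q) := by
  let _ := GERM_act r c hc q
  have hact : ∀ (w : GERM_E r c hc q) (i : I), w • i = w.1.2.right • i := fun _ _ => rfl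
  refine ⟨?_, ?_, ?_, ?_⟩
  · rintro w i a ⟨a1, a2, a3⟩
    refine ⟨?_, ?_, ?_⟩
    · rw [Subgroup.coe_mul, Subgroup.coe_mul, Subgroup.coe_inv, Prod.fst_mul, Prod.fst_mul,
        Prod.fst_inv, a1, mul_one, mul_inv_cancel]
    · rw [Subgroup.coe_mul, Subgroup.coe_mul, Subgroup.coe_inv, Prod.snd_mul, Prod.snd_mul,
        Prod.snd_inv, PWr.mul_right, PWr.mul_right, PWr.inv_right, a2, mul_one, mul_inv_cancel]
    · intro j hj
      rw [Subgroup.coe_mul, Subgroup.coe_mul, Subgroup.coe_inv, Prod.snd_mul, Prod.snd_mul,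
        Prod.snd_inv, PWr.mul_left, PWr.mul_left, PWr.mul_right, PWr.inv_left, a2, mul_one,
        smul_inv_smul, a3, mul_one, mul_inv_cancel]
      intro h
      apply hj
      rw [hact, ← h, smul_inv_smul]
  · rintro i j hij a ⟨a1, a2, a3⟩ b ⟨b1, b2, b3⟩
    refine GERM_ext r c hc q ?_ ?_ ?_
    · rw [Subgroup.coe_mul, Subgroup.coe_mul, Prod.fst_mul, Prod.fst_mul, a1, b1]
    · rw [Subgroup.coe_mul, Subgroup.coe_mul, Prod.snd_mul, Prod.snd_mul, PWr.mul_right,
        PWr.mul_right, a2, b2]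
    · intro k
      rw [Subgroup.coe_mul, Subgroup.coe_mul, Prod.snd_mul, Prod.snd_mul, PWr.mul_left,
        PWr.mul_left, a2, b2, inv_one, one_smul]
      by_cases hk : k = i
      · rw [b3 k (fun h => hij (hk.symm.trans h)), mul_one, one_mul]
      · rw [a3 k hk, mul_one, one_mul]
  · rintro i a ⟨a1, a2, a3⟩ ha
    have hle : (⨆ j : {j : I // j ≠ i}, GERM_A r c hc q j.1) ≤ GERM_Z r c hc q i := by
      refine iSup_le ?_
      rintro ⟨j, hj⟩ x ⟨x1, x2, x3⟩
      exact ⟨x1, x2, x3 i (fun h => hj h.symm)⟩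
    have h4 := hle ha
    refine GERM_ext r c hc q a1 a2 ?_
    intro k
    by_cases hk : k = i
    · rw [hk]
      exact h4.2.2
    · exact a3 k hk
  · rintro i a ⟨a1, a2, a3⟩ j
    rw [hact, a2, one_smul]

/-- the homomorphism to the quotient -/
def GERM_f : GERM_E r c hc q →* Q₀ × H :=
  ((MonoidHom.fst Q₀ (PWr B I H)).comp (GERM_E r c hc q).subtype).prod (GERM_r r c hc q)

theorem GERM_ker (hfin : ∀ g, q g = 1 → r g = 1 → {i | c g i ≠ 1}.Finite) :
    (GERM_f r c hc q).ker = ⨆ i, GERM_A r c hc q i := by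
  apply le_antisymm
  · intro e he
    have h1 : e.1.1 = 1 := congrArg Prod.fst (MonoidHom.mem_ker.1 he)
    have h2 : e.1.2.right = 1 := congrArg Prod.snd (MonoidHom.mem_ker.1 he)
    exact GERM_span' r c hc q hfin e h1 h2 _ (fun j _ => le_iSup (GERM_A r c hc q) j)
  · refine iSup_le ?_
    rintro i e ⟨e1, e2, _⟩
    exact MonoidHom.mem_ker.2 (Prod.ext e1 e2)

/-- the map of the stabiliser -/
def GERM_rho (i : I) : letI := GERM_act r c hc q
    MulAction.stabilizer (GERM_E r c hc q) i →* B × (Q₀ × H) :=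
  letI := GERM_act r c hc q
  { toFun := fun x => (x.1.1.2.left i, GERM_f r c hc q x.1)
    map_one' := rfl
    map_mul' := by
      intro x y
      have hx : x.1.1.2.right • i = i := x.2
      have hx' : x.1.1.2.right⁻¹ • i = i := by
        rw [inv_smul_eq_iff, hx]
      refine Prod.ext ?_ (map_mul (GERM_f r c hc q) x.1 y.1)
      show (x.1.1.2 * y.1.1.2).left i = x.1.1.2.left i * y.1.1.2.left i
      rw [PWr.mul_left, hx'] }

end aux

/-- Let `G` act on `I` through a homomorphism `r : G → H`, and let `c : G → I → B` be a cocycle: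
`c (g g') i = c g i * c g' ((r g)⁻¹ • i)`. Let `q : G → Q₀` be a homomorphism such that the function
`c g` has finite support whenever `q g = 1` and `r g = 1`. If `B`, `H`, `Q₀` are in the class then
there is a homomorphism from `G` to a group of the class whose kernel is contained in
`{g | q g = 1, r g = 1, c g = 1}`.

Proof with the theorem of helper7 on permuted direct sums (`Permuted.mem` in helper7/Wr/Main.lean,
used as in helper7/Wr/PermutedDirectSumsVariant.lean). Let `U = PWr B I H` be the unrestricted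
permutational wreath product (helper7/Wr/Basic.lean) and `Φ : G → Q₀ × U`,
`Φ g = (q g, (c g, r g))`, a homomorphism. Let `E ≤ Q₀ × U` be the subgroup generated by the image
of `Φ` and by the elements `(1, (b, 1))` with `b : I → B` of finite support; these elements form a
normal subgroup of `E` (they are normalised by all of `Q₀ × U`), so every element of `E` is
`Φ g * (1, (b, 1))`. `E` acts on `I` through `H`; let `A i ≤ E` be the subgroup of the `(1, (b, 1))`
with `b` supported in `{i}`. They form a permuted direct sum, and they generate the kernel of the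
homomorphism `E → Q₀ × H`: if `Φ g * (1, (b, 1))` is in the kernel then `q g = 1`, `r g = 1`, so
`c g` has finite support. For `i : I` let `ρ` be the homomorphism from the stabiliser of `i` in `E` to
`B × (Q₀ × H)`, `(x, (b, h)) ↦ (b i, (x, h))`; its kernel consists of elements `(1, (b, 1))` with
finite support and `b i = 1`, so it is contained in `⨆ j ≠ i, A j`. Hence `E` is in the class; take
`φ = Φ`. -/
theorem germ {P : ∀ (G : Type) [Group G], Prop} (hP : Cls P) {G H I B Q₀ : Type} [Group G]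
    [Group H] [MulAction H I] [Group B] [Group Q₀] (r : G →* H) (c : G → I → B)
    (hc : ∀ g g' i, c (g * g') i = c g i * c g' ((r g)⁻¹ • i)) (q : G →* Q₀)
    (hB : P B) (hH : P H) (hQ : P Q₀)
    (hfin : ∀ g, q g = 1 → r g = 1 → {i | c g i ≠ 1}.Finite) :
    ∃ (Q : Type) (_ : Group Q) (φ : G →* Q), P Q ∧
      ∀ g, φ g = 1 → q g = 1 ∧ r g = 1 ∧ ∀ i, c g i = 1 := by
  let _ := GERM_act r c hc q
  have hPE : P (GERM_E r c hc q) := by
    refine Permuted.mem hP.inh hP.ext (GERM_permuted r c hc q) (hP.inh.prod _ _ hQ hH)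
      (GERM_f r c hc q) (GERM_ker r c hc q hfin) ?_
    intro i
    refine ⟨B × (Q₀ × H), inferInstance, GERM_rho r c hc q i,
      hP.inh.prod _ _ hB (hP.inh.prod _ _ hQ hH), ?_⟩
    intro x hx
    have h0 : x.1.1.2.left i = 1 := congrArg Prod.fst hx
    have h1 : x.1.1.1 = 1 := congrArg (fun t => t.2.1) hx
    have h2 : x.1.1.2.right = 1 := congrArg (fun t => t.2.2) hx
    refine GERM_span' r c hc q hfin x.1 h1 h2 _ ?_
    intro j hj
    exact Permuted.le_oth (fun h => hj (h ▸ h0))
  refine ⟨GERM_E r c hc q, inferInstance, MonoidHom.mk' (fun g => ⟨(q g, ⟨c g, r g⟩), ⟨g, rfl, rfl,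
    by
      have h : {i | (q g, (⟨c g, r g⟩ : PWr B I H)).2.left i ≠ c g i} = ∅ := by
        ext i
        simp
      rw [h]
      exact Set.finite_empty⟩⟩) ?_, hPE, ?_⟩
  · intro g g'
    refine GERM_ext r c hc q ?_ ?_ ?_
    · exact map_mul q g g'
    · exact map_mul r g g'
    · exact fun j => hc g g' j
  · intro g hg
    have hg' := congrArg Subtype.val hg
    refine ⟨congrArg Prod.fst hg', congrArg (fun t => t.2.right) hg', ?_⟩
    intro i
    exact congrArg (fun t => t.2.left i) hg'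

end Pool.Agent.helper55.LR
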