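import Pool.Agent.helper55.LR.Wall
import Pool.Agent.helper55.LR.Germ

set_option autoImplicit false

/-!
# LRA-CORE: homomorphisms on the preimage of an infinite cyclic subgroup of the Coxeter group
-/

namespace Pool.Agent.helper55.LR

open Pool.Agent.helper55.EV
open Pool.Agent.helper36.LT (Artin gen alt artinRels)
open Pool.Agent.helper46.FJ3 (restr mp mp_gen inc inc_gen inc_mp)

/-- the stabiliser does not depend on the representative of the coset -/
theorem CORE_PB {S : Type} [Fintype S] [DecidableEq S] (M : CoxeterMatrix S) (X : Finset S)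
    (v h : M.Group) : h ∈ PB M X (rp M X v).1 ↔ h ∈ PB M X v := by
  have ha := rp_spec M X v
  have h1 : (rp M X v).1 * h * (rp M X v).1⁻¹ =
      ((rp M X v).1 * v⁻¹) * (v * h * v⁻¹) * ((rp M X v).1 * v⁻¹)⁻¹ := by group
  rw [mem_PB, mem_PB, h1]
  constructor
  · intro h2
    have h3 := (WX M X).mul_mem ((WX M X).mul_mem ((WX M X).inv_mem ha) h2) ha
    have h4 : ((rp M X v).1 * v⁻¹)⁻¹ *
        (((rp M X v).1 * v⁻¹) * (v * h * v⁻¹) * ((rp M X v).1 * v⁻¹)⁻¹) *
          ((rp M X v).1 * v⁻¹) = v * h * v⁻¹ := by group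
    rwa [h4] at h3
  · intro h2
    exact (WX M X).mul_mem ((WX M X).mul_mem ha h2) ((WX M X).inv_mem ha)

theorem CORE_one {S : Type} [Fintype S] [DecidableEq S] (M : CoxeterMatrix S) (Z : Finset S)
    (h : M.Group) : h ∈ PB M Z (e1 M Z).1 ↔ h ∈ WX M Z := by
  rw [← rp_one, CORE_PB, mem_PB, one_mul, inv_one, mul_one]

theorem CORE_st {S : Type} [Fintype S] [DecidableEq S] (M : CoxeterMatrix S) (X : Finset S)
    (v : M.Group) (g : Artin M) : st M X (rp M X v) g = rp M X (v * cx M g) := by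
  rw [st_eq]
  apply rp_eq
  have h1 : (rp M X v).1 * cx M g * (v * cx M g)⁻¹ = (rp M X v).1 * v⁻¹ := by group
  rw [h1]
  exact rp_spec M X v

/-- Let `w` be an element of infinite order of the Coxeter group, `G` the preimage of `⟨w⟩` in the
Artin group, and assume that for `g ∈ A_S` the output of the machine for `Z` is the same in all
states of the cosets `W_Z w ^ j`. Then `q g = (co M Z (e1 M Z) g, cx M g)` is a homomorphism from `G`
to `A_Z × W` (use `co_mul`, `st_eq`; `cx M g = w ^ j`).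

Apply `germ` with `H = Multiplicative ℤ` acting on `I = ℤ` by translations, `r g = ofAdd (-j)` if
`cx M g = w ^ j`, `B = A_X`, `c g n = co M X (rp M X (u * w ^ n)) g` and this `q`. The cocycle
condition: `co_mul` and `st M X (rp M X (u * w ^ n)) g = rp M X (u * w ^ (n + j))` by `st_eq`, `rp_eq`;
`(r g)⁻¹ • n = n + j`. The finiteness: let `q g = 1`, `F` the finite set of reflections for `g` of
`exists_walls`. For `r ∈ F` with `r ∉ W_Z` the set of the `n` with `r ∈ PB M X (u * w ^ n)` is
finite, by `hper` and `hZ`. For the other `n` apply `exists_walls` with `w := rp M X (u * w ^ n)`,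
`Y = Z`, `w' := e1 M Z`: `PB M Z 1 = W_Z` is contained in `PB M X (u * w ^ n)` by `hZ`, and
`co M Z (e1 M Z) g = 1` as `q g = 1`; so `c g n = 1`. (`PB M X (rp M X v).1 = PB M X v`.)
The result: `φ g = 1` implies `cx M g = 1` and `co M X (rp M X (u * w ^ n)) g = 1` for all `n`, take
`n = 0`. -/
theorem core {P : ∀ (G : Type) [Group G], Prop} (hP : Cls P) {S : Type} [Fintype S]
    [DecidableEq S] (M : CoxeterMatrix S) (w : M.Group) (hw : ∀ n : ℤ, w ^ n = 1 → n = 0)
    (X Z : Finset S) (u : M.Group)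
    (hper : ∀ (y : M.Group) (s : S),
      {n : ℤ | y * M.toCoxeterSystem.simple s * y⁻¹ ∈ PB M X (u * w ^ n)}.Infinite →
      ∀ n : ℤ, y * M.toCoxeterSystem.simple s * y⁻¹ ∈ PB M X (u * w ^ n))
    (hZ : ∀ h, h ∈ WX M Z ↔ ∀ n : ℤ, h ∈ PB M X (u * w ^ n))
    (hJ : ∀ (j : ℤ) (g : Artin M), co M Z (rp M Z (w ^ j)) g = co M Z (e1 M Z) g)
    (hPX : P (Artin (restr M X))) (hPZ : P (Artin (restr M Z))) :
    ∃ (Q : Type) (_ : Group Q) (φ : ((Subgroup.zpowers w).comap (cx M)) →* Q), P Q ∧
      ∀ g, φ g = 1 → cx M g.1 = 1 ∧ co M X (rp M X u) g.1 = 1 := by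
  have inj : ∀ a b : ℤ, w ^ a = w ^ b → a = b := by
    intro a b h
    have h1 : w ^ (a - b) = 1 := by rw [zpow_sub, h, mul_inv_cancel]
    have h2 := hw _ h1
    omega
  have hex : ∀ g : ((Subgroup.zpowers w).comap (cx M)), ∃ j : ℤ, w ^ j = cx M g.1 := fun g =>
    Subgroup.mem_zpowers_iff.1 (Subgroup.mem_comap.1 g.2)
  choose jf hjf using hex
  have j1 : jf 1 = 0 := by
    apply hw
    rw [hjf]
    exact map_one _
  have jm : ∀ g g', jf (g * g') = jf g + jf g' := by
    intro g g'
    apply inj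
    rw [hjf, zpow_add, hjf, hjf]
    exact map_mul _ _ _
  let r : ((Subgroup.zpowers w).comap (cx M)) →* Multiplicative ℤ :=
    { toFun := fun g => Multiplicative.ofAdd (- jf g)
      map_one' := by rw [j1]; rfl
      map_mul' := fun g g' => by
        rw [jm, neg_add]
        rfl }
  have hq : ∀ g g' : ((Subgroup.zpowers w).comap (cx M)),
      co M Z (e1 M Z) (g * g').1 = co M Z (e1 M Z) g.1 * co M Z (e1 M Z) g'.1 := by
    intro g g'
    have h1 : (g * g').1 = g.1 * g'.1 := rfl
    rw [h1, co_mul]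
    congr 1
    conv_lhs => rw [← rp_one, CORE_st, one_mul, ← hjf g]
    exact hJ _ _
  let q : ((Subgroup.zpowers w).comap (cx M)) →* Artin (restr M Z) × M.Group :=
    { toFun := fun g => (co M Z (e1 M Z) g.1, cx M g.1)
      map_one' := by
        have h1 : ((1 : ((Subgroup.zpowers w).comap (cx M))).1) = 1 := rfl
        rw [h1, co_one, map_one]
        rfl
      map_mul' := fun g g' => by
        rw [hq]
        have h1 : (g * g').1 = g.1 * g'.1 := rfl
        rw [h1, map_mul]
        rfl }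
  obtain ⟨Q, hQ, φ, hPQ, hφ⟩ := germ hP (H := Multiplicative ℤ) (I := ℤ)
    (B := Artin (restr M X)) (Q₀ := Artin (restr M Z) × M.Group) r
    (fun g n => co M X (rp M X (u * w ^ n)) g.1)
    (by
      intro g g' n
      have h1 : (g * g').1 = g.1 * g'.1 := rfl
      have h2 : (r g)⁻¹ • n = jf g + n := by
        have h3 : (r g)⁻¹ = Multiplicative.ofAdd (jf g) := by
          show (Multiplicative.ofAdd (- jf g))⁻¹ = Multiplicative.ofAdd (jf g)
          rw [← ofAdd_neg, neg_neg]
        rw [h3]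
        rfl
      show co M X (rp M X (u * w ^ n)) (g * g').1 =
        co M X (rp M X (u * w ^ n)) g.1 * co M X (rp M X (u * w ^ ((r g)⁻¹ • n))) g'.1
      rw [h1, co_mul, CORE_st, h2, ← hjf g, mul_assoc, ← zpow_add, add_comm n])
    q hPX hP.inh.int (hP.cl.prod _ _ hPZ (hP.cox S M))
    (by
      intro g hg _
      have hg1 : co M Z (e1 M Z) g.1 = 1 := congrArg Prod.fst hg
      obtain ⟨F, hF, hFr, hFw⟩ := exists_walls M g.1
      have hfin : (⋃ x ∈ {x ∈ F | x ∉ WX M Z}, {n : ℤ | x ∈ PB M X (u * w ^ n)}).Finite := by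
        refine Set.Finite.biUnion (hF.subset fun x hx => hx.1) ?_
        intro x hx
        by_contra hinf
        obtain ⟨y, s, rfl⟩ := hFr x hx.1
        exact hx.2 ((hZ _).2 (hper y s hinf))
      refine hfin.subset ?_
      intro n hn
      by_contra hnB
      apply hn
      refine hFw X Z (rp M X (u * w ^ n)) (e1 M Z) ?_ ?_ hg1
      · intro h hh
        rw [CORE_one] at hh
        rw [CORE_PB]
        exact (hZ h).1 hh n
      · intro x hx hxX
        rw [CORE_PB] at hxX
        rw [CORE_one]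
        by_contra hxZ
        exact hnB (Set.mem_biUnion (show x ∈ {x ∈ F | x ∉ WX M Z} from ⟨hx, hxZ⟩) hxX))
  refine ⟨Q, hQ, φ, hPQ, fun g hg => ?_⟩
  obtain ⟨h1, _, h3⟩ := hφ g hg
  refine ⟨congrArg Prod.snd h1, ?_⟩
  have h4 := h3 0
  rwa [zpow_zero, mul_one] at h4

end Pool.Agent.helper55.LR
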