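import Pool.Agent.helper55.EV.Block2

set_option autoImplicit false

/-!
# LRA: definitions for triangles of groups with arbitrary angles
-/

namespace Pool.Agent.helper55.LR

open Pool.Agent.helper55.EV
open Pool.Agent.helper34.FJ2 Pool.Agent.helper34.FJ3
open scoped BigOperators

/-- an alternating relation with `2 n` syllables -/
def Alt {G : Type} [Group G] (A B : Subgroup G) (n : ℕ) : Prop :=
  ∃ a b : ℕ → G, (∀ i, i < n → a i ∈ A ∧ a i ∉ B ∧ b i ∈ B ∧ b i ∉ A) ∧
    ((List.range n).map fun i => a i * b i).prod = 1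

/-- the lengths of the edges of the development of a triangle of groups, when `α t` is the angle at
the cosets of `H t`: the edges between the types `s` and `t` have the length `sin (α r)`, where `r` is
the third type (`r = - (s + t)` in `Fin 3`) -/
noncomputable def alen {G : Type} [Group G] (H : Fin 3 → Subgroup G) (α : Fin 3 → ℝ)
    (u v : TV H) : ℝ := Real.sin (α (-(u.1 + v.1)))

/-- the angles of a Euclidean triangle without obtuse angles -/
structure Ang (α : Fin 3 → ℝ) : Prop where
  pos : ∀ t, 0 < α t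
  le : ∀ t, α t ≤ Real.pi / 2
  sum : α 0 + α 1 + α 2 = Real.pi

/-- no label `∞` -/
def NoInf {S : Type} (M : CoxeterMatrix S) : Prop := ∀ s t : S, M.M s t ≠ 0

/-- locally reducible: for three generators with finite labels two labels are `2`, or
`1/m_rs + 1/m_st + 1/m_rt ≤ 1` -/
def LocRed {S : Type} (M : CoxeterMatrix S) : Prop :=
  ∀ r s t : S, r ≠ s → s ≠ t → r ≠ t → M.M r s ≠ 0 → M.M s t ≠ 0 → M.M r t ≠ 0 →
    (M.M r s = 2 ∧ M.M s t = 2) ∨ (M.M r s = 2 ∧ M.M r t = 2) ∨ (M.M s t = 2 ∧ M.M r t = 2) ∨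
    (1 : ℚ) / (M.M r s : ℚ) + 1 / (M.M s t : ℚ) + 1 / (M.M r t : ℚ) ≤ 1

end Pool.Agent.helper55.LR
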