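import Pool.Agent.helper55.LR.TransW
import Pool.Agent.helper55.LR.TDefs
import Pool.Agent.helper55.EV.Block2

set_option autoImplicit false

/-!
# LRA-INF: the label `∞`
-/

namespace Pool.Agent.helper55.LR

open Pool.Agent.helper55.EV
open Pool.Agent.helper34.FJ2 Pool.Agent.helper34.FJ3
open Pool.Agent.helper36.LT (Artin gen alt artinRels)
open Pool.Agent.helper50.LT (alt_map gen_rel lift lift_gen artin_hom_ext)
open Pool.Agent.helper46.FJ3 (restr mp mp_gen inc inc_gen inc_mp)

/-- the universal property, only the pairs of generators without the label `∞` matter -/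
theorem INF_UP {S : Type} (M : CoxeterMatrix S) {n : ℕ} (T : Fin n → Set S)
    (hT : ∀ s s' : S, M.M s s' ≠ 0 → ∃ t, s ∈ T t ∧ s' ∈ T t) :
    Subgroup.closure {x : Artin M | ∃ t, x ∈ sg M (T t)} = ⊤ ∧
    ∀ (K : Type) [Group K] (f : ∀ t, sg M (T t) →* K),
      (∀ (t t' : Fin n) (x : Artin M) (h : x ∈ sg M (T t)) (h' : x ∈ sg M (T t')),
        f t ⟨x, h⟩ = f t' ⟨x, h'⟩) →
      ∃ F : Artin M →* K, ∀ (t : Fin n) (x : sg M (T t)), F x = f t x := by
  have hT1 : ∀ s : S, ∃ t, s ∈ T t := by
    intro s
    obtain ⟨t, h1, -⟩ := hT s s (by rw [M.diagonal]; exact one_ne_zero)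
    exact ⟨t, h1⟩
  constructor
  · rw [eq_top_iff, ← sg_univ M]
    unfold sg
    rw [Subgroup.closure_le]
    rintro _ ⟨s, -, rfl⟩
    obtain ⟨t, ht⟩ := hT1 s
    exact Subgroup.subset_closure ⟨t, gen_mem M ht⟩
  · intro K _ f hf
    choose ty hty using hT1
    have hmem : ∀ s, gen M s ∈ sg M (T (ty s)) := fun s => gen_mem M (hty s)
    have hrel : ∀ s s' : S, alt (f (ty s) ⟨gen M s, hmem s⟩) (f (ty s') ⟨gen M s', hmem s'⟩)
        (M.M s s') = alt (f (ty s') ⟨gen M s', hmem s'⟩) (f (ty s) ⟨gen M s, hmem s⟩)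
        (M.M s s') := by
      intro s s'
      by_cases h0 : M.M s s' = 0
      · rw [h0]
        rfl
      obtain ⟨t, h1, h2⟩ := hT s s' h0
      have h3 : gen M s ∈ sg M (T t) := gen_mem M h1
      have h4 : gen M s' ∈ sg M (T t) := gen_mem M h2
      rw [hf (ty s) t _ (hmem s) h3, hf (ty s') t _ (hmem s') h4, ← alt_map, ← alt_map]
      congr 1
      apply Subtype.ext
      have h5 := alt_map (sg M (T t)).subtype (⟨gen M s, h3⟩ : sg M (T t)) ⟨gen M s', h4⟩ (M.M s s')
      have h6 := alt_map (sg M (T t)).subtype (⟨gen M s', h4⟩ : sg M (T t)) ⟨gen M s, h3⟩ (M.M s s')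
      refine h5.trans (Eq.trans ?_ h6.symm)
      exact gen_rel M s s'
    refine ⟨lift M (fun s => f (ty s) ⟨gen M s, hmem s⟩) hrel, ?_⟩
    rintro t ⟨x, hx⟩
    have key : ∀ x (hx : x ∈ sg M (T t)),
        lift M (fun s => f (ty s) ⟨gen M s, hmem s⟩) hrel x = f t ⟨x, hx⟩ := by
      intro x hx
      unfold sg at hx
      induction hx using Subgroup.closure_induction with
      | mem x hx' =>
        obtain ⟨s, hs, rfl⟩ := hx'
        rw [lift_gen]
        exact hf _ _ _ _ _
      | one =>
        rw [map_one]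
        exact (map_one (f t)).symm
      | mul x y hx' hy' ihx ihy =>
        rw [map_mul, ihx, ihy]
        exact (map_mul (f t) ⟨x, hx'⟩ ⟨y, hy'⟩).symm
      | inv x hx' ih =>
        rw [map_inv, ih]
        exact (map_inv (f t) ⟨x, hx'⟩).symm
    exact key x hx

/-- a subgroup of the other one -/
theorem INF_G8 {G : Type} [Group G] {A B : Subgroup G} (h : A ≤ B) : G8 A B := by
  refine ⟨?_, ?_⟩
  · intro a₁ h1 _ _ _ _ _ _ _
    exact Or.inl (h h1)
  · intro a₁ h1 _ _ _ _ _ _ _ _ _ _ _
    exact Or.inl (h h1)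

/-- the whole set of generators -/
theorem INF_univ {P : ∀ (G : Type) [Group G], Prop} (hP : Closed P) {S : Type} [Fintype S]
    (M : CoxeterMatrix S) (h : P (Artin (restr M Finset.univ))) : P (Artin M) := by
  have hsat : Sat M ((Finset.univ : Finset S) : Set S) := by
    intro s _ t ht
    exact absurd (Finset.mem_coe.2 (Finset.mem_univ t)) ht
  have hall : ∀ g : Artin M, g ∈ sg M ((Finset.univ : Finset S) : Set S) := by
    intro g
    rw [Finset.coe_univ, sg_univ]
    exact Subgroup.mem_top _
  refine hP.inj (rtS M Finset.univ hsat) ?_ h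
  intro a b hab
  rw [← incS_rt M Finset.univ hsat (hall a), ← incS_rt M Finset.univ hsat (hall b), hab]

/-- the three sets of generators -/
def INF_T {S : Type} (x y : S) : Fin 3 → Set S := ![{x}ᶜ, {y}ᶜ, {x}ᶜ ∩ {y}ᶜ]

/-- the case of a label `∞` -/
theorem INF_step {P : ∀ (G : Type) [Group G], Prop} (hP : Cls P) {S : Type} [Fintype S]
    [DecidableEq S] (M : CoxeterMatrix S) (x y : S) (hxy : M.M x y = 0)
    (h1 : P (Artin (restr M (Finset.univ.erase x))))
    (h2 : P (Artin (restr M (Finset.univ.erase y)))) : P (Artin M) := by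
  have hne : x ≠ y := by
    rintro rfl
    rw [M.diagonal] at hxy
    exact one_ne_zero hxy
  have hyx : M.M y x = 0 := by rw [msymm M]; exact hxy
  let H : Fin 3 → Subgroup (Artin M) := fun t => sg M (INF_T x y t)
  have hsc : SimplyConnected (tog H) := by
    obtain ⟨h3, h4⟩ := INF_UP M (INF_T x y) (by
      intro s s' hss
      by_cases h5 : s = x ∨ s' = x
      · refine ⟨1, ?_, ?_⟩
        · show s ≠ y
          rintro rfl
          rcases h5 with h5 | h5
          · exact hne h5.symm
          · rw [h5] at hss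
            exact hss hyx
        · show s' ≠ y
          rintro rfl
          rcases h5 with h5 | h5
          · rw [h5] at hss
            exact hss hxy
          · exact hne h5.symm
      · push Not at h5
        exact ⟨0, h5.1, h5.2⟩)
    exact tog_sc H h3 h4
  have h20 : H 2 ≤ H 0 := sg_mono M Set.inter_subset_left
  have h21 : H 2 ≤ H 1 := sg_mono M Set.inter_subset_right
  have h01 : H 0 ⊓ H 1 ≤ H 2 := (sg_inf' M _ _).le
  have hnpc : NPC (tog H) (tlen H) := by
    refine tog_npc H (INF_G8 ?_) (INF_G8 ?_)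
    · exact le_inf inf_le_left h01
    · exact le_inf inf_le_left (inf_le_left.trans h21)
  refine transW hP M (tog H) (tlen H) hsc hnpc (tog_acts H) ?_
  intro s hs
  obtain ⟨v, hv⟩ := hs.nonempty
  obtain ⟨t, q⟩ := v
  obtain ⟨g, rfl⟩ := QuotientGroup.mk_surjective q
  have key : ∀ h : Artin M, (h • ·) '' s = s → g⁻¹ * h * g ∈ H t := by
    intro h hh
    have h4 : h • tv H t g ∈ s := by
      rw [← hh]
      exact ⟨_, hv, rfl⟩
    have h5 : tv H t (h * g) = tv H t g := simp_ty _ hs h4 hv rfl
    have h6 : ((h * g : Artin M) : Artin M ⧸ H t) = (g : Artin M ⧸ H t) :=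
      eq_of_heq (Sigma.mk.inj_iff.1 h5).2
    have h7 : g⁻¹ * (h * g) ∈ H t := QuotientGroup.eq.1 h6.symm
    rw [mul_assoc]
    exact h7
  have hx : sg M {x}ᶜ ≤ sg M ((Finset.univ.erase x : Finset S) : Set S) :=
    sg_mono M (fun z hz => by simpa using hz)
  have hy : sg M {y}ᶜ ≤ sg M ((Finset.univ.erase y : Finset S) : Set S) :=
    sg_mono M (fun z hz => by simpa using hz)
  by_cases ht : t = 1
  · subst ht
    exact ⟨Finset.univ.erase y, g, h2, fun h hh => hy (key h hh)⟩
  · have h8 : H t ≤ H 0 := by
      fin_cases t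
      · exact le_rfl
      · exact absurd rfl ht
      · exact h20
    exact ⟨Finset.univ.erase x, g, h1, fun h hh => hx (h8 (key h hh))⟩

/-- the induction -/
theorem INF_ind {P : ∀ (G : Type) [Group G], Prop} (hP : Cls P) (n : ℕ) :
    ∀ (S : Type) [Finite S], Nat.card S ≤ n → ∀ (M : CoxeterMatrix S),
      (∀ F : Finset S, NoInf (restr M F) → P (Artin (restr M F))) → P (Artin M) := by
  classical
  induction n with
  | zero =>
    intro S _ hS M h
    have : Fintype S := Fintype.ofFinite S
    have h0 : Nat.card S = 0 := Nat.le_zero.1 hS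
    rw [Finite.card_eq_zero_iff] at h0
    exact INF_univ hP.cl M (h _ fun s => (h0.false s.1).elim)
  | succ n ih =>
    intro S _ hS M h
    have : Fintype S := Fintype.ofFinite S
    by_cases h0 : NoInf M
    · exact INF_univ hP.cl M (h _ fun s t => h0 s.1 t.1)
    · unfold NoInf at h0
      push Not at h0
      obtain ⟨x, y, hxy⟩ := h0
      have hE : ∀ z : S, P (Artin (restr M (Finset.univ.erase z))) := by
        intro z
        refine ih _ ?_ _ ?_
        · have h1 : Nat.card (Finset.univ.erase z : Finset S) =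
              (Finset.univ.erase z : Finset S).card := by simp
          have h2 : (Finset.univ.erase z : Finset S).card < Fintype.card S :=
            Finset.card_lt_univ_of_notMem (Finset.notMem_erase z _)
          rw [Nat.card_eq_fintype_card] at hS
          omega
        · intro F hF
          refine restr_restr_P hP.cl M _ F (F.image Subtype.val)
            (fun s hs => Finset.mem_image.2 ⟨s, hs, rfl⟩) (h _ ?_)
          rintro ⟨s, hs⟩ ⟨t, ht⟩
          obtain ⟨s', hs', rfl⟩ := Finset.mem_image.1 hs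
          obtain ⟨t', ht', rfl⟩ := Finset.mem_image.1 ht
          exact hF ⟨s', hs'⟩ ⟨t', ht'⟩
      exact INF_step hP M x y hxy (hE x) (hE y)

/-- Artin groups (finite set of generators) are in the class if those of the subsets without the
label `∞` are.

Proof. Induction on the number of generators, for all `S` (the hypothesis for `M` gives it for
`restr M F`, by `restr_restr_P` of `EV/PairP.lean` or `Block2`). If there is no label `∞` in `M`, use the
hypothesis for `F = univ`. If `M x y = 0` (then `x ≠ y`, and `M y x = 0`) let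
`H 0 = sg M {x}ᶜ`, `H 1 = sg M {y}ᶜ`, `H 2 = H 0 ⊓ H 1 = sg M {x, y}ᶜ` (`sg_inf'`). Every generator,
and every pair of generators with a label different from `0`, lies in `{x}ᶜ` or in `{y}ᶜ`, so that the
Artin group is the colimit of the `H t` (compare `artin_UP` in `EV/Alg2.lean`; only the pairs `s, s'`
with `M.M s s' ≠ 0` matter, since `alt a b 0 = 1`), and `tog H` is simply connected by `tog_sc`. It is
non-positively curved by `tog_npc`: both hypotheses `G8 (H 0 ⊓ H 1) (H 0 ⊓ H 2)` and
`G8 (H 2 ⊓ H 0) (H 2 ⊓ H 1)` are trivial, since `H 0 ⊓ H 1 = H 0 ⊓ H 2 = H 2` (the elements lie in both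
groups). Apply `transW` with `tlen`, `tog_acts`: a simplex `s` of `tog H` has a vertex `tv H t g`, and an
element `h` with `h s = s` fixes it (`simp_ty` in `EV/Main.lean`), so `g⁻¹ h g ∈ H t`, which is
contained in `sg M {x}ᶜ` or `sg M {y}ᶜ`; the Artin groups of `univ.erase x` and `univ.erase y` are in
the class by induction. -/
theorem inf_red {P : ∀ (G : Type) [Group G], Prop} (hP : Cls P) {S : Type} [Finite S]
    (M : CoxeterMatrix S) (h : ∀ F : Finset S, NoInf (restr M F) → P (Artin (restr M F))) :
    P (Artin M) := by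
  exact INF_ind hP _ S le_rfl M h

end Pool.Agent.helper55.LR
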