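import Pool.Agent.helper55.LR.BFin
import Pool.Agent.helper55.LR.InfRed

set_option autoImplicit false

/-!
# Artin groups and locally reducible block structures
-/

namespace Pool.Agent.helper55.LR

open Pool.Agent.helper55.EV
open Pool.Agent.helper34.FJ2 Pool.Agent.helper34.FJ3
open Pool.Agent.helper36.LT (Artin gen alt artinRels)
open Pool.Agent.helper50.LT (alt_map gen_rel lift lift_gen artin_hom_ext)
open Pool.Agent.helper46.FJ3 (restr mp mp_gen inc inc_gen inc_mp)

variable {P : ∀ (G : Type) [Group G], Prop}

/-- the Artin group of `M` is in the class if every finite set of generators without the label `∞`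
has a locally reducible block structure such that the Artin groups of the blocks are in the class -/
theorem lrb_P (hP : Cls P) (S : Type) (M : CoxeterMatrix S)
    (h : ∀ T : Finset S, NoInf (restr M T) → ∃ (ι : Type) (b : S → ι),
      BlkL (restr M T) (fun s => b s.1) ∧
      ∀ F : Finset S, F ⊆ T → (∀ s ∈ F, ∀ t ∈ F, b s = b t) → P (Artin (restr M F))) :
    P (Artin M) := by
  classical
  have key : ∀ T : Finset S, NoInf (restr M T) → P (Artin (restr M T)) := by
    intro T hT
    obtain ⟨ι, b, hb, hX⟩ := h T hT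
    refine lrb_fin hP _ T ι le_rfl (restr M T) _ hb hT ?_
    intro F hF
    refine restr_restr_P hP.cl M T F (F.image Subtype.val)
      (fun s hs => Finset.mem_image.2 ⟨s, hs, rfl⟩) (hX _ ?_ ?_)
    · intro s hs
      obtain ⟨s', hs', rfl⟩ := Finset.mem_image.1 hs
      exact s'.2
    · intro s hs t ht
      obtain ⟨s', hs', rfl⟩ := Finset.mem_image.1 hs
      obtain ⟨t', ht', rfl⟩ := Finset.mem_image.1 ht
      exact hF s' hs' t' ht'
  open Pool.Agent.helper46.FJ3 in
  apply hP.cl.colim (Finset S) (GE M) (mp M) (Artin M) (fun F => inc M F)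
  · intro F x
    exact mp_refl M _ x
  · intro i j k hij hjk x
    exact mp_mp M _ _ _ x
  · intro i j h x
    exact inc_mp M _ x
  · exact surj_inc M
  · exact ker_inc M
  · intro F0
    refine inf_red hP (Pool.Agent.helper46.FJ3.restr M F0) ?_
    intro F hF
    refine restr_restr_P hP.cl M F0 F (F.image Subtype.val)
      (fun s hs => Finset.mem_image.2 ⟨s, hs, rfl⟩) (key _ ?_)
    rintro ⟨s, hs⟩ ⟨t, ht⟩
    obtain ⟨s', hs', rfl⟩ := Finset.mem_image.1 hs
    obtain ⟨t', ht', rfl⟩ := Finset.mem_image.1 ht
    exact hF ⟨s', hs'⟩ ⟨t', ht'⟩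

end Pool.Agent.helper55.LR
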