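import Pool.Agent.helper55.LR.BDefs
import Pool.Agent.helper55.EV.HNpc

set_option autoImplicit false

/-!
# LRA-BNP: the hybrid complex for arbitrary labels which are at least four
-/

namespace Pool.Agent.helper55.LR

open Pool.Agent.helper55.EV
open Pool.Agent.helper34.FJ2 Pool.Agent.helper34.FJ3
open Pool.Agent.helper36.LT (Artin gen alt artinRels)
open Pool.Agent.helper46.FJ3 (restr mp mp_gen inc inc_gen inc_mp)
open Pool.Agent.helper71.FJ3 (two_le corner_symm link_periodic mod_two sum_even alternate)
open scoped BigOperators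

theorem BNP_link_zero {S : Type} (M : CoxeterMatrix S) (X : Set S) (hX : Cross4 M X) (a : HV M X) (ha : HNPC_rk a.1 = 0)
    (n : ℕ) (b : ℕ → HV M X) (hn : 3 ≤ n) (hb : b n = b 0)
    (hinj : ∀ i j, i < n → j < n → b i = b j → i = j)
    (htri : ∀ i, i < n → (hyb M X).tri a (b i) (b (i + 1))) :
    2 * Real.pi ≤ ∑ i ∈ Finset.range n, corner (hlen M X) a (b i) (b (i + 1)) := by
  refine link_periodic (hyb M X) (hlen M X) a (fun v => HNPC_rk v.1 = 1) ?_ ?_ n b hn hb hinj htri
  · intro b c h h1
    have h2 := HNPC_tri M X h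
    omega
  · clear hinj htri hb hn
    clear b n
    intro n b hn hper hinj htri h0
    have h1 : ∀ i, (HNPC_rk (b i).1 = 1 ∧ HNPC_rk (b (i + 1)).1 = 2) ∨
        (HNPC_rk (b i).1 = 2 ∧ HNPC_rk (b (i + 1)).1 = 1) := by
      intro i
      have := HNPC_tri M X (htri i)
      omega
    obtain ⟨c1, c2, k, hk⟩ := alternate (fun i => HNPC_rk (b i).1) 1 2 (by norm_num) n
      (by have := hper 0; rw [zero_add] at this; simp only [this]) h1 h0
    -- all the vertices are determined by their types
    obtain ⟨g0, hg0, -⟩ := HNPC_data M X (htri 0)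
    rw [HNPC_rk0 ha] at hg0
    have h2 : ∀ i, b i = hv M X (b i).1 g0 := by
      intro i
      obtain ⟨g, e1, e2, -⟩ := HNPC_data M X (htri i)
      rw [HNPC_rk0 ha, hg0] at e1
      have e3 := HNPC_emp M X e1
      rw [e3]
      exact e2
    have h3 : ∀ i, HCmp (b i).1 (b (i + 1)).1 := by
      intro i
      obtain ⟨g, -, -, -, -, h, -⟩ := HNPC_data M X (htri i)
      exact h
    have h4 : ∀ i j, (b i).1 = (b j).1 → i ≡ j [MOD n] := by
      intro i j hij
      apply hinj
      rw [h2 i, h2 j, hij]
    have h5 : ∀ i, ∃ s, (b (2 * i)).1 = HT.s s := fun i => HNPC_rk1 (c1 i)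
    choose s hs using h5
    have h6 : ∀ i, s i ≠ s (i + 1) := by
      intro i hi
      have : (b (2 * i)).1 = (b (2 * (i + 1))).1 := by rw [hs, hs, hi]
      exact mod_two hn (by ring) (h4 _ _ this)
    have h7 : ∀ i, HLt (HT.s (s i)) (b (2 * i + 1)).1 := by
      intro i
      have := HNPC_cmp_lt (h3 (2 * i)) (by
        have e1 : HNPC_rk (b (2 * i)).1 = 1 := c1 i
        have e2 : HNPC_rk (b (2 * i + 1)).1 = 2 := c2 i
        omega)
      rwa [hs] at this
    have h8 : ∀ i, HLt (HT.s (s (i + 1))) (b (2 * i + 1)).1 := by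
      intro i
      have e0 : (b (2 * i + 1 + 1)) = b (2 * (i + 1)) := rfl
      have := HNPC_cmp_lt (T := (b (2 * (i + 1))).1) (T' := (b (2 * i + 1)).1)
        (HCmp.symm (h3 (2 * i + 1))) (by
          have e1 : HNPC_rk (b (2 * (i + 1))).1 = 1 := c1 (i + 1)
          have e2 : HNPC_rk (b (2 * i + 1)).1 = 2 := c2 i
          omega)
      rwa [hs] at this
    have h11 : ∀ i, corner (hlen M X) a (b (2 * i)) (b (2 * i + 1)) +
        corner (hlen M X) a (b (2 * i + 1)) (b (2 * i + 1 + 1)) =
          Real.pi - 2 * HNPC_ta (b (2 * i + 1)).1 := by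
      intro i
      have c3 : HNPC_rk (b (2 * i + 1 + 1)).1 = 1 := c1 (i + 1)
      rw [HNPC_bot M X a _ _ ha (c1 i) (c2 i), corner_symm _ (HNPC_symm M X) a (b (2 * i + 1)),
        HNPC_bot M X a _ _ ha c3 (c2 i)]
      ring
    subst hk
    rw [sum_even, Finset.sum_congr rfl (fun i _ => h11 i)]
    have hpi := Real.pi_pos
    -- the types `b`
    have hadj : ∀ i, (∃ c, (b (2 * i + 1)).1 = HT.b c) → (∃ c, (b (2 * (i + 1) + 1)).1 = HT.b c) →
        False := by
      rintro i ⟨c, hc⟩ ⟨c', hc'⟩
      have e1 := h8 i
      have e2 := h7 (i + 1)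
      rw [hc] at e1
      rw [hc'] at e2
      have e3 := HNPC_side e1 e2
      have e4 : (b (2 * i + 1)).1 = (b (2 * (i + 1) + 1)).1 := by rw [hc, hc', e3]
      exact mod_two hn (by ring) (h4 _ _ e4)
    classical
    let isb : ℕ → Prop := fun i => ∃ c, (b (2 * i + 1)).1 = HT.b c
    have h12 : ∀ i, 3 * Real.pi / 4 - (if isb i then Real.pi / 4 else 0) ≤
        Real.pi - 2 * HNPC_ta (b (2 * i + 1)).1 := by
      intro i
      rcases HNPC_rk2 (c2 i) with ⟨x, y, hx, hy, e1, e2⟩ | ⟨c, e2⟩
      · have e3 : ¬ isb i := by
          rintro ⟨c, hc⟩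
          rw [e2] at hc
          cases hc
        rw [if_neg e3, e2]
        have e4 := hX x hx y hy
        have e6 : 4 ≤ M.M x y := e4.resolve_left e1
        have e7 := HNPC_hang_le (by norm_num) e6
        have e8 : HNPC_ta (HT.p x y hx hy e1) = hang (M.M x y) := rfl
        rw [e8]
        push_cast at e7
        linarith
      · have e3 : isb i := ⟨c, e2⟩
        rw [if_pos e3, e2]
        have e8 : HNPC_ta (HT.b c : HT M X) = Real.pi / 4 := rfl
        rw [e8]
        linarith
    have h13 : b (2 * k) = b 0 := by simpa using hper 0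
    have h14 : s k = s 0 := by
      have e1 := hs k
      rw [h13] at e1
      have e2 := hs 0
      rw [mul_zero, e1] at e2
      exact HT.s.inj e2
    have h15 : (∑ i ∈ Finset.range k, (3 * Real.pi / 4 - (if isb i then Real.pi / 4 else 0))) =
        k * (3 * Real.pi / 4) - ((Finset.range k).filter isb).card * (Real.pi / 4) := by
      rw [Finset.sum_sub_distrib, Finset.sum_const, Finset.card_range, nsmul_eq_mul,
        ← Finset.sum_filter, Finset.sum_const, nsmul_eq_mul]
    refine le_trans ?_ (Finset.sum_le_sum fun i _ => h12 i)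
    rw [h15]
    have hk2 : k ≠ 2 := by
      rintro rfl
      have e1 : (b 1).1 = (b 3).1 := by
        refine HNPC_uniq (h6 0) (h7 0) (h8 0) ?_ ?_
        · have := h8 1
          rw [h14] at this
          exact this
        · exact h7 1
      exact mod_two hn (by norm_num) (h4 _ _ e1)
    rcases Nat.lt_or_ge k 4 with hk | hk
    · have hk3 : k = 3 := by omega
      subst hk3
      have hwrap : isb 2 → isb 0 → False := by
        intro e1 e2
        have e3 : b (2 * 3 + 1) = b (2 * 0 + 1) := by
          have := hper 1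
          simpa using this
        refine hadj 2 e1 ?_
        obtain ⟨c, hc⟩ := e2
        exact ⟨c, by rw [e3]; exact hc⟩
      have hcard : ((Finset.range 3).filter isb).card ≤ 1 := by
        rw [Finset.card_le_one]
        intro i hi j hj
        rw [Finset.mem_filter, Finset.mem_range] at hi hj
        obtain ⟨i1, i2⟩ := hi
        obtain ⟨j1, j2⟩ := hj
        interval_cases i <;> interval_cases j
        · rfl
        · exact (hadj 0 i2 j2).elim
        · exact (hwrap j2 i2).elim
        · exact (hadj 0 j2 i2).elim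
        · rfl
        · exact (hadj 1 i2 j2).elim
        · exact (hwrap i2 j2).elim
        · exact (hadj 1 j2 i2).elim
        · rfl
      have hc' : ((((Finset.range 3).filter isb).card : ℕ) : ℝ) ≤ 1 := by exact_mod_cast hcard
      push_cast
      nlinarith
    · have hcard : ((Finset.range k).filter isb).card ≤ 2 := by
        let f : ℕ → Bool := fun i => if (b (2 * i + 1)).1 = HT.b true then true else false
        have hf : ((Finset.range k).filter isb).card ≤ (Finset.univ : Finset Bool).card := by
          refine Finset.card_le_card_of_injOn f (fun i _ => Finset.mem_univ _) ?_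
          intro i hi j hj hij
          rw [Finset.mem_coe, Finset.mem_filter, Finset.mem_range] at hi hj
          obtain ⟨i1, c, hc⟩ := hi
          obtain ⟨j1, c', hc'⟩ := hj
          have e1 : f i = c := by
            simp only [f, hc]
            cases c <;> simp
          have e2 : f j = c' := by
            simp only [f, hc']
            cases c' <;> simp
          rw [e1, e2] at hij
          subst hij
          have e3 := h4 _ _ (hc.trans hc'.symm)
          have e4 : (2 * i + 1) % (2 * k) = (2 * j + 1) % (2 * k) := e3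
          rw [Nat.mod_eq_of_lt (by omega), Nat.mod_eq_of_lt (by omega)] at e4
          omega
        simpa using hf
      have hc' : ((((Finset.range k).filter isb).card : ℕ) : ℝ) ≤ 2 := by exact_mod_cast hcard
      have d2 : (4 : ℝ) ≤ k := by exact_mod_cast hk
      nlinarith

/-- as `hyb_npc` in `EV/HNpc.lean`; the hypothesis `Cross M X` is used there only once (in
`HNPC_link_zero`), to show that the labels between `X` and its complement are `0` or at least four -/
theorem hyb_npc4 {S : Type} [Finite S] (M : CoxeterMatrix S) (X : Set S) (hX : Cross4 M X) :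
    NPC (hyb M X) (hlen M X) where
  symm := HNPC_symm M X
  pos := HNPC_pos M X
  triangle := HNPC_triangle M X
  link a n b hn hb hinj htri := by
    have h1 : HNPC_rk a.1 ≤ 2 := HNPC_rk_le _
    have h2 : HNPC_rk a.1 = 0 ∨ HNPC_rk a.1 = 1 ∨ HNPC_rk a.1 = 2 := by omega
    rcases h2 with h2 | h2 | h2
    · exact BNP_link_zero M X hX a h2 n b hn hb hinj htri
    · exact HNPC_link_one M X a h2 n b hn hb hinj htri
    · exact HNPC_link_two M X a h2 n b hn hb hinj htri

end Pool.Agent.helper55.LR
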