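import Pool.Agent.helper55.EV.Poly

set_option autoImplicit false

/-!
# LRA-HP: the law of cosines at the end point of a geodesic
-/

namespace Pool.Agent.helper55.LR

open Pool.Agent.helper34.FJ2 Pool.Agent.helper34.FJ3
open scoped BigOperators

/-- Let `L = ℓ 0 > 0`, `D = len p x`, `A = s 0 (k - 1)`, and `a` the angle at `p` between `A` and `x`.
Then `L² + D² - 2 L D cos a ≤ (ℓ 1)²`. (The case `a ≥ π / 2` is contained in `first_variation_of`
of helper77; adapt that proof.)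

Proof. For small `c > 0` let `x_c = ep p x c`, `B = s c (k - 1)`, `ℓ_c = ℓ c`.
(1) cone formula at `p`: `d(x_c, A)² = (L/k)² + c² D² - 2 (L/k) c D cos a`.
(2) `kgeo_conv`: `d(A, B) ≤ (1 - 1/k) c D`.
(3) `kgeo_energy` for the chain `s c 0, …, s c (k-1), p`:
`L² ≤ k ((k-1) (ℓ_c/k)² + d(B, p)²)`, so `d(B, p)² ≥ L²/k - (k-1) ℓ_c²/k²`.
(4) quadrilateral inequality in the locally CAT(0) space for `p, x_c, B, A` (diagonals `p B` and
`x_c A`): `d(p,B)² + d(x_c,A)² ≤ d(p,A)² + d(x_c,B)² + 2 d(p,x_c) d(A,B)`, with `d(p,A) = L/k`,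
`d(x_c,B) = ℓ_c/k` (from the inequality of Bruhat and Tits `LCN`; perhaps it exists already in the
files of helper28 or helper37, or replace it by the cone formula at `p`, where all four points lie).
Hence `ℓ_c²/k ≥ L²/k - (stuff)`: precisely
`ℓ_c² ≥ L² - 2 L D c cos a - (k - 2) c² D²` (any bound `L² - 2 L D c cos a - C c²` with `C`
independent of `c` will do).
(5) `kgeo_strict`: `c ↦ ℓ_c² - c² D²` is midpoint convex at small scale; with `conv_seq` of helper77,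
`ℓ_(1/N)² - D²/N² ≤ (1 - 1/N) L² + (1/N) (ℓ_1² - D²)` for large `N`. So
`ℓ_1² ≥ D² + L² + N (ℓ_(1/N)² - L²) - D²/N ≥ D² + L² - 2 L D cos a - C'/N`, and let `N → ∞`. -/
theorem hinge_p {V : Type} {Y : Complex2 V} {len : V → V → ℝ} {Γ : V → MGraph V}
    (R : Realization Y len Γ) (hlen : ∀ a b, Y.edge a b → 0 < len a b) (O p x : V)
    (hpx : Y.edge p x) (k : ℕ) (hk : 0 < k) (s : ℝ → ℕ → R.M) (ℓ : ℝ → ℝ)
    (hs : IsSection k (R.vert O) (R.r0 / 16) R.lip (Set.Icc (0 : ℝ) 1) (R.ep p x) s ℓ)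
    (h0 : 0 < ℓ 0) :
    ℓ 0 ^ 2 + len p x ^ 2 - 2 * ℓ 0 * len p x *
      Real.cos (R.a p (R.dir p (s 0 (k - 1))) ((Γ p).vtx x)) ≤ ℓ 1 ^ 2 := by
  by_contra hcon
  push Not at hcon
  set lam := len p x with hlam
  have hlam0 : 0 < lam := hlen _ _ hpx
  have hr0 : 0 < R.r0 := R.cn.1
  have hlip := R.lip_pos
  have hkR : (0 : ℝ) < k := by exact_mod_cast hk
  set a := R.a p (R.dir p (s 0 (k - 1))) ((Γ p).vtx x) with ha0
  set X := ℓ 0 ^ 2 + lam ^ 2 - 2 * ℓ 0 * lam * Real.cos a with hX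
  have hXpos : 0 < X - ℓ 1 ^ 2 := by linarith
  -- a large number `N`
  obtain ⟨N, hN1⟩ : ∃ N : ℕ, max (k * lam ^ 2 / (X - ℓ 1 ^ 2)) (max (2 * R.lip / (R.r0 / 16))
      (max (2 * lam / R.r0) (lam / (R.r0 / 32)))) < N := exists_nat_gt _
  have hNk : k * lam ^ 2 / (X - ℓ 1 ^ 2) < N := lt_of_le_of_lt (le_max_left _ _) hN1
  have hN2 : 2 * R.lip / (R.r0 / 16) < N :=
    lt_of_le_of_lt ((le_max_left _ _).trans (le_max_right _ _)) hN1
  have hN3 : 2 * lam / R.r0 < N := lt_of_le_of_lt ((le_max_left _ _).trans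
    ((le_max_right _ _).trans (le_max_right _ _))) hN1
  have hN4 : lam / (R.r0 / 32) < N := lt_of_le_of_lt ((le_max_right _ _).trans
    ((le_max_right _ _).trans (le_max_right _ _))) hN1
  have hN0 : (0 : ℝ) < N := lt_of_le_of_lt (by positivity) hNk
  have hNnat : 0 < N := by exact_mod_cast hN0
  have hNk' : k * lam ^ 2 * (1 / (N : ℝ)) < X - ℓ 1 ^ 2 := by
    rw [div_lt_iff₀ hXpos] at hNk
    rw [mul_one_div, div_lt_iff₀ hN0]
    linarith
  have hN2' : R.lip * (2 / N) ≤ R.r0 / 16 := by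
    rw [div_lt_iff₀ (by positivity)] at hN2
    rw [mul_div_assoc', div_le_iff₀ hN0]
    linarith
  have hN3' : 2 / (N : ℝ) * lam < R.r0 := by
    rw [div_lt_iff₀ (by positivity)] at hN3
    rw [div_mul_eq_mul_div, div_lt_iff₀ hN0]
    linarith
  have hN4' : 1 / (N : ℝ) * lam ≤ R.r0 / 32 := by
    rw [div_lt_iff₀ (by positivity)] at hN4
    rw [div_mul_eq_mul_div, div_le_iff₀ hN0]
    linarith
  have hinv : 0 < 1 / (N : ℝ) := by positivity
  have h2N : 2 / (N : ℝ) = 2 * (1 / N) := by ring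
  -- distances of the end points
  have hend : ∀ c ∈ Set.Icc (0 : ℝ) 1, ∀ c' ∈ Set.Icc (0 : ℝ) 1, |c - c'| ≤ 2 / N →
      dist (s c k) (s c' k) = |c - c'| * lam := by
    intro c hc c' hc' hcc
    rw [hs.fin c hc, hs.fin c' hc']
    apply R.ep_dist _ _ _ _ hpx hc.1 hc.2 hc'.1 hc'.2
    exact lt_of_le_of_lt (mul_le_mul_of_nonneg_right hcc hlam0.le) hN3'
  -- smallness
  have hnear : ∀ c ∈ Set.Icc (0 : ℝ) 1, ∀ c' ∈ Set.Icc (0 : ℝ) 1, |c - c'| ≤ 2 / N →
      ∀ i, i ≤ k → dist (s c i) (s c' i) ≤ R.r0 / 16 := by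
    intro c hc c' hc' hcc
    apply hs.near c hc c' hc'
    rw [Real.norm_eq_abs]
    exact (mul_le_mul_of_nonneg_left hcc hlip.le).trans hN2'
  have hconv' : ∀ c ∈ Set.Icc (0 : ℝ) 1, ∀ c' ∈ Set.Icc (0 : ℝ) 1, |c - c'| ≤ 2 / N →
      ∀ i, i ≤ k → dist (s c i) (s c' i) ≤ (i / k : ℝ) * (|c - c'| * lam) := by
    intro c hc c' hc' hcc i hi
    have h1 := Pool.Agent.helper37.FJ3.kgeo_conv R.cn hk (hs.geo c hc) (hs.geo c' hc')
      (hs.len c hc) (hs.len c' hc') ((hs.start c hc).trans (hs.start c' hc').symm)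
      (fun i hi => (hnear c hc c' hc' hcc i hi).trans (by linarith)) i hi
    rw [hend c hc c' hc' hcc] at h1
    exact h1
  have hfine : ∀ c ∈ Set.Icc (0 : ℝ) 1, ∀ c' ∈ Set.Icc (0 : ℝ) 1, |c - c'| ≤ 2 / N →
      ∀ i, i ≤ k → dist (s c i) (s c' i) ≤ |c - c'| * lam := by
    intro c hc c' hc' hcc i hi
    refine (hconv' c hc c' hc' hcc i hi).trans ?_
    have h2 : (i / k : ℝ) ≤ 1 := by
      rw [div_le_one hkR]; exact_mod_cast hi
    have h3 : 0 ≤ |c - c'| * lam := by positivity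
    nlinarith
  -- the points of the subdivision
  have hmem : ∀ j : ℕ, j ≤ N → (j : ℝ) / N ∈ Set.Icc (0 : ℝ) 1 := by
    intro j hj
    refine ⟨by positivity, ?_⟩
    rw [div_le_one hN0]; exact_mod_cast hj
  -- strict convexity
  have hconvF : ∀ j : ℕ, 1 ≤ j → j < N →
      2 * (ℓ (j / N) ^ 2 - lam ^ 2 * (j / N : ℝ) ^ 2) ≤
        (ℓ ((j - 1 : ℕ) / N) ^ 2 - lam ^ 2 * ((j - 1 : ℕ) / N : ℝ) ^ 2) +
        (ℓ ((j + 1 : ℕ) / N) ^ 2 - lam ^ 2 * ((j + 1 : ℕ) / N : ℝ) ^ 2) := by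
    intro j hj1 hjN
    have hm0 := hmem (j - 1) (by omega)
    have hm1 := hmem j (by omega)
    have hm2 := hmem (j + 1) (by omega)
    have e1 : ((j - 1 : ℕ) : ℝ) / N - j / N = -(1 / N) := by
      rw [Nat.cast_sub hj1]; push_cast; ring
    have e2 : ((j + 1 : ℕ) : ℝ) / N - j / N = 1 / N := by
      push_cast; ring
    have e3 : ((j - 1 : ℕ) : ℝ) / N - ((j + 1 : ℕ) : ℝ) / N = -(2 / N) := by
      rw [Nat.cast_sub hj1]; push_cast; ring
    have a1 : |((j - 1 : ℕ) : ℝ) / N - j / N| = 1 / N := by rw [e1, abs_neg, abs_of_pos hinv]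
    have a2 : |((j + 1 : ℕ) : ℝ) / N - j / N| = 1 / N := by rw [e2, abs_of_pos hinv]
    have a3 : |((j - 1 : ℕ) : ℝ) / N - ((j + 1 : ℕ) : ℝ) / N| = 2 / N := by
      rw [e3, abs_neg, abs_of_pos (by positivity)]
    have d1 := hend _ hm0 _ hm1 (by rw [a1]; linarith)
    have d2 := hend _ hm2 _ hm1 (by rw [a2]; linarith)
    have d3 := hend _ hm0 _ hm2 (by rw [a3])
    rw [a1] at d1
    rw [a2] at d2
    rw [a3] at d3
    have key := Pool.Agent.helper28.FJ3.kgeo_strict R.cn hk (hs.geo _ hm0) (hs.geo _ hm2)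
      (hs.geo _ hm1) (hs.len _ hm0)
      (hs.len _ hm2) (hs.len _ hm1) ((hs.start _ hm0).trans (hs.start _ hm2).symm)
      ((hs.start _ hm0).trans (hs.start _ hm1).symm) (by rw [d1, d3]; ring)
      (by rw [d2, d3]; ring) (hnear _ hm0 _ hm2 (by rw [a3]))
      (fun i hi => (hfine _ hm0 _ hm1 (by rw [a1]; linarith) i hi).trans (by rw [a1]; exact hN4'))
    rw [d3] at key
    have e4 : (((j - 1 : ℕ) : ℝ)) = j - 1 := by rw [Nat.cast_sub hj1]; simp
    have e5 : (((j + 1 : ℕ) : ℝ)) = j + 1 := by push_cast; ring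
    have e6 : (j / N : ℝ) ^ 2 + (j / N : ℝ) ^ 2 + 2 * (1 / N) ^ 2 =
        (((j - 1 : ℕ) : ℝ) / N) ^ 2 + (((j + 1 : ℕ) : ℝ) / N) ^ 2 := by
      rw [e4, e5]; ring
    have e7 : (2 / (N : ℝ) * lam) ^ 2 / 4 = lam ^ 2 * (1 / N) ^ 2 := by ring
    rw [e7] at key
    have e8 : lam ^ 2 * (j / N : ℝ) ^ 2 + lam ^ 2 * (j / N : ℝ) ^ 2 + 2 * (lam ^ 2 * (1 / N) ^ 2) =
        lam ^ 2 * (((j - 1 : ℕ) : ℝ) / N) ^ 2 + lam ^ 2 * (((j + 1 : ℕ) : ℝ) / N) ^ 2 := by
      linear_combination lam ^ 2 * e6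
    linarith
  have hg := Pool.Agent.helper77.FJ3.conv_seq N hNnat
    (fun j => ℓ (j / N) ^ 2 - lam ^ 2 * (j / N : ℝ) ^ 2) hconvF
  have c0 : ((0 : ℕ) : ℝ) / N = 0 := by simp
  have cN : ((N : ℕ) : ℝ) / N = 1 := div_self hN0.ne'
  rw [c0, cN, Nat.cast_one] at hg
  have m0 : (0 : ℝ) ∈ Set.Icc (0 : ℝ) 1 := ⟨le_rfl, zero_le_one⟩
  have m1 : (1 : ℝ) ∈ Set.Icc (0 : ℝ) 1 := ⟨zero_le_one, le_rfl⟩
  have mN : (1 : ℝ) / N ∈ Set.Icc (0 : ℝ) 1 := by
    have := hmem 1 hNnat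
    rwa [Nat.cast_one] at this
  set c : ℝ := 1 / N with hc
  -- the upper bound by convexity
  have hupper : ℓ c ^ 2 ≤ ℓ 0 ^ 2 + lam ^ 2 * c ^ 2 + c * (ℓ 1 ^ 2 - ℓ 0 ^ 2 - lam ^ 2) := by
    have e1 : (1 - c) * (ℓ 0 ^ 2 - lam ^ 2 * 0 ^ 2) + c * (ℓ 1 ^ 2 - lam ^ 2 * 1 ^ 2) =
        ℓ 0 ^ 2 + c * (ℓ 1 ^ 2 - ℓ 0 ^ 2 - lam ^ 2) := by ring
    rw [e1] at hg
    linarith
  -- the points
  set y : R.M := R.ep p x c with hy
  set q : R.M := s c (k - 1) with hq
  set A : R.M := s 0 (k - 1) with hA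
  have habs : |(0 : ℝ) - c| ≤ 2 / N := by
    rw [zero_sub, abs_neg, abs_of_pos hinv]; linarith
  have habs' : |(0 : ℝ) - c| = c := by rw [zero_sub, abs_neg, abs_of_pos hinv]
  have hkk : k - 1 + 1 = k := by omega
  have hsk : s c k = y := hs.fin c mN
  have hs0k : s 0 k = R.vert p := by rw [hs.fin 0 m0, R.ep_zero _ _ hpx]
  have hdqy : dist q y = ℓ c / k := by
    have := (hs.geo c mN).step (k - 1) (by omega)
    rw [hkk, hsk] at this
    exact this
  have hdAp : dist A (R.vert p) = ℓ 0 / k := by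
    have := (hs.geo 0 m0).step (k - 1) (by omega)
    rw [hkk, hs0k] at this
    exact this
  -- the energy of the broken chain
  have hen := Pool.Agent.helper28.FJ3.kgeo_energy R.cn hk (hs.geo 0 m0) (hs.len 0 m0)
    (fun i => if i < k then s c i else R.vert p)
    (by simp only [hk, if_true]; rw [hs.start c mN, hs.start 0 m0])
    (by simp only [lt_irrefl, if_false]; exact hs0k.symm)
    (by
      intro i hi
      by_cases hik : i < k
      · simp only [hik, if_true]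
        rw [dist_comm]
        exact hnear 0 m0 c mN habs i hi
      · have : i = k := by omega
        subst this
        simp only [lt_irrefl, if_false]
        rw [hs0k, dist_self]
        positivity)
  have hsumm : ∑ i ∈ Finset.range k, dist ((fun i => if i < k then s c i else R.vert p) i)
      ((fun i => if i < k then s c i else R.vert p) (i + 1)) ^ 2 =
      ((k : ℝ) - 1) * (ℓ c / k) ^ 2 + dist q (R.vert p) ^ 2 := by
    rw [← hkk, Finset.sum_range_succ, hkk]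
    have hl : ∀ i ∈ Finset.range (k - 1),
        dist ((fun i => if i < k then s c i else R.vert p) i)
          ((fun i => if i < k then s c i else R.vert p) (i + 1)) ^ 2 = (ℓ c / k) ^ 2 := by
      intro i hi
      rw [Finset.mem_range] at hi
      have h1 : i < k := by omega
      have h2 : i + 1 < k := by omega
      simp only [h1, h2, if_true]
      rw [(hs.geo c mN).step i h1]
    rw [Finset.sum_congr rfl hl, Finset.sum_const, Finset.card_range, nsmul_eq_mul]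
    have h1 : k - 1 < k := by omega
    simp only [h1, if_true, lt_irrefl, if_false]
    rw [Nat.cast_sub (by omega : 1 ≤ k), Nat.cast_one]
  rw [hsumm] at hen
  -- distances of the four points
  have hpy : dist (R.vert p) y = c * lam := by
    have := hend 0 m0 c mN habs
    rw [hs0k, hsk, habs'] at this
    exact this
  have hAq : dist A q ≤ (((k : ℝ) - 1) / k) * (c * lam) := by
    have := hconv' 0 m0 c mN habs (k - 1) (by omega)
    rw [habs', Nat.cast_sub (by omega : 1 ≤ k), Nat.cast_one] at this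
    exact this
  have hAq' : dist A q ≤ R.r0 / 16 := hnear 0 m0 c mN habs (k - 1) (by omega)
  have hpA : dist (R.vert p) A ≤ R.r0 / 16 := by
    rw [dist_comm, hdAp, div_le_iff₀ hkR]
    have := hs.len 0 m0
    linarith
  have hclam : c * lam ≤ R.r0 / 32 := hN4'
  have hqy : dist q y ≤ R.r0 / 16 := by
    rw [hdqy, div_le_iff₀ hkR]
    have := hs.len c mN
    linarith
  have hyA : dist y A < R.r0 := by
    have := dist_triangle y (R.vert p) A
    rw [dist_comm y (R.vert p), hpy] at this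
    linarith
  have hresh := Pool.Agent.helper28.FJ3.resh R.cn (x := R.vert p) (y := y) (u := A) (v := q)
    (by rw [hpy]; linarith) (by linarith) (by linarith) (by rw [dist_comm]; linarith) hyA
  have cone1 := R.cone p y A (by rw [hpy]; linarith) (by linarith)
  have hdir : R.a p (R.dir p y) ((Γ p).vtx x) = 0 :=
    R.dir_ep p x c hpx hinv mN.2 (by linarith)
  have ha := R.ha p
  have hang : R.a p (R.dir p y) (R.dir p A) = a := by
    have t1 := ha.tri (R.dir p y) ((Γ p).vtx x) (R.dir p A)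
    have t2 := ha.tri (R.dir p A) (R.dir p y) ((Γ p).vtx x)
    rw [hdir] at t1 t2
    rw [ha.symm ((Γ p).vtx x) (R.dir p A), zero_add] at t1
    rw [ha.symm (R.dir p A) (R.dir p y), add_zero] at t2
    exact le_antisymm t1 t2
  have hL0 : 0 ≤ ℓ 0 / k := by rw [← hdAp]; exact dist_nonneg
  have sq1 : dist y A ^ 2 = (c * lam) ^ 2 + (ℓ 0 / k) ^ 2 -
      2 * (c * lam) * (ℓ 0 / k) * Real.cos a := by
    rw [cone1, cdist]
    simp only
    rw [hpy, hang, dist_comm (R.vert p) A, hdAp, Real.sq_sqrt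
      (Pool.Agent.helper77.FJ3.cos_law_nonneg _ _ _ (mul_pos hinv hlam0).le hL0)]
  rw [sq1, hpy, dist_comm (R.vert p) A, hdAp, dist_comm y q, hdqy, dist_comm (R.vert p) q] at hresh
  have hc0 : 0 < c * lam := by positivity
  have h5 := mul_le_mul_of_nonneg_left hAq hc0.le
  -- conclusion
  have hB : dist q (R.vert p) ^ 2 ≤ (ℓ c / k) ^ 2 + 2 * ((c * lam) * ((((k : ℝ) - 1) / k) * (c * lam)))
      - (c * lam) ^ 2 + 2 * (c * lam) * (ℓ 0 / k) * Real.cos a := by linarith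
  have h6 := mul_le_mul_of_nonneg_left hB hkR.le
  have e2 : (k : ℝ) * ((ℓ c / k) ^ 2 + 2 * ((c * lam) * ((((k : ℝ) - 1) / k) * (c * lam)))
      - (c * lam) ^ 2 + 2 * (c * lam) * (ℓ 0 / k) * Real.cos a) =
      k * (ℓ c / k) ^ 2 + (k - 2) * (c * lam) ^ 2 + 2 * (c * lam) * ℓ 0 * Real.cos a := by
    field_simp
    ring
  rw [e2] at h6
  have e3 : (k : ℝ) * (((k : ℝ) - 1) * (ℓ c / k) ^ 2 + dist q (R.vert p) ^ 2) =
      (k : ℝ) ^ 2 * (ℓ c / k) ^ 2 - k * (ℓ c / k) ^ 2 + k * dist q (R.vert p) ^ 2 := by ring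
  have e4 : (k : ℝ) ^ 2 * (ℓ c / k) ^ 2 = ℓ c ^ 2 := by
    field_simp
  rw [e3, e4] at hen
  have hfin : ℓ 0 ^ 2 ≤ ℓ c ^ 2 + (k - 2) * (c * lam) ^ 2 + 2 * (c * lam) * ℓ 0 * Real.cos a := by
    linarith
  have hfin2 : 0 ≤ c * (ℓ 1 ^ 2 - X + (k - 1) * lam ^ 2 * c) := by
    have e5 : c * (ℓ 1 ^ 2 - X + (k - 1) * lam ^ 2 * c) =
      lam ^ 2 * c ^ 2 + c * (ℓ 1 ^ 2 - ℓ 0 ^ 2 - lam ^ 2) + (k - 2) * (c * lam) ^ 2 +
        2 * (c * lam) * ℓ 0 * Real.cos a := by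
      rw [hX]; ring
    rw [e5]
    linarith
  have hfin3 : 0 ≤ ℓ 1 ^ 2 - X + (k - 1) * lam ^ 2 * c := nonneg_of_mul_nonneg_right hfin2 hinv
  have h8 : 0 ≤ lam ^ 2 * c := by positivity
  have e6 : ((k : ℝ) - 1) * lam ^ 2 * c = k * lam ^ 2 * c - lam ^ 2 * c := by ring
  rw [e6] at hfin3
  linarith

end Pool.Agent.helper55.LR
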