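import Pool.Agent.helper55.LR.Sml
import Pool.Agent.helper52.Cox.Root

set_option autoImplicit false

/-!
# LRA-LIN: coordinates of roots along the powers of an element of the Coxeter group
-/

namespace Pool.Agent.helper55.LR

theorem LIN_kc (m : ℕ) : IsIntegral ℤ (CxA.kc m) := by
  have h := Real.isIntegral_two_mul_cos_rat_mul_pi (1 / (m : ℚ))
  have e : (((1 / (m : ℚ) : ℚ)) : ℝ) * Real.pi = Real.pi / m := by
    push_cast
    ring
  rw [e] at h
  exact h

/-- powers of a matrix congruent to `1` modulo `3`, one direction -/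
theorem LIN_nat {L : Type} [AddCommGroup L] {ι : Type} [Fintype ι] [DecidableEq ι]
    (b : Module.Basis ι ℤ L) (f : L →ₗ[ℤ] L) (B : Matrix ι ι ℤ)
    (hf : LinearMap.toMatrix b b f = 1 + (3 : ℤ) • B) (φ : L →ₗ[ℤ] ℝ) (v : L)
    (h : {n : ℕ | φ ((f ^ n) v) = 0}.Infinite) : φ v = 0 := by
  have : Module.Finite ℤ L := Module.Finite.of_basis b
  have hfr : Module.Free ℤ (LinearMap.range φ) := Module.free_of_finite_type_torsion_free'
  let c := Module.Free.chooseBasis ℤ (LinearMap.range φ)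
  have key : ∀ (i : Module.Free.ChooseBasisIndex ℤ (LinearMap.range φ)) (n : ℕ),
      (fun j => c.repr (φ.rangeRestrict (b j)) i) ⬝ᵥ
        ((LinearMap.toMatrix b b f) ^ n).mulVec (fun j => b.repr v j) =
      c.repr (φ.rangeRestrict ((f ^ n) v)) i := by
    intro i n
    have e1 : (LinearMap.toMatrix b b f) ^ n = LinearMap.toMatrix b b (f ^ n) := by
      have := map_pow (LinearMap.toMatrixAlgEquiv b) f n
      exact this.symm
    rw [e1]
    have e2 : (LinearMap.toMatrix b b (f ^ n)).mulVec (fun j => b.repr v j) =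
        fun j => b.repr ((f ^ n) v) j := by
      have := LinearMap.toMatrix_mulVec_repr b b (f ^ n) v
      exact this
    rw [e2]
    have e3 : (f ^ n) v = ∑ j, b.repr ((f ^ n) v) j • b j := (b.sum_repr _).symm
    conv_rhs => rw [e3]
    rw [map_sum, map_sum, Finsupp.finset_sum_apply]
    unfold dotProduct
    refine Finset.sum_congr rfl fun j _ => ?_
    rw [map_smul, map_smul, Finsupp.smul_apply, smul_eq_mul, mul_comm]
  have hz : ∀ i, c.repr (φ.rangeRestrict v) i = 0 := by
    intro i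
    have h1 := sml_mat 3 (by norm_num) le_rfl (LinearMap.toMatrix b b f) B (by
      rw [hf]
      norm_num) (fun j => c.repr (φ.rangeRestrict (b j)) i) (fun j => b.repr v j) (by
      refine h.mono fun n hn => ?_
      rw [Set.mem_setOf_eq] at hn ⊢
      rw [key i n]
      have : φ.rangeRestrict ((f ^ n) v) = 0 := Subtype.ext hn
      rw [this, map_zero, Finsupp.zero_apply]) 0
    rw [key i 0] at h1
    simpa using h1
  have h0 : φ.rangeRestrict v = 0 := by
    apply c.repr.injective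
    rw [map_zero]
    ext i
    rw [hz i, Finsupp.zero_apply]
  exact congrArg Subtype.val h0

/-- the two-sided version for a group -/
theorem LIN_int {G : Type} [Group G] {L : Type} [AddCommGroup L] [Module.Free ℤ L]
    [Module.Finite ℤ L] (θ : G →* Module.End ℤ L) (w : G) : ∃ k : ℕ, 0 < k ∧
    ∀ (φ : L →ₗ[ℤ] ℝ) (v : L), {n : ℤ | φ (θ ((w ^ k) ^ n) v) = 0}.Infinite →
    ∀ n : ℤ, φ (θ ((w ^ k) ^ n) v) = 0 := by
  let b := Module.Free.chooseBasis ℤ L
  let ψ : G →* Matrix (Module.Free.ChooseBasisIndex ℤ L) (Module.Free.ChooseBasisIndex ℤ L) ℤ :=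
    ((LinearMap.toMatrixAlgEquiv b : _ ≃ₐ[ℤ] _) : _ →* _).comp θ
  let ψ3 : G →* (Matrix (Module.Free.ChooseBasisIndex ℤ L)
      (Module.Free.ChooseBasisIndex ℤ L) (ZMod 3))ˣ :=
    (((Int.castRingHom (ZMod 3)).mapMatrix : _ →+* _).toMonoidHom.comp ψ).toHomUnits
  obtain ⟨k, hk, hk1⟩ := (isOfFinOrder_of_finite (ψ3 w)).exists_pow_eq_one
  have hB : ∀ g : G, ψ3 g = 1 → ∃ B : Matrix (Module.Free.ChooseBasisIndex ℤ L)
      (Module.Free.ChooseBasisIndex ℤ L) ℤ, LinearMap.toMatrix b b (θ g) = 1 + (3 : ℤ) • B := by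
    intro g hg
    have h1 : ((Int.castRingHom (ZMod 3)).mapMatrix (LinearMap.toMatrix b b (θ g))) = 1 := by
      have := congrArg Units.val hg
      exact this
    have h2 : ∀ i j, ∃ z : ℤ, LinearMap.toMatrix b b (θ g) i j - (1 : Matrix _ _ ℤ) i j = 3 * z := by
      intro i j
      have h3 := congrFun (congrFun h1 i) j
      rw [RingHom.mapMatrix_apply, Matrix.map_apply] at h3
      have h4 : ((LinearMap.toMatrix b b (θ g) i j - (1 : Matrix _ _ ℤ) i j : ℤ) : ZMod 3) = 0 := by
        rw [Int.cast_sub]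
        have h5 : ((LinearMap.toMatrix b b (θ g) i j : ℤ) : ZMod 3) =
          (1 : Matrix (Module.Free.ChooseBasisIndex ℤ L)
            (Module.Free.ChooseBasisIndex ℤ L) (ZMod 3)) i j := h3
        rw [h5, Matrix.one_apply, Matrix.one_apply]
        split_ifs <;> simp
      exact (ZMod.intCast_zmod_eq_zero_iff_dvd _ 3).1 h4
    choose B hB using h2
    refine ⟨Matrix.of B, ?_⟩
    ext i j
    rw [Matrix.add_apply, Matrix.smul_apply, Matrix.of_apply, smul_eq_mul, ← hB i j]
    ring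
  refine ⟨k, hk, fun φ v hinf m => ?_⟩
  have hg1 : ψ3 (w ^ k) = 1 := by
    rw [map_pow]
    exact hk1
  have hg2 : ψ3 (w ^ k)⁻¹ = 1 := by
    rw [map_inv, hg1, inv_one]
  obtain ⟨B1, hB1⟩ := hB _ hg1
  obtain ⟨B2, hB2⟩ := hB _ hg2
  have hub : ¬ BddAbove {n : ℤ | φ (θ ((w ^ k) ^ n) v) = 0} ∨
      ¬ BddBelow {n : ℤ | φ (θ ((w ^ k) ^ n) v) = 0} := by
    by_contra hcon
    push Not at hcon
    exact hinf (Set.finite_iff_bddBelow_bddAbove.2 ⟨hcon.2, hcon.1⟩)
  rcases hub with hub | hub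
  · apply LIN_nat b (θ (w ^ k)) B1 hB1 φ (θ ((w ^ k) ^ m) v)
    apply Set.infinite_of_forall_exists_gt
    intro N
    rw [not_bddAbove_iff] at hub
    obtain ⟨n0, hn0, hgt⟩ := hub (N + |m|)
    have hm := le_abs_self m
    refine ⟨(n0 - m).toNat, ?_, by omega⟩
    rw [Set.mem_setOf_eq] at hn0 ⊢
    rw [← map_pow, ← Module.End.mul_apply, ← map_mul, ← zpow_natCast, ← zpow_add]
    rw [show (((n0 - m).toNat : ℕ) : ℤ) + m = n0 by omega]
    exact hn0
  · apply LIN_nat b (θ (w ^ k)⁻¹) B2 hB2 φ (θ ((w ^ k) ^ m) v)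
    apply Set.infinite_of_forall_exists_gt
    intro N
    rw [not_bddBelow_iff] at hub
    obtain ⟨n0, hn0, hgt⟩ := hub (-(N + |m|))
    have hm := neg_abs_le m
    refine ⟨(m - n0).toNat, ?_, by omega⟩
    rw [Set.mem_setOf_eq] at hn0 ⊢
    rw [← map_pow, ← Module.End.mul_apply, ← map_mul, inv_pow, ← zpow_natCast, ← zpow_neg,
      ← zpow_add]
    rw [show -(((m - n0).toNat : ℕ) : ℤ) + m = n0 by omega]
    exact hn0

variable {S : Type} [Fintype S] [DecidableEq S] (M : CoxeterMatrix S)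

/-- the ring generated by the Coxeter constants -/
noncomputable def LIN_O : Subalgebra ℤ ℝ :=
  Algebra.adjoin ℤ (Set.range fun p : S × S => CxA.Kre M p.1 p.2)

theorem LIN_O_fg : (Subalgebra.toSubmodule (LIN_O M)).FG := by
  apply fg_adjoin_of_finite (Set.finite_range _)
  rintro x ⟨p, rfl⟩
  exact LIN_kc _

/-- the vectors with coordinates in this ring -/
noncomputable def LIN_L : Submodule ℤ (S → ℝ) :=
  Submodule.pi Set.univ fun _ => Subalgebra.toSubmodule (LIN_O M)

theorem LIN_mem (v : S → ℝ) : v ∈ LIN_L M ↔ ∀ s, v s ∈ LIN_O M := by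
  unfold LIN_L
  rw [Submodule.mem_pi]
  simp

theorem LIN_fin : Module.Finite ℤ (LIN_L M) :=
  Module.Finite.iff_fg.2 (Submodule.fg_pi fun _ => LIN_O_fg M)

theorem LIN_K (s t : S) : CxA.Kre M s t ∈ LIN_O M :=
  Algebra.subset_adjoin ⟨(s, t), rfl⟩

theorem LIN_al (s : S) : CxA.al ℝ s ∈ LIN_L M := by
  rw [LIN_mem]
  intro t
  unfold CxA.al
  by_cases h : t = s
  · subst h
    rw [Pi.single_eq_same]
    exact one_mem _
  · rw [Pi.single_eq_of_ne h]
    exact zero_mem _

theorem LIN_sig (p : S) (v : S → ℝ) (hv : v ∈ LIN_L M) : CxA.sig M p v ∈ LIN_L M := by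
  have h1 := (LIN_mem M v).1 hv
  have h2 := (LIN_mem M _).1 (LIN_al M p)
  rw [LIN_mem]
  intro s
  unfold CxA.sig
  rw [CxA.opK_apply, Pi.add_apply, Pi.smul_apply, smul_eq_mul, CxA.rowf_apply]
  exact add_mem (h1 s) (mul_mem (sum_mem fun t _ => mul_mem (LIN_K M p t) (h1 t)) (h2 s))

theorem LIN_rho (w : M.Group) : ∀ v ∈ LIN_L M, CxA.rho M.toCoxeterSystem w v ∈ LIN_L M := by
  apply M.toCoxeterSystem.simple_induction (p := fun w => ∀ v ∈ LIN_L M,
    CxA.rho M.toCoxeterSystem w v ∈ LIN_L M) w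
  · intro i v hv
    rw [CxA.rho_simple]
    exact LIN_sig M i v hv
  · intro v hv
    rw [CxA.rho_one_apply]
    exact hv
  · intro w w' h1 h2 v hv
    rw [CxA.rho_mul_apply]
    exact h1 _ (h2 v hv)

/-- the action on the lattice -/
noncomputable def LIN_th : M.Group →* Module.End ℤ (LIN_L M) where
  toFun w := ((CxA.rho M.toCoxeterSystem w).restrictScalars ℤ).restrict (LIN_rho M w)
  map_one' := by
    ext v : 2
    exact CxA.rho_one_apply M.toCoxeterSystem v.1
  map_mul' u w := by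
    ext v : 2
    exact CxA.rho_mul_apply M.toCoxeterSystem u w v.1

/-- a coordinate after applying `u` -/
noncomputable def LIN_phi (u : M.Group) (b : S) : LIN_L M →ₗ[ℤ] ℝ :=
  (((LinearMap.proj b : (S → ℝ) →ₗ[ℝ] ℝ).comp (CxA.rho M.toCoxeterSystem u)).restrictScalars
    ℤ).comp (LIN_L M).subtype

/-- Proof. Let `O` be the subring of `ℝ` generated by the numbers `Kre M s t = 2 cos (π / M s t)` (and
`2`, `-2`). They are algebraic integers (`2 cos (2 π k / n)` is a sum of two roots of unity; or: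
`κ = kc m` satisfies `Uc κ m = 0` for `m ≥ 2`, where `Uc κ m` is a monic integer polynomial in `κ`
of degree `m - 1`, see `Rank2.lean`), so `O` is a finitely generated torsion-free, hence free
`ℤ`-module. The group `W = M.Group` acts on the free `ℤ`-module `Λ = (S → O)` of finite rank: the
matrix entries of `rho (simple s)` are in `O`. Choose a basis; every `w` and `w⁻¹` is given by an
integer matrix of size `N`. As `GL_N (ℤ / 3)` is finite, there is `k > 0` such that the matrices of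
`w ^ k` and `(w ^ k)⁻¹` are congruent to `1` modulo `p = 3`. For `u x : M.Group`, `s b : S` the map
`Λ → O → ℤ`, `v ↦` one of the coordinates (with respect to a `ℤ`-basis of `O`) of
`(rho u v) b` is a `ℤ`-linear functional `l`, and `rho (u * (w ^ k) ^ n * x) (al s) b = 0` iff all
these coordinates of `(w ^ k) ^ n (x α_s)` vanish. If this happens for infinitely many `n : ℤ`, then
for infinitely many `n ≥ 0` or infinitely many `n ≤ 0`. In the first case let `m : ℤ`; apply `sml_mat`
to the vector `v = (w ^ k) ^ m (x α_s)`: there are infinitely many `n ≥ 0` with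
`l ((w ^ k) ^ n v) = 0`, so it holds for all `n ≥ 0`, in particular for `n = 0`. The second case is
the same for `(w ^ k)⁻¹`. (Alternatively, avoid `O` and bases: let `Λ` be the `ℤ`-submodule of
`S → ℝ` generated by the finitely generated module `O ^ S`.) -/
theorem lin_power (w : M.Group) : ∃ k : ℕ, 0 < k ∧ ∀ (u x : M.Group) (s b : S),
    {n : ℤ | CxA.rho M.toCoxeterSystem (u * (w ^ k) ^ n * x) (CxA.al ℝ s) b = 0}.Infinite →
    ∀ n : ℤ, CxA.rho M.toCoxeterSystem (u * (w ^ k) ^ n * x) (CxA.al ℝ s) b = 0 := by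
  have := LIN_fin M
  have : Module.Free ℤ (LIN_L M) := Module.free_of_finite_type_torsion_free'
  obtain ⟨k, hk, h⟩ := LIN_int (LIN_th M) w
  refine ⟨k, hk, fun u x s b hinf n => ?_⟩
  have e : ∀ n : ℤ, CxA.rho M.toCoxeterSystem (u * (w ^ k) ^ n * x) (CxA.al ℝ s) b =
      LIN_phi M u b (LIN_th M ((w ^ k) ^ n)
        (⟨CxA.rho M.toCoxeterSystem x (CxA.al ℝ s), LIN_rho M x _ (LIN_al M s)⟩ : LIN_L M)) := by
    intro n
    rw [CxA.rho_mul_apply, CxA.rho_mul_apply]
    rfl
  rw [e]
  apply h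
  simp only [e] at hinf
  exact hinf

end Pool.Agent.helper55.LR
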