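import Pool.Agent.helper55.EV.Alg2

set_option autoImplicit false

/-!
# LRA: definitions, the cocycle of van der Lek's state machine

The machine of `EV/VlDefs.lean` for a finite set `X` of generators and the Artin group of `X`:
`st M X w g` is the state which is reached from the state `w` by reading `g`, and `co M X w g` is
what is written.
-/

namespace Pool.Agent.helper55.LR

open Pool.Agent.helper55.EV
open Pool.Agent.helper36.LT (Artin gen alt artinRels)
open Pool.Agent.helper50.LT (alt_map gen_rel lift lift_gen artin_hom_ext)
open Pool.Agent.helper46.FJ3 (restr mp mp_gen inc inc_gen inc_mp)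

variable {S : Type} [Fintype S] [DecidableEq S] (M : CoxeterMatrix S)

omit [Fintype S] [DecidableEq S] in
theorem cx_rel (s t : S) :
    alt (M.toCoxeterSystem.simple s) (M.toCoxeterSystem.simple t) (M.M s t) =
      alt (M.toCoxeterSystem.simple t) (M.toCoxeterSystem.simple s) (M.M s t) := by
  have key : ∀ (a b : S) (n : ℕ), alt (M.toCoxeterSystem.simple a) (M.toCoxeterSystem.simple b) n =
      M.toCoxeterSystem.wordProd (CxA.altw a b n) := by
    intro a b n
    induction n generalizing a b with
    | zero => rfl
    | succ n ih =>
      rw [CxA.altw_succ, CoxeterSystem.wordProd_cons, ← ih]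
      rfl
  rw [key, key]
  exact CxA.wordProd_altw_braid M.toCoxeterSystem s t

/-- the homomorphism from the Artin group to the Coxeter group -/
noncomputable def cx : Artin M →* M.Group :=
  lift M (fun s => M.toCoxeterSystem.simple s) (cx_rel M)

omit [Fintype S] [DecidableEq S] in
theorem cx_gen (s : S) : cx M (gen M s) = M.toCoxeterSystem.simple s := lift_gen _ _ _ _

/-- the standard parabolic subgroup of the Coxeter group -/
def WX (X : Finset S) : Subgroup M.Group :=
  Subgroup.closure (M.toCoxeterSystem.simple '' (X : Set S))

/-- the stabiliser of the coset `W_X w` under the multiplication from the right: the parabolic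
subgroup `w⁻¹ W_X w` -/
def PB (X : Finset S) (w : M.Group) : Subgroup M.Group :=
  (WX M X).comap (MulAut.conj w).toMonoidHom

omit [Fintype S] [DecidableEq S] in
theorem mem_PB (X : Finset S) (w h : M.Group) : h ∈ PB M X w ↔ w * h * w⁻¹ ∈ WX M X := Iff.rfl

/-- the letter `t` of `X` as an element of the Artin group of `X` -/
def gx (X : Finset S) (t : S) : Artin (restr M X) :=
  if h : t ∈ X then gen (restr M X) ⟨t, h⟩ else 1

theorem gx_of_mem {X : Finset S} {t : S} (h : t ∈ X) : gx M X t = gen (restr M X) ⟨t, h⟩ :=
  dif_pos h

theorem gx_rel (X : Finset S) : ∀ t ∈ (X : Set S), ∀ t' ∈ (X : Set S),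
    alt (gx M X t) (gx M X t') (M.M t t') = alt (gx M X t') (gx M X t) (M.M t t') := by
  intro t ht t' ht'
  have ht1 : t ∈ X := ht
  have ht1' : t' ∈ X := ht'
  rw [gx_of_mem M ht1, gx_of_mem M ht1']
  exact gen_rel (restr M X) ⟨t, ht1⟩ ⟨t', ht1'⟩

/-- the state which is reached from the state `w` by reading `g` -/
noncomputable def st (X : Finset S) (w : ERed M (X : Set S)) (g : Artin M) : ERed M (X : Set S) :=
  ((VL2_act M (X : Set S) (gx M X) (gx_rel M X) g).unop (w, 1)).1

/-- what is written when `g` is read in the state `w` -/
noncomputable def co (X : Finset S) (w : ERed M (X : Set S)) (g : Artin M) : Artin (restr M X) :=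
  ((VL2_act M (X : Set S) (gx M X) (gx_rel M X) g).unop (w, 1)).2

/-- the trivial state -/
def e1 (X : Finset S) : ERed M (X : Set S) := VL2_one M (X : Set S)

end Pool.Agent.helper55.LR
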