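import Pool.Agent.helper55.LR.MDef

set_option autoImplicit false

/-!
# LRA-UNQ: states and cosets
-/

namespace Pool.Agent.helper55.LR

open Pool.Agent.helper55.EV
open Pool.Agent.helper36.LT (Artin gen alt artinRels)
open Pool.Agent.helper50.LT (alt_map gen_rel lift lift_gen artin_hom_ext)
open Pool.Agent.helper46.FJ3 (restr mp mp_gen inc inc_gen inc_mp)

variable {S : Type} [Fintype S] [DecidableEq S] (M : CoxeterMatrix S)

/-- linearity in coordinates -/
theorem UNQ_expand (w : M.Group) (v : S → ℝ) (b : S) :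
    CxA.rho M.toCoxeterSystem w v b =
      ∑ t, v t * CxA.rho M.toCoxeterSystem w (CxA.al ℝ t) b := by
  have h : v = ∑ t, v t • CxA.al ℝ t := by
    funext c
    rw [Finset.sum_apply, Finset.sum_eq_single c]
    · simp [CxA.al]
    · intro t _ ht
      simp [CxA.al, ht.symm]
    · simp
  conv_lhs => rw [h]
  rw [map_sum, Finset.sum_apply]
  refine Finset.sum_congr rfl (fun t _ => ?_)
  rw [map_smul, Pi.smul_apply, smul_eq_mul]

theorem UNQ_simple_mem {X : Finset S} {s : S} (h : s ∈ X) :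
    M.toCoxeterSystem.simple s ∈ WX M X :=
  Subgroup.subset_closure ⟨s, h, rfl⟩

/-- Two states in the same coset of `W_X` are equal. (If `w' = v w` with `v ∈ W_X` and `v ≠ 1`, take
a right descent `s` of `v⁻¹`. As `v⁻¹` changes only the coordinates in `X` (`VL2_supp`) one has
`s ∈ X`, and `v⁻¹ α_s = - ∑_(t ∈ X) c_t α_t` with `c_t ≥ 0`. So `w'⁻¹ α_s = - ∑ c_t w⁻¹ α_t` is
not positive, since `w⁻¹ α_t ≥ 0` for `t ∈ X`. But `w'⁻¹ α_s ≥ 0` and it is not zero.) -/
theorem state_uniq (X : Finset S) (w w' : ERed M (X : Set S)) (h : w'.1 * w.1⁻¹ ∈ WX M X) :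
    w = w' := by
  by_cases h1 : (w'.1 * w.1⁻¹)⁻¹ = 1
  · apply Subtype.ext
    have h2 : w'.1 * w.1⁻¹ = 1 := inv_eq_one.mp h1
    exact (mul_inv_eq_one.mp h2).symm
  · exfalso
    obtain ⟨s, hs⟩ := M.toCoxeterSystem.exists_rightDescent_of_ne_one h1
    have hv : (w'.1 * w.1⁻¹)⁻¹ ∈ WX M X := Subgroup.inv_mem _ h
    have hsX : s ∈ X := by
      by_contra hn
      have h2 := VL2_supp M hv (CxA.al ℝ s) s (by simpa using hn)
      have h3 := CxA.rho_nonpos M.toCoxeterSystem hs s
      rw [h2] at h3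
      have h4 : (CxA.al ℝ s : S → ℝ) s = 1 := by simp [CxA.al]
      rw [h4] at h3
      linarith
    apply CxA.rho_al_ne_zero M.toCoxeterSystem w'.1⁻¹ s
    funext c
    apply le_antisymm
    · have e : w'.1⁻¹ = w.1⁻¹ * (w'.1 * w.1⁻¹)⁻¹ := by group
      rw [e, CxA.rho_mul_apply, UNQ_expand]
      refine Finset.sum_nonpos (fun t _ => ?_)
      by_cases ht : t ∈ X
      · refine mul_nonpos_of_nonpos_of_nonneg (CxA.rho_nonpos M.toCoxeterSystem hs t) ?_
        refine CxA.rho_nonneg M.toCoxeterSystem ?_ c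
        rw [M.toCoxeterSystem.isRightDescent_inv_iff]
        exact w.2 t (by simpa using ht)
      · have h2 := VL2_supp M hv (CxA.al ℝ s) t (by simpa using ht)
        have hts : t ≠ s := fun hh => ht (hh ▸ hsX)
        have h4 : (CxA.al ℝ s : S → ℝ) t = 0 := by simp [CxA.al, hts]
        rw [h2, h4, zero_mul]
    · refine CxA.rho_nonneg M.toCoxeterSystem ?_ c
      rw [M.toCoxeterSystem.isRightDescent_inv_iff]
      exact w'.2 s (by simpa using hsX)

/-- every coset of `W_X` contains a state -/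
theorem exists_state (X : Finset S) (u : M.Group) :
    ∃ w : ERed M (X : Set S), w.1 * u⁻¹ ∈ WX M X := by
  classical
  have hex : ∃ n, ∃ v ∈ WX M X, M.toCoxeterSystem.length (v * u) = n :=
    ⟨_, 1, Subgroup.one_mem _, rfl⟩
  obtain ⟨v, hv, hl⟩ := Nat.find_spec hex
  refine ⟨⟨v * u, fun s hs hd => ?_⟩, ?_⟩
  · have hs' : s ∈ X := by simpa using hs
    have hlt : M.toCoxeterSystem.length (M.toCoxeterSystem.simple s * (v * u)) < Nat.find hex := by
      rw [← hl]
      exact hd
    refine Nat.find_min hex hlt ⟨M.toCoxeterSystem.simple s * v,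
      Subgroup.mul_mem _ (UNQ_simple_mem M hs') hv, ?_⟩
    rw [mul_assoc]
  · show v * u * u⁻¹ ∈ WX M X
    rw [mul_inv_cancel_right]
    exact hv

/-- the state in the coset `W_X u` -/
noncomputable def rp (X : Finset S) (u : M.Group) : ERed M (X : Set S) :=
  (exists_state M X u).choose

theorem rp_spec (X : Finset S) (u : M.Group) : (rp M X u).1 * u⁻¹ ∈ WX M X :=
  (exists_state M X u).choose_spec

theorem rp_eq (X : Finset S) (u u' : M.Group) (h : u * u'⁻¹ ∈ WX M X) : rp M X u = rp M X u' := by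
  apply state_uniq
  have e : (rp M X u').1 * (rp M X u).1⁻¹ =
      ((rp M X u').1 * u'⁻¹) * (u * u'⁻¹)⁻¹ * ((rp M X u).1 * u⁻¹)⁻¹ := by group
  rw [e]
  exact Subgroup.mul_mem _ (Subgroup.mul_mem _ (rp_spec M X u') (Subgroup.inv_mem _ h))
    (Subgroup.inv_mem _ (rp_spec M X u))

theorem rp_self (X : Finset S) (w : ERed M (X : Set S)) : rp M X w.1 = w := by
  apply state_uniq
  have e : w.1 * (rp M X w.1).1⁻¹ = ((rp M X w.1).1 * w.1⁻¹)⁻¹ := by group
  rw [e]
  exact Subgroup.inv_mem _ (rp_spec M X w.1)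

theorem rp_one (X : Finset S) : rp M X 1 = e1 M X :=
  rp_self M X (e1 M X)

end Pool.Agent.helper55.LR
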