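import Pool.Agent.helper55.LR.MUniq

set_option autoImplicit false

/-!
# LRA-MACH: the cocycle
-/

namespace Pool.Agent.helper55.LR

open Pool.Agent.helper55.EV
open Pool.Agent.helper36.LT (Artin gen alt artinRels)
open Pool.Agent.helper50.LT (alt_map gen_rel lift lift_gen artin_hom_ext)
open Pool.Agent.helper46.FJ3 (restr mp mp_gen inc inc_gen inc_mp)

variable {S : Type} [Fintype S] [DecidableEq S] (M : CoxeterMatrix S)

omit [Fintype S] [DecidableEq S] in
theorem MACH_ind {p : Artin M → Prop} (h1 : p 1) (hg : ∀ s, p (gen M s)) (hi : ∀ g, p g → p g⁻¹)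
    (hm : ∀ g h, p g → p h → p (g * h)) (g : Artin M) : p g := by
  induction g using PresentedGroup.induction_on with
  | _ z =>
    induction z using FreeGroup.induction_on with
    | C1 => rw [map_one]; exact h1
    | of s => exact hg s
    | inv_of s ih => rw [map_inv]; exact hi _ ih
    | mul a b ha hb => rw [map_mul]; exact hm _ _ ha hb

/-- a step commutes with the multiplication of the output from the left -/
theorem MACH_step (X : Finset S) (w : ERed M (X : Set S)) (z y : Artin (restr M X)) (s : S) :
    vstep M (X : Set S) (gx M X) (w, z * y) s =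
      ((vstep M (X : Set S) (gx M X) (w, y) s).1,
        z * (vstep M (X : Set S) (gx M X) (w, y) s).2) := by
  by_cases h : ∃ t, Out M (X : Set S) w.1 s t
  · obtain ⟨t, ht⟩ := h
    have a := VL1_write M (X : Set S) (gx M X) (w, z * y) (s := s) (t := t) ht
    have b := VL1_write M (X : Set S) (gx M X) (w, y) (s := s) (t := t) ht
    refine VL1_ext M (X : Set S) ?_ ?_
    · rw [a.1]
      exact b.1.symm
    · rw [a.2]
      show z * y * gx M X t = z * (vstep M (X : Set S) (gx M X) (w, y) s).2
      rw [b.2, mul_assoc]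
  · have a := VL1_move M (X : Set S) (gx M X) (w, z * y) (s := s) h
    have b := VL1_move M (X : Set S) (gx M X) (w, y) (s := s) h
    refine VL1_ext M (X : Set S) ?_ ?_
    · rw [a.1]
      exact b.1.symm
    · rw [a.2]
      show z * y = z * (vstep M (X : Set S) (gx M X) (w, y) s).2
      rw [b.2]

theorem MACH_act (X : Finset S) (g : Artin M) : ∀ (w : ERed M (X : Set S))
    (z y : Artin (restr M X)),
    (VL2_act M (X : Set S) (gx M X) (gx_rel M X) g).unop (w, z * y) =
      (((VL2_act M (X : Set S) (gx M X) (gx_rel M X) g).unop (w, y)).1,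
        z * ((VL2_act M (X : Set S) (gx M X) (gx_rel M X) g).unop (w, y)).2) := by
  refine MACH_ind M (p := fun g => ∀ (w : ERed M (X : Set S)) (z y : Artin (restr M X)),
    (VL2_act M (X : Set S) (gx M X) (gx_rel M X) g).unop (w, z * y) =
      (((VL2_act M (X : Set S) (gx M X) (gx_rel M X) g).unop (w, y)).1,
        z * ((VL2_act M (X : Set S) (gx M X) (gx_rel M X) g).unop (w, y)).2)) ?_ ?_ ?_ ?_ g
  · intro w z y
    rw [VL2_act_one, VL2_act_one]
  · intro s w z y
    rw [VL2_act_gen, VL2_act_gen]
    exact MACH_step M X w z y s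
  · intro g ih w z y
    set p := (VL2_act M (X : Set S) (gx M X) (gx_rel M X) g⁻¹).unop (w, y) with hp
    have h1 : (VL2_act M (X : Set S) (gx M X) (gx_rel M X) g).unop p = (w, y) :=
      VL2_act_inv' M (X : Set S) (gx M X) (gx_rel M X) g (w, y)
    have h2 := ih p.1 z p.2
    have h3 : ((p.1, p.2) : ERed M (X : Set S) × Artin (restr M X)) = p := rfl
    rw [h3, h1] at h2
    have h4 := VL2_act_inv M (X : Set S) (gx M X) (gx_rel M X) g (p.1, z * p.2)
    rw [h2] at h4
    exact h4
  · intro g h ihg ihh w z y
    rw [VL2_act_mul, VL2_act_mul, ihg w z y]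
    exact ihh _ z _

/-- the action in terms of `st` and `co` -/
theorem act_eq (X : Finset S) (w : ERed M (X : Set S)) (y : Artin (restr M X)) (g : Artin M) :
    (VL2_act M (X : Set S) (gx M X) (gx_rel M X) g).unop (w, y) = (st M X w g, y * co M X w g) := by
  have h := MACH_act M X g w y 1
  rw [mul_one] at h
  exact h

theorem st_one (X : Finset S) (w : ERed M (X : Set S)) : st M X w 1 = w := by
  unfold st
  rw [VL2_act_one]

theorem co_one (X : Finset S) (w : ERed M (X : Set S)) : co M X w 1 = 1 := by
  unfold co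
  rw [VL2_act_one]

theorem MACH_mul (X : Finset S) (w : ERed M (X : Set S)) (g h : Artin M) :
    (st M X w (g * h), co M X w (g * h)) =
      (st M X (st M X w g) h, co M X w g * co M X (st M X w g) h) := by
  have h1 := act_eq M X w 1 (g * h)
  rw [VL2_act_mul, act_eq, act_eq, one_mul, one_mul] at h1
  exact h1.symm

theorem st_mul (X : Finset S) (w : ERed M (X : Set S)) (g h : Artin M) :
    st M X w (g * h) = st M X (st M X w g) h :=
  (Prod.ext_iff.1 (MACH_mul M X w g h)).1

theorem co_mul (X : Finset S) (w : ERed M (X : Set S)) (g h : Artin M) :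
    co M X w (g * h) = co M X w g * co M X (st M X w g) h :=
  (Prod.ext_iff.1 (MACH_mul M X w g h)).2

theorem st_gen_out (X : Finset S) (w : ERed M (X : Set S)) {s t : S} (h : Out M (X : Set S) w.1 s t) :
    st M X w (gen M s) = w := by
  have b := VL1_write M (X : Set S) (gx M X) (w, 1) (s := s) (t := t) h
  unfold st
  rw [VL2_act_gen]
  exact Subtype.ext b.1

theorem co_gen_out (X : Finset S) (w : ERed M (X : Set S)) {s t : S} (h : Out M (X : Set S) w.1 s t) :
    co M X w (gen M s) = gx M X t := by
  have b := VL1_write M (X : Set S) (gx M X) (w, 1) (s := s) (t := t) h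
  unfold co
  rw [VL2_act_gen, b.2]
  exact one_mul _

theorem st_gen_move (X : Finset S) (w : ERed M (X : Set S)) {s : S}
    (h : ¬ ∃ t, Out M (X : Set S) w.1 s t) :
    (st M X w (gen M s)).1 = w.1 * M.toCoxeterSystem.simple s := by
  have b := VL1_move M (X : Set S) (gx M X) (w, 1) (s := s) h
  unfold st
  rw [VL2_act_gen]
  exact b.1

theorem co_gen_move (X : Finset S) (w : ERed M (X : Set S)) {s : S}
    (h : ¬ ∃ t, Out M (X : Set S) w.1 s t) : co M X w (gen M s) = 1 := by
  have b := VL1_move M (X : Set S) (gx M X) (w, 1) (s := s) h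
  unfold co
  rw [VL2_act_gen]
  exact b.2

/-- a letter is written if and only if the simple reflection fixes the coset -/
theorem out_iff (X : Finset S) (w : ERed M (X : Set S)) (s : S) :
    (∃ t, Out M (X : Set S) w.1 s t) ↔ M.toCoxeterSystem.simple s ∈ PB M X w.1 := by
  constructor
  · rintro ⟨t, ht, e⟩
    rw [mem_PB, ← e, mul_inv_cancel_right]
    exact Subgroup.subset_closure ⟨t, ht, rfl⟩
  · intro hs
    by_contra h
    rw [mem_PB] at hs
    have h1 : w = ⟨w.1 * M.toCoxeterSystem.simple s, ered_mul M (X : Set S) w.2 h⟩ :=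
      state_uniq M X w ⟨w.1 * M.toCoxeterSystem.simple s, ered_mul M (X : Set S) w.2 h⟩ hs
    have h2 : w.1 = w.1 * M.toCoxeterSystem.simple s := congrArg Subtype.val h1
    have h3 : M.toCoxeterSystem.simple s = 1 := mul_eq_left.1 h2.symm
    have h4 := M.toCoxeterSystem.length_simple s
    rw [h3, M.toCoxeterSystem.length_one] at h4
    omega

theorem MACH_coset (X : Finset S) (g : Artin M) : ∀ w : ERed M (X : Set S),
    (st M X w g).1 * (w.1 * cx M g)⁻¹ ∈ WX M X := by
  refine MACH_ind M (p := fun g => ∀ w : ERed M (X : Set S),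
    (st M X w g).1 * (w.1 * cx M g)⁻¹ ∈ WX M X) ?_ ?_ ?_ ?_ g
  · intro w
    rw [st_one, map_one, mul_one, mul_inv_cancel]
    exact Subgroup.one_mem _
  · intro s w
    rw [cx_gen]
    by_cases h : ∃ t, Out M (X : Set S) w.1 s t
    · have h2 := (mem_PB M X w.1 _).1 ((out_iff M X w s).1 h)
      obtain ⟨t, ht⟩ := h
      rw [st_gen_out M X w ht]
      have h3 := Subgroup.inv_mem _ h2
      have e : w.1 * (w.1 * M.toCoxeterSystem.simple s)⁻¹ =
          (w.1 * M.toCoxeterSystem.simple s * w.1⁻¹)⁻¹ := by group
      rw [e]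
      exact h3
    · rw [st_gen_move M X w h, mul_inv_cancel]
      exact Subgroup.one_mem _
  · intro g ih w
    have h1 : st M X (st M X w g⁻¹) g = w := by
      rw [← st_mul, inv_mul_cancel, st_one]
    have h2 := Subgroup.inv_mem _ (ih (st M X w g⁻¹))
    rw [h1] at h2
    rw [map_inv]
    have e : (st M X w g⁻¹).1 * (w.1 * (cx M g)⁻¹)⁻¹ =
        (w.1 * ((st M X w g⁻¹).1 * cx M g)⁻¹)⁻¹ := by group
    rw [e]
    exact h2
  · intro g h ihg ihh w
    have h1 := Subgroup.mul_mem _ (ihh (st M X w g)) (ihg w)
    rw [st_mul, map_mul]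
    have e : (st M X (st M X w g) h).1 * (w.1 * (cx M g * cx M h))⁻¹ =
        (st M X (st M X w g) h).1 * ((st M X w g).1 * cx M h)⁻¹ *
          ((st M X w g).1 * (w.1 * cx M g)⁻¹) := by group
    rw [e]
    exact h1

/-- the coset of the new state -/
theorem st_eq (X : Finset S) (w : ERed M (X : Set S)) (g : Artin M) :
    st M X w g = rp M X (w.1 * cx M g) := by
  rw [← rp_eq M X _ _ (MACH_coset M X g w), rp_self]

theorem MACH_inc (X : Finset S) (x : Artin (restr M X)) : ∀ y : Artin (restr M X),
    (VL2_act M (X : Set S) (gx M X) (gx_rel M X) (inc M X x)).unop (e1 M X, y) =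
      (e1 M X, y * x) := by
  induction x using PresentedGroup.induction_on with
  | _ z =>
    induction z using FreeGroup.induction_on with
    | C1 =>
      intro y
      rw [map_one, map_one, mul_one]
      exact VL2_act_one M (X : Set S) (gx M X) (gx_rel M X) _
    | of s =>
      intro y
      obtain ⟨s, hs⟩ := s
      have h1 : inc M X (PresentedGroup.mk _ (FreeGroup.of (⟨s, hs⟩ : X))) = gen M s :=
        inc_gen M X s hs
      rw [h1]
      refine (VL2_act_gen M (X : Set S) (gx M X) (gx_rel M X) s _).trans ?_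
      refine (VL2_step_one M (X : Set S) (gx M X) y (s := s) hs).trans ?_
      rw [gx_of_mem M hs]
      rfl
    | inv_of s _ =>
      intro y
      obtain ⟨s, hs⟩ := s
      have h1 : inc M X (PresentedGroup.mk _ (FreeGroup.of (⟨s, hs⟩ : X))) = gen M s :=
        inc_gen M X s hs
      rw [map_inv, map_inv, h1]
      have h2 := VL2_act_inv M (X : Set S) (gx M X) (gx_rel M X) (gen M s)
        (e1 M X, y * (PresentedGroup.mk _ (FreeGroup.of (⟨s, hs⟩ : X)))⁻¹)
      have h3 : vstep M (X : Set S) (gx M X)
          (e1 M X, y * (PresentedGroup.mk _ (FreeGroup.of (⟨s, hs⟩ : X)))⁻¹) s =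
          (e1 M X, y) := by
        refine (VL2_step_one M (X : Set S) (gx M X) _ (s := s) hs).trans ?_
        rw [gx_of_mem M hs]
        show (VL2_one M (X : Set S), y * (gen (restr M X) ⟨s, hs⟩)⁻¹ * gen (restr M X) ⟨s, hs⟩) =
          (e1 M X, y)
        rw [inv_mul_cancel_right]
        rfl
      rw [VL2_act_gen, h3] at h2
      exact h2
    | mul a b ha hb =>
      intro y
      rw [map_mul, map_mul]
      refine (VL2_act_mul M (X : Set S) (gx M X) (gx_rel M X) _ _ _).trans ?_
      rw [ha y, hb, mul_assoc]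

/-- the elements of the Artin group of `X` are reproduced in the trivial state -/
theorem co_inc (X : Finset S) (x : Artin (restr M X)) : co M X (e1 M X) (inc M X x) = x := by
  unfold co
  rw [MACH_inc, one_mul]

/-- consequences: the elements of the kernel of `cx` do not change the state, `co` is a homomorphism
on them -/
theorem st_ker (X : Finset S) (w : ERed M (X : Set S)) {g : Artin M} (h : cx M g = 1) :
    st M X w g = w := by
  rw [st_eq, h, mul_one, rp_self]

theorem co_inv (X : Finset S) (w : ERed M (X : Set S)) (g : Artin M) :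
    co M X w g * co M X (st M X w g) g⁻¹ = 1 := by
  rw [← co_mul, mul_inv_cancel, co_one]

end Pool.Agent.helper55.LR
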