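import Pool.Agent.helper55.LR.MUniq

set_option autoImplicit false

/-!
# LRA-PARA: parabolic subgroups of Coxeter groups and roots

Tools: `CxA.rho M.toCoxeterSystem` is the geometric representation on `S → ℝ`, `CxA.al ℝ s` are the
simple roots, `CxA.rho_nonneg`, `CxA.rho_nonpos` (positivity of roots and descents),
`CxA.rho_simple_of_root_eq`, `VL2_supp` (elements of `W_X` change only the coordinates in `X`).
-/

namespace Pool.Agent.helper55.LR

open Pool.Agent.helper55.EV
open Pool.Agent.helper36.LT (Artin gen alt artinRels)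
open scoped BigOperators

variable {S : Type} [Fintype S] [DecidableEq S] (M : CoxeterMatrix S)

/-- the decomposition of a vector in the simple roots, under `rho` -/
theorem PARA_expand (w : M.Group) (v : S → ℝ) (b : S) :
    CxA.rho M.toCoxeterSystem w v b
      = ∑ t, v t * CxA.rho M.toCoxeterSystem w (CxA.al ℝ t) b := by
  have h : v = ∑ t, v t • CxA.al ℝ t := by
    funext c
    rw [Finset.sum_apply, Finset.sum_eq_single c]
    · simp [CxA.al]
    · intro d _ hd
      simp [CxA.al, hd.symm]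
    · intro hc
      exact absurd (Finset.mem_univ c) hc
  conv_lhs => rw [h]
  rw [map_sum, Finset.sum_apply]
  apply Finset.sum_congr rfl
  intro t _
  rw [map_smul, Pi.smul_apply, smul_eq_mul]

/-- If `w` has no left descent in `X` and `w α_s` is supported on `X`, then `w α_s` is a simple root
of `X`. -/
theorem PARA_root (X : Finset S) (w : ERed M (X : Set S)) (s : S)
    (hw : ∀ b, b ∉ X → CxA.rho M.toCoxeterSystem w.1 (CxA.al ℝ s) b = 0) :
    ∃ t ∈ X, CxA.rho M.toCoxeterSystem w.1 (CxA.al ℝ s) = CxA.al ℝ t := by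
  have hpos : ∀ t ∈ X, ∀ b, 0 ≤ CxA.rho M.toCoxeterSystem w.1⁻¹ (CxA.al ℝ t) b := by
    intro t ht b
    apply CxA.rho_nonneg
    rw [M.toCoxeterSystem.isRightDescent_inv_iff]
    exact w.2 t (Finset.mem_coe.mpr ht)
  have hsum : ∀ b, CxA.al ℝ s b = ∑ t, CxA.rho M.toCoxeterSystem w.1 (CxA.al ℝ s) t *
      CxA.rho M.toCoxeterSystem w.1⁻¹ (CxA.al ℝ t) b := by
    intro b
    rw [← PARA_expand, CxA.rho_inv_apply]
  by_cases hd : M.toCoxeterSystem.IsRightDescent w.1 s
  · exfalso
    have h1 := hsum s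
    have h2 : CxA.al ℝ s s = 1 := by simp [CxA.al]
    have h3 : ∑ t, CxA.rho M.toCoxeterSystem w.1 (CxA.al ℝ s) t *
        CxA.rho M.toCoxeterSystem w.1⁻¹ (CxA.al ℝ t) s ≤ 0 := by
      apply Finset.sum_nonpos
      intro t _
      by_cases ht : t ∈ X
      · exact mul_nonpos_of_nonpos_of_nonneg (CxA.rho_nonpos M.toCoxeterSystem hd t)
          (hpos t ht s)
      · rw [hw t ht, zero_mul]
    rw [h2] at h1
    linarith
  · have hn := CxA.rho_nonneg M.toCoxeterSystem hd
    obtain ⟨t, ht0⟩ : ∃ t, CxA.rho M.toCoxeterSystem w.1 (CxA.al ℝ s) t ≠ 0 := by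
      by_contra hno
      push Not at hno
      exact CxA.rho_al_ne_zero M.toCoxeterSystem w.1 s (funext hno)
    have htX : t ∈ X := by
      by_contra h
      exact ht0 (hw t h)
    refine ⟨t, htX, ?_⟩
    have hb0 : ∀ b, b ≠ s → CxA.rho M.toCoxeterSystem w.1⁻¹ (CxA.al ℝ t) b = 0 := by
      intro b hb
      have h1 := hsum b
      have h2 : CxA.al ℝ s b = 0 := by simp [CxA.al, hb]
      rw [h2] at h1
      have h3 := (Finset.sum_eq_zero_iff_of_nonneg (fun t' _ => ?_)).mp h1.symm t
        (Finset.mem_univ t)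
      · rcases mul_eq_zero.mp h3 with h | h
        · exact absurd h ht0
        · exact h
      · by_cases ht' : t' ∈ X
        · exact mul_nonneg (hn t') (hpos t' ht' b)
        · rw [hw t' ht', zero_mul]
    have heq : CxA.rho M.toCoxeterSystem w.1⁻¹ (CxA.al ℝ t)
        = CxA.rho M.toCoxeterSystem w.1⁻¹ (CxA.al ℝ t) s • CxA.al ℝ s := by
      funext b
      by_cases hb : b = s
      · subst hb
        simp [CxA.al]
      · rw [hb0 b hb]
        simp [CxA.al, hb]
    have hbil : CxA.bil M (CxA.rho M.toCoxeterSystem w.1⁻¹ (CxA.al ℝ t))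
        (CxA.rho M.toCoxeterSystem w.1⁻¹ (CxA.al ℝ t)) = 2 := by
      rw [CxA.bil_rho, CxA.bil_al_self]
    have h1 : CxA.rho M.toCoxeterSystem w.1⁻¹ (CxA.al ℝ t) s = 1 := by
      have hc := hpos t htX s
      rw [heq, CxA.bil_smul_left, CxA.bil_smul_right, CxA.bil_al_self] at hbil
      have h6 : (CxA.rho M.toCoxeterSystem w.1⁻¹ (CxA.al ℝ t) s - 1) *
          (CxA.rho M.toCoxeterSystem w.1⁻¹ (CxA.al ℝ t) s + 1) = 0 := by
        linarith
      rcases mul_eq_zero.mp h6 with h | h
      · linarith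
      · linarith
    rw [h1, one_smul] at heq
    rw [← heq, CxA.rho_apply_inv]

theorem PARA_sum (X : Finset S) {h : M.Group} (hh : h ∈ WX M X) (v : S → ℝ) :
    ∑ b ∈ Finset.univ \ X, CxA.rho M.toCoxeterSystem h v b = ∑ b ∈ Finset.univ \ X, v b := by
  apply Finset.sum_congr rfl
  intro b hb
  rw [Finset.mem_sdiff] at hb
  exact VL2_supp M hh v b (fun h => hb.2 (Finset.mem_coe.mp h))

theorem PARA_mem (X : Finset S) (n : ℕ) : ∀ h : M.Group, M.toCoxeterSystem.length h = n →
    (∀ v : S → ℝ, ∑ b ∈ Finset.univ \ X, CxA.rho M.toCoxeterSystem h v b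
      = ∑ b ∈ Finset.univ \ X, v b) → h ∈ WX M X := by
  induction n with
  | zero =>
    intro h hl _
    rw [M.toCoxeterSystem.length_eq_zero_iff.mp hl]
    exact Subgroup.one_mem _
  | succ n ih =>
    intro h hl hν
    have h1 : h ≠ 1 := by
      rintro rfl
      rw [M.toCoxeterSystem.length_one] at hl
      exact absurd hl (Nat.succ_ne_zero n).symm
    obtain ⟨s, hs⟩ := M.toCoxeterSystem.exists_rightDescent_of_ne_one h1
    have hsX : s ∈ X := by
      by_contra hsX
      have h2 := hν (CxA.al ℝ s)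
      have h3 : ∑ b ∈ Finset.univ \ X, CxA.rho M.toCoxeterSystem h (CxA.al ℝ s) b ≤ 0 :=
        Finset.sum_nonpos (fun b _ => CxA.rho_nonpos M.toCoxeterSystem hs b)
      have h4 : (1 : ℝ) ≤ ∑ b ∈ Finset.univ \ X, CxA.al ℝ s b := by
        have h5 : CxA.al ℝ s s ≤ ∑ b ∈ Finset.univ \ X, CxA.al ℝ s b := by
          apply Finset.single_le_sum (f := fun b => CxA.al ℝ s b)
          · intro b _
            by_cases hb : b = s
            · subst hb
              simp [CxA.al]
            · simp [CxA.al, hb]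
          · rw [Finset.mem_sdiff]
            exact ⟨Finset.mem_univ s, hsX⟩
        have h6 : CxA.al ℝ s s = 1 := by simp [CxA.al]
        linarith
      linarith
    have hsW : M.toCoxeterSystem.simple s ∈ WX M X :=
      Subgroup.subset_closure ⟨s, Finset.mem_coe.mpr hsX, rfl⟩
    have h7 : M.toCoxeterSystem.length (h * M.toCoxeterSystem.simple s) = n := by
      have h8 := M.toCoxeterSystem.isRightDescent_iff.mp hs
      omega
    have h9 : h * M.toCoxeterSystem.simple s ∈ WX M X := by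
      apply ih _ h7
      intro v
      have h10 : ∀ b, CxA.rho M.toCoxeterSystem (h * M.toCoxeterSystem.simple s) v b
          = CxA.rho M.toCoxeterSystem h
            (CxA.rho M.toCoxeterSystem (M.toCoxeterSystem.simple s) v) b := by
        intro b
        rw [CxA.rho_mul_apply]
      rw [Finset.sum_congr rfl (fun b _ => h10 b), hν, PARA_sum M X hsW]
    have h11 := Subgroup.mul_mem _ h9 hsW
    rwa [CoxeterSystem.simple_mul_simple_cancel_right] at h11

/-- A reflection `y s y⁻¹` is in `W_X` iff the root `y α_s` is supported on `X`.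

(⇒) If `r = y s y⁻¹ ∈ W_X`, then `r v - v` is supported on `X` for every `v` (`VL2_supp`), and
for `v = y α_s` this is `-2 y α_s`. (⇐) Let `y' = v y` be the state of the coset `W_X y`
(`exists_state`; no left descent in `X`), `v ∈ W_X`. The root `β = y' α_s = v (y α_s)` is supported
on `X` as well, `β = ∑_(t ∈ X) c_t α_t`, and all `c_t ≥ 0` or all `c_t ≤ 0`. So
`α_s = ∑ c_t y'⁻¹ α_t`, where `y'⁻¹ α_t ≥ 0` since `y'` has no left descent in `X`. The case
`c_t ≤ 0` is impossible. Comparing coordinates, `y'⁻¹ α_t` is a nonnegative multiple of `α_s` for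
every `t` with `c_t ≠ 0`, hence equal to `α_s` (the invariant form: `bil (α_s, α_s) = 2 =
bil (y'⁻¹ α_t, y'⁻¹ α_t)`), so `α_t = y' α_s` and `y' s y'⁻¹ = t` (`rho_simple_of_root_eq`), thus
`y s y⁻¹ = v⁻¹ t v ∈ W_X`. -/
theorem refl_mem_WX (X : Finset S) (y : M.Group) (s : S) :
    y * M.toCoxeterSystem.simple s * y⁻¹ ∈ WX M X ↔
      ∀ b, b ∉ X → CxA.rho M.toCoxeterSystem y (CxA.al ℝ s) b = 0 := by
  constructor
  · intro hr b hb
    have h1 := VL2_supp M hr (CxA.rho M.toCoxeterSystem y (CxA.al ℝ s)) b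
      (fun h => hb (Finset.mem_coe.mp h))
    rw [CxA.rho_refl, CxA.bil_rho, CxA.bil_al_self, Pi.add_apply, Pi.smul_apply,
      smul_eq_mul] at h1
    linarith
  · intro hβ
    obtain ⟨w, hw⟩ := exists_state M X y
    have hwd : ∀ b, b ∉ X → CxA.rho M.toCoxeterSystem w.1 (CxA.al ℝ s) b = 0 := by
      intro b hb
      have e : w.1 = w.1 * y⁻¹ * y := by rw [inv_mul_cancel_right]
      rw [e, CxA.rho_mul_apply,
        VL2_supp M hw _ b (fun h => hb (Finset.mem_coe.mp h))]
      exact hβ b hb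
    obtain ⟨t, htX, ht⟩ := PARA_root M X w s hwd
    have h2 : w.1 * M.toCoxeterSystem.simple s * w.1⁻¹ = M.toCoxeterSystem.simple t := by
      have h3 : CxA.rho M.toCoxeterSystem w.1 (CxA.al ℝ s)
          = CxA.rho M.toCoxeterSystem 1 (CxA.al ℝ t) := by rw [ht, CxA.rho_one_apply]
      have h4 := CxA.rho_simple_of_root_eq M.toCoxeterSystem (Or.inl h3)
      rw [h4, one_mul, inv_one, mul_one]
    have h5 : y * M.toCoxeterSystem.simple s * y⁻¹
        = (w.1 * y⁻¹)⁻¹ * M.toCoxeterSystem.simple t * (w.1 * y⁻¹) := by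
      rw [← h2]
      group
    rw [h5]
    exact Subgroup.mul_mem _ (Subgroup.mul_mem _ (Subgroup.inv_mem _ hw)
      (Subgroup.subset_closure ⟨t, Finset.mem_coe.mpr htX, rfl⟩)) hw

/-- `W_X` is the stabiliser of the functional `ν v = ∑_(b ∉ X) v_b`.

(⇒) `VL2_supp`. (⇐) Induction on the length of `h`. If `h ≠ 1` take a right descent `s` of `h`. Then
`h α_s ≤ 0`, so `0 ≤ ν α_s = ν (h α_s) ≤ 0`, so `ν α_s = 0`, i.e. `s ∈ X`. Then `h s` is shorter
and also stabilises `ν`. -/
theorem mem_WX_iff (X : Finset S) (h : M.Group) : h ∈ WX M X ↔ ∀ v : S → ℝ,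
    ∑ b ∈ Finset.univ \ X, CxA.rho M.toCoxeterSystem h v b = ∑ b ∈ Finset.univ \ X, v b := by
  constructor
  · intro hh v
    exact PARA_sum M X hh v
  · exact PARA_mem M X _ h rfl

end Pool.Agent.helper55.LR
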