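import Pool.Agent.helper55.LR.ParA

set_option autoImplicit false

/-!
# LRA-PARB: intersections of parabolic subgroups of Coxeter groups

Tools: `CxA.rho M.toCoxeterSystem` is the geometric representation on `S → ℝ`, `CxA.al ℝ s` are the
simple roots, `CxA.rho_nonneg`, `CxA.rho_nonpos` (positivity of roots and descents),
`CxA.rho_simple_of_root_eq`, `VL2_supp` (elements of `W_X` change only the coordinates in `X`).
-/

namespace Pool.Agent.helper55.LR

open Pool.Agent.helper55.EV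
open Pool.Agent.helper36.LT (Artin gen alt artinRels)
open scoped BigOperators

variable {S : Type} [Fintype S] [DecidableEq S] (M : CoxeterMatrix S)

/-- linearity in coordinates -/
theorem PARB_expand (w : M.Group) (v : S → ℝ) (b : S) :
    CxA.rho M.toCoxeterSystem w v b =
      ∑ t, v t * CxA.rho M.toCoxeterSystem w (CxA.al ℝ t) b := by
  have h : v = ∑ t, v t • CxA.al ℝ t := by
    funext c
    rw [Finset.sum_apply, Finset.sum_eq_single c]
    · simp [CxA.al]
    · intro t _ ht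
      simp [CxA.al, ht.symm]
    · simp
  conv_lhs => rw [h]
  rw [map_sum, Finset.sum_apply]
  refine Finset.sum_congr rfl (fun t _ => ?_)
  rw [map_smul, Pi.smul_apply, smul_eq_mul]

open Classical in
/-- the simple reflections of `X` which are conjugated into `Y` by `u` -/
noncomputable def PARB_Z (X Y : Finset S) (u : M.Group) : Finset S :=
  X.filter (fun s => ∃ t ∈ Y, M.toCoxeterSystem.simple s * u = u * M.toCoxeterSystem.simple t)

theorem PARB_Z_sub (X Y : Finset S) (u : M.Group) : PARB_Z M X Y u ⊆ X := by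
  classical
  exact Finset.filter_subset _ _

theorem PARB_mem_Z {X Y : Finset S} {u : M.Group} {s : S} : s ∈ PARB_Z M X Y u ↔
    s ∈ X ∧ ∃ t ∈ Y, M.toCoxeterSystem.simple s * u = u * M.toCoxeterSystem.simple t := by
  classical
  exact Finset.mem_filter

theorem PARB_simple_mem {X : Finset S} {s : S} (h : s ∈ X) :
    M.toCoxeterSystem.simple s ∈ WX M X :=
  Subgroup.subset_closure ⟨s, h, rfl⟩

theorem PARB_mono {X Y : Finset S} (h : X ⊆ Y) : WX M X ≤ WX M Y := by
  refine Subgroup.closure_mono ?_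
  rintro _ ⟨s, hs, rfl⟩
  exact ⟨s, h hs, rfl⟩

/-- one step -/
theorem PARB_step {X Y : Finset S} {u : M.Group}
    (hX : ∀ s ∈ X, ¬ M.toCoxeterSystem.IsLeftDescent u s)
    (hY : ∀ t ∈ Y, ¬ M.toCoxeterSystem.IsRightDescent u t) {a b : M.Group} (ha : a ∈ WX M X)
    (hb : b ∈ WX M Y) (hab : a * u = u * b) {s : S}
    (hs : M.toCoxeterSystem.IsRightDescent a s) :
    s ∈ X ∧ ∃ t ∈ Y, M.toCoxeterSystem.simple s * u = u * M.toCoxeterSystem.simple t := by
  have hsX : s ∈ X := by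
    by_contra h
    have h2 := VL2_supp M ha (CxA.al ℝ s) s (by simpa using h)
    have h3 := CxA.rho_nonpos M.toCoxeterSystem hs s
    rw [h2] at h3
    have h4 : (CxA.al ℝ s : S → ℝ) s = 1 := by simp [CxA.al]
    rw [h4] at h3
    linarith
  refine ⟨hsX, ?_⟩
  -- the roots `γ = a α_s` and `β = u⁻¹ α_s`
  set γ : S → ℝ := CxA.rho M.toCoxeterSystem a (CxA.al ℝ s) with hγ
  set β : S → ℝ := CxA.rho M.toCoxeterSystem u⁻¹ (CxA.al ℝ s) with hβ
  have hγ0 : ∀ c, γ c ≤ 0 := fun c => CxA.rho_nonpos M.toCoxeterSystem hs c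
  have hγX : ∀ c, c ∉ X → γ c = 0 := by
    intro c hc
    have h2 := VL2_supp M ha (CxA.al ℝ s) c (by simpa using hc)
    rw [hγ, h2]
    have hcs : c ≠ s := fun h => hc (h ▸ hsX)
    simp [CxA.al, hcs]
  have hinv : ∀ t ∈ X, ∀ c, 0 ≤ CxA.rho M.toCoxeterSystem u⁻¹ (CxA.al ℝ t) c := by
    intro t ht c
    refine CxA.rho_nonneg M.toCoxeterSystem ?_ c
    rw [M.toCoxeterSystem.isRightDescent_inv_iff]
    exact hX t ht
  have hβ0 : ∀ c, 0 ≤ β c := hinv s hsX
  have hbβ : CxA.rho M.toCoxeterSystem b β = CxA.rho M.toCoxeterSystem u⁻¹ γ := by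
    rw [hβ, hγ, ← CxA.rho_mul_apply, ← CxA.rho_mul_apply]
    have e : b * u⁻¹ = u⁻¹ * a := by
      rw [eq_inv_mul_iff_mul_eq, ← mul_assoc, ← hab, mul_assoc, mul_inv_cancel, mul_one]
    rw [e]
  have hβY : ∀ c, c ∉ Y → β c = 0 := by
    intro c hc
    have h2 := VL2_supp M hb β c (by simpa using hc)
    rw [hbβ, PARB_expand] at h2
    have h3 : ∑ t, γ t * CxA.rho M.toCoxeterSystem u⁻¹ (CxA.al ℝ t) c ≤ 0 := by
      refine Finset.sum_nonpos (fun t _ => ?_)
      by_cases ht : t ∈ X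
      · exact mul_nonpos_of_nonpos_of_nonneg (hγ0 t) (hinv t ht c)
      · rw [hγX t ht, zero_mul]
    rw [h2] at h3
    exact le_antisymm h3 (hβ0 c)
  have huβ : CxA.rho M.toCoxeterSystem u β = CxA.al ℝ s := CxA.rho_apply_inv _ _ _
  -- a coordinate of `β` which is not zero
  have hne : β ≠ 0 := CxA.rho_al_ne_zero M.toCoxeterSystem u⁻¹ s
  obtain ⟨y, hy⟩ : ∃ y, β y ≠ 0 := Function.ne_iff.mp hne
  have hyY : y ∈ Y := by
    by_contra h
    exact hy (hβY y h)
  have hyz : ∀ c, c ≠ s → CxA.rho M.toCoxeterSystem u (CxA.al ℝ y) c = 0 := by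
    intro c hc
    have h2 : CxA.rho M.toCoxeterSystem u β c = 0 := by
      rw [huβ]
      simp [CxA.al, hc]
    rw [PARB_expand] at h2
    have hnn : ∀ t ∈ (Finset.univ : Finset S),
        0 ≤ β t * CxA.rho M.toCoxeterSystem u (CxA.al ℝ t) c := by
      intro t _
      by_cases ht : t ∈ Y
      · exact mul_nonneg (hβ0 t) (CxA.rho_nonneg M.toCoxeterSystem (hY t ht) c)
      · rw [hβY t ht, zero_mul]
    have h3 := (Finset.sum_eq_zero_iff_of_nonneg hnn).mp h2 y (Finset.mem_univ y)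
    exact (mul_eq_zero.mp h3).resolve_left hy
  have hroot : CxA.rho M.toCoxeterSystem u (CxA.al ℝ y) = CxA.al ℝ s := by
    refine CxA.eq_al_of_sign_change M.toCoxeterSystem
      (fun c => CxA.rho_nonneg M.toCoxeterSystem (hY y hyY) c) ?_
    have h2 : CxA.rho M.toCoxeterSystem u (CxA.al ℝ y) =
        CxA.rho M.toCoxeterSystem u (CxA.al ℝ y) s • CxA.al ℝ s := by
      funext c
      by_cases hc : c = s
      · subst hc
        simp [CxA.al]
      · rw [hyz c hc]
        simp [CxA.al, hc]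
    intro c
    rw [h2, map_smul, CxA.sig_al_self, Pi.smul_apply, Pi.neg_apply, smul_eq_mul, mul_neg,
      neg_nonpos]
    refine mul_nonneg (CxA.rho_nonneg M.toCoxeterSystem (hY y hyY) s) ?_
    by_cases hc : c = s
    · subst hc
      simp [CxA.al]
    · simp [CxA.al, hc]
  refine ⟨y, hyY, ?_⟩
  have h3 : CxA.rho M.toCoxeterSystem u (CxA.al ℝ y) =
      CxA.rho M.toCoxeterSystem 1 (CxA.al ℝ s) := by
    rw [hroot, CxA.rho_one_apply]
  have h4 := CxA.rho_simple_of_root_eq M.toCoxeterSystem (Or.inl h3)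
  rw [one_mul, inv_one, mul_one] at h4
  rw [← h4, inv_mul_cancel_right]

/-- step 1 -/
theorem PARB_core {X Y : Finset S} {u : M.Group}
    (hX : ∀ s ∈ X, ¬ M.toCoxeterSystem.IsLeftDescent u s)
    (hY : ∀ t ∈ Y, ¬ M.toCoxeterSystem.IsRightDescent u t) (n : ℕ) :
    ∀ a b : M.Group, M.toCoxeterSystem.length a = n → a ∈ WX M X → b ∈ WX M Y →
      a * u = u * b → a ∈ WX M (PARB_Z M X Y u) := by
  induction n using Nat.strong_induction_on with
  | _ n ih =>
    intro a b hn ha hb hab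
    by_cases h1 : a = 1
    · rw [h1]
      exact Subgroup.one_mem _
    · obtain ⟨s, hs⟩ := M.toCoxeterSystem.exists_rightDescent_of_ne_one h1
      obtain ⟨hsX, t, ht, e⟩ := PARB_step M hX hY ha hb hab hs
      have hsZ : s ∈ PARB_Z M X Y u := (PARB_mem_Z M).mpr ⟨hsX, t, ht, e⟩
      have hlt : M.toCoxeterSystem.length (a * M.toCoxeterSystem.simple s) < n := by
        rw [← hn]
        exact hs
      have h2 := ih _ hlt (a * M.toCoxeterSystem.simple s) (b * M.toCoxeterSystem.simple t) rfl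
        (Subgroup.mul_mem _ ha (PARB_simple_mem M hsX))
        (Subgroup.mul_mem _ hb (PARB_simple_mem M ht))
        (by rw [mul_assoc, e, ← mul_assoc, hab, mul_assoc])
      have h3 := Subgroup.mul_mem _ h2 (PARB_simple_mem M hsZ)
      rwa [CoxeterSystem.simple_mul_simple_cancel_right] at h3

/-- elements of minimal length in double cosets -/
theorem PARB_dbl (X Y : Finset S) (g : M.Group) : ∃ x u y : M.Group, x ∈ WX M X ∧ y ∈ WX M Y ∧
    g = x * u * y ∧ (∀ s ∈ X, ¬ M.toCoxeterSystem.IsLeftDescent u s) ∧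
    (∀ t ∈ Y, ¬ M.toCoxeterSystem.IsRightDescent u t) := by
  classical
  have hex : ∃ n, ∃ x u y : M.Group, x ∈ WX M X ∧ y ∈ WX M Y ∧ g = x * u * y ∧
      M.toCoxeterSystem.length u = n :=
    ⟨_, 1, g, 1, Subgroup.one_mem _, Subgroup.one_mem _, by rw [one_mul, mul_one], rfl⟩
  obtain ⟨x, u, y, hx, hy, hg, hl⟩ := Nat.find_spec hex
  refine ⟨x, u, y, hx, hy, hg, ?_, ?_⟩
  · intro s hs hd
    have hlt : M.toCoxeterSystem.length (M.toCoxeterSystem.simple s * u) < Nat.find hex := by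
      rw [← hl]
      exact hd
    refine Nat.find_min hex hlt ⟨x * M.toCoxeterSystem.simple s,
      M.toCoxeterSystem.simple s * u, y, Subgroup.mul_mem _ hx (PARB_simple_mem M hs), hy, ?_, rfl⟩
    rw [mul_assoc x, CoxeterSystem.simple_mul_simple_cancel_left]
    exact hg
  · intro t ht hd
    have hlt : M.toCoxeterSystem.length (u * M.toCoxeterSystem.simple t) < Nat.find hex := by
      rw [← hl]
      exact hd
    refine Nat.find_min hex hlt ⟨x, u * M.toCoxeterSystem.simple t,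
      M.toCoxeterSystem.simple t * y, hx, Subgroup.mul_mem _ (PARB_simple_mem M ht) hy, ?_, rfl⟩
    rw [mul_assoc x, mul_assoc u, CoxeterSystem.simple_mul_simple_cancel_left, ← mul_assoc]
    exact hg

theorem PARB_conj {X Y : Finset S} {u a : M.Group} (ha : a ∈ WX M (PARB_Z M X Y u)) :
    u⁻¹ * a * u ∈ WX M Y := by
  induction ha using Subgroup.closure_induction with
  | mem x hx =>
    obtain ⟨s, hs, rfl⟩ := hx
    obtain ⟨-, t, ht, e⟩ := (PARB_mem_Z M).mp hs
    rw [mul_assoc, e, inv_mul_cancel_left]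
    exact PARB_simple_mem M ht
  | one =>
    rw [mul_one, inv_mul_cancel]
    exact Subgroup.one_mem _
  | mul x y _ _ h1 h2 =>
    have e : u⁻¹ * (x * y) * u = (u⁻¹ * x * u) * (u⁻¹ * y * u) := by group
    rw [e]
    exact Subgroup.mul_mem _ h1 h2
  | inv x _ h1 =>
    have e : u⁻¹ * x⁻¹ * u = (u⁻¹ * x * u)⁻¹ := by group
    rw [e]
    exact Subgroup.inv_mem _ h1

/-- The intersection of two parabolic subgroups is parabolic.

1. Let `u` have no left descent in `X` and no right descent in `Y`, and `Z = {s ∈ X | ∃ t ∈ Y,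
s u = u t}`. Then `a ∈ W_X`, `a = u b u⁻¹`, `b ∈ W_Y` imply `a ∈ W_Z`: induction on the length of
`a`. If `a ≠ 1` take a right descent `s` of `a`; `s ∈ X`, since for `s ∉ X` the coordinate `s` of
`a α_s` is `1` (`VL2_supp`). So `a α_s = - ∑_(t ∈ X) c_t α_t`, `c_t ≥ 0`. The root
`β = u⁻¹ α_s` is positive (no left descent in `X`), and `b β = u⁻¹ a α_s = - ∑ c_t u⁻¹ α_t ≤ 0`. As
`b ∈ W_Y`, the coordinates of `β` and `b β` outside `Y` are the same, so they are `0`:
`β = ∑_(y ∈ Y) d_y α_y`, `d_y ≥ 0`, and `α_s = u β = ∑ d_y u α_y` with `u α_y ≥ 0` (no right descent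
in `Y`). As in `refl_mem_WX` one gets `u α_y = α_s` for some `y ∈ Y`, so `s u = u y`, `s ∈ Z`. Then
`a s` is shorter, `a s = u (b y) u⁻¹`, and the induction applies.
2. In general `w h w⁻¹ ∈ W_X` and `w' h w'⁻¹ ∈ W_Y`. Let `u` be an element of minimal length of the
double coset `W_X (w w'⁻¹) W_Y`: `w w'⁻¹ = x u y`, `x ∈ W_X`, `y ∈ W_Y`, and `u` is as in 1.
Then `h` is in the intersection iff `x⁻¹ w h w⁻¹ x ∈ W_X ∩ u W_Y u⁻¹ = W_Z`, so the intersection is
`PB M Z (x⁻¹ w)`. -/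
theorem PB_inter (X Y : Finset S) (w w' : M.Group) : ∃ (Z : Finset S) (u : M.Group), Z ⊆ X ∧
    ∀ h, (h ∈ PB M X w ∧ h ∈ PB M Y w') ↔ h ∈ PB M Z u := by
  obtain ⟨x, u, y, hx, hy, hg, h1, h2⟩ := PARB_dbl M X Y (w * w'⁻¹)
  refine ⟨PARB_Z M X Y u, x⁻¹ * w, PARB_Z_sub M X Y u, fun h => ?_⟩
  rw [mem_PB, mem_PB, mem_PB]
  have e0 : w = x * u * y * w' := by rw [← hg, inv_mul_cancel_right]
  have e1 : x⁻¹ * w * h * (x⁻¹ * w)⁻¹ = x⁻¹ * (w * h * w⁻¹) * x := by group
  have e2 : x⁻¹ * w * h * (x⁻¹ * w)⁻¹ = u * (y * (w' * h * w'⁻¹) * y⁻¹) * u⁻¹ := by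
    rw [e0]
    group
  constructor
  · rintro ⟨ha, hb⟩
    have ha' : x⁻¹ * w * h * (x⁻¹ * w)⁻¹ ∈ WX M X := by
      rw [e1]
      exact Subgroup.mul_mem _ (Subgroup.mul_mem _ (Subgroup.inv_mem _ hx) ha) hx
    have hb' : y * (w' * h * w'⁻¹) * y⁻¹ ∈ WX M Y :=
      Subgroup.mul_mem _ (Subgroup.mul_mem _ hy hb) (Subgroup.inv_mem _ hy)
    refine PARB_core M h1 h2 _ _ (y * (w' * h * w'⁻¹) * y⁻¹) rfl ha' hb' ?_
    rw [e2, inv_mul_cancel_right]
  · intro hz
    have ha' : x⁻¹ * w * h * (x⁻¹ * w)⁻¹ ∈ WX M X := PARB_mono M (PARB_Z_sub M X Y u) hz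
    have hb' := PARB_conj M hz
    constructor
    · have e3 : w * h * w⁻¹ = x * (x⁻¹ * w * h * (x⁻¹ * w)⁻¹) * x⁻¹ := by group
      rw [e3]
      exact Subgroup.mul_mem _ (Subgroup.mul_mem _ hx ha') (Subgroup.inv_mem _ hx)
    · have e3 : w' * h * w'⁻¹ =
          y⁻¹ * (u⁻¹ * (x⁻¹ * w * h * (x⁻¹ * w)⁻¹) * u) * y := by
        rw [e2]
        group
      rw [e3]
      exact Subgroup.mul_mem _ (Subgroup.mul_mem _ (Subgroup.inv_mem _ hy) hb') hy

/-- finite intersections -/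
theorem PB_finInter {ι : Type} (X : Finset S) (w : ι → M.Group) (F : Finset ι) (i₀ : ι)
    (hi : i₀ ∈ F) : ∃ (Z : Finset S) (u : M.Group), Z ⊆ X ∧
    ∀ h, (∀ i ∈ F, h ∈ PB M X (w i)) ↔ h ∈ PB M Z u := by
  classical
  have key : ∀ F : Finset ι, F.Nonempty → ∃ (Z : Finset S) (u : M.Group), Z ⊆ X ∧
      ∀ h, (∀ i ∈ F, h ∈ PB M X (w i)) ↔ h ∈ PB M Z u := by
    intro F
    induction F using Finset.induction_on with
    | empty => intro h; exact absurd h Finset.not_nonempty_empty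
    | insert i F _ ih =>
      intro _
      rcases F.eq_empty_or_nonempty with hF | hF
      · refine ⟨X, w i, Finset.Subset.refl X, fun h => ?_⟩
        subst hF
        simp
      · obtain ⟨Z', u', -, h'⟩ := ih hF
        obtain ⟨Z, u, hZ, h''⟩ := PB_inter M X Z' (w i) u'
        refine ⟨Z, u, hZ, fun h => ?_⟩
        rw [← h'', ← h']
        simp only [Finset.mem_insert, forall_eq_or_imp]
  exact key F ⟨i₀, hi⟩

end Pool.Agent.helper55.LR
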