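import Pool.Agent.helper55.LR.ParB
import Pool.Agent.helper55.LR.Lin

set_option autoImplicit false

/-!
# LRA-PER: the reflections in the conjugates of a parabolic subgroup by the powers of an element
-/

namespace Pool.Agent.helper55.LR

open Pool.Agent.helper55.EV

variable {S : Type} [Fintype S] [DecidableEq S] (M : CoxeterMatrix S)

/-- membership of a reflection in a conjugate of a parabolic subgroup -/
theorem PER_refl_iff (X : Finset S) (g y : M.Group) (s : S) :
    y * M.toCoxeterSystem.simple s * y⁻¹ ∈ PB M X g ↔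
      ∀ b, b ∉ X → CxA.rho M.toCoxeterSystem (g * y) (CxA.al ℝ s) b = 0 := by
  rw [mem_PB, ← refl_mem_WX]
  have h : g * (y * M.toCoxeterSystem.simple s * y⁻¹) * g⁻¹ =
      (g * y) * M.toCoxeterSystem.simple s * (g * y)⁻¹ := by group
  rw [h]

/-- Take `k` from `lin_power`. By `refl_mem_WX` the reflection `y s y⁻¹` is in `PB M X (x₀ w ^ n)`
iff the root `x₀ w ^ n y α_s` has zero coordinates outside `X`. If this holds for infinitely many
`n`, then for every `b ∉ X` the coordinate `b` vanishes for infinitely many `n`, so for all `n`. The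
same holds for the multiples of `k`. -/
theorem refl_power (w : M.Group) : ∃ k : ℕ, 0 < k ∧ ∀ (m : ℕ), 0 < m →
    ∀ (X : Finset S) (x₀ y : M.Group) (s : S),
    {n : ℤ | y * M.toCoxeterSystem.simple s * y⁻¹ ∈ PB M X (x₀ * (w ^ (k * m)) ^ n)}.Infinite →
    ∀ n : ℤ, y * M.toCoxeterSystem.simple s * y⁻¹ ∈ PB M X (x₀ * (w ^ (k * m)) ^ n) := by
  obtain ⟨k, hk, hl⟩ := lin_power M w
  refine ⟨k, hk, fun m hm X x₀ y s hinf n => ?_⟩
  have hpow : ∀ n : ℤ, (w ^ (k * m)) ^ n = (w ^ k) ^ ((m : ℤ) * n) := by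
    intro n
    rw [pow_mul, zpow_mul, zpow_natCast]
  rw [PER_refl_iff]
  intro b hb
  rw [hpow]
  refine hl x₀ y s b ?_ _
  have hinj : Function.Injective (fun n : ℤ => (m : ℤ) * n) := by
    intro a c hac
    have hm0 : (m : ℤ) ≠ 0 := by
      exact_mod_cast hm.ne'
    exact mul_left_cancel₀ hm0 hac
  refine (hinf.image (f := fun n : ℤ => (m : ℤ) * n) (hinj.injOn)).mono ?_
  rintro _ ⟨n', hn', rfl⟩
  have h1 := (PER_refl_iff M X _ y s).mp hn' b hb
  rw [hpow] at h1
  exact h1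

/-- the functional which sums the coordinates outside `X` -/
noncomputable def PER_nu (X : Finset S) : (S → ℝ) →ₗ[ℝ] ℝ :=
  ∑ b ∈ Finset.univ \ X, LinearMap.proj b

theorem PER_nu_apply (X : Finset S) (v : S → ℝ) :
    PER_nu X v = ∑ b ∈ Finset.univ \ X, v b := by
  simp [PER_nu]

theorem PER_mem_iff (X : Finset S) (g h : M.Group) : h ∈ PB M X g ↔
    (CxA.rho M.toCoxeterSystem h).dualMap ((PER_nu X).comp (CxA.rho M.toCoxeterSystem g)) =
      (PER_nu X).comp (CxA.rho M.toCoxeterSystem g) := by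
  rw [mem_PB, mem_WX_iff]
  constructor
  · intro h1
    apply LinearMap.ext
    intro v
    have h2 := h1 (CxA.rho M.toCoxeterSystem g v)
    rw [← PER_nu_apply, ← PER_nu_apply, ← CxA.rho_mul_apply, inv_mul_cancel_right,
      CxA.rho_mul_apply] at h2
    exact h2
  · intro h1 v
    have h2 := LinearMap.congr_fun h1 (CxA.rho M.toCoxeterSystem g⁻¹ v)
    rw [← PER_nu_apply, ← PER_nu_apply, CxA.rho_mul_apply, CxA.rho_mul_apply]
    have h3 : CxA.rho M.toCoxeterSystem g (CxA.rho M.toCoxeterSystem g⁻¹ v) = v :=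
      CxA.rho_apply_inv _ _ _
    rw [LinearMap.comp_apply, h3] at h2
    exact h2

/-- By `mem_WX_iff`, `h ∈ PB M X (x₀ w ^ n)` iff `h` fixes the functional `ν_n = ν ∘ rho (x₀ w ^ n)`
in the finite-dimensional dual space of `S → ℝ`. The span of all `ν_n` is spanned by finitely many
of them. -/
theorem fin_inter (X : Finset S) (x₀ w : M.Group) : ∃ F : Finset ℤ, 0 ∈ F ∧
    ∀ h, (∀ n ∈ F, h ∈ PB M X (x₀ * w ^ n)) → ∀ n : ℤ, h ∈ PB M X (x₀ * w ^ n) := by
  classical
  set f : ℤ → Module.Dual ℝ (S → ℝ) :=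
    fun n => (PER_nu X).comp (CxA.rho M.toCoxeterSystem (x₀ * w ^ n)) with hf
  have hfg : (Submodule.span ℝ (Set.range f)).FG := IsNoetherian.noetherian _
  obtain ⟨s', hs', hspan⟩ := (Submodule.fg_span_iff_fg_span_finset_subset _).mp hfg
  rw [← Set.image_univ, Finset.subset_set_image_iff] at hs'
  obtain ⟨F', -, rfl⟩ := hs'
  refine ⟨insert 0 F', Finset.mem_insert_self _ _, fun h hF n => ?_⟩
  rw [PER_mem_iff]
  have hle : Submodule.span ℝ (Set.range f) ≤
      LinearMap.ker ((CxA.rho M.toCoxeterSystem h).dualMap - LinearMap.id) := by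
    rw [hspan, Submodule.span_le]
    intro φ hφ
    rw [Finset.mem_coe, Finset.mem_image] at hφ
    obtain ⟨n', hn', rfl⟩ := hφ
    have h1 := (PER_mem_iff M X _ h).mp (hF n' (Finset.mem_insert_of_mem hn'))
    rw [SetLike.mem_coe, LinearMap.mem_ker, LinearMap.sub_apply, LinearMap.id_apply, sub_eq_zero]
    exact h1
  have h2 := hle (Submodule.subset_span (Set.mem_range_self n))
  rw [LinearMap.mem_ker, LinearMap.sub_apply, LinearMap.id_apply, sub_eq_zero] at h2
  exact h2

/-- The intersection of the conjugates is parabolic (`fin_inter` and `PB_finInter`). -/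
theorem exists_core (X : Finset S) (x₀ w : M.Group) : ∃ (Z : Finset S) (u : M.Group), Z ⊆ X ∧
    ∀ h, (∀ n : ℤ, h ∈ PB M X (x₀ * w ^ n)) ↔ h ∈ PB M Z u := by
  obtain ⟨F, hF, h1⟩ := fin_inter M X x₀ w
  obtain ⟨Z, u, h2, h3⟩ := PB_finInter M X (fun n : ℤ => x₀ * w ^ n) F 0 hF
  refine ⟨Z, u, h2, fun h => ?_⟩
  rw [← h3]
  exact ⟨fun h4 n _ => h4 n, fun h4 => h1 h h4⟩

end Pool.Agent.helper55.LR
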