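import Pool.Agent.helper55.LR.Wall

set_option autoImplicit false

/-!
# LRA-PRM: powers of an element of the normaliser of a parabolic subgroup
-/

namespace Pool.Agent.helper55.LR

open Pool.Agent.helper55.EV
open Pool.Agent.helper36.LT (Artin gen alt artinRels)
open Pool.Agent.helper46.FJ3 (restr mp mp_gen inc inc_gen inc_mp)

variable {S : Type} [Fintype S] [DecidableEq S] (M : CoxeterMatrix S)

omit [Fintype S] [DecidableEq S] in
theorem PRM_cx_surj : Function.Surjective (cx M) := by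
  rw [← MonoidHom.range_eq_top, eq_top_iff, ← M.toCoxeterSystem.subgroup_closure_range_simple,
    Subgroup.closure_le]
  rintro _ ⟨s, rfl⟩
  exact ⟨gen M s, cx_gen M s⟩

omit [Fintype S] [DecidableEq S] in
/-- powers of an element of the normaliser -/
theorem PRM_zpow {Z : Finset S} {w : M.Group}
    (hw : ∀ h, h ∈ WX M Z ↔ w * h * w⁻¹ ∈ WX M Z) (j : ℤ) :
    ∀ h, h ∈ WX M Z ↔ w ^ j * h * (w ^ j)⁻¹ ∈ WX M Z := by
  induction j using Int.induction_on with
  | zero => intro h; simp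
  | succ n ih =>
    intro h
    rw [hw h, ih (w * h * w⁻¹)]
    have e : w ^ (n : ℤ) * (w * h * w⁻¹) * (w ^ (n : ℤ))⁻¹ =
        w ^ ((n : ℤ) + 1) * h * (w ^ ((n : ℤ) + 1))⁻¹ := by
      rw [zpow_add_one]; group
    rw [e]
  | pred n ih =>
    intro h
    have h1 := ih (w⁻¹ * h * w)
    have h2 := hw (w⁻¹ * h * w)
    have e1 : w * (w⁻¹ * h * w) * w⁻¹ = h := by group
    rw [e1] at h2
    rw [← h2, h1]
    have e : w ^ (-(n : ℤ)) * (w⁻¹ * h * w) * (w ^ (-(n : ℤ)))⁻¹ =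
        w ^ (-(n : ℤ) - 1) * h * (w ^ (-(n : ℤ) - 1))⁻¹ := by
      rw [zpow_sub_one]; group
    rw [e]

/-- the states of the cosets of the powers have the stabiliser `W_Z` -/
theorem PRM_PB {Z : Finset S} {w : M.Group}
    (hw : ∀ h, h ∈ WX M Z ↔ w * h * w⁻¹ ∈ WX M Z) (j : ℤ) (h : M.Group) :
    h ∈ PB M Z (rp M Z (w ^ j)).1 ↔ h ∈ WX M Z := by
  rw [mem_PB]
  have hv := rp_spec M Z (w ^ j)
  set z := (rp M Z (w ^ j)).1
  have e : z * h * z⁻¹ = (z * (w ^ j)⁻¹) * (w ^ j * h * (w ^ j)⁻¹) * (z * (w ^ j)⁻¹)⁻¹ := by group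
  rw [e, Subgroup.mul_mem_cancel_right _ (Subgroup.inv_mem _ hv), Subgroup.mul_mem_cancel_left _ hv]
  exact (PRM_zpow M hw j h).symm

/-- the permutation of the generators -/
theorem PRM_pi {Z : Finset S} {w : M.Group}
    (hw : ∀ h, h ∈ WX M Z ↔ w * h * w⁻¹ ∈ WX M Z) (j : ℤ) :
    ∃ π : S → S, ∀ t ∈ Z, π t ∈ Z ∧
      M.toCoxeterSystem.simple (π t) * (rp M Z (w ^ j)).1 =
        (rp M Z (w ^ j)).1 * M.toCoxeterSystem.simple t := by
  have h1 : ∀ t : S, ∃ t' : S, t ∈ Z → t' ∈ Z ∧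
      M.toCoxeterSystem.simple t' * (rp M Z (w ^ j)).1 =
        (rp M Z (w ^ j)).1 * M.toCoxeterSystem.simple t := by
    intro t
    by_cases ht : t ∈ Z
    · have h2 : M.toCoxeterSystem.simple t ∈ PB M Z (rp M Z (w ^ j)).1 := by
        rw [PRM_PB M hw j]
        exact Subgroup.subset_closure ⟨t, ht, rfl⟩
      obtain ⟨t', h3, h4⟩ := (out_iff M Z (rp M Z (w ^ j)) t).mpr h2
      exact ⟨t', fun _ => ⟨h3, h4⟩⟩
    · exact ⟨t, fun h => absurd h ht⟩
  choose π hπ using h1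
  exact ⟨π, hπ⟩

/-- equal permutations give equal outputs -/
theorem PRM_eq {Z : Finset S} {w : M.Group}
    (hw : ∀ h, h ∈ WX M Z ↔ w * h * w⁻¹ ∈ WX M Z) (i k : ℤ) (π : S → S)
    (hi : ∀ t ∈ Z, π t ∈ Z ∧ M.toCoxeterSystem.simple (π t) * (rp M Z (w ^ i)).1 =
        (rp M Z (w ^ i)).1 * M.toCoxeterSystem.simple t)
    (hk : ∀ t ∈ Z, π t ∈ Z ∧ M.toCoxeterSystem.simple (π t) * (rp M Z (w ^ k)).1 =
        (rp M Z (w ^ k)).1 * M.toCoxeterSystem.simple t) (g : Artin M) :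
    co M Z (rp M Z (w ^ i)) g = co M Z (rp M Z (w ^ k)) g := by
  refine co_comm M Z _ _ (fun h => ?_) ?_ g
  · rw [PRM_PB M hw, PRM_PB M hw]
  · intro t ht
    have hinj : Set.InjOn π (Z : Set S) := by
      intro a ha b hb hab
      have h1 := (hi a ha).2
      have h2 := (hi b hb).2
      rw [hab, h2] at h1
      exact (VL1_simple_inj M (mul_left_cancel h1)).symm
    have himg : Z.image π = Z := by
      apply Finset.eq_of_subset_of_card_le
      · intro x hx
        obtain ⟨a, ha, rfl⟩ := Finset.mem_image.mp hx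
        exact (hi a ha).1
      · rw [Finset.card_image_of_injOn hinj]
    have ht' : t ∈ Z.image π := by rw [himg]; exact ht
    obtain ⟨a, ha, rfl⟩ := Finset.mem_image.mp ht'
    have h1 := (hi a ha).2
    have h2 := (hk a ha).2
    set zi := (rp M Z (w ^ i)).1
    set zk := (rp M Z (w ^ k)).1
    have h3 : M.toCoxeterSystem.simple (π a) = zk * M.toCoxeterSystem.simple a * zk⁻¹ := by
      rw [← h2]; group
    have h4 : M.toCoxeterSystem.simple (π a) * (zi * zk⁻¹) =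
        zi * M.toCoxeterSystem.simple a * zk⁻¹ := by
      rw [← mul_assoc, h1]
    rw [h4, h3]
    group

/-- shift of the indices -/
theorem PRM_shift {Z : Finset S} {w : M.Group} {i k : ℤ}
    (h : ∀ g, co M Z (rp M Z (w ^ i)) g = co M Z (rp M Z (w ^ k)) g) (l : ℤ) (g : Artin M) :
    co M Z (rp M Z (w ^ (i + l))) g = co M Z (rp M Z (w ^ (k + l))) g := by
  obtain ⟨a, ha⟩ := PRM_cx_surj M (w ^ l)
  have key : ∀ j : ℤ, st M Z (rp M Z (w ^ j)) a = rp M Z (w ^ (j + l)) := by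
    intro j
    rw [st_eq, ha]
    apply rp_eq
    have hv := rp_spec M Z (w ^ j)
    have e : (rp M Z (w ^ j)).1 * w ^ l * (w ^ (j + l))⁻¹ = (rp M Z (w ^ j)).1 * (w ^ j)⁻¹ := by
      rw [zpow_add]; group
    rw [e]
    exact hv
  have h1 := h (a * g)
  rw [co_mul, co_mul, key, key, h a] at h1
  exact mul_left_cancel h1

/-- There is `K > 0`, which depends only on the number of generators, such that for every set `Z` of
generators and every `w` in the normaliser of `W_Z` the outputs in the states of the cosets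
`W_Z (w ^ K) ^ j` are the same as in the trivial state.

Proof. Fix `Z`, `w`. For `j : ℤ` let `z_j = rp M Z (w ^ j)` be the state of the coset `W_Z w ^ j`.
It normalises `W_Z`, so the stabiliser `PB M Z z_j` is `W_Z`. For `t ∈ Z` the letter `t` fixes the
coset `W_Z z_j` (`out_iff`), so there is `π_j t ∈ Z` with `π_j t * z_j = z_j * t`; `π_j` is an
injective map from `Z` to `Z`, so a permutation. If `π_i = π_j` then `z_i z_j⁻¹` commutes with `Z`
(for `t ∈ Z` write `t = π_j t''`, so `t = z_j t'' z_j⁻¹` and `z_i z_j⁻¹ t = z_i t'' z_j⁻¹ =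
π_i(t'') z_i z_j⁻¹ = t z_i z_j⁻¹`), so `co M Z z_i g = co M Z z_j g` for all `g` by `co_comm`.
Let `J = {j | ∀ g, co M Z z_j g = co M Z z_0 g}`. If `co M Z z_(i+j) g = co M Z z_i g` for all `g`
(some `i`) then the same holds for all `i`: take `h : Artin M` with `cx M h = w ^ l` (`cx` is
surjective) and compare `co_mul` for `h * g` in the states `z_(i+j)` and `z_i` (`st_eq`:
`st M Z z_i h = z_(i+l)`, as `w ^ i` and `w ^ l` commute). Hence `J` is a subgroup of `ℤ`, and if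
`π_i = π_j` then `i - j ∈ J`. The maps from `Z` to `Z` extended to `S → S` are at most
`N = (card S) ^ (card S)` many, so by the pigeonhole principle `J` contains some `d` with
`1 ≤ d ≤ N`; therefore `K = N !` works (`K ∈ J`, and `j K ∈ J`). -/
theorem exists_perm_power : ∃ K : ℕ, 0 < K ∧ ∀ (Z : Finset S) (w : M.Group),
    (∀ h, h ∈ WX M Z ↔ w * h * w⁻¹ ∈ WX M Z) → ∀ (j : ℤ) (g : Artin M),
      co M Z (rp M Z ((w ^ K) ^ j)) g = co M Z (e1 M Z) g := by
  refine ⟨(Fintype.card (S → S)).factorial, Nat.factorial_pos _, fun Z w hw j => ?_⟩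
  choose π hπ using fun i : ℤ => PRM_pi M hw i
  -- the pigeonhole principle
  have hpig : ∃ a b : Fin (Fintype.card (S → S) + 1), a ≠ b ∧ π ((a : ℕ) : ℤ) = π ((b : ℕ) : ℤ) :=
    Fintype.exists_ne_map_eq_of_card_lt (fun a : Fin (Fintype.card (S → S) + 1) =>
      π ((a : ℕ) : ℤ)) (by simp)
  have hd : ∃ d : ℕ, 0 < d ∧ d ≤ Fintype.card (S → S) ∧
      ∀ g, co M Z (rp M Z (w ^ (d : ℤ))) g = co M Z (rp M Z (w ^ (0 : ℤ))) g := by
    obtain ⟨a, b, hab, he⟩ := hpig
    have main : ∀ a b : Fin (Fintype.card (S → S) + 1), (a : ℕ) < (b : ℕ) →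
        π ((a : ℕ) : ℤ) = π ((b : ℕ) : ℤ) → ∃ d : ℕ, 0 < d ∧ d ≤ Fintype.card (S → S) ∧
        ∀ g, co M Z (rp M Z (w ^ (d : ℤ))) g = co M Z (rp M Z (w ^ (0 : ℤ))) g := by
      intro a b hlt he
      refine ⟨(b : ℕ) - (a : ℕ), by omega, by have := b.2; omega, fun g => ?_⟩
      have h1 := PRM_eq M hw ((b : ℕ) : ℤ) ((a : ℕ) : ℤ) (π ((b : ℕ) : ℤ)) (hπ _)
        (by rw [← he]; exact hπ _)
      have h2 := PRM_shift M h1 (-((a : ℕ) : ℤ)) g
      have e1 : ((b : ℕ) : ℤ) + -((a : ℕ) : ℤ) = (((b : ℕ) - (a : ℕ) : ℕ) : ℤ) := by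
        rw [Nat.cast_sub hlt.le]; ring
      have e2 : ((a : ℕ) : ℤ) + -((a : ℕ) : ℤ) = 0 := by ring
      rw [e1, e2] at h2
      exact h2
    rcases lt_or_gt_of_ne (fun h => hab (Fin.ext h) : (a : ℕ) ≠ (b : ℕ)) with h | h
    · exact main a b h he
    · exact main b a h he.symm
  obtain ⟨d, hd0, hdN, hd⟩ := hd
  have hmul : ∀ (m : ℤ) (g : Artin M), co M Z (rp M Z (w ^ (m * d))) g =
      co M Z (rp M Z (w ^ (0 : ℤ))) g := by
    intro m
    induction m using Int.induction_on with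
    | zero => intro g; rw [zero_mul]
    | succ n ih =>
      intro g
      have h1 := PRM_shift M hd ((n : ℤ) * d) g
      have e1 : (d : ℤ) + (n : ℤ) * d = ((n : ℤ) + 1) * d := by ring
      rw [e1, zero_add, ih] at h1
      exact h1
    | pred n ih =>
      intro g
      have h1 := PRM_shift M hd ((-(n : ℤ) - 1) * d) g
      have e1 : (d : ℤ) + (-(n : ℤ) - 1) * d = -(n : ℤ) * d := by ring
      rw [e1, zero_add, ih] at h1
      exact h1.symm
  intro g
  obtain ⟨c, hc⟩ : d ∣ (Fintype.card (S → S)).factorial := Nat.dvd_factorial hd0 hdN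
  have e : (w ^ (Fintype.card (S → S)).factorial) ^ j = w ^ ((c * j : ℤ) * d) := by
    rw [hc, ← zpow_natCast, ← zpow_mul]
    congr 1
    push_cast
    ring
  rw [e, hmul, zpow_zero, rp_one]

end Pool.Agent.helper55.LR
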