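import Mathlib

set_option autoImplicit false

/-!
# LRA-SML: a special case of the theorem of Skolem, Mahler and Lech
-/

namespace Pool.Agent.helper55.LR

open scoped BigOperators

/-- `p ^ j / j !` is a `p`-adic integer divisible by `p ^ (j / 2)` -/
theorem SML_t (p : ℕ) [hp : Fact p.Prime] (h3 : 3 ≤ p) (j : ℕ) :
    ∃ t : ℤ_[p], (j.factorial : ℤ_[p]) * t = (p : ℤ_[p]) ^ j ∧ (p : ℤ_[p]) ^ (j / 2) ∣ t := by
  obtain ⟨v, u, hu, hvu⟩ :=
    Nat.exists_eq_pow_mul_and_not_dvd (Nat.factorial_ne_zero j) p hp.out.ne_one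
  have hu0 : u ≠ 0 := by
    rintro rfl
    exact hu (dvd_zero p)
  have hv : padicValNat p j.factorial = v := by
    rw [hvu, padicValNat.mul (pow_ne_zero _ hp.out.ne_zero) hu0, padicValNat.prime_pow,
      padicValNat.eq_zero_of_not_dvd hu, add_zero]
  have h1 := sub_one_mul_padicValNat_factorial (p := p) j
  rw [hv] at h1
  have h2 : 2 * v ≤ j := by
    have h4 : 2 * v ≤ (p - 1) * v := Nat.mul_le_mul_right v (by omega)
    omega
  have hunit : IsUnit (u : ℤ_[p]) := by
    rw [PadicInt.isUnit_iff]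
    have h5 := PadicInt.norm_int_lt_one_iff_dvd (p := p) (u : ℤ)
    have h6 : ¬ ‖((u : ℤ) : ℤ_[p])‖ < 1 := by
      rw [h5]
      exact fun h => hu (Int.natCast_dvd_natCast.1 h)
    rw [Int.cast_natCast] at h6
    exact le_antisymm (PadicInt.norm_le_one _) (not_lt.1 h6)
  obtain ⟨w, hw⟩ := hunit.exists_right_inv
  refine ⟨(p : ℤ_[p]) ^ (j - v) * w, ?_, ?_⟩
  · rw [hvu]
    push_cast
    have h7 : (p : ℤ_[p]) ^ j = (p : ℤ_[p]) ^ v * (p : ℤ_[p]) ^ (j - v) := by
      rw [← pow_add]
      congr 1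
      omega
    rw [h7]
    linear_combination (p : ℤ_[p]) ^ v * (p : ℤ_[p]) ^ (j - v) * hw
  · exact (pow_dvd_pow _ (by omega)).mul_right _

/-- the polynomial argument over a domain with a residue field -/
theorem SML_poly {R F : Type} [CommRing R] [IsDomain R] [Field F] (f : R →+* F) (h : ℕ → R)
    (K m : ℕ) (hKm : K ≤ m) (hK : f (h K) ≠ 0) (hj : ∀ j, K < j → f (h j) = 0) (S : Finset R)
    (hS : S.card = K + 1)
    (hz : ∀ a ∈ S, (∑ j ∈ Finset.range (m + 1),
      Polynomial.C (h j) * descPochhammer R j).eval a = 0) : False := by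
  set G : Polynomial R := ∑ j ∈ Finset.range (m + 1), Polynomial.C (h j) * descPochhammer R j
    with hG
  have hmap : G.map f = ∑ j ∈ Finset.range (K + 1),
      Polynomial.C (f (h j)) * descPochhammer F j := by
    rw [hG, Polynomial.map_sum]
    have e1 : ∀ j ∈ Finset.range (m + 1),
        (Polynomial.C (h j) * descPochhammer R j).map f =
          Polynomial.C (f (h j)) * descPochhammer F j := by
      intro j _
      rw [Polynomial.map_mul, Polynomial.map_C, descPochhammer_map]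
    rw [Finset.sum_congr rfl e1]
    symm
    apply Finset.sum_subset
    · intro j hj'
      rw [Finset.mem_range] at hj' ⊢
      omega
    · intro j _ hj'
      rw [Finset.mem_range] at hj'
      rw [hj j (by omega), Polynomial.C_0, zero_mul]
  have hcoeff : (G.map f).coeff K = f (h K) := by
    rw [hmap, Polynomial.finset_sum_coeff, Finset.sum_eq_single K]
    · rw [Polynomial.coeff_C_mul]
      have h1 := monic_descPochhammer F K
      have h2 := h1.coeff_natDegree
      rw [descPochhammer_natDegree] at h2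
      rw [h2, mul_one]
    · intro j hj1 hj2
      rw [Finset.mem_range] at hj1
      rw [Polynomial.coeff_C_mul, Polynomial.coeff_eq_zero_of_natDegree_lt, mul_zero]
      rw [descPochhammer_natDegree]
      omega
    · intro h1
      exact absurd (Finset.mem_range.2 (Nat.lt_succ_self K)) h1
  have hne : G.map f ≠ 0 := by
    intro h0
    rw [h0, Polynomial.coeff_zero] at hcoeff
    exact hK hcoeff.symm
  have hdeg : (G.map f).natDegree ≤ K := by
    rw [hmap]
    apply Polynomial.natDegree_sum_le_of_forall_le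
    intro j hj1
    rw [Finset.mem_range] at hj1
    refine (Polynomial.natDegree_C_mul_le _ _).trans ?_
    rw [descPochhammer_natDegree]
    omega
  have hG0 : G ≠ 0 := by
    intro h0
    rw [h0, Polynomial.map_zero] at hne
    exact hne rfl
  have hle : S.val ≤ G.roots := by
    rw [Multiset.le_iff_subset S.nodup]
    intro a ha
    rw [Polynomial.mem_roots hG0]
    exact hz a ha
  have hdvd := (Multiset.prod_X_sub_C_dvd_iff_le_roots hG0 S.val).2 hle
  obtain ⟨Q, hQ⟩ := hdvd
  have hmon : ((S.val.map fun a => Polynomial.X - Polynomial.C a).prod).Monic :=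
    Polynomial.monic_multiset_prod_of_monic _ _ fun a _ => Polynomial.monic_X_sub_C a
  have hnd : ((S.val.map fun a => Polynomial.X - Polynomial.C a).prod).natDegree = K + 1 := by
    rw [Polynomial.natDegree_multiset_prod_X_sub_C_eq_card]
    exact hS
  have hQ2 : G.map f = ((S.val.map fun a => Polynomial.X - Polynomial.C a).prod).map f *
      Q.map f := by
    rw [← Polynomial.map_mul, ← hQ]
  have hQ0 : Q.map f ≠ 0 := by
    intro h0
    rw [h0, mul_zero] at hQ2
    exact hne hQ2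
  have h3 : (G.map f).natDegree = K + 1 + (Q.map f).natDegree := by
    rw [hQ2, Polynomial.natDegree_mul (hmon.map f).ne_zero hQ0, hmon.natDegree_map, hnd]
  omega

/-- Let `a n = ∑_j (n choose j) p ^ j c_j` with integers `c_j` and a prime `p ≥ 3`. If `a n = 0` for
infinitely many natural numbers `n` then all `c_j` are `0`.

Proof. Suppose not. Let `v` be the `p`-adic valuation and `g_j = p ^ j c_j / j !`, a rational
number with `v (g_j) ≥ j - v (j !) ≥ j - j / (p - 1) ≥ j / 2` (or `g_j = 0`), which tends to infinity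
(`sub_one_mul_padicValNat_factorial` or `Nat.Prime.multiplicity_factorial` …). So there is a last
index `K` for which `v (g_K)` is minimal: `μ = v (g_K)`, `v (g_j) ≥ μ` for all `j` and `v (g_j) > μ`
for `j > K`. Choose `K + 1` different zeros `n_0, …, n_K` of `a`, let `m` be their maximum (and
at least `K`), and consider the polynomial `G = ∑_(j ≤ m) g_j P_j`, where `P_j = n (n - 1) ⋯
(n - j + 1) = j ! (n choose j)` (`descPochhammer ℤ j`, monic of degree `j` with integer
coefficients). As `(n choose j) = 0` for `j > n`, one has `G (n_i) = a (n_i) = 0`. Multiply by a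
suitable integer prime to `p` (e.g. the prime-to-`p` part of `m !`) and a power of `p` so that
`G' = ∑ g'_j P_j` has integer coefficients `g'_j`, `g'_K` is prime to `p` and `p ∣ g'_j` for
`j > K`. Modulo `p` the polynomial `G'` has degree exactly `K` (the leading term comes from
`g'_K P_K`). But `G'` has the `K + 1` different integer roots `n_i`, so it is divisible in `ℤ[n]` by
the monic polynomial `∏ (n - n_i)` of degree `K + 1`, and so is its reduction modulo `p`:
contradiction. -/
theorem sml_seq (p : ℕ) (hp : p.Prime) (h3 : 3 ≤ p) (c : ℕ → ℤ)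
    (h : {n : ℕ | ∑ j ∈ Finset.range (n + 1), (n.choose j : ℤ) * (p : ℤ) ^ j * c j = 0}.Infinite) :
    ∀ j, c j = 0 := by
  have : Fact p.Prime := ⟨hp⟩
  by_contra hcon
  push Not at hcon
  obtain ⟨j0, hj0⟩ := hcon
  choose t ht1 ht2 using SML_t p h3
  have hp0 : (p : ℤ_[p]) ≠ 0 := by
    exact_mod_cast hp.ne_zero
  have hgz : ∀ j, c j ≠ 0 → t j * (c j : ℤ_[p]) ≠ 0 := by
    intro j hj
    refine mul_ne_zero ?_ (by exact_mod_cast hj)
    intro h0
    have h1 := ht1 j
    rw [h0, mul_zero] at h1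
    exact pow_ne_zero j hp0 h1.symm
  -- the minimal power
  have hex : ∃ k, ∃ j, ¬ (p : ℤ_[p]) ^ (k + 1) ∣ t j * (c j : ℤ_[p]) := by
    have hfm : FiniteMultiplicity (p : ℤ_[p]) (t j0 * (c j0 : ℤ_[p])) :=
      FiniteMultiplicity.of_not_isUnit (PadicInt.p_nonunit) (hgz j0 hj0)
    obtain ⟨k, hk⟩ := hfm
    exact ⟨k, j0, hk⟩
  classical
  set mu := Nat.find hex with hmu
  have hmu1 : ∃ j, ¬ (p : ℤ_[p]) ^ (mu + 1) ∣ t j * (c j : ℤ_[p]) := Nat.find_spec hex
  have hmu2 : ∀ j, (p : ℤ_[p]) ^ mu ∣ t j * (c j : ℤ_[p]) := by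
    intro j
    rcases Nat.eq_zero_or_pos mu with h0 | h0
    · rw [h0, pow_zero]
      exact one_dvd _
    · have h1 := Nat.find_min hex (m := mu - 1) (by omega)
      push Not at h1
      have h2 := h1 j
      rwa [Nat.sub_add_cancel h0] at h2
  choose e he using hmu2
  have hdv : ∀ j, (p : ℤ_[p]) ∣ e j ↔ (p : ℤ_[p]) ^ (mu + 1) ∣ t j * (c j : ℤ_[p]) := by
    intro j
    rw [he j, pow_succ]
    exact (mul_dvd_mul_iff_left (pow_ne_zero mu hp0)).symm
  obtain ⟨j1, hj1⟩ := hmu1
  rw [← hdv] at hj1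
  have hbd : ∀ j, 2 * (mu + 1) ≤ j → (p : ℤ_[p]) ∣ e j := by
    intro j hj
    rw [hdv]
    exact ((pow_dvd_pow _ (by omega)).trans (ht2 j)).mul_right _
  have hj1' : j1 ≤ 2 * (mu + 1) := by
    by_contra h
    exact hj1 (hbd j1 (by omega))
  set K := Nat.findGreatest (fun j => ¬ (p : ℤ_[p]) ∣ e j) (2 * (mu + 1)) with hKdef
  have hK1 : ¬ (p : ℤ_[p]) ∣ e K :=
    Nat.findGreatest_spec (P := fun j => ¬ (p : ℤ_[p]) ∣ e j) hj1' hj1
  have hK2 : ∀ j, K < j → (p : ℤ_[p]) ∣ e j := by
    intro j hj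
    by_cases h : j ≤ 2 * (mu + 1)
    · have h1 := Nat.findGreatest_is_greatest (P := fun j => ¬ (p : ℤ_[p]) ∣ e j) hj h
      exact not_not.1 h1
    · exact hbd j (by omega)
  have hker : ∀ x : ℤ_[p], (PadicInt.toZMod x : ZMod p) = 0 ↔ (p : ℤ_[p]) ∣ x := by
    intro x
    rw [← RingHom.mem_ker, PadicInt.ker_toZMod, PadicInt.maximalIdeal_eq_span_p,
      Ideal.mem_span_singleton]
  obtain ⟨Z, hZ1, hZ2⟩ := h.exists_subset_card_eq (K + 1)
  set m := Z.sup id + K with hm
  have hZm : ∀ n ∈ Z, n ≤ m := by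
    intro n hn
    have := Finset.le_sup (f := id) hn
    simp only [id] at this
    omega
  refine SML_poly (PadicInt.toZMod : ℤ_[p] →+* ZMod p) e K m (by omega)
    (fun h0 => hK1 ((hker _).1 h0)) (fun j hj => (hker _).2 (hK2 j hj))
    (Z.map ⟨fun n : ℕ => (n : ℤ_[p]), Nat.cast_injective⟩)
    (by rw [Finset.card_map, hZ2]) ?_
  intro a ha
  rw [Finset.mem_map] at ha
  obtain ⟨n, hn, rfl⟩ := ha
  have hn0 := hZ1 hn
  rw [Set.mem_setOf_eq] at hn0
  have hnm := hZm n hn
  simp only [Function.Embedding.coeFn_mk]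
  have key : (p : ℤ_[p]) ^ mu * (∑ j ∈ Finset.range (m + 1),
      Polynomial.C (e j) * descPochhammer ℤ_[p] j).eval (n : ℤ_[p]) = 0 := by
    rw [Polynomial.eval_finset_sum, Finset.mul_sum]
    have e1 : ∀ j ∈ Finset.range (m + 1),
        (p : ℤ_[p]) ^ mu * (Polynomial.C (e j) * descPochhammer ℤ_[p] j).eval (n : ℤ_[p]) =
          (((n.choose j : ℤ) * (p : ℤ) ^ j * c j : ℤ) : ℤ_[p]) := by
      intro j _
      rw [Polynomial.eval_mul, Polynomial.eval_C, descPochhammer_eval_eq_descFactorial,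
        Nat.descFactorial_eq_factorial_mul_choose]
      push_cast
      linear_combination (-(j.factorial : ℤ_[p]) * (n.choose j : ℤ_[p])) * he j +
        (n.choose j : ℤ_[p]) * (c j : ℤ_[p]) * ht1 j
    rw [Finset.sum_congr rfl e1, ← Int.cast_sum]
    have e2 : ∑ j ∈ Finset.range (m + 1), (n.choose j : ℤ) * (p : ℤ) ^ j * c j =
        ∑ j ∈ Finset.range (n + 1), (n.choose j : ℤ) * (p : ℤ) ^ j * c j := by
      symm
      apply Finset.sum_subset
      · intro j hj
        rw [Finset.mem_range] at hj ⊢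
        omega
      · intro j _ hj
        rw [Finset.mem_range] at hj
        rw [Nat.choose_eq_zero_of_lt (by omega), Nat.cast_zero, zero_mul, zero_mul]
    rw [e2, hn0, Int.cast_zero]
  exact (mul_eq_zero.1 key).resolve_left (pow_ne_zero mu hp0)

/-- For `A = 1 + p B`: `A ^ n = ∑_j (n choose j) p ^ j B ^ j`, so this follows from `sml_seq` with
`c j = ℓ ⬝ᵥ (B ^ j).mulVec v`. -/
theorem sml_mat {ι : Type} [Fintype ι] [DecidableEq ι] (p : ℕ) (hp : p.Prime) (h3 : 3 ≤ p)
    (A B : Matrix ι ι ℤ) (hA : A = 1 + (p : ℤ) • B) (l v : ι → ℤ)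
    (h : {n : ℕ | l ⬝ᵥ (A ^ n).mulVec v = 0}.Infinite) : ∀ n : ℕ, l ⬝ᵥ (A ^ n).mulVec v = 0 := by
  have hexp : ∀ n : ℕ, l ⬝ᵥ (A ^ n).mulVec v =
      ∑ j ∈ Finset.range (n + 1), (n.choose j : ℤ) * (p : ℤ) ^ j * (l ⬝ᵥ (B ^ j).mulVec v) := by
    intro n
    have h1 : A ^ n = ∑ j ∈ Finset.range (n + 1), ((n.choose j : ℤ) * (p : ℤ) ^ j) • B ^ j := by
      rw [hA, add_comm, (Commute.one_right _).add_pow]
      refine Finset.sum_congr rfl fun j _ => ?_
      rw [one_pow, mul_one, smul_pow, mul_smul, ← Int.cast_natCast (R := Matrix ι ι ℤ),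
        ← Int.cast_comm, ← zsmul_eq_mul]
    rw [h1, Matrix.sum_mulVec, dotProduct_sum]
    refine Finset.sum_congr rfl fun j _ => ?_
    rw [Matrix.smul_mulVec, dotProduct_smul, smul_eq_mul]
  have hc : ∀ j, l ⬝ᵥ (B ^ j).mulVec v = 0 := by
    refine sml_seq p hp h3 (fun j => l ⬝ᵥ (B ^ j).mulVec v) ?_
    refine h.mono fun n hn => ?_
    rw [Set.mem_setOf_eq] at hn ⊢
    rw [← hexp n]
    exact hn
  intro n
  rw [hexp n]
  refine Finset.sum_eq_zero fun j _ => ?_
  rw [hc j, mul_zero]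

end Pool.Agent.helper55.LR
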