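import Pool.Agent.helper55.LR.BDefs
import Pool.Agent.helper55.EV.Npc4

set_option autoImplicit false

/-!
# LRA-T4A: the subdivided development with an arbitrary angle
-/

namespace Pool.Agent.helper55.LR

open Pool.Agent.helper55.EV
open Pool.Agent.helper34.FJ2 Pool.Agent.helper34.FJ3
open scoped BigOperators

variable {G : Type} [Group G] (H : Fin 4 → Subgroup G) {α : ℝ}

theorem T4A_s {u v : TV4 H} (h : (u.1 = 3 ∧ v.1 = 1) ∨ (u.1 = 1 ∧ v.1 = 3)) :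
    alen4 H α u v = Real.sin α := by
  unfold alen4
  rcases h with ⟨h1, h2⟩ | ⟨h1, h2⟩
  · rw [if_pos (Or.inl h1), if_pos (Or.inr h2)]
  · rw [if_pos (Or.inr h2), if_pos (Or.inl h1)]

theorem T4A_c {u v : TV4 H} (h : (u.1 = 3 ∧ (v.1 = 0 ∨ v.1 = 2)) ∨ ((u.1 = 0 ∨ u.1 = 2) ∧ v.1 = 3)) :
    alen4 H α u v = Real.cos α := by
  unfold alen4
  rcases h with ⟨h1, h2 | h2⟩ | ⟨h1 | h1, h2⟩ <;> rw [h1, h2] <;> simp

theorem T4A_o {u v : TV4 H} (h : (u.1 = 1 ∧ (v.1 = 0 ∨ v.1 = 2)) ∨ ((u.1 = 0 ∨ u.1 = 2) ∧ v.1 = 1)) :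
    alen4 H α u v = 1 := by
  unfold alen4
  rcases h with ⟨h1, h2 | h2⟩ | ⟨h1 | h1, h2⟩ <;> rw [h1, h2] <;> simp

theorem T4A_types : ∀ x y z : Fin 4, (x ≠ y ∧ ¬ (x = 0 ∧ y = 2) ∧ ¬ (x = 2 ∧ y = 0)) →
    (y ≠ z ∧ ¬ (y = 0 ∧ z = 2) ∧ ¬ (y = 2 ∧ z = 0)) →
    (x ≠ z ∧ ¬ (x = 0 ∧ z = 2) ∧ ¬ (x = 2 ∧ z = 0)) →
    (x = 3 ∧ y = 1 ∧ (z = 0 ∨ z = 2)) ∨ (x = 3 ∧ (y = 0 ∨ y = 2) ∧ z = 1) ∨
    (x = 1 ∧ y = 3 ∧ (z = 0 ∨ z = 2)) ∨ (x = 1 ∧ (y = 0 ∨ y = 2) ∧ z = 3) ∨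
    ((x = 0 ∨ x = 2) ∧ y = 3 ∧ z = 1) ∨ ((x = 0 ∨ x = 2) ∧ y = 1 ∧ z = 3) := by
  intro x y z h1 h2 h3
  have hx : x = 0 ∨ x = 1 ∨ x = 2 ∨ x = 3 := by omega
  have hy : y = 0 ∨ y = 1 ∨ y = 2 ∨ y = 3 := by omega
  have hz : z = 0 ∨ z = 1 ∨ z = 2 ∨ z = 3 := by omega
  rcases hx with rfl | rfl | rfl | rfl <;> rcases hy with rfl | rfl | rfl | rfl <;>
    rcases hz with rfl | rfl | rfl | rfl <;> simp_all

theorem T4A_cases {u v w : TV4 H} (h : (tog4 H).tri u v w) :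
    (u.1 = 3 ∧ v.1 = 1 ∧ (w.1 = 0 ∨ w.1 = 2)) ∨ (u.1 = 3 ∧ (v.1 = 0 ∨ v.1 = 2) ∧ w.1 = 1) ∨
    (u.1 = 1 ∧ v.1 = 3 ∧ (w.1 = 0 ∨ w.1 = 2)) ∨ (u.1 = 1 ∧ (v.1 = 0 ∨ v.1 = 2) ∧ w.1 = 3) ∨
    ((u.1 = 0 ∨ u.1 = 2) ∧ v.1 = 3 ∧ w.1 = 1) ∨ ((u.1 = 0 ∨ u.1 = 2) ∧ v.1 = 1 ∧ w.1 = 3) := by
  obtain ⟨h1, h2, h3⟩ := NPC4_types H h
  exact T4A_types _ _ _ h1 h2 h3

theorem T4A_sin (h0 : 0 < α) (h4 : α ≤ Real.pi / 4) : 0 < Real.sin α :=
  Real.sin_pos_of_pos_of_lt_pi h0 (by linarith [Real.pi_pos])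

theorem T4A_cos (h0 : 0 < α) (h4 : α ≤ Real.pi / 4) : 0 < Real.cos α :=
  Real.cos_pos_of_mem_Ioo ⟨by linarith [Real.pi_pos], by linarith [Real.pi_pos]⟩

theorem T4A_sq : Real.sin α ^ 2 + Real.cos α ^ 2 = 1 := Real.sin_sq_add_cos_sq α

theorem T4A_arc3 : Real.arccos ((0 : ℝ) / (2 * Real.sin α * Real.cos α)) = Real.pi / 2 := by
  rw [zero_div, Real.arccos_zero]

theorem T4A_arcc (h0 : 0 < α) (h4 : α ≤ Real.pi / 4) : Real.arccos (Real.cos α) = α :=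
  Real.arccos_cos h0.le (by linarith [Real.pi_pos])

theorem T4A_arcs (h0 : 0 < α) (h4 : α ≤ Real.pi / 4) :
    Real.arccos (Real.sin α) = Real.pi / 2 - α := by
  rw [← Real.cos_pi_div_two_sub, Real.arccos_cos (by linarith) (by linarith)]

/-- a triangle has one vertex of type `3`, one of type `1`, and one of type `0` or `2`
(`NPC4_types` in `EV/Npc4.lean`); law of cosines for the right triangle `sin α, cos α, 1` -/
theorem corner4 (h0 : 0 < α) (h4 : α ≤ Real.pi / 4) (u v w : TV4 H) (h : (tog4 H).tri u v w) :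
    corner (alen4 H α) u v w =
      if u.1 = 3 then Real.pi / 2 else if u.1 = 1 then Real.pi / 2 - α else α := by
  have hs := T4A_sin h0 h4
  have hc := T4A_cos h0 h4
  have hq := T4A_sq (α := α)
  rcases T4A_cases H h with ⟨h1, h2, h3⟩ | ⟨h1, h2, h3⟩ | ⟨h1, h2, h3⟩ | ⟨h1, h2, h3⟩ |
    ⟨h1, h2, h3⟩ | ⟨h1, h2, h3⟩
  · rw [if_pos h1, corner, T4A_s H (Or.inl ⟨h1, h2⟩), T4A_c H (Or.inl ⟨h1, h3⟩),
      T4A_o H (Or.inl ⟨h2, h3⟩), show Real.sin α ^ 2 + Real.cos α ^ 2 - 1 ^ 2 = 0 by linarith,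
      zero_div, Real.arccos_zero]
  · rw [if_pos h1, corner, T4A_c H (Or.inl ⟨h1, h2⟩), T4A_s H (Or.inl ⟨h1, h3⟩),
      T4A_o H (Or.inr ⟨h2, h3⟩), show Real.cos α ^ 2 + Real.sin α ^ 2 - 1 ^ 2 = 0 by linarith,
      zero_div, Real.arccos_zero]
  · rw [if_neg (by rw [h1]; decide), if_pos h1, corner, T4A_s H (Or.inr ⟨h1, h2⟩),
      T4A_o H (Or.inl ⟨h1, h3⟩), T4A_c H (Or.inl ⟨h2, h3⟩),
      show (Real.sin α ^ 2 + 1 ^ 2 - Real.cos α ^ 2) / (2 * Real.sin α * 1) = Real.sin α by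
        rw [div_eq_iff (by positivity)]; nlinarith, T4A_arcs h0 h4]
  · rw [if_neg (by rw [h1]; decide), if_pos h1, corner, T4A_o H (Or.inl ⟨h1, h2⟩),
      T4A_s H (Or.inr ⟨h1, h3⟩), T4A_c H (Or.inr ⟨h2, h3⟩),
      show ((1 : ℝ) ^ 2 + Real.sin α ^ 2 - Real.cos α ^ 2) / (2 * 1 * Real.sin α) = Real.sin α by
        rw [div_eq_iff (by positivity)]; nlinarith, T4A_arcs h0 h4]
  · rw [if_neg (by rcases h1 with h1 | h1 <;> rw [h1] <;> decide),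
      if_neg (by rcases h1 with h1 | h1 <;> rw [h1] <;> decide), corner,
      T4A_c H (Or.inr ⟨h1, h2⟩), T4A_o H (Or.inr ⟨h1, h3⟩), T4A_s H (Or.inl ⟨h2, h3⟩),
      show (Real.cos α ^ 2 + 1 ^ 2 - Real.sin α ^ 2) / (2 * Real.cos α * 1) = Real.cos α by
        rw [div_eq_iff (by positivity)]; nlinarith, T4A_arcc h0 h4]
  · rw [if_neg (by rcases h1 with h1 | h1 <;> rw [h1] <;> decide),
      if_neg (by rcases h1 with h1 | h1 <;> rw [h1] <;> decide), corner,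
      T4A_o H (Or.inr ⟨h1, h2⟩), T4A_c H (Or.inr ⟨h1, h3⟩), T4A_s H (Or.inr ⟨h2, h3⟩),
      show ((1 : ℝ) ^ 2 + Real.cos α ^ 2 - Real.sin α ^ 2) / (2 * 1 * Real.cos α) = Real.cos α by
        rw [div_eq_iff (by positivity)]; nlinarith, T4A_arcc h0 h4]

theorem fin4 (α : ℝ) : {r : ℝ | ∃ a b, (tog4 H).edge a b ∧ alen4 H α a b = r}.Finite := by
  refine (Set.toFinite ({Real.sin α, Real.cos α, 1} : Set ℝ)).subset ?_
  rintro r ⟨a, b, -, rfl⟩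
  unfold alen4
  split_ifs
  · exact Or.inl rfl
  · exact Or.inr (Or.inl rfl)
  · exact Or.inr (Or.inr rfl)

theorem T4A_tele (f : ℕ → G) (s k : ℕ) :
    ((List.range k).map fun i => ((f (s + 2 * i))⁻¹ * f (s + 2 * i + 1)) *
      ((f (s + 2 * i + 1))⁻¹ * f (s + 2 * i + 2))).prod = (f s)⁻¹ * f (s + 2 * k) := by
  induction k with
  | zero => simp
  | succ k ih =>
    rw [List.range_succ, List.map_append, List.prod_append, ih]
    simp only [List.map_cons, List.map_nil, List.prod_cons, List.prod_nil]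
    have e : s + 2 * (k + 1) = s + 2 * k + 2 := by ring
    rw [e]
    group

/-- the links of the vertices of the types `0` and `2` -/
theorem T4A_link02 {a : TV4 H} {n : ℕ} (C : NPC4_Cyc H a n) (ha : a.1 = 0 ∨ a.1 = 2) :
    ∃ k, n = 2 * k ∧ 0 < k ∧ Alt (H a.1 ⊓ H 1) (H 3) k := by
  have h : ∀ i, ((C.v i).1 = 1 ∧ (C.v (i + 1)).1 = 3) ∨
      ((C.v i).1 = 3 ∧ (C.v (i + 1)).1 = 1) := fun i =>
    NPC4_dec02 _ _ _ ha (C.oka i) (C.oka (i + 1)) (C.ok i)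
  have h13 : ∀ i, (C.v i).1 = 1 → (C.v (i + 1)).1 = 3 := fun i hi => by
    rcases h i with h1 | h1
    · exact h1.2
    · exact absurd (hi.symm.trans h1.1) (by decide)
  have h31 : ∀ i, (C.v i).1 = 3 → (C.v (i + 1)).1 = 1 := fun i hi => by
    rcases h i with h1 | h1
    · exact absurd (hi.symm.trans h1.1) (by decide)
    · exact h1.2
  obtain ⟨s, hs⟩ : ∃ s, (C.v s).1 = 3 := by
    rcases h 0 with h1 | h1
    · exact ⟨0 + 1, h1.2⟩
    · exact ⟨0, h1.1⟩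
  have ev : ∀ i, (C.v (s + 2 * i)).1 = 3 := by
    intro i
    induction i with
    | zero => exact hs
    | succ i ih =>
      have h1 := h13 _ (h31 _ ih)
      exact h1
  have od : ∀ i, (C.v (s + 2 * i + 1)).1 = 1 := fun i => h31 _ (ev i)
  -- the syllables
  have hA : ∀ i, (C.v i).1 = 3 → (C.g i)⁻¹ * C.g (i + 1) ∈ H a.1 ⊓ H 1 ∧
      (C.g i)⁻¹ * C.g (i + 1) ∉ H 3 := fun i hi => by
    have f1 := h31 i hi
    have f2 := h13 _ f1
    refine ⟨⟨C.xa i, ?_⟩, ?_⟩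
    · have := C.xn i
      rwa [f1] at this
    · have := C.xo i (f2.trans hi.symm)
      rwa [hi] at this
  have hB : ∀ i, (C.v i).1 = 1 → (C.g i)⁻¹ * C.g (i + 1) ∈ H 3 ∧
      (C.g i)⁻¹ * C.g (i + 1) ∉ H a.1 ⊓ H 1 := fun i hi => by
    have f1 := h13 i hi
    have f2 := h31 _ f1
    refine ⟨?_, ?_⟩
    · have := C.xn i
      rwa [f1] at this
    · intro h'
      have := C.xo i (f2.trans hi.symm)
      rw [hi] at this
      exact this h'.2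
  have h3 := C.three
  rcases Nat.even_or_odd' n with ⟨k, hk | hk⟩
  · refine ⟨k, hk, by omega, fun i => (C.g (s + 2 * i))⁻¹ * C.g (s + 2 * i + 1),
      fun i => (C.g (s + 2 * i + 1))⁻¹ * C.g (s + 2 * i + 2), ?_, ?_⟩
    · intro i _
      exact ⟨(hA _ (ev i)).1, (hA _ (ev i)).2, (hB _ (od i)).1, (hB _ (od i)).2⟩
    · rw [T4A_tele, ← hk, C.gper, inv_mul_cancel]
  · exfalso
    have h1 := od k
    rw [show s + 2 * k + 1 = s + n by omega, C.per, hs] at h1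
    exact absurd h1 (by decide)

/-- Adapt `tog4_npc` (`EV/Npc4.lean`), where `α = π / 4`; `NPC4_exists`, `NPC4_link3` and
`NPC4_link1` can be used as they are: a simple closed path in the link of a vertex of type `3` has at
least `4` edges with the angle `π / 2`, and at a vertex of type `1` it has at least `8` edges with the
angle `π / 2 - α ≥ π / 4`. At a vertex of type `0` the link is the bipartite graph of the cosets of
`H 0 ⊓ H 1` and of `H 3` (`= H 0 ⊓ H 2`) in (a conjugate of) `H 0`; a simple closed path has `2 n`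
edges and gives an alternating relation with `2 n` syllables between `H 0 ⊓ H 1` and `H 3` (start at
a suitable vertex of the path, compare `NPC4_link02`), so its length is `2 n α ≥ 2 π`. The same for
the type `2`. -/
theorem npc4 (h3 : H 3 = H 0 ⊓ H 2) (h0 : 0 < α) (h4 : α ≤ Real.pi / 4)
    (hA : ∀ n : ℕ, 0 < n → Alt (H 0 ⊓ H 1) (H 3) n → Real.pi ≤ n * α)
    (hB : ∀ n : ℕ, 0 < n → Alt (H 2 ⊓ H 1) (H 3) n → Real.pi ≤ n * α) :
    NPC (tog4 H) (alen4 H α) where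
  symm u v := by
    unfold alen4
    simp only [or_comm]
  pos u v _ := by
    unfold alen4
    split_ifs
    · exact T4A_sin h0 h4
    · exact T4A_cos h0 h4
    · exact one_pos
  triangle u v w h := by
    have hs := T4A_sin h0 h4
    have hc := T4A_cos h0 h4
    have hq := T4A_sq (α := α)
    have hs1 : Real.sin α < 1 := by nlinarith [mul_pos hc hc]
    have hc1 : Real.cos α < 1 := by nlinarith [mul_pos hs hs]
    have h5 : 1 < Real.sin α + Real.cos α := by nlinarith [mul_pos hs hc]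
    rcases T4A_cases H h with ⟨h1, h2, h3⟩ | ⟨h1, h2, h3⟩ | ⟨h1, h2, h3⟩ | ⟨h1, h2, h3⟩ |
      ⟨h1, h2, h3⟩ | ⟨h1, h2, h3⟩
    · rw [T4A_s H (Or.inl ⟨h1, h2⟩), T4A_c H (Or.inl ⟨h1, h3⟩), T4A_o H (Or.inl ⟨h2, h3⟩)]
      linarith
    · rw [T4A_c H (Or.inl ⟨h1, h2⟩), T4A_s H (Or.inl ⟨h1, h3⟩), T4A_o H (Or.inr ⟨h2, h3⟩)]
      linarith
    · rw [T4A_s H (Or.inr ⟨h1, h2⟩), T4A_o H (Or.inl ⟨h1, h3⟩), T4A_c H (Or.inl ⟨h2, h3⟩)]
      linarith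
    · rw [T4A_o H (Or.inl ⟨h1, h2⟩), T4A_s H (Or.inr ⟨h1, h3⟩), T4A_c H (Or.inr ⟨h2, h3⟩)]
      linarith
    · rw [T4A_c H (Or.inr ⟨h1, h2⟩), T4A_o H (Or.inr ⟨h1, h3⟩), T4A_s H (Or.inl ⟨h2, h3⟩)]
      linarith
    · rw [T4A_o H (Or.inr ⟨h1, h2⟩), T4A_c H (Or.inr ⟨h1, h3⟩), T4A_s H (Or.inr ⟨h2, h3⟩)]
      linarith
  link a n b hn hb hinj htri := by
    obtain ⟨C⟩ := NPC4_exists H hn hb hinj htri
    have hsum : ∑ i ∈ Finset.range n, corner (alen4 H α) a (b i) (b (i + 1)) =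
        ∑ _i ∈ Finset.range n,
          (if a.1 = 3 then Real.pi / 2 else if a.1 = 1 then Real.pi / 2 - α else α) :=
      Finset.sum_congr rfl fun i hi => corner4 H h0 h4 _ _ _ (htri i (Finset.mem_range.1 hi))
    rw [hsum, Finset.sum_const, Finset.card_range, nsmul_eq_mul]
    have hpi := Real.pi_pos
    have key : ∀ t : Fin 4, t = 3 ∨ (t = 0 ∨ t = 2) ∨ t = 1 := by decide
    rcases key a.1 with h | h | h
    · have h5 : (4 : ℝ) ≤ n := by exact_mod_cast NPC4_link3 H C h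
      rw [if_pos h]
      nlinarith
    · obtain ⟨k, rfl, hk, hAlt⟩ := T4A_link02 H C h
      have h5 : Real.pi ≤ k * α := by
        rcases h with h | h
        · rw [h] at hAlt
          exact hA k hk hAlt
        · rw [h] at hAlt
          exact hB k hk hAlt
      rw [if_neg (by rcases h with h | h <;> rw [h] <;> decide),
        if_neg (by rcases h with h | h <;> rw [h] <;> decide)]
      push_cast
      linarith
    · have h5 : (8 : ℝ) ≤ n := by exact_mod_cast NPC4_link1 H C h h3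
      rw [if_neg (by rw [h]; decide), if_pos h]
      nlinarith

end Pool.Agent.helper55.LR
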