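import Pool.Agent.helper55.LR.T4A
import Pool.Agent.helper55.LR.PolyG
import Pool.Agent.helper55.EV.TG84

set_option autoImplicit false

/-!
# LRA-T4G: alternating relations from the geometry of the subdivided development
-/

namespace Pool.Agent.helper55.LR

open Pool.Agent.helper55.EV
open Pool.Agent.helper34.FJ2 Pool.Agent.helper34.FJ3
open scoped BigOperators

/-- certificates at the vertices of type `3` -/
theorem T4G_far3 {G : Type} [Group G] (H : Fin 4 → Subgroup G) {α : ℝ} (h0 : 0 < α)
    (h4 : α ≤ Real.pi / 4) (x y z : G) (h : y⁻¹ * z ∉ H 1) :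
    Far (tog4 H) (alen4 H α) (tv4 H 3 x) (tv4 H 1 y) (tv4 H 1 z) Real.pi := by
  classical
  refine ⟨fun v => if v = tv4 H 1 y then 0 else if v.1 = 1 then Real.pi else Real.pi / 2, ?_, ?_⟩
  · intro a b hab
    have hc := corner4 H h0 h4 _ _ _ hab
    rw [hc]
    obtain ⟨g, t, t', t'', h1, h2, h3, e1, e2, e3⟩ := hab
    have et : t = 3 := (congrArg Sigma.fst e1).symm
    subst et
    have ha : a.1 = t' := congrArg Sigma.fst e2
    have hb : b.1 = t'' := congrArg Sigma.fst e3
    have hp : (tv4 H 3 x).1 = 3 := rfl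
    rw [if_pos hp]
    have key : (t' = 1 ∧ t'' ≠ 1) ∨ (t' ≠ 1 ∧ t'' = 1) := by
      have h1' := h1; have h2' := h2; have h3' := h3
      unfold Ok4 at h1' h2' h3'
      revert h1' h2' h3'
      fin_cases t' <;> fin_cases t'' <;> simp
    have hpi := Real.pi_pos
    rcases key with ⟨k1, k2⟩ | ⟨k1, k2⟩
    · have hb1 : b ≠ tv4 H 1 y := by
        intro hbb
        exact k2 (hb.symm.trans (congrArg Sigma.fst hbb))
      have hb2 : ¬ (b.1 = 1) := by rw [hb]; exact k2
      simp only [if_neg hb1, if_neg hb2]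
      by_cases hay : a = tv4 H 1 y
      · simp only [if_pos hay]
        rw [abs_le]; constructor <;> linarith
      · have ha2 : a.1 = 1 := by rw [ha]; exact k1
        simp only [if_neg hay, if_pos ha2]
        rw [abs_le]; constructor <;> linarith
    · have ha1 : a ≠ tv4 H 1 y := by
        intro hbb
        exact k1 (ha.symm.trans (congrArg Sigma.fst hbb))
      have ha2 : ¬ (a.1 = 1) := by rw [ha]; exact k1
      simp only [if_neg ha1, if_neg ha2]
      by_cases hby : b = tv4 H 1 y
      · simp only [if_pos hby]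
        rw [abs_le]; constructor <;> linarith
      · have hb2 : b.1 = 1 := by rw [hb]; exact k2
        simp only [if_neg hby, if_pos hb2]
        rw [abs_le]; constructor <;> linarith
  · have hz : tv4 H 1 z ≠ tv4 H 1 y := by
      intro hzz
      exact h ((TG84_tv4_eq H 1 y z).1 hzz.symm)
    have h1 : (tv4 H 1 z).1 = 1 := rfl
    simp only [if_true, if_neg hz, if_pos h1]
    rw [zero_sub, abs_neg, abs_of_pos Real.pi_pos]

/-- certificates at the vertices of type `1` -/
theorem T4G_far1 {G : Type} [Group G] (H : Fin 4 → Subgroup G) {α : ℝ} (h0 : 0 < α)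
    (h4 : α ≤ Real.pi / 4) (x y z : G) (h : y⁻¹ * z ∉ H 3) :
    Far (tog4 H) (alen4 H α) (tv4 H 1 x) (tv4 H 3 y) (tv4 H 3 z) (Real.pi - 2 * α) := by
  classical
  refine ⟨fun v => if v = tv4 H 3 y then 0 else if v.1 = 3 then Real.pi - 2 * α
    else Real.pi / 2 - α, ?_, ?_⟩
  · intro a b hab
    have hc := corner4 H h0 h4 _ _ _ hab
    rw [hc]
    obtain ⟨g, t, t', t'', h1, h2, h3, e1, e2, e3⟩ := hab
    have et : t = 1 := (congrArg Sigma.fst e1).symm
    subst et
    have ha : a.1 = t' := congrArg Sigma.fst e2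
    have hb : b.1 = t'' := congrArg Sigma.fst e3
    have hp : ¬ ((tv4 H 1 x).1 = 3) := by
      change ¬ ((1 : Fin 4) = 3)
      decide
    have hp1 : (tv4 H 1 x).1 = 1 := rfl
    rw [if_neg hp, if_pos hp1]
    have key : (t' = 3 ∧ t'' ≠ 3) ∨ (t' ≠ 3 ∧ t'' = 3) := by
      have h1' := h1; have h2' := h2; have h3' := h3
      unfold Ok4 at h1' h2' h3'
      revert h1' h2' h3'
      fin_cases t' <;> fin_cases t'' <;> simp
    have hpi := Real.pi_pos
    rcases key with ⟨k1, k2⟩ | ⟨k1, k2⟩
    · have hb1 : b ≠ tv4 H 3 y := by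
        intro hbb
        exact k2 (hb.symm.trans (congrArg Sigma.fst hbb))
      have hb2 : ¬ (b.1 = 3) := by rw [hb]; exact k2
      simp only [if_neg hb1, if_neg hb2]
      by_cases hay : a = tv4 H 3 y
      · simp only [if_pos hay]
        rw [abs_le]; constructor <;> linarith
      · have ha2 : a.1 = 3 := by rw [ha]; exact k1
        simp only [if_neg hay, if_pos ha2]
        rw [abs_le]; constructor <;> linarith
    · have ha1 : a ≠ tv4 H 3 y := by
        intro hbb
        exact k1 (ha.symm.trans (congrArg Sigma.fst hbb))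
      have ha2 : ¬ (a.1 = 3) := by rw [ha]; exact k1
      simp only [if_neg ha1, if_neg ha2]
      by_cases hby : b = tv4 H 3 y
      · simp only [if_pos hby]
        rw [abs_le]; constructor <;> linarith
      · have hb2 : b.1 = 3 := by rw [hb]; exact k2
        simp only [if_neg hby, if_pos hb2]
        rw [abs_le]; constructor <;> linarith
  · have hz : tv4 H 3 z ≠ tv4 H 3 y := by
      intro hzz
      exact h ((TG84_tv4_eq H 3 y z).1 hzz.symm)
    have h1 : (tv4 H 3 z).1 = 3 := rfl
    have hpi := Real.pi_pos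
    simp only [if_true, if_neg hz, if_pos h1]
    rw [zero_sub, abs_neg, abs_of_nonneg (by linarith)]

/-- the partial products `a_0 b_0 ⋯ a_(i-1) b_(i-1)` -/
def T4G_g {G : Type} [Group G] (a b : ℕ → G) (i : ℕ) : G :=
  ((List.range i).map fun i => a i * b i).prod

theorem T4G_g_zero {G : Type} [Group G] (a b : ℕ → G) : T4G_g a b 0 = 1 := rfl

theorem T4G_g_succ {G : Type} [Group G] (a b : ℕ → G) (i : ℕ) :
    T4G_g a b (i + 1) = T4G_g a b i * (a i * b i) := by
  unfold T4G_g
  rw [List.range_succ, List.map_append, List.prod_append, List.map_singleton, List.prod_singleton]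

/-- the vertices of the path -/
def T4G_p {G : Type} [Group G] (H : Fin 4 → Subgroup G) (a b : ℕ → G) (j : ℕ) : TV4 H :=
  if j % 2 = 0 then tv4 H 1 (T4G_g a b (j / 2)) else tv4 H 3 (T4G_g a b (j / 2) * a (j / 2))

theorem T4G_p_even {G : Type} [Group G] (H : Fin 4 → Subgroup G) (a b : ℕ → G) (k : ℕ) :
    T4G_p H a b (2 * k) = tv4 H 1 (T4G_g a b k) := by
  unfold T4G_p
  rw [if_pos (by omega), Nat.mul_div_cancel_left k (by norm_num)]

theorem T4G_p_odd {G : Type} [Group G] (H : Fin 4 → Subgroup G) (a b : ℕ → G) (k : ℕ) :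
    T4G_p H a b (2 * k + 1) = tv4 H 3 (T4G_g a b k * a k) := by
  unfold T4G_p
  have h1 : (2 * k + 1) / 2 = k := by omega
  rw [if_neg (by omega), h1]

/-- the angles -/
noncomputable def T4G_t (α : ℝ) (j : ℕ) : ℝ :=
  if j % 2 = 0 then Real.pi - 2 * α else Real.pi

theorem T4G_t_even (α : ℝ) (k : ℕ) : T4G_t α (2 * k) = Real.pi - 2 * α := by
  unfold T4G_t
  rw [if_pos (by omega)]

theorem T4G_t_odd (α : ℝ) (k : ℕ) : T4G_t α (2 * k + 1) = Real.pi := by
  unfold T4G_t
  rw [if_neg (by omega)]

theorem T4G_sum (α : ℝ) (n : ℕ) :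
    ∑ i ∈ Finset.range (2 * n), T4G_t α i = n * (2 * Real.pi - 2 * α) := by
  induction n with
  | zero => simp
  | succ n ih =>
    have h1 : 2 * (n + 1) = 2 * n + 1 + 1 := by ring
    rw [h1, Finset.sum_range_succ, Finset.sum_range_succ, ih, T4G_t_even, T4G_t_odd]
    push_cast
    ring

/-- Let `a_0 b_0 ⋯ a_(n-1) b_(n-1) = 1` be an alternating relation between `H 1` and `H 3`,
`g_i = a_0 b_0 ⋯ a_(i-1) b_(i-1)`, and consider the closed edge path `p_(2i) = g_i H_1`,
`p_(2i+1) = g_i a_i H_3` with `N = 2 n` vertices (compare `LR/Gir.lean` and `EV/TG84.lean`). At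
`g_i H_1` the two neighbours `g_i H_3`, `g_i a_i H_3` are different neighbours of type `3`, and the
link distance is at least `2 (π / 2 - α) = π - 2 α` (certificate as in `TG84_far1` with
`π / 2 - α` instead of `π / 4`); at `g_i a_i H_3` the neighbours `g_i a_i H_1`, `g_i a_i b_i H_1` are
different neighbours of type `1`, with distance at least `π` (`TG84_far3`). By `poly`,
`n (π - 2 α) + n π ≤ (2 n - 2) π`, so `π ≤ n α`. -/
theorem alt_angle4 {G : Type} [Group G] (H : Fin 4 → Subgroup G) {α : ℝ} (h0 : 0 < α)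
    (h4 : α ≤ Real.pi / 4) (hs : SimplyConnected (tog4 H)) (hn : NPC (tog4 H) (alen4 H α))
    (n : ℕ) (hn0 : 0 < n) (h : Alt (H 1) (H 3) n) : Real.pi ≤ n * α := by
  obtain ⟨a, b, hab, hrel⟩ := h
  have hgn : T4G_g a b n = 1 := hrel
  have hpi := Real.pi_pos
  have ht : ∀ i, 0 ≤ T4G_t α i ∧ T4G_t α i ≤ Real.pi := by
    intro i
    unfold T4G_t
    split_ifs <;> constructor <;> linarith
  have hmain := poly (tog4 H) (alen4 H α) hs hn (fin4 H α) (2 * n) (by omega) (T4G_p H a b)
    (by
      have e1 := T4G_p_even H a b n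
      have e2 := T4G_p_even H a b 0
      rw [hgn] at e1
      rw [Nat.mul_zero, T4G_g_zero] at e2
      rw [e1, e2])
    (by
      intro i hi
      obtain ⟨k, hk | hk⟩ := Nat.even_or_odd' i
      · have hkn : k < n := by omega
        obtain ⟨ha, ha', hb, hb'⟩ := hab k hkn
        rw [hk, T4G_p_even, T4G_p_odd]
        refine TG84_edge13 H _ _ (Or.inl ?_)
        rwa [inv_mul_cancel_left]
      · have hkn : k < n := by omega
        obtain ⟨ha, ha', hb, hb'⟩ := hab k hkn
        have e1 : 2 * k + 1 + 1 = 2 * (k + 1) := by ring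
        rw [hk, T4G_p_odd, e1, T4G_p_even]
        refine TG84_edge31 H _ _ (Or.inr ?_)
        have e2 : (T4G_g a b (k + 1))⁻¹ * (T4G_g a b k * a k) = (b k)⁻¹ := by
          rw [T4G_g_succ]
          group
        rw [e2]
        exact inv_mem hb)
    (T4G_t α) (fun i _ => (ht i).1) (fun i _ => (ht i).2)
    (by
      intro i hi
      obtain ⟨k, hk | hk⟩ := Nat.even_or_odd' i
      · have hkn : k < n := by omega
        obtain ⟨ha, ha', hb, hb'⟩ := hab k hkn
        have e1 : 2 * k + 2 = 2 * (k + 1) := by ring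
        rw [hk, T4G_p_odd, T4G_p_even, e1, T4G_p_even, T4G_t_odd]
        apply T4G_far3 H h0 h4
        have e2 : (T4G_g a b k)⁻¹ * T4G_g a b (k + 1) = a k * b k := by
          rw [T4G_g_succ]
          group
        rw [e2]
        intro h
        exact hb' ((Subgroup.mul_mem_cancel_left _ ha).1 h)
      · have hkn : k + 1 < n := by omega
        obtain ⟨ha, ha', hb, hb'⟩ := hab k (by omega)
        obtain ⟨ha2, ha2', hb2, hb2'⟩ := hab (k + 1) hkn
        have e1 : 2 * k + 1 + 1 = 2 * (k + 1) := by ring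
        have e3 : 2 * k + 1 + 2 = 2 * (k + 1) + 1 := by ring
        rw [hk, T4G_p_odd, e1, T4G_p_even, e3, T4G_p_odd, T4G_t_even]
        apply T4G_far1 H h0 h4
        have e2 : (T4G_g a b k * a k)⁻¹ * (T4G_g a b (k + 1) * a (k + 1)) = b k * a (k + 1) := by
          rw [T4G_g_succ]
          group
        rw [e2]
        intro h
        exact ha2' ((Subgroup.mul_mem_cancel_left _ hb).1 h))
    (by
      obtain ⟨k, rfl⟩ : ∃ k, n = k + 1 := ⟨n - 1, by omega⟩
      obtain ⟨ha, ha', hb, hb'⟩ := hab k (by omega)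
      obtain ⟨ha2, ha2', hb2, hb2'⟩ := hab 0 (by omega)
      have e1 : 2 * (k + 1) - 1 = 2 * k + 1 := by omega
      have e2 := T4G_p_even H a b 0
      have e3 := T4G_p_odd H a b 0
      have e4 := T4G_t_even α 0
      rw [Nat.mul_zero] at e2 e3 e4
      rw [Nat.zero_add] at e3
      rw [e1, T4G_p_odd, e2, e3, e4]
      apply T4G_far1 H h0 h4
      have e5 : (T4G_g a b k * a k)⁻¹ = b k := by
        have h1 : T4G_g a b k * a k * b k = 1 := by
          rw [← hgn, T4G_g_succ]
          group
        exact inv_eq_of_mul_eq_one_right h1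
      rw [e5, T4G_g_zero, one_mul]
      intro h
      exact ha2' ((Subgroup.mul_mem_cancel_left _ hb).1 h))
  rw [T4G_sum] at hmain
  push_cast at hmain
  linarith

end Pool.Agent.helper55.LR
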