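import Pool.Agent.helper55.LR.TDefs
import Pool.Agent.helper55.LR.Euc

set_option autoImplicit false

/-!
# LRA-TOGA: triangles of groups with arbitrary angles
-/

namespace Pool.Agent.helper55.LR

open Pool.Agent.helper55.EV
open Pool.Agent.helper34.FJ2 Pool.Agent.helper34.FJ3
open scoped BigOperators

variable {G : Type} [Group G] (H : Fin 3 → Subgroup G) {α : Fin 3 → ℝ}

theorem TOGA_third : ∀ s t r : Fin 3, s ≠ t → t ≠ r → s ≠ r → -(s + t) = r := by
  decide

theorem TOGA_alen (α : Fin 3 → ℝ) (s t : Fin 3) (g h : G) :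
    alen H α (tv H s g) (tv H t h) = Real.sin (α (-(s + t))) := rfl

theorem TOGA_sum (hα : Ang α) (s t r : Fin 3) (h1 : s ≠ t) (h2 : t ≠ r) (h3 : s ≠ r) :
    α s + α t + α r = Real.pi := by
  have h := hα.sum
  refine NPC_perm (fun s t r => α s + α t + α r = Real.pi) ?_ ?_ ?_ ?_ ?_ ?_ s t r h1 h2 h3 <;>
    linarith

theorem TOGA_lt (hα : Ang α) (t : Fin 3) : α t < Real.pi := by
  have h := hα.le t
  have hpi := Real.pi_pos
  linarith

theorem TOGA_sin (hα : Ang α) (t : Fin 3) : 0 < Real.sin (α t) :=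
  Real.sin_pos_of_pos_of_lt_pi (hα.pos t) (TOGA_lt hα t)

theorem TOGA_cos (hα : Ang α) (t : Fin 3) : Real.cos (α t) < 1 := by
  have h1 := Real.cos_lt_cos_of_nonneg_of_le_pi_div_two le_rfl (hα.le t) (hα.pos t)
  rwa [Real.cos_zero] at h1

/-- the angle at the first vertex: `corner` is `arccos` of the expression of the law of cosines, use
`sin_law` and `Real.arccos_cos` -/
theorem alen_corner (hα : Ang α) (u v w : TV H) (h : (tog H).tri u v w) :
    corner (alen H α) u v w = α u.1 := by
  obtain ⟨g, t, t', t'', h1, h2, h3, rfl, rfl, rfl⟩ := h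
  change Real.arccos ((Real.sin (α (-(t + t'))) ^ 2 + Real.sin (α (-(t + t''))) ^ 2 -
    Real.sin (α (-(t' + t''))) ^ 2) /
      (2 * Real.sin (α (-(t + t'))) * Real.sin (α (-(t + t''))))) = α t
  rw [TOGA_third t t' t'' h1 h2 h3, TOGA_third t t'' t' h3 h2.symm h1,
    TOGA_third t' t'' t h2 h3.symm h1.symm,
    sin_law (TOGA_sum hα t'' t' t h2.symm h1.symm h3.symm)]
  have s1 := TOGA_sin hα t''
  have s2 := TOGA_sin hα t'
  rw [mul_div_cancel_left₀ _ (by positivity), Real.arccos_cos (hα.pos t).le (TOGA_lt hα t).le]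

theorem alen_fin (α : Fin 3 → ℝ) :
    {r : ℝ | ∃ a b, (tog H).edge a b ∧ alen H α a b = r}.Finite := by
  refine Set.Finite.subset (Set.finite_range fun t : Fin 3 => Real.sin (α t)) ?_
  rintro r ⟨a, b, -, rfl⟩
  exact ⟨-(a.1 + b.1), rfl⟩

theorem alen_acts (α : Fin 3 → ℝ) : ActsIso G (tog H) (alen H α) where
  edge := by
    rintro k a b ⟨g, t, t', h, rfl, rfl⟩
    exact ⟨k * g, t, t', h, rfl, rfl⟩
  tri := by
    rintro k a b c ⟨g, t, t', t'', h, h', h'', rfl, rfl, rfl⟩
    exact ⟨k * g, t, t', t'', h, h', h'', rfl, rfl, rfl⟩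
  len := fun _ _ _ _ => rfl

theorem TOGA_tele (f : ℕ → G) (k : ℕ) :
    ((List.range k).map fun i => ((f (2 * i))⁻¹ * f (2 * i + 1)) *
      ((f (2 * i + 1))⁻¹ * f (2 * i + 2))).prod = (f 0)⁻¹ * f (2 * k) := by
  induction k with
  | zero => simp
  | succ k ih =>
    rw [List.range_succ, List.map_append, List.prod_append, ih]
    simp only [List.map_cons, List.map_nil, List.prod_cons, List.prod_nil]
    have e : 2 * (k + 1) = 2 * k + 2 := by ring
    rw [e]
    group

variable {H}

/-- a simple closed path of length `2 k` in the link gives an alternating relation -/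
theorem TOGA_rel {a : TV H} {k : ℕ} {b : ℕ → TV H} (hk : 2 ≤ k) (hb : b (2 * k) = b 0)
    (hinj : ∀ i j, i < 2 * k → j < 2 * k → b i = b j → i = j)
    (htri : ∀ i, i < 2 * k → (tog H).tri a (b i) (b (i + 1))) :
    Alt (H a.1 ⊓ H (b 1).1) (H a.1 ⊓ H (b 0).1) k := by
  have hex : ∀ i, ∃ g : G, (i < 2 * k → a = tv H a.1 g ∧ b i = tv H (b i).1 g ∧
      b (i + 1) = tv H (b (i + 1)).1 g) := by
    intro i
    by_cases hi : i < 2 * k
    · obtain ⟨g, hg⟩ := NPC_tri (htri i hi)
      exact ⟨g, fun _ => hg⟩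
    · exact ⟨1, fun h => absurd h hi⟩
  choose g hg using hex
  set f : ℕ → G := fun i => if i < 2 * k then g i else g 0 with hf
  have f1 : ∀ i, i < 2 * k → f i = g i := fun i hi => if_pos hi
  have f2 : f (2 * k) = g 0 := if_neg (lt_irrefl _)
  have h0 := hg 0 (by omega)
  -- the vertex and the points of the path in terms of `f`
  have fa : ∀ i, i ≤ 2 * k → a = tv H a.1 (f i) := by
    intro i hi
    rcases Nat.lt_or_ge i (2 * k) with h | h
    · rw [f1 i h]
      exact (hg i h).1
    · have : i = 2 * k := by omega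
      subst this
      rw [f2]
      exact h0.1
  have fb : ∀ i, i ≤ 2 * k → b i = tv H (b i).1 (f i) := by
    intro i hi
    rcases Nat.lt_or_ge i (2 * k) with h | h
    · rw [f1 i h]
      exact (hg i h).2.1
    · have : i = 2 * k := by omega
      subst this
      rw [f2, hb]
      exact h0.2.1
  have fb' : ∀ i, i < 2 * k → b (i + 1) = tv H (b (i + 1)).1 (f i) := by
    intro i hi
    rw [f1 i hi]
    exact (hg i hi).2.2
  -- membership
  have m1 : ∀ i, i < 2 * k → (f i)⁻¹ * f (i + 1) ∈ H a.1 := fun i hi =>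
    NPC_mem (fa i (by omega)) (fa (i + 1) (by omega))
  have m2 : ∀ i, i < 2 * k → (f i)⁻¹ * f (i + 1) ∈ H (b (i + 1)).1 := fun i hi =>
    NPC_mem (fb' i hi) (fb (i + 1) (by omega))
  have ty : ∀ i, i < 2 * k → i + 2 ≤ 2 * k → (b (i + 2)).1 = (b i).1 := by
    intro i hi hj
    have h1 := NPC_ty (htri i hi)
    have h2 := NPC_ty (htri (i + 1) (by omega))
    exact NPC_third a.1 (b i).1 (b (i + 1)).1 (b (i + 2)).1 h1.1 h1.2.2 h2.2.2 h1.2.1 h2.2.1
  have ev : ∀ i, i ≤ k → (b (2 * i)).1 = (b 0).1 := fun i hi => (NPC_alt htri i).1 (by omega)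
  have od : ∀ i, i < k → (b (2 * i + 1)).1 = (b 1).1 := fun i hi =>
    (NPC_alt htri i).2 (by omega)
  -- no membership
  have m3 : ∀ i, i < 2 * k → (f i)⁻¹ * f (i + 1) ∉ H (b i).1 := by
    intro i hi hmem
    by_cases hlast : i + 1 = 2 * k
    · -- the last step
      have h1 : b 1 = tv H (b i).1 (f (i + 1)) := by
        have h2 := fb' 0 (by omega)
        rw [f1 0 (by omega), zero_add] at h2
        have h3 : (b i).1 = (b 1).1 := by
          have h4 := od (k - 1) (by omega)
          have h5 : 2 * (k - 1) + 1 = i := by omega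
          rw [h5] at h4
          exact h4
        rw [hlast, f2, h3]
        exact h2
      have h2 := NPC_eq (fb i (by omega)) h1 hmem
      have h3 := hinj i 1 hi (by omega) h2
      omega
    · have h1 : b (i + 2) = tv H (b i).1 (f (i + 1)) := by
        have h2 := fb' (i + 1) (by omega)
        rw [show i + 1 + 1 = i + 2 from rfl, ty i hi (by omega)] at h2
        exact h2
      have h2 := NPC_eq (fb i (by omega)) h1 hmem
      by_cases h3 : i + 2 = 2 * k
      · rw [h3, hb] at h2
        have h4 := hinj i 0 hi (by omega) h2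
        omega
      · have h4 := hinj i (i + 2) hi (by omega) h2
        omega
  refine ⟨fun i => (f (2 * i))⁻¹ * f (2 * i + 1), fun i => (f (2 * i + 1))⁻¹ * f (2 * i + 2),
    ?_, ?_⟩
  · intro i hi
    have e0 := ev i hi.le
    have e1 := od i hi
    have e2 := ev (i + 1) (by omega)
    have e2' : 2 * (i + 1) = 2 * i + 1 + 1 := by ring
    rw [e2'] at e2
    have a1 := m1 (2 * i) (by omega)
    have a2 := m2 (2 * i) (by omega)
    have a3 := m3 (2 * i) (by omega)
    have b1 := m1 (2 * i + 1) (by omega)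
    have b2 := m2 (2 * i + 1) (by omega)
    have b3 := m3 (2 * i + 1) (by omega)
    rw [e1] at a2 b3
    rw [e0] at a3
    rw [e2] at b2
    exact ⟨⟨a1, a2⟩, fun h => a3 h.2, ⟨b1, b2⟩, fun h => b3 h.2⟩
  · have h1 := TOGA_tele f k
    rw [h1, f2, f1 0 (by omega)]
    exact inv_mul_cancel _

variable (H)

/-- Adapt `EV/Npc.lean`. The link of a vertex of type `t` is the bipartite graph of the cosets of
`H t ∩ H s` and `H t ∩ H r` in (a conjugate of) `H t`; a simple closed path has even length `2 n`,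
`n ≥ 2`, and gives an alternating relation with `2 n` syllables between `H t ⊓ H s` and
`H t ⊓ H r` (start at a vertex of the suitable type, so one needs the hypothesis for one order of
`s`, `r` only, but it is given for both). The angle is `2 n α_t ≥ 2 π`. The strict triangle
inequalities: `sin (α s) < sin (α r) + sin (α t)` since `sin (α s) = sin (α r + α t)
= sin (α r) cos (α t) + cos (α r) sin (α t)` and the cosines are `< 1`. -/
theorem alen_npc (hα : Ang α)
    (h : ∀ t s r : Fin 3, t ≠ s → t ≠ r → s ≠ r → ∀ n : ℕ, 0 < n → Alt (H t ⊓ H s) (H t ⊓ H r) n →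
      Real.pi ≤ n * α t) : NPC (tog H) (alen H α) where
  symm a b := by
    unfold alen
    rw [add_comm]
  pos a b _ := TOGA_sin hα _
  triangle := by
    rintro a b c ⟨g, t, t', t'', h1, h2, h3, rfl, rfl, rfl⟩
    rw [TOGA_alen, TOGA_alen, TOGA_alen, TOGA_third t t' t'' h1 h2 h3,
      TOGA_third t t'' t' h3 h2.symm h1, TOGA_third t' t'' t h2 h3.symm h1.symm]
    have e : α t' = Real.pi - (α t'' + α t) := by
      have := TOGA_sum hα t'' t' t h2.symm h1.symm h3.symm
      linarith
    rw [e, Real.sin_pi_sub, Real.sin_add]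
    have s1 := TOGA_sin hα t''
    have s2 := TOGA_sin hα t
    have c1 := TOGA_cos hα t''
    have c2 := TOGA_cos hα t
    nlinarith
  link := by
    intro a n b hn hb hinj htri
    obtain ⟨k, hk⟩ := NPC_even hn hb htri
    have hk2 : n = 2 * k := by omega
    subst hk2
    have hk3 : 2 ≤ k := by omega
    have hsum : ∑ i ∈ Finset.range (2 * k), corner (alen H α) a (b i) (b (i + 1)) =
        (2 * k : ℕ) * α a.1 := by
      rw [Finset.sum_congr rfl (fun i hi => alen_corner H hα a (b i) (b (i + 1))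
        (htri i (Finset.mem_range.1 hi)))]
      rw [Finset.sum_const, Finset.card_range, nsmul_eq_mul]
    rw [hsum]
    have hty := NPC_ty (htri 0 (by omega))
    have h1 := h a.1 (b 1).1 (b 0).1 hty.2.2 hty.1 hty.2.1.symm k (by omega)
      (TOGA_rel hk3 hb hinj htri)
    push_cast
    linarith

end Pool.Agent.helper55.LR
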