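import Pool.Agent.helper55.LR.Core
import Pool.Agent.helper55.LR.Per
import Pool.Agent.helper55.LR.Prm

set_option autoImplicit false

/-!
# LRA-TW: homomorphisms on the preimages of cyclic subgroups of the Coxeter group
-/

namespace Pool.Agent.helper55.LR

open Pool.Agent.helper55.EV
open Pool.Agent.helper36.LT (Artin gen alt artinRels)
open Pool.Agent.helper46.FJ3 (restr mp mp_gen inc inc_gen inc_mp)

/-- membership after a shift of the state -/
theorem TW_PB_mul {S : Type} (M : CoxeterMatrix S) (X : Finset S)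
    (g y h : M.Group) : h ∈ PB M X (g * y) ↔ y * h * y⁻¹ ∈ PB M X g := by
  have e : g * y * h * (g * y)⁻¹ = g * (y * h * y⁻¹) * g⁻¹ := by group
  rw [mem_PB, mem_PB, e]

theorem TW_PB_gen {S : Type} (M : CoxeterMatrix S) (Z : Finset S)
    (y : M.Group) (R : Subgroup M.Group)
    (h : ∀ s ∈ Z, y⁻¹ * M.toCoxeterSystem.simple s * y ∈ R) : PB M Z y ≤ R := by
  intro x hx
  rw [mem_PB] at hx
  have h1 : WX M Z ≤ R.comap (MulAut.conj y⁻¹).toMonoidHom := by
    unfold WX
    rw [Subgroup.closure_le]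
    rintro _ ⟨s, hs, rfl⟩
    show y⁻¹ * M.toCoxeterSystem.simple s * y⁻¹⁻¹ ∈ R
    rw [inv_inv]
    exact h s hs
  have h2 : y⁻¹ * (y * x * y⁻¹) * y⁻¹⁻¹ ∈ R := h1 hx
  have e : y⁻¹ * (y * x * y⁻¹) * y⁻¹⁻¹ = x := by group
  rwa [e] at h2

theorem TW_mp_inj {S : Type} [Fintype S] [DecidableEq S] (M : CoxeterMatrix S)
    {Z X : Finset S} (h : Z ≤ X) : Function.Injective (mp M Z X h) := by
  intro a b hab
  apply inc_inj M Z
  rw [← inc_mp M h, ← inc_mp M h, hab]

/-- elements of finite order -/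
theorem TW_fin {P : ∀ (G : Type) [Group G], Prop} {S : Type} [Fintype S]
    [DecidableEq S] (M : CoxeterMatrix S) (v : M.Group) (hv : v = 1)
    (X : Finset S) (u : M.Group) (hPX : P (Artin (restr M X))) :
      ∃ (Q : Type) (_ : Group Q) (φ : ((Subgroup.zpowers v).comap (cx M)) →* Q), P Q ∧
        ∀ g, φ g = 1 → cx M g.1 = 1 ∧ co M X (rp M X u) g.1 = 1 := by
  have hk : ∀ g : ((Subgroup.zpowers v).comap (cx M)), cx M g.1 = 1 := by
    intro g
    have h1 : ∀ x : M.Group, x ∈ Subgroup.zpowers v → x = 1 := by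
      intro x hx
      rw [hv, Subgroup.zpowers_one_eq_bot, Subgroup.mem_bot] at hx
      exact hx
    exact h1 _ g.2
  refine ⟨Artin (restr M X), inferInstance,
    { toFun := fun g => co M X (rp M X u) g.1
      map_one' := co_one M X _
      map_mul' := fun g g' => ?_ }, hPX, fun g hg => ⟨hk g, hg⟩⟩
  have h1 : (g * g').1 = g.1 * g'.1 := rfl
  rw [h1, co_mul, st_ker M X _ (hk g)]

/-- the element normalises the parabolic subgroup -/
theorem TW_norm {S : Type} [Fintype S] [DecidableEq S] (M : CoxeterMatrix S) (w : M.Group)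
    (k₁ K : ℕ) (hK : 0 < K)
    (href : ∀ (m : ℕ), 0 < m → ∀ (X : Finset S) (x₀ y : M.Group) (s : S),
      {n : ℤ | y * M.toCoxeterSystem.simple s * y⁻¹ ∈ PB M X (x₀ * (w ^ (k₁ * m)) ^ n)}.Infinite →
      ∀ n : ℤ, y * M.toCoxeterSystem.simple s * y⁻¹ ∈ PB M X (x₀ * (w ^ (k₁ * m)) ^ n))
    (X Z : Finset S) (u y : M.Group)
    (hZ : ∀ h, (∀ n : ℤ, h ∈ PB M X (u * (w ^ (k₁ * K)) ^ n)) ↔ h ∈ PB M Z y) (h : M.Group) :
    h ∈ WX M Z ↔ (y * w ^ k₁ * y⁻¹) * h * (y * w ^ k₁ * y⁻¹)⁻¹ ∈ WX M Z := by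
  have hpow : ∀ n : ℤ, (w ^ (k₁ * K)) ^ n = (w ^ k₁) ^ ((K : ℤ) * n) := by
    intro n
    rw [pow_mul, zpow_mul, zpow_natCast]
  -- the intersection for the element `w ^ k₁`
  have hR : ∀ x, (∀ n : ℤ, x ∈ PB M X (u * (w ^ k₁) ^ n)) ↔ x ∈ PB M Z y := by
    intro x
    constructor
    · intro hx
      rw [← hZ]
      intro n
      rw [hpow]
      exact hx _
    · intro hx
      let R : Subgroup M.Group := ⨅ n : ℤ, PB M X (u * (w ^ k₁) ^ n)
      have h1 : PB M Z y ≤ R := by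
        apply TW_PB_gen
        intro s hs
        rw [Subgroup.mem_iInf]
        have e : y⁻¹ * M.toCoxeterSystem.simple s * y =
            y⁻¹ * M.toCoxeterSystem.simple s * y⁻¹⁻¹ := by rw [inv_inv]
        have h2 : y⁻¹ * M.toCoxeterSystem.simple s * y ∈ PB M Z y := by
          rw [mem_PB]
          have e2 : y * (y⁻¹ * M.toCoxeterSystem.simple s * y) * y⁻¹ =
              M.toCoxeterSystem.simple s := by group
          rw [e2]
          exact Subgroup.subset_closure ⟨s, hs, rfl⟩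
        rw [← hZ] at h2
        rw [e] at h2 ⊢
        have h3 := href 1 one_pos X u y⁻¹ s
        rw [mul_one] at h3
        apply h3
        have hinj : Function.Injective (fun n : ℤ => (K : ℤ) * n) := by
          intro a c hac
          have hm0 : (K : ℤ) ≠ 0 := by
            exact_mod_cast hK.ne'
          exact mul_left_cancel₀ hm0 hac
        refine ((Set.infinite_univ (α := ℤ)).image (f := fun n : ℤ => (K : ℤ) * n)
          (hinj.injOn)).mono ?_
        rintro _ ⟨n', -, rfl⟩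
        have h4 := h2 n'
        rw [hpow] at h4
        exact h4
      have h5 := h1 hx
      rw [Subgroup.mem_iInf] at h5
      exact h5
  -- it is normalised by `w ^ k₁`
  have hN : ∀ x, x ∈ PB M Z y ↔ w ^ k₁ * x * (w ^ k₁)⁻¹ ∈ PB M Z y := by
    intro x
    rw [← hR, ← hR]
    constructor
    · intro hx n
      have h1 := hx (n + 1)
      rw [zpow_add_one, ← mul_assoc, TW_PB_mul] at h1
      exact h1
    · intro hx n
      have h1 := hx (n - 1)
      rw [← TW_PB_mul, mul_assoc, ← zpow_add_one, sub_add_cancel] at h1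
      exact h1
  have e1 : y * (y⁻¹ * h * y) * y⁻¹ = h := by group
  have e2 : y * (w ^ k₁ * (y⁻¹ * h * y) * (w ^ k₁)⁻¹) * y⁻¹ =
      (y * w ^ k₁ * y⁻¹) * h * (y * w ^ k₁ * y⁻¹)⁻¹ := by group
  have h1 := hN (y⁻¹ * h * y)
  rw [mem_PB, mem_PB, e1, e2] at h1
  exact h1

/-- If `w` has finite order take `k` to be the order: then the group is the kernel of `cx` and
`φ g = co M X (rp M X u) g` is a homomorphism to `A_X` on it (`co_mul`, `st_ker`).

Otherwise let `k₁` be as in `refl_power` and `K` as in `exists_perm_power`, `k = k₁ K`, `v = w ^ k`.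
Given `X`, `u` let `Z ⊆ X`, `y` be as in `exists_core` for `x₀ = u` and `v`: the intersection `R` of
the `PB M X (u v ^ n)`, `n : ℤ`, is `PB M Z y`. We apply `core` to `v' = y v y⁻¹`, `u' = u y⁻¹`:
* `PB M X (u' v' ^ n) = PB M X (u v ^ n y⁻¹)` is the conjugate of `PB M X (u v ^ n)` by `y`, so
  `hper` follows from `refl_power` (for the reflection `y⁻¹ (…) y`), and `hZ` holds since the
  conjugate of `R = PB M Z y` by `y` is `W_Z`;
* `hJ`: `w' = y w ^ k₁ y⁻¹` normalises `W_Z`: by `refl_power` with `m = 1` (and `m = K`) a reflection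
  is in all `PB M X (u (w ^ k₁) ^ n)` iff it is in all `PB M X (u v ^ n)`, so with `exists_core` for
  `w ^ k₁` the parabolic subgroups `⋂ PB M X (u (w ^ k₁) ^ n)` and `R`, which are generated by the
  reflections which they contain, are equal, and the first one is normalised by `w ^ k₁`. Then
  `v' = w' ^ K` and `exists_perm_power` applies.
* `A_Z` is in the class since `Z ⊆ X`: `mp M Z X : A_Z → A_X` is injective (`inc_mp`, `inc_inj`) and
  the class is closed under subgroups.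
Let `φ'` be the homomorphism of `core` on the preimage of `⟨v'⟩`, and let `ỹ : Artin M` be a
preimage of `y`. Put `φ g = φ' (ỹ g ỹ⁻¹)`. If `φ g = 1` then `cx M g = 1` and
`co M X (rp M X u') (ỹ g ỹ⁻¹) = 1`; the state `rp M X u'` followed by `ỹ` is `rp M X u`, which is not
changed by `g`, so `co M X (rp M X u') (ỹ g ỹ⁻¹) = a * co M X (rp M X u) g * a⁻¹` with
`a = co M X (rp M X u') ỹ`. -/
theorem tw {P : ∀ (G : Type) [Group G], Prop} (hP : Cls P) {S : Type} [Fintype S]
    [DecidableEq S] (M : CoxeterMatrix S) (w : M.Group) : ∃ k : ℕ, 0 < k ∧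
    ∀ (X : Finset S) (u : M.Group), P (Artin (restr M X)) →
      ∃ (Q : Type) (_ : Group Q) (φ : ((Subgroup.zpowers (w ^ k)).comap (cx M)) →* Q), P Q ∧
        ∀ g, φ g = 1 → cx M g.1 = 1 ∧ co M X (rp M X u) g.1 = 1 := by
  by_cases hfin : ∃ n : ℕ, 0 < n ∧ w ^ n = 1
  · obtain ⟨n, hn, hwn⟩ := hfin
    exact ⟨n, hn, fun X u hPX => TW_fin M _ hwn X u hPX⟩
  obtain ⟨k₁, hk₁, href⟩ := refl_power M w
  obtain ⟨K, hK, hperm⟩ := exists_perm_power M
  have hkpos : 0 < k₁ * K := Nat.mul_pos hk₁ hK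
  refine ⟨k₁ * K, hkpos, fun X u hPX => ?_⟩
  obtain ⟨Z, y, hZX, hZ⟩ := exists_core M X u (w ^ (k₁ * K))
  set v := w ^ (k₁ * K) with hv
  have hvinf : ∀ n : ℤ, (y * v * y⁻¹) ^ n = 1 → n = 0 := by
    intro n hn
    by_contra hn0
    apply hfin
    rw [conj_zpow] at hn
    have h1 : v ^ n = 1 := by
      have h2 : v ^ n = y⁻¹ * (y * v ^ n * y⁻¹) * y := by group
      rw [h2, hn]
      group
    refine ⟨k₁ * K * n.natAbs, Nat.mul_pos hkpos (Int.natAbs_pos.2 hn0), ?_⟩
    rw [pow_mul, ← hv]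
    rcases Int.natAbs_eq n with h3 | h3
    · rw [h3, zpow_natCast] at h1
      exact h1
    · rw [h3, zpow_neg, zpow_natCast, inv_eq_one] at h1
      exact h1
  have hshift : ∀ (n : ℤ) (h : M.Group), h ∈ PB M X (u * y⁻¹ * (y * v * y⁻¹) ^ n) ↔
      y⁻¹ * h * y ∈ PB M X (u * v ^ n) := by
    intro n h
    have e : u * y⁻¹ * (y * v * y⁻¹) ^ n = u * v ^ n * y⁻¹ := by
      rw [conj_zpow]; group
    rw [e, TW_PB_mul, inv_inv]
  have hPZ : P (Artin (restr M Z)) := hP.cl.inj (mp M Z X hZX) (TW_mp_inj M hZX) hPX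
  obtain ⟨Q, hQ, φ', hPQ, hφ'⟩ := core hP M (y * v * y⁻¹) hvinf X Z (u * y⁻¹)
    (by
      intro a s hinf n
      have hc : ∀ n : ℤ, a * M.toCoxeterSystem.simple s * a⁻¹ ∈
          PB M X (u * y⁻¹ * (y * v * y⁻¹) ^ n) ↔
          (y⁻¹ * a) * M.toCoxeterSystem.simple s * (y⁻¹ * a)⁻¹ ∈ PB M X (u * v ^ n) := by
        intro n
        rw [hshift]
        have e : y⁻¹ * (a * M.toCoxeterSystem.simple s * a⁻¹) * y =
            (y⁻¹ * a) * M.toCoxeterSystem.simple s * (y⁻¹ * a)⁻¹ := by group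
        rw [e]
      rw [hc]
      refine href K hK X u (y⁻¹ * a) s ?_ n
      refine hinf.mono ?_
      intro m hm
      exact (hc m).1 hm)
    (by
      intro h
      have h1 := hZ (y⁻¹ * h * y)
      have e1 : y * (y⁻¹ * h * y) * y⁻¹ = h := by group
      rw [mem_PB, e1] at h1
      rw [← h1]
      exact forall_congr' fun n => (hshift n h).symm)
    (by
      intro j g
      have e : y * v * y⁻¹ = (y * w ^ k₁ * y⁻¹) ^ K := by
        rw [conj_pow, ← pow_mul]
      rw [e]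
      exact hperm Z _ (TW_norm M w k₁ K hK href X Z u y hZ) j g)
    hPX hPZ
  obtain ⟨yy, hyy⟩ := PRM_cx_surj M y
  have hmem : ∀ g : ((Subgroup.zpowers v).comap (cx M)),
      yy * g.1 * yy⁻¹ ∈ (Subgroup.zpowers (y * v * y⁻¹)).comap (cx M) := by
    intro g
    obtain ⟨j, hj⟩ := Subgroup.mem_zpowers_iff.1 (show cx M g.1 ∈ Subgroup.zpowers v from g.2)
    rw [Subgroup.mem_comap, map_mul, map_mul, map_inv, hyy, ← hj, ← conj_zpow]
    exact Subgroup.zpow_mem_zpowers _ _
  let ψ : ((Subgroup.zpowers v).comap (cx M)) →*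
      ((Subgroup.zpowers (y * v * y⁻¹)).comap (cx M)) :=
    { toFun := fun g => ⟨yy * g.1 * yy⁻¹, hmem g⟩
      map_one' := by
        apply Subtype.ext
        show yy * (1 : Artin M) * yy⁻¹ = 1
        group
      map_mul' := fun g g' => by
        apply Subtype.ext
        show yy * (g.1 * g'.1) * yy⁻¹ = (yy * g.1 * yy⁻¹) * (yy * g'.1 * yy⁻¹)
        group }
  refine ⟨Q, hQ, φ'.comp ψ, hPQ, fun g hg => ?_⟩
  obtain ⟨h1, h2⟩ := hφ' (ψ g) hg
  have e1 : (ψ g).1 = yy * g.1 * yy⁻¹ := rfl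
  rw [e1] at h1 h2
  have hcx : cx M g.1 = 1 := by
    rw [map_mul, map_mul, map_inv] at h1
    have e2 : cx M g.1 = (cx M yy)⁻¹ * (cx M yy * cx M g.1 * (cx M yy)⁻¹) * cx M yy := by group
    rw [e2, h1]
    group
  refine ⟨hcx, ?_⟩
  rw [co_mul, co_mul, st_mul] at h2
  have e3 : st M X (rp M X (u * y⁻¹)) yy = rp M X u := by
    rw [CORE_st, hyy, inv_mul_cancel_right]
  rw [e3, st_ker M X _ hcx] at h2
  have h3 := co_inv M X (rp M X (u * y⁻¹)) yy
  rw [e3] at h3
  have h4 : co M X (rp M X u) yy⁻¹ = (co M X (rp M X (u * y⁻¹)) yy)⁻¹ :=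
    eq_inv_of_mul_eq_one_right h3
  rw [h4, mul_inv_eq_one, mul_eq_left] at h2
  exact h2

end Pool.Agent.helper55.LR
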