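import Pool.Agent.helper55.LR.Mach

set_option autoImplicit false

/-!
# LRA-WALL: comparison of the outputs of the machine in two states
-/

namespace Pool.Agent.helper55.LR

open Pool.Agent.helper55.EV
open Pool.Agent.helper36.LT (Artin gen alt artinRels)
open Pool.Agent.helper50.LT (alt_map gen_rel lift lift_gen artin_hom_ext)
open Pool.Agent.helper46.FJ3 (restr mp mp_gen inc inc_gen inc_mp)

variable {S : Type} [Fintype S] [DecidableEq S] (M : CoxeterMatrix S)

/-- the stabiliser depends only on the coset -/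
theorem WALL_PB_eq (X : Finset S) {v v' : M.Group} (h : v * v'⁻¹ ∈ WX M X) (x : M.Group) :
    x ∈ PB M X v ↔ x ∈ PB M X v' := by
  rw [mem_PB, mem_PB]
  have e : v * x * v⁻¹ = (v * v'⁻¹) * (v' * x * v'⁻¹) * (v * v'⁻¹)⁻¹ := by group
  rw [e]
  constructor
  · intro hx
    have := (WX M X).mul_mem ((WX M X).mul_mem ((WX M X).inv_mem h) hx) h
    have e2 : (v * v'⁻¹)⁻¹ * ((v * v'⁻¹) * (v' * x * v'⁻¹) * (v * v'⁻¹)⁻¹) * (v * v'⁻¹) =
        v' * x * v'⁻¹ := by group
    rwa [e2] at this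
  · intro hx
    exact (WX M X).mul_mem ((WX M X).mul_mem h hx) ((WX M X).inv_mem h)

/-- a letter is written after reading `g` iff the corresponding reflection fixes the coset -/
theorem WALL_out (X : Finset S) (w : ERed M (X : Set S)) (g : Artin M) (s : S) :
    (∃ t, Out M (X : Set S) (st M X w g).1 s t) ↔
      cx M g * M.toCoxeterSystem.simple s * (cx M g)⁻¹ ∈ PB M X w.1 := by
  rw [out_iff, st_eq, WALL_PB_eq M X (rp_spec M X (w.1 * cx M g)), mem_PB, mem_PB]
  have e : w.1 * cx M g * M.toCoxeterSystem.simple s * (w.1 * cx M g)⁻¹ =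
      w.1 * (cx M g * M.toCoxeterSystem.simple s * (cx M g)⁻¹) * w.1⁻¹ := by group
  rw [e]

/-- the quotient of the two states -/
noncomputable def WALL_z (X Y : Finset S) (w : ERed M (X : Set S)) (w' : ERed M (Y : Set S))
    (g : Artin M) : M.Group := (st M X w g).1 * (st M Y w' g).1⁻¹

/-- one step of both runs -/
theorem WALL_step (X Y : Finset S) (w : ERed M (X : Set S)) (w' : ERed M (Y : Set S))
    (g : Artin M) (s : S)
    (hr : cx M g * M.toCoxeterSystem.simple s * (cx M g)⁻¹ ∈ PB M X w.1 ↔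
      cx M g * M.toCoxeterSystem.simple s * (cx M g)⁻¹ ∈ PB M Y w'.1) :
    (∃ t ∈ X, ∃ t' ∈ Y, M.toCoxeterSystem.simple t * WALL_z M X Y w w' g =
        WALL_z M X Y w w' g * M.toCoxeterSystem.simple t' ∧
      WALL_z M X Y w w' (g * gen M s) = WALL_z M X Y w w' g ∧
      co M X w (g * gen M s) = co M X w g * gx M X t ∧
      co M Y w' (g * gen M s) = co M Y w' g * gx M Y t') ∨
    (WALL_z M X Y w w' (g * gen M s) = WALL_z M X Y w w' g ∧
      co M X w (g * gen M s) = co M X w g ∧ co M Y w' (g * gen M s) = co M Y w' g) := by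
  rw [← WALL_out, ← WALL_out] at hr
  by_cases h : ∃ t, Out M (X : Set S) (st M X w g).1 s t
  · left
    obtain ⟨t, ht⟩ := h
    obtain ⟨t', ht'⟩ := hr.1 ⟨t, ht⟩
    refine ⟨t, ht.1, t', ht'.1, ?_, ?_, ?_, ?_⟩
    · unfold WALL_z
      have e1 := ht.2
      have e2 := ht'.2
      rw [← mul_assoc, e1, mul_assoc, mul_assoc]
      congr 1
      rw [eq_inv_mul_iff_mul_eq, ← mul_assoc, mul_inv_eq_iff_eq_mul]
      exact e2.symm
    · unfold WALL_z
      rw [st_mul, st_mul, st_gen_out M X _ ht, st_gen_out M Y _ ht']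
    · rw [co_mul, co_gen_out M X _ ht]
    · rw [co_mul, co_gen_out M Y _ ht']
  · right
    have h' : ¬ ∃ t, Out M (Y : Set S) (st M Y w' g).1 s t := fun hh => h (hr.2 hh)
    refine ⟨?_, ?_, ?_⟩
    · unfold WALL_z
      rw [st_mul, st_mul, st_gen_move M X _ h, st_gen_move M Y _ h']
      group
    · rw [co_mul, co_gen_move M X _ h, mul_one]
    · rw [co_mul, co_gen_move M Y _ h', mul_one]

/-- the reflection of the step from `g (gen s)⁻¹` to `g` -/
theorem WALL_refl (g : Artin M) (s : S) :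
    cx M (g * (gen M s)⁻¹) * M.toCoxeterSystem.simple s * (cx M (g * (gen M s)⁻¹))⁻¹ =
      cx M g * M.toCoxeterSystem.simple s * (cx M g)⁻¹ := by
  rw [map_mul, map_inv, cx_gen]
  group

theorem WALL_ind {p : Artin M → Prop} (h1 : p 1) (h2 : ∀ g s, p g → p (g * gen M s))
    (h3 : ∀ g s, p g → p (g * (gen M s)⁻¹)) (g : Artin M) : p g := by
  have hg : g ∈ Subgroup.closure (Set.range (gen M)) := by
    have : Subgroup.closure (Set.range (gen M)) = ⊤ := PresentedGroup.closure_range_of _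
    rw [this]
    exact Subgroup.mem_top g
  induction hg using Subgroup.closure_induction_right with
  | one => exact h1
  | mul_right x _ y hy ih =>
    obtain ⟨s, rfl⟩ := hy
    exact h2 _ _ ih
  | mul_inv_cancel x _ y hy ih =>
    obtain ⟨s, rfl⟩ := hy
    exact h3 _ _ ih

open Classical in
/-- the letters of `Y` which correspond to letters of `X` -/
noncomputable def WALL_Y0 (X Y : Finset S) (z : M.Group) : Finset S :=
  Y.filter fun t' => ∃ t, t ∈ X ∧ M.toCoxeterSystem.simple t * z =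
    z * M.toCoxeterSystem.simple t'

theorem WALL_mem_Y0 (X Y : Finset S) (z : M.Group) (t' : S) : t' ∈ WALL_Y0 M X Y z ↔
    t' ∈ Y ∧ ∃ t, t ∈ X ∧ M.toCoxeterSystem.simple t * z = z * M.toCoxeterSystem.simple t' := by
  classical
  unfold WALL_Y0
  rw [Finset.mem_filter]

theorem WALL_Y0_le (X Y : Finset S) (z : M.Group) : WALL_Y0 M X Y z ≤ Y := fun _ h =>
  ((WALL_mem_Y0 M X Y z _).1 h).1

/-- the corresponding letter -/
noncomputable def WALL_tau (X Y : Finset S) (z : M.Group) (t' : WALL_Y0 M X Y z) : S :=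
  ((WALL_mem_Y0 M X Y z _).1 t'.2).2.choose

theorem WALL_tau_mem (X Y : Finset S) (z : M.Group) (t' : WALL_Y0 M X Y z) :
    WALL_tau M X Y z t' ∈ X := ((WALL_mem_Y0 M X Y z _).1 t'.2).2.choose_spec.1

theorem WALL_tau_eq (X Y : Finset S) (z : M.Group) (t' : WALL_Y0 M X Y z) :
    M.toCoxeterSystem.simple (WALL_tau M X Y z t') * z = z * M.toCoxeterSystem.simple t'.1 :=
  ((WALL_mem_Y0 M X Y z _).1 t'.2).2.choose_spec.2

theorem WALL_rel (X Y : Finset S) (z : M.Group) (s t : WALL_Y0 M X Y z) :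
    alt (gx M X (WALL_tau M X Y z s)) (gx M X (WALL_tau M X Y z t))
        ((restr M (WALL_Y0 M X Y z)).M s t) =
      alt (gx M X (WALL_tau M X Y z t)) (gx M X (WALL_tau M X Y z s))
        ((restr M (WALL_Y0 M X Y z)).M s t) := by
  have hM : (restr M (WALL_Y0 M X Y z)).M s t = M.M s.1 t.1 := rfl
  rw [hM]
  by_cases hst : s = t
  · rw [hst]
  · have hst' : s.1 ≠ t.1 := fun h => hst (Subtype.ext h)
    by_cases h0 : M.M s.1 t.1 = 0
    · rw [h0]
      rfl
    · rw [← VL1_label M hst' (WALL_tau_eq M X Y z s) (WALL_tau_eq M X Y z t) h0]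
      exact gx_rel M X _ (WALL_tau_mem M X Y z s) _ (WALL_tau_mem M X Y z t)

/-- the homomorphism which replaces the letters of `Y` by the ones of `X` -/
noncomputable def WALL_th (X Y : Finset S) (z : M.Group) :
    Artin (restr M (WALL_Y0 M X Y z)) →* Artin (restr M X) :=
  lift (restr M (WALL_Y0 M X Y z)) (fun s => gx M X (WALL_tau M X Y z s)) (WALL_rel M X Y z)

theorem WALL_letter (X Y : Finset S) (z : M.Group) {t t' : S} (ht : t ∈ X) (ht' : t' ∈ Y)
    (h : M.toCoxeterSystem.simple t * z = z * M.toCoxeterSystem.simple t') :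
    ∃ y : Artin (restr M (WALL_Y0 M X Y z)),
      mp M (WALL_Y0 M X Y z) Y (WALL_Y0_le M X Y z) y = gx M Y t' ∧
      WALL_th M X Y z y = gx M X t := by
  have hm : t' ∈ WALL_Y0 M X Y z := (WALL_mem_Y0 M X Y z t').2 ⟨ht', t, ht, h⟩
  refine ⟨gen _ ⟨t', hm⟩, ?_, ?_⟩
  · rw [mp_gen, gx_of_mem M ht']
  · unfold WALL_th
    rw [lift_gen]
    congr 1
    apply VL1_simple_inj M
    exact mul_right_cancel ((WALL_tau_eq M X Y z ⟨t', hm⟩).trans h.symm)

/-- the statement which is proved by induction -/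
def WALL_Rel (X Y : Finset S) (w : ERed M (X : Set S)) (w' : ERed M (Y : Set S)) (z : M.Group)
    (g : Artin M) : Prop :=
  WALL_z M X Y w w' g = z ∧ ∃ y : Artin (restr M (WALL_Y0 M X Y z)),
    mp M (WALL_Y0 M X Y z) Y (WALL_Y0_le M X Y z) y = co M Y w' g ∧
    WALL_th M X Y z y = co M X w g

theorem WALL_rel_step (X Y : Finset S) (w : ERed M (X : Set S)) (w' : ERed M (Y : Set S))
    (z : M.Group) (g : Artin M) (s : S)
    (hr : cx M g * M.toCoxeterSystem.simple s * (cx M g)⁻¹ ∈ PB M X w.1 ↔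
      cx M g * M.toCoxeterSystem.simple s * (cx M g)⁻¹ ∈ PB M Y w'.1) :
    WALL_Rel M X Y w w' z g ↔ WALL_Rel M X Y w w' z (g * gen M s) := by
  rcases WALL_step M X Y w w' g s hr with ⟨t, ht, t', ht', e, e1, e2, e3⟩ | ⟨e1, e2, e3⟩
  · unfold WALL_Rel
    rw [e1, e2, e3]
    constructor
    · rintro ⟨rfl, y, hy, hy'⟩
      obtain ⟨y1, hy1, hy1'⟩ := WALL_letter M X Y _ ht ht' e
      refine ⟨rfl, y * y1, ?_, ?_⟩
      · rw [map_mul, hy, hy1]
      · rw [map_mul, hy', hy1']
    · rintro ⟨rfl, y, hy, hy'⟩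
      obtain ⟨y1, hy1, hy1'⟩ := WALL_letter M X Y _ ht ht' e
      refine ⟨rfl, y * y1⁻¹, ?_, ?_⟩
      · rw [map_mul, map_inv, hy, hy1, mul_inv_cancel_right]
      · rw [map_mul, map_inv, hy', hy1', mul_inv_cancel_right]
  · unfold WALL_Rel
    rw [e1, e2, e3]

theorem WALL_rel_step' (X Y : Finset S) (w : ERed M (X : Set S)) (w' : ERed M (Y : Set S))
    (z : M.Group) (g : Artin M) (s : S)
    (hr : cx M g * M.toCoxeterSystem.simple s * (cx M g)⁻¹ ∈ PB M X w.1 ↔
      cx M g * M.toCoxeterSystem.simple s * (cx M g)⁻¹ ∈ PB M Y w'.1) :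
    WALL_Rel M X Y w w' z g ↔ WALL_Rel M X Y w w' z (g * (gen M s)⁻¹) := by
  have h := WALL_rel_step M X Y w w' z (g * (gen M s)⁻¹) s (by rw [WALL_refl]; exact hr)
  rw [inv_mul_cancel_right] at h
  exact h.symm

theorem WALL_rel_one (X Y : Finset S) (w : ERed M (X : Set S)) (w' : ERed M (Y : Set S)) :
    WALL_Rel M X Y w w' (w.1 * w'.1⁻¹) 1 := by
  refine ⟨?_, 1, ?_, ?_⟩
  · unfold WALL_z
    rw [st_one, st_one]
  · rw [map_one, co_one]
  · rw [map_one, co_one]

theorem WALL_exists (g : Artin M) : ∃ F : Set M.Group, F.Finite ∧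
    (∀ r ∈ F, ∃ (y : M.Group) (s : S), r = y * M.toCoxeterSystem.simple s * y⁻¹) ∧
    ∀ (X Y : Finset S) (w : ERed M (X : Set S)) (w' : ERed M (Y : Set S)),
      (∀ h, h ∈ PB M Y w'.1 → h ∈ PB M X w.1) →
      (∀ r ∈ F, r ∈ PB M X w.1 → r ∈ PB M Y w'.1) →
      WALL_Rel M X Y w w' (w.1 * w'.1⁻¹) g := by
  induction g using WALL_ind M with
  | h1 =>
    exact ⟨∅, Set.finite_empty, fun r hr => absurd hr (Set.notMem_empty r),
      fun X Y w w' _ _ => WALL_rel_one M X Y w w'⟩
  | h2 g s ih =>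
    obtain ⟨F, hF, hrefl, hmain⟩ := ih
    refine ⟨insert (cx M g * M.toCoxeterSystem.simple s * (cx M g)⁻¹) F, hF.insert _, ?_, ?_⟩
    · rintro r (rfl | hr)
      · exact ⟨cx M g, s, rfl⟩
      · exact hrefl r hr
    · intro X Y w w' h1 h2
      refine (WALL_rel_step M X Y w w' _ g s ⟨h2 _ (Set.mem_insert _ _), h1 _⟩).1 ?_
      exact hmain X Y w w' h1 fun r hr => h2 r (Set.mem_insert_of_mem _ hr)
  | h3 g s ih =>
    obtain ⟨F, hF, hrefl, hmain⟩ := ih
    refine ⟨insert (cx M g * M.toCoxeterSystem.simple s * (cx M g)⁻¹) F, hF.insert _, ?_, ?_⟩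
    · rintro r (rfl | hr)
      · exact ⟨cx M g, s, rfl⟩
      · exact hrefl r hr
    · intro X Y w w' h1 h2
      refine (WALL_rel_step' M X Y w w' _ g s ⟨h2 _ (Set.mem_insert _ _), h1 _⟩).1 ?_
      exact hmain X Y w w' h1 fun r hr => h2 r (Set.mem_insert_of_mem _ hr)

/-- Let `w` be a state for `X`, `w'` a state for `Y`, and assume that the stabiliser of the coset
`W_Y w'` is contained in the stabiliser of `W_X w`. Put `z = w w'⁻¹`, let `Y₀` be the set of those
`t' ∈ Y` for which there is `t ∈ X` with `t z = z t'`, and let `θ : A_(Y₀) → A_X` be the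
homomorphism `t' ↦ t` (labels: `VL1_label`; `t` is unique by `VL1_simple_inj`).

Let `g` be given by a word `s_1 ^ ± 1 ⋯ s_k ^ ± 1`, and let `F` be the finite set of the reflections
`r_i = g_(i-1) s_i g_(i-1)⁻¹` (images in the Coxeter group of the initial segments; for a letter
`s_i⁻¹` one gets the same element with `g_i`). If every `r_i` which fixes the coset `W_X w` also
fixes `W_Y w'`, then the two runs of the machine (from `w` and from `w'`) either both write a
letter or both move, at every step. (A letter is written iff `s_i` fixes the present coset, see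
`out_iff`; the present coset is `W_X w g_(i-1)`, see `st_eq`, so this means that `r_i` fixes
`W_X w`.) When both move, or both write, the quotient `z` of the two states does not change, and when
both write, `t' ∈ Y` is written by the second and `t ∈ X` by the first one with `t z = z t'`. By
induction there is `y ∈ A_(Y₀)` whose image in `A_Y` is what is written by the second run and whose
image under `θ` is what is written by the first one. The map `A_(Y₀) → A_Y` is injective (by
`inc_inj` for `Y₀`, as `inc ∘ mp = inc`).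

The statement: for every `g` there is a finite set `F` of reflections which works for all `X`, `Y`,
`w`, `w'`. Use the induction `g`, `g * gen s`, `g * (gen s)⁻¹` on the conclusion with `y`. -/
theorem exists_walls (g : Artin M) : ∃ F : Set M.Group, F.Finite ∧
    (∀ r ∈ F, ∃ (y : M.Group) (s : S), r = y * M.toCoxeterSystem.simple s * y⁻¹) ∧
    ∀ (X Y : Finset S) (w : ERed M (X : Set S)) (w' : ERed M (Y : Set S)),
      (∀ h, h ∈ PB M Y w'.1 → h ∈ PB M X w.1) →
      (∀ r ∈ F, r ∈ PB M X w.1 → r ∈ PB M Y w'.1) →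
      co M Y w' g = 1 → co M X w g = 1 := by
  obtain ⟨F, hF, hrefl, hmain⟩ := WALL_exists M g
  refine ⟨F, hF, hrefl, fun X Y w w' h1 h2 h3 => ?_⟩
  obtain ⟨-, y, hy, hy'⟩ := hmain X Y w w' h1 h2
  have e1 : inc M (WALL_Y0 M X Y (w.1 * w'.1⁻¹)) y = 1 := by
    rw [← inc_mp M (WALL_Y0_le M X Y (w.1 * w'.1⁻¹)) y, hy, h3, map_one]
  have e2 : y = 1 := by
    apply inc_inj M (WALL_Y0 M X Y (w.1 * w'.1⁻¹))
    rw [e1, map_one]
  rw [← hy', e2, map_one]

theorem WALL_comm_iff (X : Finset S) (u u' : ERed M (X : Set S))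
    (h1 : ∀ h, h ∈ PB M X u.1 ↔ h ∈ PB M X u'.1)
    (h2 : ∀ t ∈ X, (u.1 * u'.1⁻¹) * M.toCoxeterSystem.simple t =
      M.toCoxeterSystem.simple t * (u.1 * u'.1⁻¹)) (g : Artin M) (s : S) :
    (WALL_z M X X u u' g = u.1 * u'.1⁻¹ ∧ co M X u g = co M X u' g) ↔
      (WALL_z M X X u u' (g * gen M s) = u.1 * u'.1⁻¹ ∧
        co M X u (g * gen M s) = co M X u' (g * gen M s)) := by
  rcases WALL_step M X X u u' g s (h1 _) with ⟨t, ht, t', ht', e, e1, e2, e3⟩ | ⟨e1, e2, e3⟩
  · rw [e1, e2, e3]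
    refine and_congr_right fun hz => ?_
    have htt : t = t' := by
      rw [hz, h2 t' ht'] at e
      exact VL1_simple_inj M (mul_right_cancel e)
    rw [htt]
    exact ⟨fun h => by rw [h], fun h => mul_right_cancel h⟩
  · rw [e1, e2, e3]

theorem WALL_comm_step (X : Finset S) (u u' : ERed M (X : Set S))
    (h1 : ∀ h, h ∈ PB M X u.1 ↔ h ∈ PB M X u'.1)
    (h2 : ∀ t ∈ X, (u.1 * u'.1⁻¹) * M.toCoxeterSystem.simple t =
      M.toCoxeterSystem.simple t * (u.1 * u'.1⁻¹)) (g : Artin M) (s : S)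
    (h : WALL_z M X X u u' g = u.1 * u'.1⁻¹ ∧ co M X u g = co M X u' g) :
      (WALL_z M X X u u' (g * gen M s) = u.1 * u'.1⁻¹ ∧
        co M X u (g * gen M s) = co M X u' (g * gen M s)) :=
  (WALL_comm_iff M X u u' h1 h2 g s).1 h

theorem WALL_comm_step' (X : Finset S) (u u' : ERed M (X : Set S))
    (h1 : ∀ h, h ∈ PB M X u.1 ↔ h ∈ PB M X u'.1)
    (h2 : ∀ t ∈ X, (u.1 * u'.1⁻¹) * M.toCoxeterSystem.simple t =
      M.toCoxeterSystem.simple t * (u.1 * u'.1⁻¹)) (g : Artin M) (s : S)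
    (h : WALL_z M X X u u' (g * gen M s) = u.1 * u'.1⁻¹ ∧
        co M X u (g * gen M s) = co M X u' (g * gen M s)) :
      WALL_z M X X u u' g = u.1 * u'.1⁻¹ ∧ co M X u g = co M X u' g :=
  (WALL_comm_iff M X u u' h1 h2 g s).2 h

/-- The same for two states `u`, `u'` for `X` whose cosets have the same stabiliser: if `u u'⁻¹`
commutes with the elements of `X` then the outputs are equal. (Both runs write or both move at every
step, the quotient `z = u u'⁻¹` of the two states does not change, and if the letters `t`, `t'` are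
written then `t z = z t'`, so `t = t'`. Induction on `g`: `g * gen s`, `g * (gen s)⁻¹`.) -/
theorem co_comm (X : Finset S) (u u' : ERed M (X : Set S))
    (h1 : ∀ h, h ∈ PB M X u.1 ↔ h ∈ PB M X u'.1)
    (h2 : ∀ t ∈ X, (u.1 * u'.1⁻¹) * M.toCoxeterSystem.simple t =
      M.toCoxeterSystem.simple t * (u.1 * u'.1⁻¹)) (g : Artin M) :
    co M X u g = co M X u' g := by
  have key : WALL_z M X X u u' g = u.1 * u'.1⁻¹ ∧ co M X u g = co M X u' g := by
    induction g using WALL_ind M with
    | h1 =>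
      refine ⟨?_, ?_⟩
      · unfold WALL_z
        rw [st_one, st_one]
      · rw [co_one, co_one]
    | h2 g s ih =>
      exact WALL_comm_step M X u u' h1 h2 g s ih
    | h3 g s ih =>
      have hz := WALL_comm_step' M X u u' h1 h2 (g * (gen M s)⁻¹) s
      rw [inv_mul_cancel_right] at hz
      exact hz ih
  exact key.2

end Pool.Agent.helper55.LR
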